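import Pool.Agent.Lib.MP_21eb54_gt.JIa

/-!
# A basis of the algebra of a permutation

`Kc π` is the set of the cycles. Modulo `JJ t π` the square free monomials `mon π T` in the cycles are
a basis; `rho π t f T` is the coefficient of `f` at `mon π T`.
-/

set_option autoImplicit false

namespace Pool.Agent.Lib.MP_21eb54_gt

open Equiv MvPolynomial

variable {α : Type*} [Fintype α] [DecidableEq α]

/-- the cycles -/
def Kc (π : Perm α) : Type _ := Quotient (Perm.SameCycle.setoid π)

/-- the cycle of `e` -/
def kc (π : Perm α) (e : α) : Kc π := Quotient.mk (Perm.SameCycle.setoid π) e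

/-- an element of the cycle -/
noncomputable def rep {π : Perm α} (k : Kc π) : α := Quotient.out k

instance (π : Perm α) : Finite (Kc π) := inferInstanceAs (Finite (Quotient (Perm.SameCycle.setoid π)))

noncomputable instance (π : Perm α) : Fintype (Kc π) := Fintype.ofFinite _

noncomputable instance (π : Perm α) : DecidableEq (Kc π) := Classical.decEq _

theorem kc_rep {π : Perm α} (k : Kc π) : kc π (rep k) = k := Quotient.out_eq k

theorem kc_eq {π : Perm α} {e f : α} : kc π e = kc π f ↔ π.SameCycle e f := by
  unfold kc
  exact Quotient.eq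

theorem card_Kc (π : Perm α) : Fintype.card (Kc π) = cyc π := by
  rw [← Nat.card_eq_fintype_card]
  rfl

/-- the degree in the cycle `k` -/
noncomputable def Nk (π : Perm α) (m : α →₀ ℕ) (k : Kc π) : ℕ := ∑ e with kc π e = k, m e

/-- the cycles in which the degree is odd -/
noncomputable def od (π : Perm α) (m : α →₀ ℕ) : Finset (Kc π) := Finset.univ.filter fun k => Odd (Nk π m k)

/-- the exponent of `t` -/
noncomputable def fl (π : Perm α) (m : α →₀ ℕ) : ℕ := ∑ k, Nk π m k / 2

/-- the coefficients -/
noncomputable def rho (π : Perm α) (t : ℚ) : MvPolynomial α ℚ →ₗ[ℚ] (Finset (Kc π) → ℚ) :=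
  (basisMonomials α ℚ).constr ℚ fun m => Pi.single (od π m) (t ^ fl π m)

/-- the basis -/
noncomputable def mon (π : Perm α) (T : Finset (Kc π)) : MvPolynomial α ℚ := ∏ k ∈ T, X (rep k)

variable {π : Perm α} {t : ℚ}

theorem degree_eq (m : α →₀ ℕ) : m.degree = (od π m).card + 2 * fl π m := by
  have h1 : m.degree = ∑ k, Nk π m k := by
    unfold Nk
    rw [Finset.sum_fiberwise_of_maps_to (fun _ _ => Finset.mem_univ _)]
    exact Finsupp.degree_eq_sum m
  have h2 : (od π m).card = ∑ k, if Odd (Nk π m k) then 1 else 0 := by
    unfold od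
    rw [Finset.card_filter]
  rw [h1, h2]
  unfold fl
  rw [Finset.mul_sum, ← Finset.sum_add_distrib]
  refine Finset.sum_congr rfl fun k _ => ?_
  by_cases h : Odd (Nk π m k)
  · rw [if_pos h]
    obtain ⟨r, hr⟩ := h
    omega
  · rw [if_neg h]
    rw [Nat.not_odd_iff_even] at h
    obtain ⟨r, hr⟩ := h
    omega

theorem BasA_Nk_add (m : α →₀ ℕ) (e : α) (k : Kc π) :
    Nk π (m + Finsupp.single e 1) k = Nk π m k + if kc π e = k then 1 else 0 := by
  unfold Nk
  simp only [Finsupp.add_apply]
  rw [Finset.sum_add_distrib]
  congr 1
  by_cases h : kc π e = k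
  · rw [if_pos h, Finset.sum_eq_single e]
    · simp
    · intro b _ hb
      simp [Ne.symm hb]
    · intro h2
      exact (h2 (by simp [h])).elim
  · rw [if_neg h]
    refine Finset.sum_eq_zero fun b hb => ?_
    have hb2 := (Finset.mem_filter.1 hb).2
    have : e ≠ b := by
      rintro rfl
      exact h hb2
    simp [this]

theorem BasA_od_odd (m : α →₀ ℕ) (e : α) (h : Odd (Nk π m (kc π e))) :
    od π (m + Finsupp.single e 1) = (od π m).erase (kc π e) ∧ fl π (m + Finsupp.single e 1) = fl π m + 1 := by
  constructor
  · ext k
    simp only [od, Finset.mem_filter, Finset.mem_univ, true_and, Finset.mem_erase, BasA_Nk_add]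
    by_cases hk : kc π e = k
    · subst hk
      rw [if_pos rfl]
      constructor
      · intro h2
        exact absurd h2 (by rw [Nat.not_odd_iff_even]; exact h.add_one)
      · intro h2
        exact absurd rfl h2.1
    · rw [if_neg hk, add_zero]
      exact ⟨fun h2 => ⟨Ne.symm hk, h2⟩, fun h2 => h2.2⟩
  · unfold fl
    rw [← Finset.add_sum_erase _ _ (Finset.mem_univ (kc π e)),
      ← Finset.add_sum_erase _ (fun k => Nk π m k / 2) (Finset.mem_univ (kc π e))]
    have h1 : ∑ x ∈ Finset.univ.erase (kc π e), Nk π (m + Finsupp.single e 1) x / 2 =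
        ∑ x ∈ Finset.univ.erase (kc π e), Nk π m x / 2 := by
      refine Finset.sum_congr rfl fun k hk => ?_
      rw [BasA_Nk_add, if_neg (Ne.symm (Finset.ne_of_mem_erase hk)), add_zero]
    rw [h1, BasA_Nk_add, if_pos rfl]
    obtain ⟨r, hr⟩ := h
    have h2 : (Nk π m (kc π e) + 1) / 2 = Nk π m (kc π e) / 2 + 1 := by omega
    rw [h2]
    ring

theorem BasA_od_even (m : α →₀ ℕ) (e : α) (h : ¬ Odd (Nk π m (kc π e))) :
    od π (m + Finsupp.single e 1) = insert (kc π e) (od π m) ∧ fl π (m + Finsupp.single e 1) = fl π m := by
  constructor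
  · ext k
    simp only [od, Finset.mem_filter, Finset.mem_univ, true_and, Finset.mem_insert, BasA_Nk_add]
    by_cases hk : kc π e = k
    · subst hk
      rw [if_pos rfl]
      constructor
      · intro _
        exact Or.inl rfl
      · intro _
        rw [Nat.not_odd_iff_even] at h
        exact h.add_one
    · rw [if_neg hk, add_zero]
      constructor
      · exact Or.inr
      · rintro (h2 | h2)
        · exact absurd h2.symm hk
        · exact h2
  · unfold fl
    refine Finset.sum_congr rfl fun k _ => ?_
    rw [BasA_Nk_add]
    by_cases hk : kc π e = k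
    · subst hk
      rw [if_pos rfl]
      rw [Nat.not_odd_iff_even] at h
      obtain ⟨r, hr⟩ := h
      omega
    · rw [if_neg hk, add_zero]

theorem rho_monomial (m : α →₀ ℕ) (a : ℚ) :
    rho π t (monomial m a) = Pi.single (od π m) (a * t ^ fl π m) := by
  have h1 : (monomial m a : MvPolynomial α ℚ) = a • basisMonomials α ℚ m := by
    rw [coe_basisMonomials, smul_monomial, smul_eq_mul, mul_one]
  rw [h1, map_smul]
  unfold rho
  rw [Module.Basis.constr_basis, ← Pi.single_smul, smul_eq_mul]

/-- Linear in `f`; for a monomial: `Nk` increases by one at the cycle of `e`. -/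
theorem rho_X (e : α) (f : MvPolynomial α ℚ) (T : Finset (Kc π)) :
    rho π t (X e * f) T =
      if kc π e ∈ T then rho π t f (T.erase (kc π e)) else t * rho π t f (insert (kc π e) T) := by
  induction f using MvPolynomial.induction_on' with
  | monomial m a =>
    have h1 : (X e * monomial m a : MvPolynomial α ℚ) = monomial (m + Finsupp.single e 1) a := by
      rw [X, monomial_mul, one_mul, add_comm]
    rw [h1, rho_monomial, rho_monomial]
    simp only [Pi.single_apply]
    by_cases h : Odd (Nk π m (kc π e))
    · obtain ⟨h2, h3⟩ := BasA_od_odd m e h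
      have hk : kc π e ∈ od π m := by
        simp only [od, Finset.mem_filter, Finset.mem_univ, true_and]
        exact h
      rw [h2, h3]
      by_cases hT : kc π e ∈ T
      · rw [if_pos hT, if_neg, if_neg]
        · intro h4
          rw [← h4] at hk
          exact Finset.notMem_erase _ _ hk
        · intro h4
          rw [h4] at hT
          exact Finset.notMem_erase _ _ hT
      · rw [if_neg hT]
        by_cases h4 : T = (od π m).erase (kc π e)
        · rw [if_pos h4, if_pos]
          · ring
          · rw [h4, Finset.insert_erase hk]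
        · rw [if_neg h4, if_neg, mul_zero]
          intro h5
          apply h4
          rw [← h5, Finset.erase_insert hT]
    · obtain ⟨h2, h3⟩ := BasA_od_even m e h
      have hk : kc π e ∉ od π m := by
        simp only [od, Finset.mem_filter, Finset.mem_univ, true_and]
        exact h
      rw [h2, h3]
      by_cases hT : kc π e ∈ T
      · rw [if_pos hT]
        by_cases h4 : T = insert (kc π e) (od π m)
        · rw [if_pos h4, if_pos]
          rw [h4, Finset.erase_insert hk]
        · rw [if_neg h4, if_neg]
          intro h5
          apply h4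
          rw [← h5, Finset.insert_erase hT]
      · rw [if_neg hT, if_neg, if_neg, mul_zero]
        · intro h4
          rw [← h4] at hk
          exact hk (Finset.mem_insert_self _ _)
        · intro h4
          rw [h4] at hT
          exact hT (Finset.mem_insert_self _ _)
  | add p q hp hq =>
    rw [mul_add, map_add, map_add, Pi.add_apply, Pi.add_apply, Pi.add_apply, hp, hq]
    by_cases hT : kc π e ∈ T
    · simp only [if_pos hT]
    · simp only [if_neg hT]
      ring

theorem rho_mon (T : Finset (Kc π)) : rho π t (mon π T) = Pi.single T 1 := by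
  induction T using Finset.induction_on with
  | empty =>
    have h1 : (mon π ∅ : MvPolynomial α ℚ) = monomial 0 1 := by
      unfold mon
      rw [Finset.prod_empty]
      rfl
    have h2 : od π (0 : α →₀ ℕ) = ∅ := by
      ext k
      simp [od, Nk]
    have h3 : fl π (0 : α →₀ ℕ) = 0 := by
      simp [fl, Nk]
    rw [h1, rho_monomial, h2, h3, pow_zero, one_mul]
  | insert k T hk ih =>
    have h1 : (mon π (insert k T) : MvPolynomial α ℚ) = X (rep k) * mon π T := by
      unfold mon
      rw [Finset.prod_insert hk]
    funext T'
    rw [h1, rho_X, ih, kc_rep]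
    simp only [Pi.single_apply]
    by_cases hT : k ∈ T'
    · rw [if_pos hT]
      by_cases h4 : T' = insert k T
      · rw [if_pos h4, if_pos]
        rw [h4, Finset.erase_insert hk]
      · rw [if_neg h4, if_neg]
        intro h5
        apply h4
        rw [← h5, Finset.insert_erase hT]
    · rw [if_neg hT, if_neg, if_neg, mul_zero]
      · intro h4
        rw [h4] at hT
        exact hT (Finset.mem_insert_self _ _)
      · intro h4
        rw [← h4] at hk
        exact hk (Finset.mem_insert_self _ _)

end Pool.Agent.Lib.MP_21eb54_gt
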