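import Pool.Agent.Lib.MP_21eb54_gt.BasA

/-!
# A basis of the algebra of a permutation, 2
-/

set_option autoImplicit false
set_option linter.unusedSectionVars false

namespace Pool.Agent.Lib.MP_21eb54_gt

open Equiv MvPolynomial

variable {α : Type*} [Fintype α] [DecidableEq α] {π : Perm α} {t : ℚ}

/-- Add the cycle `k` to `T` or remove it from `T`. -/
noncomputable def BasAB_tog (k : Kc π) (T : Finset (Kc π)) : Finset (Kc π) :=
  if k ∈ T then T.erase k else insert k T

theorem BasAB_mem_tog (k : Kc π) (T : Finset (Kc π)) : k ∈ BasAB_tog k T ↔ k ∉ T := by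
  unfold BasAB_tog
  by_cases h : k ∈ T
  · simp [h]
  · simp [h]

theorem BasAB_tog_tog (k : Kc π) (T : Finset (Kc π)) : BasAB_tog k (BasAB_tog k T) = T := by
  by_cases h : k ∈ T
  · have h1 : BasAB_tog k T = T.erase k := by unfold BasAB_tog; rw [if_pos h]
    rw [h1]
    unfold BasAB_tog
    rw [if_neg (Finset.notMem_erase k T), Finset.insert_erase h]
  · have h1 : BasAB_tog k T = insert k T := by unfold BasAB_tog; rw [if_neg h]
    rw [h1]
    unfold BasAB_tog
    rw [if_pos (Finset.mem_insert_self k T), Finset.erase_insert h]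

theorem BasAB_rho (e : α) (f : MvPolynomial α ℚ) (T : Finset (Kc π)) :
    rho π t (X e * f) T = (if kc π e ∈ T then 1 else t) * rho π t f (BasAB_tog (kc π e) T) := by
  rw [rho_X]
  unfold BasAB_tog
  by_cases h : kc π e ∈ T
  · simp only [if_pos h, one_mul]
  · simp only [if_neg h]

theorem BasAB_sub (e : α) : X e - X (rep (kc π e)) ∈ JJ t π := by
  apply JJ_same
  rw [← kc_eq, kc_rep]

theorem BasAB_X_mon (e : α) (T : Finset (Kc π)) :
    X e * mon π T - C (if kc π e ∈ T then t else 1) * mon π (BasAB_tog (kc π e) T) ∈ JJ t π := by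
  have h0 := BasAB_sub (π := π) (t := t) e
  by_cases h : kc π e ∈ T
  · have h1 : BasAB_tog (kc π e) T = T.erase (kc π e) := by unfold BasAB_tog; rw [if_pos h]
    have h2 : mon π T = X (rep (kc π e)) * mon π (T.erase (kc π e)) := by
      unfold mon
      rw [Finset.mul_prod_erase T (fun k => (X (rep k) : MvPolynomial α ℚ)) h]
    rw [if_pos h, h1, h2]
    have h3 : X e * (X (rep (kc π e)) * mon π (T.erase (kc π e))) -
        C t * mon π (T.erase (kc π e)) =
        (X (rep (kc π e)) * mon π (T.erase (kc π e))) * (X e - X (rep (kc π e))) +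
          mon π (T.erase (kc π e)) * (X (rep (kc π e)) ^ 2 - C t) := by ring
    rw [h3]
    exact Ideal.add_mem _ (Ideal.mul_mem_left _ _ h0) (Ideal.mul_mem_left _ _ (JJ_sq _))
  · have h1 : BasAB_tog (kc π e) T = insert (kc π e) T := by unfold BasAB_tog; rw [if_neg h]
    have h2 : mon π (insert (kc π e) T) = X (rep (kc π e)) * mon π T := by
      unfold mon
      rw [Finset.prod_insert h]
    rw [if_neg h, h1, h2, C_1, one_mul, ← sub_mul]
    exact Ideal.mul_mem_right _ _ h0

/-- The polynomial `f` is modulo the ideal a combination of the basis. -/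
theorem sub_mon_mem (f : MvPolynomial α ℚ) : f - ∑ T, C (rho π t f T) * mon π T ∈ JJ t π := by
  induction f using MvPolynomial.induction_on with
  | C a =>
    have h1 : rho π t (C a) = Pi.single ∅ a := by
      rw [C_apply, rho_monomial]
      have h2 : od π (0 : α →₀ ℕ) = ∅ := by
        unfold od Nk
        simp
      have h3 : fl π (0 : α →₀ ℕ) = 0 := by
        unfold fl Nk
        simp
      rw [h2, h3, pow_zero, mul_one]
    rw [h1, Finset.sum_eq_single ∅]
    · have h4 : mon π (∅ : Finset (Kc π)) = 1 := by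
        unfold mon
        rw [Finset.prod_empty]
      rw [Pi.single_eq_same, h4, mul_one, sub_self]
      exact Ideal.zero_mem _
    · intro T _ hT
      rw [Pi.single_eq_of_ne hT, C_0, zero_mul]
    · intro h
      exact absurd (Finset.mem_univ _) h
  | add p q hp hq =>
    have h1 : p + q - ∑ T, C (rho π t (p + q) T) * mon π T =
        (p - ∑ T, C (rho π t p T) * mon π T) + (q - ∑ T, C (rho π t q T) * mon π T) := by
      rw [map_add]
      simp only [Pi.add_apply, C_add, add_mul, Finset.sum_add_distrib]
      ring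
    rw [h1]
    exact Ideal.add_mem _ hp hq
  | mul_X p e hp =>
    rw [mul_comm p (X e)]
    let s : Perm (Finset (Kc π)) := Function.Involutive.toPerm (BasAB_tog (kc π e))
      (BasAB_tog_tog (kc π e))
    have hs : ∀ T, s T = BasAB_tog (kc π e) T := fun T => rfl
    have h1 : ∑ T, C (rho π t (X e * p) T) * mon π T =
        ∑ T, C (rho π t p T) * (C (if kc π e ∈ T then t else 1) * mon π (BasAB_tog (kc π e) T)) := by
      rw [← Equiv.sum_comp s]
      refine Finset.sum_congr rfl fun T _ => ?_
      rw [hs, BasAB_rho, BasAB_tog_tog, ← mul_assoc, ← C_mul]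
      congr 2
      by_cases h : kc π e ∈ T
      · rw [if_neg (fun h' => (BasAB_mem_tog _ _).1 h' h), if_pos h, mul_comm]
      · rw [if_pos ((BasAB_mem_tog _ _).2 h), if_neg h, mul_comm]
    have h2 : X e * p - ∑ T, C (rho π t (X e * p) T) * mon π T =
        X e * (p - ∑ T, C (rho π t p T) * mon π T) + ∑ T, C (rho π t p T) *
          (X e * mon π T - C (if kc π e ∈ T then t else 1) * mon π (BasAB_tog (kc π e) T)) := by
      rw [h1, mul_sub, Finset.mul_sum]
      simp only [mul_sub, Finset.sum_sub_distrib]
      have h3 : ∑ T, X e * (C (rho π t p T) * mon π T) =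
          ∑ T, C (rho π t p T) * (X e * mon π T) :=
        Finset.sum_congr rfl fun T _ => by ring
      rw [h3]
      ring
    rw [h2]
    refine Ideal.add_mem _ (Ideal.mul_mem_left _ _ hp) (Ideal.sum_mem _ fun T _ => ?_)
    exact Ideal.mul_mem_left _ _ (BasAB_X_mon e T)

/-- The ideal is the kernel of `rho`. -/
theorem mem_iff (f : MvPolynomial α ℚ) : f ∈ JJ t π ↔ rho π t f = 0 := by
  constructor
  · intro hf
    let I : Ideal (MvPolynomial α ℚ) :=
      { carrier := {f | ∀ a, rho π t (a * f) = 0}
        add_mem' := fun {f g} hf hg a => by rw [mul_add, map_add, hf a, hg a, add_zero]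
        zero_mem' := fun a => by rw [mul_zero, map_zero]
        smul_mem' := fun c f hf a => by rw [smul_eq_mul, ← mul_assoc, hf (a * c)] }
    have h1 : JJ t π ≤ I := by
      refine JJ_le (fun e a => ?_) (fun e a => ?_)
      · have h2 : a * (X e ^ 2 - C t) = X e * (X e * a) - t • a := by
          rw [smul_eq_C_mul]
          ring
        rw [h2, map_sub, map_smul]
        funext T
        rw [Pi.sub_apply, Pi.smul_apply, Pi.zero_apply, BasAB_rho, BasAB_rho, BasAB_tog_tog,
          smul_eq_mul]
        by_cases h : kc π e ∈ T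
        · rw [if_pos h, if_neg (fun h' => (BasAB_mem_tog _ _).1 h' h), one_mul, sub_self]
        · rw [if_neg h, if_pos ((BasAB_mem_tog _ _).2 h), one_mul, sub_self]
      · have h2 : kc π (π e) = kc π e := by
          rw [kc_eq]
          exact (Perm.sameCycle_apply_left).2 (Perm.SameCycle.refl π e)
        have h3 : a * (X (π e) - X e) = X (π e) * a - X e * a := by ring
        rw [h3, map_sub]
        funext T
        rw [Pi.sub_apply, Pi.zero_apply, BasAB_rho, BasAB_rho, h2, sub_self]
    have h2 := h1 hf 1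
    rwa [one_mul] at h2
  · intro h
    have h1 := sub_mon_mem (π := π) (t := t) f
    have h2 : ∑ T, C (rho π t f T) * mon π T = 0 := by
      refine Finset.sum_eq_zero fun T _ => ?_
      rw [h, Pi.zero_apply, C_0, zero_mul]
    rwa [h2, sub_zero] at h1

/-- The coefficients of a homogeneous polynomial. -/
theorem rho_hom {f : MvPolynomial α ℚ} {k : ℕ} (hf : f.IsHomogeneous k) {T : Finset (Kc π)}
    (h : rho π 0 f T ≠ 0) : T.card = k := by
  rw [f.as_sum, map_sum, Finset.sum_apply] at h
  obtain ⟨m, hm, h1⟩ := Finset.exists_ne_zero_of_sum_ne_zero h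
  rw [rho_monomial] at h1
  have h2 : T = od π m := by
    by_contra hne
    exact h1 (Pi.single_eq_of_ne hne _)
  rw [h2, Pi.single_eq_same] at h1
  have h3 : fl π m = 0 := by
    by_contra hne
    rw [zero_pow hne, mul_zero] at h1
    exact h1 rfl
  have h4 := degree_eq (π := π) m
  rw [h3, mul_zero, add_zero] at h4
  have h5 : m.degree = k := by
    by_contra hne
    exact mem_support_iff.1 hm (hf.coeff_eq_zero hne)
  rw [h2, ← h4, h5]

theorem mon_hom (T : Finset (Kc π)) : (mon π T).IsHomogeneous T.card := by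
  have h1 := IsHomogeneous.prod T (fun k : Kc π => (X (rep k) : MvPolynomial α ℚ)) (fun _ => 1)
    (fun k _ => isHomogeneous_X ℚ (rep k))
  rw [Finset.sum_const, smul_eq_mul, mul_one] at h1
  exact h1

/-- The ideal generated by the ideal and one variable. -/
theorem mem_X_iff (e : α) (f : MvPolynomial α ℚ) :
    f ∈ JJ 0 π ⊔ Ideal.span {X e} ↔ ∀ T : Finset (Kc π), kc π e ∉ T → rho π 0 f T = 0 := by
  constructor
  · intro hf T hT
    obtain ⟨j, hj, g, hg, rfl⟩ := Submodule.mem_sup.1 hf
    obtain ⟨a, rfl⟩ := Ideal.mem_span_singleton'.1 hg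
    rw [map_add, Pi.add_apply, (mem_iff j).1 hj, Pi.zero_apply, zero_add, mul_comm a, BasAB_rho,
      if_neg hT, zero_mul]
  · intro h
    have h1 := sub_mon_mem (π := π) (t := 0) f
    have h2 : f = (f - ∑ T, C (rho π 0 f T) * mon π T) + ∑ T, C (rho π 0 f T) * mon π T := by
      rw [sub_add_cancel]
    rw [h2]
    refine Ideal.add_mem _ (Ideal.mem_sup_left h1) (Ideal.sum_mem _ fun T _ => ?_)
    by_cases hT : kc π e ∈ T
    · have h3 : mon π T = X (rep (kc π e)) * mon π (T.erase (kc π e)) := by
        unfold mon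
        rw [Finset.mul_prod_erase T (fun k => (X (rep k) : MvPolynomial α ℚ)) hT]
      have h4 : C (rho π 0 f T) * mon π T =
          (-(C (rho π 0 f T) * mon π (T.erase (kc π e)))) * (X e - X (rep (kc π e))) +
            (C (rho π 0 f T) * mon π (T.erase (kc π e))) * X e := by
        rw [h3]
        ring
      rw [h4]
      exact Ideal.add_mem _ (Ideal.mul_mem_left _ _ (Ideal.mem_sup_left (BasAB_sub e)))
        (Ideal.mul_mem_left _ _ (Ideal.mem_sup_right (Ideal.subset_span rfl)))
    · rw [h T hT, C_0, zero_mul]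
      exact Ideal.zero_mem _

end Pool.Agent.Lib.MP_21eb54_gt
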