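import Pool.Agent.Lib.MP_21eb54_gt.BasAB

/-!
# Exactness
-/

set_option autoImplicit false

namespace Pool.Agent.Lib.MP_21eb54_gt

open Equiv MvPolynomial

variable {α : Type*} [Fintype α] [DecidableEq α] {π : Perm α}

/-- Exactness of the multiplication by `X e`. -/
theorem ex_X {e : α} {f : MvPolynomial α ℚ} (h : X e * f ∈ JJ 0 π) :
    f ∈ JJ 0 π ⊔ Ideal.span {X e} := by
  rw [mem_iff] at h
  rw [mem_X_iff]
  intro T hT
  have h1 := congrFun h (insert (kc π e) T)
  rw [rho_X, if_pos (Finset.mem_insert_self _ _), Finset.erase_insert hT] at h1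
  exact h1

theorem X_mul_mem {e : α} {f : MvPolynomial α ℚ} (h : f ∈ JJ 0 π ⊔ Ideal.span {X e}) :
    X e * f ∈ JJ 0 π := by
  obtain ⟨a, ha, b, hb, rfl⟩ := Submodule.mem_sup.1 h
  obtain ⟨c, rfl⟩ := Ideal.mem_span_singleton'.1 hb
  rw [mul_add]
  refine add_mem (Ideal.mul_mem_left _ _ ha) ?_
  have h1 : X e * (c * X e) = c * (X e ^ 2 - C (0 : ℚ)) := by
    rw [C_0]
    ring
  rw [h1]
  exact Ideal.mul_mem_left _ _ (JJ_sq e)

/-- Exactness of the multiplication by `X p + s * X q` modulo `X e`. -/
theorem ex_pm {p q e : α} (h : ¬ π.SameCycle p q) {s : ℚ} (hs : s = 1 ∨ s = -1) {f : MvPolynomial α ℚ}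
    (hf : (X p + C s * X q) * f ∈ JJ 0 π ⊔ Ideal.span {X e}) :
    f ∈ JJ 0 π ⊔ Ideal.span {X e} ⊔ Ideal.span {X p - C s * X q} := by
  have hss : s * s = 1 := by rcases hs with rfl | rfl <;> norm_num
  have hs0 : s ≠ 0 := by rintro rfl; norm_num at hss
  have hab : kc π p ≠ kc π q := fun hh => h (kc_eq.1 hh)
  generalize ha : kc π p = a at hab
  generalize hb : kc π q = b at hab
  obtain ⟨z, hz⟩ : ∃ z, kc π e = z := ⟨_, rfl⟩
  -- the linear equations
  have H : ∀ T : Finset (Kc π), z ∉ T → (if a ∈ T then rho π 0 f (T.erase a) else 0) +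
      s * (if b ∈ T then rho π 0 f (T.erase b) else 0) = 0 := by
    intro T hT
    have h1 := (mem_X_iff e _).1 hf T (by rw [hz]; exact hT)
    have h2 : (X p + C s * X q) * f = X p * f + s • (X q * f) := by
      rw [smul_eq_C_mul]
      ring
    rw [h2, map_add, map_smul, Pi.add_apply, Pi.smul_apply, rho_X, rho_X, ha, hb, smul_eq_mul,
      zero_mul, zero_mul] at h1
    exact h1
  set I := JJ 0 π ⊔ Ideal.span {X e} ⊔ Ideal.span {X p - C s * X q} with hI
  have hJ : JJ 0 π ≤ I := le_sup_left.trans le_sup_left
  have hsame : ∀ (k : Kc π) (u : α), kc π u = k → X (rep k) - X u ∈ I := fun k u hu =>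
    hJ (JJ_same (kc_eq.1 (by rw [kc_rep, hu])))
  have hg : X p - C s * X q ∈ I :=
    le_sup_right (a := JJ 0 π ⊔ Ideal.span {X e}) (Ideal.subset_span rfl)
  have hXe : X e ∈ I :=
    (le_sup_right.trans le_sup_left : Ideal.span {X e} ≤ I) (Ideal.subset_span rfl)
  have hXz : X (rep z) ∈ I := by
    have h1 := add_mem (hsame z e hz) hXe
    rwa [sub_add_cancel] at h1
  have hab' : X (rep a) - C s * X (rep b) ∈ I := by
    have h1 : X (rep a) - C s * X (rep b) = (X (rep a) - X p) - C s * (X (rep b) - X q) +
        (X p - C s * X q) := by ring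
    rw [h1]
    exact add_mem (sub_mem (hsame a p ha) (Ideal.mul_mem_left _ _ (hsame b q hb))) hg
  have hCs : (C s * C s : MvPolynomial α ℚ) = 1 := by rw [← C_mul, hss, C_1]
  have haa : X (rep a) * X (rep b) ∈ I := by
    have h1 : (X (rep a) * X (rep b) : MvPolynomial α ℚ) = C s * (X (rep a) ^ 2 - C (0 : ℚ)) -
        C s * X (rep a) * (X (rep a) - C s * X (rep b)) := by
      have h2 : (C s * X (rep a) * (X (rep a) - C s * X (rep b)) : MvPolynomial α ℚ) =
          C s * X (rep a) ^ 2 - (C s * C s) * (X (rep a) * X (rep b)) := by ring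
      rw [h2, hCs, C_0]
      ring
    rw [h1]
    exact sub_mem (Ideal.mul_mem_left _ _ (hJ (JJ_sq _))) (Ideal.mul_mem_left _ _ hab')
  -- the monomials
  have hmul : ∀ (T : Finset (Kc π)) (k : Kc π) (r : ℚ), k ∈ T → X (rep k) ∈ I →
      C r * mon π T ∈ I := by
    intro T k r hk hX
    refine Ideal.mul_mem_left _ _ ?_
    unfold mon
    exact Ideal.mem_of_dvd _ (Finset.dvd_prod_of_mem (fun k => X (rep k)) hk) hX
  have hins : ∀ (U : Finset (Kc π)) (k : Kc π), k ∉ U → mon π (insert k U) = X (rep k) * mon π U := by
    intro U k hk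
    unfold mon
    rw [Finset.prod_insert hk]
  have hsum : ∑ T, C (rho π 0 f T) * mon π T ∈ I := by
    have h1 : (Finset.univ : Finset (Finset (Kc π))) =
        (insert a (insert b ((Finset.univ.erase a).erase b))).powerset := by
      rw [Finset.insert_erase (Finset.mem_erase.2 ⟨hab.symm, Finset.mem_univ b⟩),
        Finset.insert_erase (Finset.mem_univ a), Finset.powerset_univ]
    have hb1 : b ∉ (Finset.univ.erase a).erase b := fun hh => (Finset.mem_erase.1 hh).1 rfl
    have ha1 : a ∉ insert b ((Finset.univ.erase a).erase b) := by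
      intro hh
      rcases Finset.mem_insert.1 hh with hh | hh
      · exact hab hh
      · exact (Finset.mem_erase.1 (Finset.mem_erase.1 hh).2).1 rfl
    rw [h1, Finset.sum_powerset_insert ha1, Finset.sum_powerset_insert hb1,
      Finset.sum_powerset_insert hb1, ← Finset.sum_add_distrib, ← Finset.sum_add_distrib,
      ← Finset.sum_add_distrib]
    refine sum_mem fun U hU => ?_
    have hU' := Finset.mem_powerset.1 hU
    have haU : a ∉ U := fun hh => (Finset.mem_erase.1 (Finset.mem_erase.1 (hU' hh)).2).1 rfl
    have hbU : b ∉ U := fun hh => (Finset.mem_erase.1 (hU' hh)).1 rfl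
    have haU' : a ∉ insert b U := by
      intro hh
      rcases Finset.mem_insert.1 hh with hh | hh
      · exact hab hh
      · exact haU hh
    have hbU' : b ∉ insert a U := by
      intro hh
      rcases Finset.mem_insert.1 hh with hh | hh
      · exact hab hh.symm
      · exact hbU hh
    by_cases hzU : z ∈ U
    · exact add_mem (add_mem (hmul _ z _ hzU hXz) (hmul _ z _ (Finset.mem_insert_of_mem hzU) hXz))
        (add_mem (hmul _ z _ (Finset.mem_insert_of_mem hzU) hXz)
          (hmul _ z _ (Finset.mem_insert_of_mem (Finset.mem_insert_of_mem hzU)) hXz))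
    · by_cases hza : z = a
      · have h3 := H (insert b U) (by rw [hza]; exact haU')
        rw [if_neg haU', if_pos (Finset.mem_insert_self _ _), Finset.erase_insert hbU, zero_add] at h3
        have h4 : rho π 0 f U = 0 := (mul_eq_zero.1 h3).resolve_left hs0
        have h5 : X (rep a) ∈ I := by rw [← hza]; exact hXz
        have h6 : X (rep b) ∈ I := by
          have h7 : (X (rep b) : MvPolynomial α ℚ) =
              C s * X (rep a) - C s * (X (rep a) - C s * X (rep b)) := by
            have h8 : (C s * (X (rep a) - C s * X (rep b)) : MvPolynomial α ℚ) =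
                C s * X (rep a) - (C s * C s) * X (rep b) := by ring
            rw [h8, hCs]
            ring
          rw [h7]
          exact sub_mem (Ideal.mul_mem_left _ _ h5) (Ideal.mul_mem_left _ _ hab')
        rw [h4, C_0, zero_mul, zero_add]
        exact add_mem (hmul _ b _ (Finset.mem_insert_self _ _) h6)
          (add_mem (hmul _ a _ (Finset.mem_insert_self _ _) h5)
            (hmul _ a _ (Finset.mem_insert_self _ _) h5))
      · by_cases hzb : z = b
        · have h3 := H (insert a U) (by rw [hzb]; exact hbU')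
          rw [if_neg hbU', if_pos (Finset.mem_insert_self _ _), Finset.erase_insert haU, mul_zero,
            add_zero] at h3
          have h5 : X (rep b) ∈ I := by rw [← hzb]; exact hXz
          have h6 : X (rep a) ∈ I := by
            have h7 := add_mem hab' (Ideal.mul_mem_left I (C s) h5)
            rwa [sub_add_cancel] at h7
          rw [h3, C_0, zero_mul, zero_add]
          exact add_mem (hmul _ b _ (Finset.mem_insert_self _ _) h5)
            (add_mem (hmul _ a _ (Finset.mem_insert_self _ _) h6)
              (hmul _ a _ (Finset.mem_insert_self _ _) h6))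
        · have hz1 : z ∉ insert a U := by
            intro hh
            rcases Finset.mem_insert.1 hh with hh | hh
            · exact hza hh
            · exact hzU hh
          have hz2 : z ∉ insert a (insert b U) := by
            intro hh
            rcases Finset.mem_insert.1 hh with hh | hh
            · exact hza hh
            · rcases Finset.mem_insert.1 hh with hh | hh
              · exact hzb hh
              · exact hzU hh
          have h3 := H _ hz1
          rw [if_neg hbU', if_pos (Finset.mem_insert_self _ _), Finset.erase_insert haU, mul_zero,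
            add_zero] at h3
          have h4 := H _ hz2
          have h5 : (insert a (insert b U)).erase b = insert a U := by
            rw [Finset.insert_comm, Finset.erase_insert hbU']
          rw [if_pos (Finset.mem_insert_self _ _),
            if_pos (Finset.mem_insert_of_mem (Finset.mem_insert_self _ _)),
            Finset.erase_insert haU', h5] at h4
          have h6 : rho π 0 f (insert b U) = -(s * rho π 0 f (insert a U)) :=
            eq_neg_of_add_eq_zero_left h4
          rw [h3, C_0, zero_mul, zero_add, ← add_assoc]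
          refine add_mem ?_ ?_
          · rw [h6, hins U b hbU, hins U a haU]
            have h7 : C (-(s * rho π 0 f (insert a U))) * (X (rep b) * mon π U) +
                C (rho π 0 f (insert a U)) * (X (rep a) * mon π U) =
                (C (rho π 0 f (insert a U)) * mon π U) * (X (rep a) - C s * X (rep b)) := by
              rw [C_neg, C_mul]
              ring
            rw [h7]
            exact Ideal.mul_mem_left _ _ hab'
          · rw [hins _ a haU', hins U b hbU]
            have h7 : C (rho π 0 f (insert a (insert b U))) * (X (rep a) * (X (rep b) * mon π U)) =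
                (C (rho π 0 f (insert a (insert b U))) * mon π U) * (X (rep a) * X (rep b)) := by
              ring
            rw [h7]
            exact Ideal.mul_mem_left _ _ haa
  have hfin := add_mem (hJ (sub_mon_mem f)) hsum
  rwa [sub_add_cancel] at hfin

theorem ex_plus {p q e : α} (h : ¬ π.SameCycle p q) {f : MvPolynomial α ℚ}
    (hf : (X p + X q) * f ∈ JJ 0 π ⊔ Ideal.span {X e}) :
    f ∈ JJ 0 π ⊔ Ideal.span {X e} ⊔ Ideal.span {X p - X q} := by
  have h1 := ex_pm (s := 1) h (Or.inl rfl) (f := f) (e := e) (by rw [C_1, one_mul]; exact hf)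
  rwa [C_1, one_mul] at h1

theorem ex_minus {p q e : α} (h : ¬ π.SameCycle p q) {f : MvPolynomial α ℚ}
    (hf : (X p - X q) * f ∈ JJ 0 π ⊔ Ideal.span {X e}) :
    f ∈ JJ 0 π ⊔ Ideal.span {X e} ⊔ Ideal.span {X p + X q} := by
  have h1 := ex_pm (s := -1) h (Or.inr rfl) (f := f) (e := e)
    (by rw [C_neg, C_1, neg_one_mul, ← sub_eq_add_neg]; exact hf)
  rwa [C_neg, C_1, neg_one_mul, sub_neg_eq_add] at h1

end Pool.Agent.Lib.MP_21eb54_gt
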