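import Pool.Agent.Lib.MP_21eb54_gt.BasAB

/-!
# Homogeneous components
-/

set_option autoImplicit false

namespace Pool.Agent.Lib.MP_21eb54_gt

open Equiv MvPolynomial

section

variable {α : Type*}

theorem Hm_bot : Hm (⊥ : Ideal (MvPolynomial α ℚ)) := by
  intro f hf k
  rw [Ideal.mem_bot] at hf ⊢
  rw [hf, map_zero]

theorem BasC_comp_mul {g : MvPolynomial α ℚ} {d : ℕ} (hg : g.IsHomogeneous d)
    (v : MvPolynomial α ℚ) (k : ℕ) :
    homogeneousComponent k (g * v) = if d ≤ k then g * homogeneousComponent (k - d) v else 0 := by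
  have h1 : ∀ i, homogeneousComponent k (g * homogeneousComponent i v) =
      if d + i = k then g * homogeneousComponent i v else 0 := by
    intro i
    have h2 : (g * homogeneousComponent i v) ∈ homogeneousSubmodule α ℚ (d + i) :=
      (mem_homogeneousSubmodule _ _).mpr (hg.mul (homogeneousComponent_isHomogeneous i v))
    rw [homogeneousComponent_of_mem h2]
    by_cases h3 : d + i = k
    · rw [if_pos h3, if_pos h3.symm]
    · rw [if_neg h3, if_neg (fun h => h3 h.symm)]
  have h2 : g * v = ∑ i ∈ Finset.range (v.totalDegree + 1), g * homogeneousComponent i v := by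
    rw [← Finset.mul_sum, sum_homogeneousComponent]
  rw [h2, map_sum]
  simp only [h1]
  by_cases h3 : d ≤ k
  · rw [if_pos h3]
    by_cases h4 : k - d ∈ Finset.range (v.totalDegree + 1)
    · rw [Finset.sum_eq_single (k - d)]
      · rw [if_pos (by omega)]
      · intro b _ hb
        rw [if_neg (by omega)]
      · intro h
        exact absurd h4 h
    · rw [Finset.sum_eq_zero]
      · rw [homogeneousComponent_eq_zero, mul_zero]
        rw [Finset.mem_range] at h4
        omega
      · intro b hb
        rw [if_neg]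
        intro h
        apply h4
        have h5 : b = k - d := by omega
        rw [← h5]
        exact hb
  · rw [if_neg h3]
    apply Finset.sum_eq_zero
    intro b _
    rw [if_neg (by omega)]

/-- an ideal generated by a homogeneous element is homogeneous -/
theorem Hm_span {g : MvPolynomial α ℚ} {d : ℕ} (hg : g.IsHomogeneous d) : Hm (Ideal.span {g}) := by
  intro f hf k
  rw [Ideal.mem_span_singleton'] at hf
  obtain ⟨v, rfl⟩ := hf
  rw [mul_comm v g, BasC_comp_mul hg]
  by_cases h : d ≤ k
  · rw [if_pos h]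
    exact Ideal.mul_mem_right _ _ (Ideal.subset_span rfl)
  · rw [if_neg h]
    exact Ideal.zero_mem _

theorem Hm_sup {A B : Ideal (MvPolynomial α ℚ)} (hA : Hm A) (hB : Hm B) : Hm (A ⊔ B) := by
  intro f hf k
  obtain ⟨a, ha, b, hb, rfl⟩ := Submodule.mem_sup.mp hf
  rw [map_add]
  exact Submodule.add_mem_sup (hA a ha k) (hB b hb k)

/-- Write `f = a + g * v`, `a ∈ A`, and take the components of degree `k`. (`k = 0`: `u = 0`.) -/
theorem choose_lin {A : Ideal (MvPolynomial α ℚ)} (hA : Hm A) {g : MvPolynomial α ℚ}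
    (hg : g.IsHomogeneous 1) {f : MvPolynomial α ℚ} {k : ℕ} (hf : f.IsHomogeneous k)
    (hm : f ∈ A ⊔ Ideal.span {g}) :
    ∃ u : MvPolynomial α ℚ, (∀ m, coeff m u ≠ 0 → m.degree + 1 = k) ∧ f - g * u ∈ A := by
  obtain ⟨a, ha, b, hb, hab⟩ := Submodule.mem_sup.mp hm
  rw [Ideal.mem_span_singleton'] at hb
  obtain ⟨v, rfl⟩ := hb
  have h1 : homogeneousComponent k f = f := by
    rw [homogeneousComponent_of_mem ((mem_homogeneousSubmodule _ _).mpr hf), if_pos rfl]
  have h2 : f = homogeneousComponent k a + homogeneousComponent k (g * v) := by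
    rw [← map_add, mul_comm g v, hab, h1]
  rw [BasC_comp_mul hg] at h2
  by_cases hk : 1 ≤ k
  · refine ⟨homogeneousComponent (k - 1) v, ?_, ?_⟩
    · intro m hm
      rw [coeff_homogeneousComponent] at hm
      by_cases h3 : m.degree = k - 1
      · omega
      · rw [if_neg h3] at hm
        exact absurd rfl hm
    · rw [if_pos hk] at h2
      have h4 : f - g * homogeneousComponent (k - 1) v = homogeneousComponent k a := by
        rw [sub_eq_iff_eq_add]
        exact h2
      rw [h4]
      exact hA a ha k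
  · refine ⟨0, ?_, ?_⟩
    · intro m hm
      rw [coeff_zero] at hm
      exact absurd rfl hm
    · rw [if_neg hk, add_zero] at h2
      rw [mul_zero, sub_zero, h2]
      exact hA a ha k

end

variable {α : Type*} [Fintype α] [DecidableEq α] {π : Perm α}

theorem BasC_rho {t : ℚ} {f : MvPolynomial α ℚ} {s : Finset (α →₀ ℕ)} (hs : f.support ⊆ s)
    (T : Finset (Kc π)) :
    rho π t f T = ∑ m ∈ s, coeff m f * (if od π m = T then t ^ fl π m else 0) := by
  have h1 : f = ∑ m ∈ s, monomial m (coeff m f) := by
    rw [← Finset.sum_subset hs]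
    · exact f.as_sum
    · intro m _ hm
      rw [notMem_support_iff.mp hm, map_zero]
  have h2 : rho π t f T = rho π t (∑ m ∈ s, monomial m (coeff m f)) T := by
    rw [← h1]
  rw [h2, map_sum, Finset.sum_apply]
  apply Finset.sum_congr rfl
  intro m _
  rw [rho_monomial, Pi.single_apply]
  by_cases h3 : od π m = T
  · rw [if_pos h3, if_pos h3.symm]
  · rw [if_neg h3, if_neg (fun h => h3 h.symm), mul_zero]

omit [Fintype α] [DecidableEq α] in
theorem BasC_supp_pt (P : (α →₀ ℕ) → Prop) (f : MvPolynomial α ℚ) :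
    (pt P f).support ⊆ f.support := by
  classical
  intro m hm
  rw [mem_support_iff] at hm ⊢
  rw [coeff_pt] at hm
  by_cases h : P m
  · rw [if_pos h] at hm
    exact hm
  · rw [if_neg h] at hm
    exact absurd rfl hm

omit [Fintype α] [DecidableEq α] in
theorem BasC_supp_comp (k : ℕ) (f : MvPolynomial α ℚ) :
    (homogeneousComponent k f).support ⊆ f.support := by
  classical
  intro m hm
  rw [mem_support_iff] at hm ⊢
  rw [coeff_homogeneousComponent] at hm
  by_cases h : m.degree = k
  · rw [if_pos h] at hm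
    exact hm
  · rw [if_neg h] at hm
    exact absurd rfl hm

theorem BasC_zero_pow {m : α →₀ ℕ} {T : Finset (Kc π)} (hm : m.degree ≠ T.card) :
    (if od π m = T then (0 : ℚ) ^ fl π m else 0) = 0 := by
  by_cases h : od π m = T
  · rw [if_pos h]
    apply zero_pow
    intro h0
    apply hm
    rw [degree_eq (π := π) m, h, h0]
    rfl
  · rw [if_neg h]

/-- generators -/
theorem Hm_JJ : Hm (JJ 0 π) := by
  classical
  intro f hf k
  rw [mem_iff] at hf ⊢
  funext T
  rw [BasC_rho (BasC_supp_comp k f) T]
  have h1 : rho π 0 f T = 0 := by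
    rw [hf]
    rfl
  rw [BasC_rho (Finset.Subset.refl _) T] at h1
  by_cases hT : T.card = k
  · rw [Pi.zero_apply]
    refine Eq.trans ?_ h1
    apply Finset.sum_congr rfl
    intro m _
    rw [coeff_homogeneousComponent]
    by_cases h2 : m.degree = k
    · rw [if_pos h2]
    · rw [BasC_zero_pow (by rw [hT]; exact h2), mul_zero, mul_zero]
  · rw [Pi.zero_apply]
    apply Finset.sum_eq_zero
    intro m _
    rw [coeff_homogeneousComponent]
    by_cases h2 : m.degree = k
    · rw [BasC_zero_pow (by rw [h2]; exact fun h => hT h.symm), mul_zero]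
    · rw [if_neg h2, zero_mul]

/-- `mem_iff`: by `rho_monomial` and `degree_eq`, only the monomials `m` with `m.degree = T.card`
contribute to `rho π 0 f T`; so `rho π 0 (pt (P ∘ degree) f) T` is `rho π 0 f T` if `P T.card` and `0` if
not. -/
theorem pt_mem_J0 (P : ℕ → Prop) {f : MvPolynomial α ℚ} (hf : f ∈ JJ 0 π) :
    pt (fun m => P m.degree) f ∈ JJ 0 π := by
  classical
  rw [mem_iff] at hf ⊢
  funext T
  rw [BasC_rho (BasC_supp_pt _ f) T]
  have h1 : rho π 0 f T = 0 := by
    rw [hf]
    rfl
  rw [BasC_rho (Finset.Subset.refl _) T] at h1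
  by_cases hT : P T.card
  · rw [Pi.zero_apply]
    refine Eq.trans ?_ h1
    apply Finset.sum_congr rfl
    intro m _
    by_cases h2 : m.degree = T.card
    · rw [coeff_pt, if_pos (by rw [h2]; exact hT)]
    · rw [BasC_zero_pow h2, mul_zero, mul_zero]
  · rw [Pi.zero_apply]
    apply Finset.sum_eq_zero
    intro m _
    by_cases h2 : m.degree = T.card
    · rw [coeff_pt, if_neg (by rw [h2]; exact hT), zero_mul]
    · rw [BasC_zero_pow h2, mul_zero]

/-- The same with `t = 1`: only the monomials with `m.degree ≡ T.card` modulo `2` contribute. -/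
theorem pt_mem_J1 (P : ℕ → Prop) (hP : ∀ k, P (k + 2) ↔ P k) {f : MvPolynomial α ℚ}
    (hf : f ∈ JJ 1 π) : pt (fun m => P m.degree) f ∈ JJ 1 π := by
  classical
  have hP' : ∀ a b, P (a + 2 * b) ↔ P a := by
    intro a b
    induction b with
    | zero => exact Iff.rfl
    | succ b ih =>
      have h : a + 2 * (b + 1) = a + 2 * b + 2 := by ring
      rw [h, hP, ih]
  rw [mem_iff] at hf ⊢
  funext T
  rw [BasC_rho (BasC_supp_pt _ f) T]
  have h1 : rho π 1 f T = 0 := by
    rw [hf]
    rfl
  rw [BasC_rho (Finset.Subset.refl _) T] at h1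
  have h3 : ∀ m, od π m = T → (P m.degree ↔ P T.card) := by
    intro m hm
    rw [degree_eq (π := π) m, hm, hP']
  by_cases hT : P T.card
  · rw [Pi.zero_apply]
    refine Eq.trans ?_ h1
    apply Finset.sum_congr rfl
    intro m _
    by_cases h2 : od π m = T
    · rw [coeff_pt, if_pos ((h3 m h2).mpr hT)]
    · rw [if_neg h2, mul_zero, mul_zero]
  · rw [Pi.zero_apply]
    apply Finset.sum_eq_zero
    intro m _
    by_cases h2 : od π m = T
    · rw [coeff_pt, if_neg (fun h => hT ((h3 m h2).mp h)), zero_mul]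
    · rw [if_neg h2, mul_zero]

/-- `mem_iff`. The coefficients `rho π 0 (homogeneousComponent k f) T` with `T.card ≠ k` are zero
(`rho_hom`). If `T.card = k`, it is the sum of the coefficients of the `m` of degree `k` with
`od π m = T`; as `f` has no monomials of degree `> k`, and a monomial with `od π m = T` has degree
`≥ T.card = k`, this is `rho π 1 f T = 0`. -/
theorem lead1 {k : ℕ} {f : MvPolynomial α ℚ} (hf : f ∈ JJ 1 π)
    (hk : ∀ m, coeff m f ≠ 0 → m.degree ≤ k) : homogeneousComponent k f ∈ JJ 0 π := by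
  classical
  rw [mem_iff] at hf ⊢
  funext T
  rw [BasC_rho (BasC_supp_comp k f) T]
  have h1 : rho π 1 f T = 0 := by
    rw [hf]
    rfl
  rw [BasC_rho (Finset.Subset.refl _) T] at h1
  by_cases hT : T.card = k
  · rw [Pi.zero_apply]
    refine Eq.trans ?_ h1
    apply Finset.sum_congr rfl
    intro m hm
    by_cases h2 : od π m = T
    · have h3 := hk m (mem_support_iff.mp hm)
      have h4 := degree_eq (π := π) m
      rw [h2] at h4
      have h5 : fl π m = 0 := by omega
      rw [if_pos h2, if_pos h2, h5, pow_zero, pow_zero, coeff_homogeneousComponent,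
        if_pos (by omega)]
    · rw [if_neg h2, if_neg h2, mul_zero, mul_zero]
  · rw [Pi.zero_apply]
    apply Finset.sum_eq_zero
    intro m _
    rw [coeff_homogeneousComponent]
    by_cases h2 : m.degree = k
    · rw [BasC_zero_pow (by rw [h2]; exact fun h => hT h.symm), mul_zero]
    · rw [if_neg h2, zero_mul]

/-- `g = ∑ T, C (rho π 1 f T) * mon π T` (`sub_mon_mem` for `t = 1`). If `rho π 1 f T ≠ 0` then `T.card ≤ k`
and if `T.card = k` it is `rho π 0 f T = 0` as before. -/
theorem lead2 {k : ℕ} {f : MvPolynomial α ℚ} (hf : f ∈ JJ 0 π) (hk : f.IsHomogeneous k) :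
    ∃ g : MvPolynomial α ℚ, (∀ m, coeff m g ≠ 0 → m.degree < k) ∧ f - g ∈ JJ 1 π := by
  classical
  refine ⟨∑ T, C (rho π 1 f T) * mon π T, ?_, sub_mon_mem f⟩
  intro m hm
  rw [coeff_sum] at hm
  obtain ⟨T, _, hT⟩ := Finset.exists_ne_zero_of_sum_ne_zero hm
  rw [coeff_C_mul] at hT
  have h1 : rho π 1 f T ≠ 0 := left_ne_zero_of_mul hT
  have h2 : coeff m (mon π T) ≠ 0 := right_ne_zero_of_mul hT
  have h3 : m.degree = T.card := by
    by_contra h
    exact h2 ((mon_hom T).coeff_eq_zero h)
  rw [h3]
  have hkm : ∀ m', coeff m' f ≠ 0 → m'.degree = k := by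
    intro m' hm'
    by_contra h
    exact hm' (hk.coeff_eq_zero h)
  have h4 : T.card ≤ k := by
    rw [BasC_rho (Finset.Subset.refl _) T] at h1
    obtain ⟨m', hm', h5⟩ := Finset.exists_ne_zero_of_sum_ne_zero h1
    have h6 : od π m' = T := by
      by_contra h
      rw [if_neg h, mul_zero] at h5
      exact h5 rfl
    have h7 := hkm m' (mem_support_iff.mp hm')
    have h8 := degree_eq (π := π) m'
    rw [h6] at h8
    omega
  rcases Nat.lt_or_ge T.card k with h5 | h5
  · exact h5
  · exfalso
    apply h1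
    rw [mem_iff] at hf
    have h6 : rho π 0 f T = 0 := by
      rw [hf]
      rfl
    rw [BasC_rho (Finset.Subset.refl _) T] at h6 ⊢
    refine Eq.trans ?_ h6
    apply Finset.sum_congr rfl
    intro m' hm'
    by_cases h7 : od π m' = T
    · have h8 := hkm m' (mem_support_iff.mp hm')
      have h9 := degree_eq (π := π) m'
      rw [h7] at h9
      have h10 : fl π m' = 0 := by omega
      rw [h10, pow_zero, pow_zero]
    · rw [if_neg h7, if_neg h7]

end Pool.Agent.Lib.MP_21eb54_gt
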