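import Mathlib

/-!
# The formula of Cauchy and Binet
-/

set_option autoImplicit false

namespace Pool.Agent.Lib.MP_21eb54_gt

open Matrix

/-- `det (A * B) = ∑ f, (∏ i, A i (f i)) * det (B.submatrix f id)` (multilinearity in the rows), with
`A = M * diagonal y`, `B = Mᵀ`. The non injective `f` give `0`. An injective `f` with the image `T` is
`i ↦ e (σ i)` for the fixed bijection `e` and a permutation `σ` of `ι`, and
`∑ σ, (∏ i, M i (e (σ i))) * det ((Mᵀ).submatrix (e ∘ σ) id) = det (M_T) ^ 2`. The statement for an
arbitrary choice of bijections `e T`. -/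
theorem cauchy_binet {ι κ : Type*} [Fintype ι] [DecidableEq ι] [Fintype κ] [DecidableEq κ]
    (M : Matrix ι κ ℝ) (y : κ → ℝ)
    (e : ∀ T : {T : Finset κ // T.card = Fintype.card ι}, ι ≃ {c : κ // c ∈ T.1}) :
    (Matrix.of fun i j => ∑ c, y c * M i c * M j c).det =
      ∑ T : {T : Finset κ // T.card = Fintype.card ι},
        (Matrix.of fun i j => M i (e T j).1).det ^ 2 * ∏ c ∈ T.1, y c := by
  classical
  have hexp : (Matrix.of fun i j => ∑ c, y c * M i c * M j c).det =
      ∑ f : ι → κ, (∏ i, (y (f i) * M i (f i))) * (Matrix.of fun i j => M j (f i)).det := by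
    have h1 : (Matrix.of fun i j => ∑ c, y c * M i c * M j c).det =
        Matrix.detRowAlternating (n := ι) (R := ℝ)
          (fun i : ι => ∑ c : κ, (y c * M i c) • (fun j : ι => M j c)) := by
      have h2 : (Matrix.of fun i j => ∑ c, y c * M i c * M j c) =
          (fun i : ι => ∑ c : κ, (y c * M i c) • (fun j : ι => M j c)) := by
        funext i j
        rw [Finset.sum_apply]
        rfl
      rw [h2]
      rfl
    rw [h1]
    have h2 := (Matrix.detRowAlternating (R := ℝ) (n := ι)).toMultilinearMap.map_sum
      (g := fun (i : ι) (c : κ) => (y c * M i c) • (fun j : ι => M j c))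
    refine h2.trans (Finset.sum_congr rfl fun f _ => ?_)
    have h3 := (Matrix.detRowAlternating (R := ℝ) (n := ι)).toMultilinearMap.map_smul_univ
      (fun i => y (f i) * M i (f i)) (fun i => (fun j : ι => M j (f i)))
    exact h3
  rw [hexp]
  have hinj : ∑ p : {T : Finset κ // T.card = Fintype.card ι} × Equiv.Perm ι,
      (∏ i, (y (e p.1 (p.2 i)).1 * M i (e p.1 (p.2 i)).1)) *
        (Matrix.of fun i j => M j (e p.1 (p.2 i)).1).det =
      ∑ f : ι → κ, (∏ i, (y (f i) * M i (f i))) * (Matrix.of fun i j => M j (f i)).det := by
    refine Finset.sum_of_injOn (fun p i => (e p.1 (p.2 i)).1) ?_ (fun _ _ => Finset.mem_univ _) ?_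
      (fun _ _ => rfl)
    · rintro ⟨T, σ⟩ - ⟨S, τ⟩ - h
      have h' : ∀ i, (e T (σ i)).1 = (e S (τ i)).1 := fun i => congrFun h i
      have hTS : T = S := by
        apply Subtype.ext
        ext c
        constructor
        · intro hc
          have h1 := h' (σ.symm ((e T).symm ⟨c, hc⟩))
          rw [Equiv.apply_symm_apply, Equiv.apply_symm_apply] at h1
          have h2 : c = _ := h1
          rw [h2]
          exact (e S _).2
        · intro hc
          have h1 := h' (τ.symm ((e S).symm ⟨c, hc⟩))
          rw [Equiv.apply_symm_apply, Equiv.apply_symm_apply] at h1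
          have h2 : _ = c := h1
          rw [← h2]
          exact (e T _).2
      subst hTS
      have hστ : σ = τ := by
        ext i
        exact (e T).injective (Subtype.ext (h' i))
      rw [hστ]
    · intro f _ hf
      by_cases hfi : Function.Injective f
      · exfalso
        apply hf
        have hcard : (Finset.univ.image f).card = Fintype.card ι := by
          rw [Finset.card_image_of_injective _ hfi, Finset.card_univ]
        set T : {T : Finset κ // T.card = Fintype.card ι} := ⟨Finset.univ.image f, hcard⟩ with hT
        have hmem : ∀ i, f i ∈ T.1 := fun i => Finset.mem_image_of_mem f (Finset.mem_univ i)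
        have hσi : Function.Injective (fun i => (e T).symm ⟨f i, hmem i⟩) := by
          intro i j hij
          have := (e T).symm.injective hij
          exact hfi (congrArg Subtype.val this)
        have hσ : Function.Bijective (fun i => (e T).symm ⟨f i, hmem i⟩) :=
          (Finite.injective_iff_bijective).1 hσi
        refine ⟨(T, Equiv.ofBijective _ hσ), Finset.mem_coe.2 (Finset.mem_univ _), ?_⟩
        funext i
        show (e T (Equiv.ofBijective _ hσ i)).1 = f i
        rw [Equiv.ofBijective_apply, Equiv.apply_symm_apply]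
      · have : (Matrix.of fun i j => M j (f i)).det = 0 := by
          rw [Function.not_injective_iff] at hfi
          obtain ⟨i, j, hij, hne⟩ := hfi
          refine Matrix.det_zero_of_row_eq hne ?_
          funext k
          show M k (f i) = M k (f j)
          rw [hij]
        rw [this, mul_zero]
  rw [← hinj, Fintype.sum_prod_type]
  refine Finset.sum_congr rfl fun T _ => ?_
  have hprod : ∏ c ∈ T.1, y c = ∏ i, y (e T i).1 := by
    rw [← Finset.prod_coe_sort T.1 (fun c => y c)]
    exact (Equiv.prod_comp (e T) (fun c => y c.1)).symm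
  have hterm : ∀ σ : Equiv.Perm ι, (∏ i, (y (e T (σ i)).1 * M i (e T (σ i)).1)) *
        (Matrix.of fun i j => M j (e T (σ i)).1).det =
      (∏ c ∈ T.1, y c) * (Matrix.of fun i j => M i (e T j).1).det *
        ((Equiv.Perm.sign σ : ℝ) * ∏ i, M i (e T (σ i)).1) := by
    intro σ
    have h1 : (Matrix.of fun i j => M j (e T (σ i)).1) =
        ((Matrix.of fun i j => M i (e T j).1).transpose).submatrix σ id := by
      ext i j
      rfl
    rw [h1, Matrix.det_permute, Matrix.det_transpose, Finset.prod_mul_distrib,
      Equiv.prod_comp σ (fun i => y (e T i).1), ← hprod]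
    ring
  rw [Finset.sum_congr rfl fun σ _ => hterm σ, ← Finset.mul_sum]
  have hdet : ∑ σ : Equiv.Perm ι, (Equiv.Perm.sign σ : ℝ) * ∏ i, M i (e T (σ i)).1 =
      (Matrix.of fun i j => M i (e T j).1).det := by
    rw [← Matrix.det_transpose, Matrix.det_apply']
    rfl
  rw [hdet]
  ring

end Pool.Agent.Lib.MP_21eb54_gt
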