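import Pool.Agent.Lib.MP_21eb54_gt.DifB

/-!
# Crossing changes and Rasmussen's invariant

`E = D.chg c`, `D.pos c = true`. At a state `S` with `S c = true`, `E.sp S = D.sp (S - c)`, where
`S - c = Function.update S c false`; at `S c = false`, `E.sp S = D.sp (S + c)`.
-/

set_option autoImplicit false

namespace Pool.Agent.Lib.MP_21eb54_gt

open Equiv MvPolynomial

variable {n : ℕ}

namespace Dgm

variable (D : Dgm n)

theorem chg_sp (c : Fin n) (S : St n) :
    (D.chg c).sp (Function.update S c (!S c)) = D.sp S := by
  have h : (fun d => Function.update S c (!S c) d == (D.chg c).ov d) = fun d => S d == D.ov d := by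
    funext d
    show (Function.update S c (!S c) d == Function.update D.ov c (!D.ov c) d) = _
    by_cases hd : d = c
    · subst hd
      rw [Function.update_self, Function.update_self]
      cases S d <;> cases D.ov d <;> rfl
    · rw [Function.update_of_ne hd, Function.update_of_ne hd]
  show sm D.out (fun d => Function.update S c (!S c) d == (D.chg c).ov d) = _
  rw [h]
  rfl

theorem chg_chg (c : Fin n) : (D.chg c).chg c = D := by
  have h : Function.update (Function.update D.ov c (!D.ov c)) c
      (!(Function.update D.ov c (!D.ov c) c)) = D.ov := by
    rw [Function.update_self, Bool.not_not, Function.update_idem, Function.update_eq_self]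
  cases D
  simp only [chg, mk.injEq, true_and, and_true] at h ⊢
  exact h

theorem chg_pos (c d : Fin n) : (D.chg c).pos d = if d = c then !D.pos d else D.pos d := by
  show (Function.update D.ov c (!D.ov c) d == (D.ori (d, false) == D.ori (D.out (d, true)))) = _
  by_cases hd : d = c
  · subst hd
    rw [Function.update_self, if_pos rfl]
    show _ = !(D.ov d == (D.ori (d, false) == D.ori (D.out (d, true))))
    cases D.ov d <;> cases (D.ori (d, false) == D.ori (D.out (d, true))) <;> rfl
  · rw [Function.update_of_ne hd, if_neg hd]
    rfl

theorem chg_np {c : Fin n} (hc : D.pos c = true) : (D.chg c).np + 1 = D.np := by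
  classical
  have h : (Finset.univ.filter fun d => (D.chg c).pos d = true) =
      (Finset.univ.filter fun d => D.pos d = true).erase c := by
    ext d
    rw [Finset.mem_filter, Finset.mem_erase, Finset.mem_filter, chg_pos]
    by_cases hd : d = c
    · subst hd
      rw [if_pos rfl, hc]
      simp
    · rw [if_neg hd]
      simp [hd]
  show (Finset.univ.filter fun d => (D.chg c).pos d = true).card + 1 =
    (Finset.univ.filter fun d => D.pos d = true).card
  rw [h]
  exact Finset.card_erase_add_one (Finset.mem_filter.2 ⟨Finset.mem_univ _, hc⟩)

theorem chg_nn {c : Fin n} (hc : D.pos c = true) : (D.chg c).nn = D.nn + 1 := by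
  classical
  have h : (Finset.univ.filter fun d => (D.chg c).pos d = false) =
      insert c (Finset.univ.filter fun d => D.pos d = false) := by
    ext d
    rw [Finset.mem_filter, Finset.mem_insert, Finset.mem_filter, chg_pos]
    by_cases hd : d = c
    · subst hd
      rw [if_pos rfl, hc]
      simp
    · rw [if_neg hd]
      simp [hd]
  show (Finset.univ.filter fun d => (D.chg c).pos d = false).card =
    (Finset.univ.filter fun d => D.pos d = false).card + 1
  rw [h]
  refine Finset.card_insert_of_notMem fun h1 => ?_
  rw [Finset.mem_filter, hc] at h1
  exact Bool.noConfusion h1.2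

/-- The oriented state after the change of a positive crossing. -/
theorem chg_So {c : Fin n} (hc : D.pos c = true) : (D.chg c).So = Function.update D.So c true := by
  funext d
  show (!(D.chg c).pos d) = _
  rw [chg_pos]
  by_cases hd : d = c
  · subst hd
    rw [if_pos rfl, hc, Function.update_self]
    rfl
  · rw [if_neg hd, Function.update_of_ne hd]
    rfl

end Dgm

end Pool.Agent.Lib.MP_21eb54_gt
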