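import Pool.Agent.Lib.MP_21eb54_gt.GrA
import Pool.Agent.Lib.MP_21eb54_gt.BasC

/-!
# Gradings, 2
-/

set_option autoImplicit false

namespace Pool.Agent.Lib.MP_21eb54_gt

open Equiv MvPolynomial

variable {n : ℕ}

/-- homogeneous polynomials and the degrees of their monomials -/
theorem GrB_hom {α : Type*} {f : MvPolynomial α ℚ} {k : ℕ} :
    f.IsHomogeneous k ↔ ∀ m, coeff m f ≠ 0 → m.degree = k := by
  constructor
  · intro h m hm
    have h1 := h hm
    rw [Finsupp.degree_eq_weight_one (R := ℕ)]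
    exact h1
  · intro h m hm
    have h1 := h m hm
    rw [Finsupp.degree_eq_weight_one (R := ℕ)] at h1
    exact h1

namespace Dgm

variable (D : Dgm n)

/-- `choose_lin` for every state (with the ideal `D.J 0 S ⊔ A`): if `F S ≠ 0` it is homogeneous of the
degree `k` with `circ S - 2 * k - nb S = w`; if `F S = 0` take `u S = 0`. -/
theorem Gr_choose {Φ : Fc n} {w h : ℤ} {A : Ideal (MvPolynomial (Arc n) ℚ)} (hA : Hm A)
    {g : MvPolynomial (Arc n) ℚ} (hg : g.IsHomogeneous 1) {F : Ch n} (hF : D.Gr Φ w h F)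
    (hm : ∀ S, InF Φ S → F S ∈ D.J 0 S ⊔ A ⊔ Ideal.span {g}) :
    ∃ u, D.Gr Φ (w + 2) h u ∧ ∀ S, InF Φ S → F S - g * u S ∈ D.J 0 S ⊔ A := by
  classical
  have key : ∀ S, ∃ v : MvPolynomial (Arc n) ℚ, InF Φ S →
      (∀ m, coeff m v ≠ 0 → (nb S : ℤ) = h ∧ D.wt S m = w + 2) ∧ F S - g * v ∈ D.J 0 S ⊔ A := by
    intro S
    by_cases hS : InF Φ S
    · by_cases h0 : F S = 0
      · refine ⟨0, fun _ => ⟨fun m hm => absurd (coeff_zero m) hm, ?_⟩⟩
        rw [h0, mul_zero, sub_zero]
        exact Ideal.zero_mem _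
      · obtain ⟨m0, hm0⟩ := MvPolynomial.ne_zero_iff.1 h0
        obtain ⟨hn, hw⟩ := hF S hS m0 hm0
        have hk : (F S).IsHomogeneous m0.degree := by
          rw [GrB_hom]
          intro m hm1
          have h1 := (hF S hS m hm1).2
          unfold wt at h1 hw
          have h2 : (m.degree : ℤ) = m0.degree := by linarith
          exact_mod_cast h2
        have hH : Hm (D.J 0 S ⊔ A) := Hm_sup (Hm_JJ (π := D.sp S)) hA
        obtain ⟨v, hv1, hv2⟩ := choose_lin hH hg hk (hm S hS)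
        refine ⟨v, fun _ => ⟨fun m hm1 => ⟨hn, ?_⟩, hv2⟩⟩
        have h1 := hv1 m hm1
        unfold wt at hw ⊢
        have h2 : (m.degree : ℤ) + 1 = m0.degree := by exact_mod_cast h1
        linarith
    · exact ⟨0, fun h => absurd h hS⟩
  choose u hu using key
  exact ⟨u, fun S hS => (hu S hS).1, fun S hS => (hu S hS).2⟩

theorem GrB_Hom (b a : ℤ) (F : Ch n) :
    D.Hom b a F ↔ D.Gr (full n) (a - 2 * b - D.np) (b + D.nn) F := by
  constructor
  · intro hF S _ m hm
    rcases hF S with h0 | ⟨h1, k, hk, h2⟩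
    · rw [h0, coeff_zero] at hm
      exact absurd rfl hm
    · have h3 := GrB_hom.1 hk m hm
      unfold wt
      rw [h3]
      constructor
      · linarith
      · linarith
  · intro hF S
    by_cases h0 : F S = 0
    · exact Or.inl h0
    · right
      obtain ⟨m0, hm0⟩ := MvPolynomial.ne_zero_iff.1 h0
      obtain ⟨hn, hw⟩ := hF S (InF_full S) m0 hm0
      unfold wt at hw
      refine ⟨by linarith, m0.degree, ?_, by linarith⟩
      rw [GrB_hom]
      intro m hm1
      have h1 := (hF S (InF_full S) m hm1).2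
      unfold wt at h1
      have h2 : (m.degree : ℤ) = m0.degree := by linarith
      exact_mod_cast h2

/-- Unfold: `D.Hom b a F ↔ D.Gr (full n) (a - 2 * b - D.np) (b + D.nn) F`; `dfF_full`. -/
theorem KhNe_iff (b a : ℤ) : D.KhNe b a ↔ ¬ D.Ex (full n) ⊥ (a - 2 * b - D.np) (b + D.nn) := by
  unfold KhNe Ex
  rw [not_forall]
  refine exists_congr fun F => ?_
  rw [D.GrB_Hom, Classical.not_imp, Classical.not_imp]
  have e1 : ∀ G, D.Hom (b - 1) a G ↔
      D.Gr (full n) (a - 2 * b - D.np + 2) (b + D.nn - 1) G := by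
    intro G
    rw [D.GrB_Hom]
    have h1 : a - 2 * (b - 1) - D.np = a - 2 * b - D.np + 2 := by ring
    have h2 : b - 1 + (D.nn : ℤ) = b + D.nn - 1 := by ring
    rw [h1, h2]
  have e2 : ∀ S : St n, InF (full n) S := InF_full
  simp only [e1, D.dfF_full, sup_bot_eq, e2, forall_true_left]

end Dgm

end Pool.Agent.Lib.MP_21eb54_gt
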