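import Pool.Agent.Lib.MP_21eb54_gt.LeeE
import Pool.Agent.Lib.MP_21eb54_gt.GrB

/-!
# Quantum degrees and Lee's complex
-/

set_option autoImplicit false

namespace Pool.Agent.Lib.MP_21eb54_gt

open Equiv MvPolynomial

variable {n : ℕ}

namespace Dgm

variable (D : Dgm n)

theorem Fil_iff (j : ℤ) (F : Ch n) : D.Fil j F ↔ ∀ S m, coeff m (F S) ≠ 0 → j ≤ D.qd S m := by
  constructor
  · intro h S m hm
    have hF0 : F S ≠ 0 := by
      intro h0
      rw [h0, coeff_zero] at hm
      exact hm rfl
    have h1 := (h S).resolve_left hF0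
    have h2 : m.degree ≤ (F S).totalDegree := le_totalDegree (mem_support_iff.2 hm)
    unfold qd
    have h3 : (m.degree : ℤ) ≤ (F S).totalDegree := by exact_mod_cast h2
    linarith
  · intro h S
    by_cases hF0 : F S = 0
    · exact Or.inl hF0
    · refine Or.inr ?_
      have hne : (F S).support.Nonempty := by
        rw [Finset.nonempty_iff_ne_empty]
        intro h0
        exact hF0 (support_eq_empty.1 h0)
      obtain ⟨m, hm, hm1⟩ := Finset.exists_mem_eq_sup (F S).support hne fun s => s.degree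
      have h1 := h S m (mem_support_iff.1 hm)
      have h2 : (F S).totalDegree = m.degree := hm1
      rw [h2]
      exact h1

/-- `circ_parity` -/
theorem qd_parity (S S' : St n) (m m' : Arc n →₀ ℕ) : (D.qd S m - D.qd S' m') % 2 = 0 := by
  have h1 := D.circ_parity S
  have h2 := D.circ_parity S'
  unfold qd
  omega

theorem ptF_coeff (P : ℤ → Prop) (F : Ch n) (S : St n) (m : Arc n →₀ ℕ) :
    coeff m (D.ptF P F S) ≠ 0 ↔ P (D.qd S m) ∧ coeff m (F S) ≠ 0 := by
  unfold ptF
  rw [coeff_pt]
  by_cases h : P (D.qd S m)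
  · simp [h]
  · simp [h]

theorem ptF_add_not (P : ℤ → Prop) (F : Ch n) : D.ptF P F + D.ptF (fun x => ¬ P x) F = F := by
  funext S
  ext m
  rw [Pi.add_apply, coeff_add]
  unfold ptF
  rw [coeff_pt, coeff_pt]
  by_cases h : P (D.qd S m)
  · simp [h]
  · simp [h]

/-- The differential preserves the quantum degree (`th_coeff`): the monomials of `dif (ptF P F)` satisfy
`P` and those of `dif (ptF (¬ P) F)` do not; their sum is `dif F`. -/
theorem dif_ptF (P : ℤ → Prop) (F : Ch n) : D.dif (D.ptF P F) = D.ptF P (D.dif F) := by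
  classical
  funext S
  ext m
  have hR : coeff m (D.ptF P (D.dif F) S) = if P (D.qd S m) then coeff m (D.dif F S) else 0 := by
    unfold ptF
    rw [coeff_pt]
  rw [hR]
  unfold dif
  rw [coeff_sum, coeff_sum]
  have key : ∀ c : Fin n, S c = true → coeff m (D.th (Function.update S c false) c *
      D.ptF P F (Function.update S c false)) = if P (D.qd S m) then
        coeff m (D.th (Function.update S c false) c * F (Function.update S c false)) else 0 := by
    intro c hc
    have hup : Function.update (Function.update S c false) c true = S := by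
      rw [Function.update_idem, ← hc, Function.update_eq_self]
    have hc' : Function.update S c false c = false := Function.update_self c false S
    have hstep : ∀ Q : ℤ → Prop, ¬ Q (D.qd S m) → coeff m (D.th (Function.update S c false) c *
        D.ptF Q F (Function.update S c false)) = 0 := by
      intro Q hQ
      by_contra hne
      obtain ⟨m', hm1, _, hm3⟩ := D.th_coeff hc' hne
      rw [hup] at hm3
      rw [ptF_coeff] at hm1
      exact hQ (hm3 ▸ hm1.1)
    by_cases h : P (D.qd S m)
    · rw [if_pos h]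
      have h1 : F (Function.update S c false) = D.ptF P F (Function.update S c false) +
          D.ptF (fun x => ¬ P x) F (Function.update S c false) := by
        have h2 := congrFun (D.ptF_add_not P F) (Function.update S c false)
        rw [Pi.add_apply] at h2
        exact h2.symm
      have h3 := hstep (fun x => ¬ P x) (fun hn => hn h)
      conv_rhs => rw [h1, mul_add, coeff_add, h3, add_zero]
    · rw [if_neg h]
      exact hstep P h
  by_cases h : P (D.qd S m)
  · rw [if_pos h]
    refine Finset.sum_congr rfl fun c _ => ?_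
    by_cases hc : S c = true
    · rw [if_pos hc, if_pos hc, coeff_C_mul, coeff_C_mul, key c hc, if_pos h]
    · rw [if_neg hc, if_neg hc]
  · rw [if_neg h]
    refine Finset.sum_eq_zero fun c _ => ?_
    by_cases hc : S c = true
    · rw [if_pos hc, coeff_C_mul, key c hc, if_neg h, mul_zero]
    · rw [if_neg hc, coeff_zero]

/-- `pt_mem_J1` -/
theorem ptF_J1 {P : ℤ → Prop} (hP : ∀ x, P (x + 4) ↔ P x) {F : Ch n} (h : ∀ S, F S ∈ D.J 1 S)
    (S : St n) : D.ptF P F S ∈ D.J 1 S := by
  have h1 := pt_mem_J1 (π := D.sp S)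
    (fun k : ℕ => P ((D.circ S : ℤ) - 2 * (k : ℤ) + nb S + D.np - 2 * D.nn)) (by
      intro k
      have h2 := hP ((D.circ S : ℤ) - 2 * ((k + 2 : ℕ) : ℤ) + nb S + D.np - 2 * D.nn)
      rw [← h2]
      have h3 : (D.circ S : ℤ) - 2 * ((k + 2 : ℕ) : ℤ) + nb S + D.np - 2 * D.nn + 4 =
          (D.circ S : ℤ) - 2 * (k : ℤ) + nb S + D.np - 2 * D.nn := by
        push_cast
        ring
      rw [h3]) (h S)
  exact h1

/-- `pt_mem_J0` -/
theorem ptF_J0 (P : ℤ → Prop) {F : Ch n} (h : ∀ S, F S ∈ D.J 0 S) (S : St n) :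
    D.ptF P F S ∈ D.J 0 S := by
  exact pt_mem_J0 (π := D.sp S)
    (fun k : ℕ => P ((D.circ S : ℤ) - 2 * (k : ℤ) + nb S + D.np - 2 * D.nn)) (h S)

theorem ptF_Cy {P : ℤ → Prop} (hP : ∀ x, P (x + 4) ↔ P x) {F : Ch n} (h : D.Cy F) :
    D.Cy (D.ptF P F) := by
  intro S
  rw [dif_ptF]
  exact D.ptF_J1 hP h S

theorem Fil_ptF (P : ℤ → Prop) {j : ℤ} {F : Ch n} (h : D.Fil j F) : D.Fil j (D.ptF P F) := by
  rw [Fil_iff] at h ⊢
  intro S m hm
  rw [ptF_coeff] at hm
  exact h S m hm.2

theorem Fil_add {j : ℤ} {F G : Ch n} (hF : D.Fil j F) (hG : D.Fil j G) : D.Fil j (F + G) := by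
  rw [Fil_iff] at hF hG ⊢
  intro S m hm
  rw [Pi.add_apply, coeff_add] at hm
  by_cases h : coeff m (F S) = 0
  · rw [h, zero_add] at hm
    exact hG S m hm
  · exact hF S m h

theorem Fil_C (a : ℚ) {j : ℤ} {F : Ch n} (hF : D.Fil j F) : D.Fil j (fun S => C a * F S) := by
  rw [Fil_iff] at hF ⊢
  intro S m hm
  rw [coeff_C_mul] at hm
  exact hF S m (right_ne_zero_of_mul hm)

theorem Fil_mono {i j : ℤ} (h : i ≤ j) {F : Ch n} (hF : D.Fil j F) : D.Fil i F := by
  rw [Fil_iff] at hF ⊢
  intro S m hm
  exact h.trans (hF S m hm)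

theorem Fil_X (e : Arc n) {j : ℤ} {F : Ch n} (hF : D.Fil j F) :
    D.Fil (j - 2) (fun S => X e * F S) := by
  rw [Fil_iff] at hF ⊢
  intro S m hm
  rw [coeff_X_mul'] at hm
  by_cases he : e ∈ m.support
  · rw [if_pos he] at hm
    have h1 := hF S _ hm
    have h2 : (m - Finsupp.single e 1) + Finsupp.single e 1 = m := by
      refine tsub_add_cancel_of_le ?_
      rw [Finsupp.single_le_iff]
      exact Nat.one_le_iff_ne_zero.2 (Finsupp.mem_support_iff.1 he)
    have h3 : m.degree = (m - Finsupp.single e 1).degree + 1 := by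
      conv_lhs => rw [← h2]
      rw [map_add, Finsupp.degree_single]
    unfold qd at h1 ⊢
    rw [h3]
    push_cast
    linarith
  · rw [if_neg he] at hm
    exact absurd rfl hm

/-- If all quantum degrees of `F` are `≡ r` modulo `4`, the monomials `m` of `F So` have
`qd So m = qd So 0 - 2 * degree m ≡ r`, so their degrees have the same parity, and
`evl ori' m = (-1) ^ degree m * evl ori m`. -/
theorem Lf_mod4 {r : ℤ} {F : Ch n} (hF : ∀ S m, coeff m (F S) ≠ 0 → (D.qd S m - r) % 4 = 0) :
    D.Lf D.ori' F = (if (D.qd D.So 0 - r) % 4 = 0 then 1 else -1) * D.Lf D.ori F := by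
  unfold Lf evl
  rw [aeval_def, aeval_def, eval₂_eq, eval₂_eq, Finset.mul_sum]
  refine Finset.sum_congr rfl fun m hm => ?_
  have h1 := hF D.So m (mem_support_iff.1 hm)
  have h2 : D.qd D.So m = D.qd D.So 0 - 2 * (m.degree : ℤ) := by
    unfold qd
    rw [map_zero]
    push_cast
    ring
  rw [h2] at h1
  have h3 : (∏ i ∈ m.support, (if D.ori' i = true then (1 : ℚ) else -1) ^ m i) =
      (-1) ^ m.degree * ∏ i ∈ m.support, (if D.ori i = true then (1 : ℚ) else -1) ^ m i := by
    rw [Finsupp.degree_apply, ← Finset.prod_pow_eq_pow_sum, ← Finset.prod_mul_distrib]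
    refine Finset.prod_congr rfl fun i _ => ?_
    rw [← mul_pow]
    congr 1
    unfold ori'
    cases D.ori i
    · simp
    · simp
  rw [h3]
  have h4 : ((-1 : ℚ)) ^ m.degree = if (D.qd D.So 0 - r) % 4 = 0 then 1 else -1 := by
    rcases Nat.even_or_odd m.degree with he | he
    · rw [he.neg_one_pow, if_pos]
      obtain ⟨k, hk⟩ := he
      omega
    · rw [he.neg_one_pow, if_neg]
      obtain ⟨k, hk⟩ := he
      omega
  rw [h4]
  ring

end Dgm

end Pool.Agent.Lib.MP_21eb54_gt
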