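import Pool.Agent.Lib.MP_21eb54_gt.CrA
import Pool.Agent.Lib.MP_21eb54_gt.LevA

/-!
# Crossing changes: the first map
-/

set_option autoImplicit false

namespace Pool.Agent.Lib.MP_21eb54_gt

open Equiv MvPolynomial

variable {n : ℕ}

namespace Dgm

variable (D : Dgm n)

/-- the first map: the same smoothing at `c`, from `S c = false` for `D` to `S c = true` for `D.chg c` -/
noncomputable def cf1 (c : Fin n) (F : Ch n) : Ch n := fun S =>
  if S c = true then C (zt c S) * F (Function.update S c false) else 0

private theorem CrB_sp {c : Fin n} {T : St n} (hT : T c = true) :
    (D.chg c).sp T = D.sp (Function.update T c false) := by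
  have h := D.chg_sp c (Function.update T c false)
  have e : Function.update (Function.update T c false) c (!(Function.update T c false) c) = T := by
    funext d
    by_cases hd : d = c
    · subst hd
      simp [hT]
    · simp [Function.update_of_ne hd]
  rw [e] at h
  exact h

private theorem CrB_th {c : Fin n} {T : St n} (hT : T c = true) (c' : Fin n) :
    (D.chg c).th T c' = D.th (Function.update T c false) c' := by
  unfold th
  rw [CrB_sp D hT]

private theorem CrB_true {c : Fin n} (F : Ch n) {S : St n} (h : S c = true) :
    cf1 c F S = C (zt c S) * F (Function.update S c false) := by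
  unfold cf1
  rw [if_pos h]

private theorem CrB_false {c : Fin n} (F : Ch n) {S : St n} (h : S c = false) :
    cf1 c F S = 0 := by
  unfold cf1
  rw [if_neg (by simp [h])]

private theorem CrB_nb {c : Fin n} {S : St n} (h : S c = true) :
    nb S = nb (Function.update S c false) + 1 := by
  unfold nb
  have e : (Finset.univ.filter fun d => S d = true) =
      insert c (Finset.univ.filter fun d => Function.update S c false d = true) := by
    ext d
    simp only [Finset.mem_filter, Finset.mem_univ, true_and, Finset.mem_insert]
    by_cases hd : d = c
    · subst hd
      simp [h]
    · simp [hd]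
  rw [e, Finset.card_insert_of_notMem]
  simp

/-- It commutes with the differentials. At `S c = false` both sides are `0`. At `S c = true`: in
`(D.chg c).dif (cf1 c F) S` the term `c` is `0` (value at `S - c`), the terms `c' ≠ c` are
`sgn S c' * (D.chg c).th (S - c') c' * zt c (S - c') * F (S - c' - c)`; those of
`zt c S * D.dif F (S - c)` are `zt c S * sgn (S - c) c' * D.th (S - c - c') c' * F (S - c - c')`; the signs:
`sgn_zt` (for `T = S`), and `th` depends only on `sp` (`chg_sp`). -/
theorem cf1_dif (c : Fin n) (F : Ch n) : (D.chg c).dif (cf1 c F) = cf1 c (D.dif F) := by
  funext S
  cases hS : S c with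
  | false =>
    rw [CrB_false (D.dif F) hS]
    unfold dif
    refine Finset.sum_eq_zero fun c' _ => ?_
    by_cases h : S c' = true
    · rw [if_pos h]
      have hne : c ≠ c' := by
        rintro rfl
        rw [hS] at h
        exact Bool.false_ne_true h
      have h2 : (Function.update S c' false) c = false := by
        rw [Function.update_of_ne hne]
        exact hS
      rw [CrB_false F h2, mul_zero, mul_zero]
    · rw [if_neg h]
  | true =>
    rw [CrB_true (D.dif F) hS]
    unfold dif
    rw [Finset.mul_sum]
    refine Finset.sum_congr rfl fun c' _ => ?_
    by_cases hcc : c' = c
    · subst hcc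
      have h2 : (Function.update S c' false) c' = false := by simp
      rw [if_pos hS, CrB_false F h2, mul_zero, mul_zero, h2, if_neg Bool.false_ne_true, mul_zero]
    · have hne : c ≠ c' := fun h => hcc h.symm
      rw [Function.update_of_ne hcc]
      by_cases h : S c' = true
      · rw [if_pos h, if_pos h]
        have h2 : (Function.update S c' false) c = true := by
          rw [Function.update_of_ne hne]
          exact hS
        rw [CrB_true F h2, CrB_th D h2, Function.update_comm hne.symm false false S]
        have h3 := sgn_zt (T := S) (c := c) (c' := c') h hne
        rw [hS] at h3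
        have h4 : (C (sgn (Function.update S c false) c') * C (zt c S) : MvPolynomial (Arc n) ℚ) =
            C (sgn S c') * C (zt c (Function.update S c' false)) := by
          rw [← C_mul, ← C_mul]
          exact congrArg C h3
        linear_combination (- (D.th (Function.update (Function.update S c false) c' false) c' *
          F (Function.update (Function.update S c false) c' false))) * h4
      · rw [if_neg h, if_neg h, mul_zero]

/-- cycles to cycles, filtration shift `-2`, values up to sign -/
theorem cf1_prop {c : Fin n} (hc : D.pos c = true) {F : Ch n} (hF : D.Cy F) {j : ℤ} (h : D.Fil j F) :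
    (D.chg c).Cy (cf1 c F) ∧ (D.chg c).Fil (j - 2) (cf1 c F) ∧
      ∀ ε, (D.chg c).Lf ε (cf1 c F) = zt c D.So * D.Lf ε F := by
  refine ⟨fun S => ?_, fun S => ?_, fun ε => ?_⟩
  · rw [cf1_dif]
    cases hS : S c with
    | false =>
      rw [CrB_false (D.dif F) hS]
      exact Submodule.zero_mem _
    | true =>
      rw [CrB_true (D.dif F) hS]
      have e : (D.chg c).J 1 S = D.J 1 (Function.update S c false) := by
        rw [J_eq, J_eq, CrB_sp D hS]
      rw [e]
      exact Ideal.mul_mem_left _ _ (hF _)
  · cases hS : S c with
    | false =>
      left
      exact CrB_false F hS
    | true =>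
      rw [CrB_true F hS]
      rcases h (Function.update S c false) with h0 | h0
      · left
        rw [h0, mul_zero]
      · right
        have e1 : (D.chg c).circ S = D.circ (Function.update S c false) := by
          unfold circ
          rw [CrB_sp D hS]
        have e2 := CrB_nb hS
        have e3 := D.chg_np hc
        have e4 := D.chg_nn hc
        have e5 : (C (zt c S) * F (Function.update S c false)).totalDegree ≤
            (F (Function.update S c false)).totalDegree := by
          have := totalDegree_mul (C (zt c S)) (F (Function.update S c false))
          rw [totalDegree_C, zero_add] at this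
          exact this
        rw [e1]
        omega
  · unfold Lf
    have hSo : D.So c = false := by
      unfold So
      rw [hc]
      rfl
    have e : (D.chg c).So c = true := by
      rw [D.chg_So hc]
      simp
    rw [CrB_true F e, D.chg_So hc, zt_up, Function.update_idem]
    have e2 : Function.update D.So c false = D.So := by
      rw [← hSo]
      exact Function.update_eq_self c D.So
    rw [e2, map_mul]
    have e3 : evl ε (C (zt c D.So)) = zt c D.So := by
      unfold evl
      rw [aeval_C]
      rfl
    rw [e3]

end Dgm

end Pool.Agent.Lib.MP_21eb54_gt
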