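import Pool.Agent.Lib.MP_21eb54_gt.CrA
import Pool.Agent.Lib.MP_21eb54_gt.LevA

/-!
# Crossing changes: the second map
-/

set_option autoImplicit false
set_option linter.unusedSectionVars false

namespace Pool.Agent.Lib.MP_21eb54_gt

open Equiv MvPolynomial

variable {n : ℕ}

namespace Dgm

variable (D : Dgm n)

/-- the second map: from `S c = true` for `D.chg c` to `S c = false` for `D`, times `X p - X q` -/
noncomputable def cf2 (c : Fin n) (F : Ch n) : Ch n := fun S =>
  if S c = false then C (zt c S) * ((X (c, false) - X (c, true)) * F (Function.update S c true)) else 0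

theorem CrC_sp {c : Fin n} {S : St n} (hS : S c = false) :
    (D.chg c).sp (Function.update S c true) = D.sp S := by
  have h := D.chg_sp c S
  rw [hS] at h
  exact h

theorem CrC_J {c : Fin n} {S : St n} (hS : S c = false) (t : ℚ) :
    (D.chg c).J t (Function.update S c true) = D.J t S := by
  rw [J_eq, J_eq, D.CrC_sp hS]

theorem CrC_th {c : Fin n} {S : St n} (hS : S c = false) (d : Fin n) :
    (D.chg c).th (Function.update S c true) d = D.th S d := by
  unfold th
  rw [D.CrC_sp hS]

theorem CrC_cycle_true {c : Fin n} (F : Ch n) {S : St n} (hS : S c = true) :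
    D.dif (cf2 c F) S ∈ D.J 1 S := by
  unfold dif
  refine sum_mem fun d _ => ?_
  by_cases hd : S d = true
  · rw [if_pos hd]
    by_cases hdc : d = c
    · subst hdc
      have h1 : Function.update S d false d = false := by rw [Function.update_self]
      have h2 := D.th_sub_mem (t := 1) h1
      have h3 : Function.update (Function.update S d false) d true = S := by
        rw [Function.update_idem, ← hS, Function.update_eq_self]
      rw [h3] at h2
      unfold cf2
      rw [if_pos h1]
      have h4 : C (sgn S d) * (D.th (Function.update S d false) d *
          (C (zt d (Function.update S d false)) * ((X (d, false) - X (d, true)) *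
            F (Function.update (Function.update S d false) d true)))) =
          (C (sgn S d) * (C (zt d (Function.update S d false)) *
            F (Function.update (Function.update S d false) d true))) *
          (D.th (Function.update S d false) d * (X (d, false) - X (d, true))) := by ring
      rw [h4]
      exact Ideal.mul_mem_left _ _ h2
    · have h1 : ¬ Function.update S d false c = false := by
        rw [Function.update_of_ne (Ne.symm hdc), hS]
        decide
      unfold cf2
      rw [if_neg h1, mul_zero, mul_zero]
      exact zero_mem _
  · rw [if_neg hd]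
    exact zero_mem _

theorem CrC_cycle_false {c : Fin n} {F : Ch n} (hF : (D.chg c).Cy F) {S : St n} (hS : S c = false) :
    D.dif (cf2 c F) S ∈ D.J 1 S := by
  have hcT : Function.update S c true c = true := by rw [Function.update_self]
  have hT : Function.update (Function.update S c true) c false = S := by
    rw [Function.update_idem, ← hS, Function.update_eq_self]
  have key : D.dif (cf2 c F) S =
      C (zt c S) * ((X (c, false) - X (c, true)) * (D.chg c).dif F (Function.update S c true)) -
      C (zt c S) * C (sgn (Function.update S c true) c) * F S *
        ((D.chg c).th S c * (X (c, false) - X (c, true))) := by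
    unfold dif
    rw [Finset.mul_sum, Finset.mul_sum, ← Finset.sum_erase_add _ _ (Finset.mem_univ c),
      ← Finset.sum_erase_add (Finset.univ) (fun i => C (zt c S) * ((X (c, false) - X (c, true)) * _))
        (Finset.mem_univ c)]
    rw [if_neg (by rw [hS]; decide), if_pos hcT, hT, add_zero]
    have hrest : ∀ d ∈ Finset.univ.erase c,
        (if S d = true then C (sgn S d) * (D.th (Function.update S d false) d *
          cf2 c F (Function.update S d false)) else 0) =
        C (zt c S) * ((X (c, false) - X (c, true)) *
          (if Function.update S c true d = true then C (sgn (Function.update S c true) d) *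
            ((D.chg c).th (Function.update (Function.update S c true) d false) d *
              F (Function.update (Function.update S c true) d false)) else 0)) := by
      intro d hd
      have hdc : d ≠ c := Finset.ne_of_mem_erase hd
      rw [Function.update_of_ne hdc]
      by_cases h : S d = true
      · rw [if_pos h, if_pos h]
        have h1 : Function.update S d false c = false := by
          rw [Function.update_of_ne (Ne.symm hdc), hS]
        have h2 : Function.update (Function.update S c true) d false =
            Function.update (Function.update S d false) c true := Function.update_comm hdc.symm _ _ _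
        have h3 := sgn_zt h (Ne.symm hdc)
        rw [hS] at h3
        have h4 : (C (sgn (Function.update S c true) d) : MvPolynomial (Arc n) ℚ) * C (zt c S) =
            C (sgn S d) * C (zt c (Function.update S d false)) := by
          rw [← C_mul, ← C_mul]
          exact congrArg C h3
        unfold cf2
        rw [if_pos h1, h2, D.CrC_th h1]
        linear_combination (-(D.th (Function.update S d false) d * ((X (c, false) - X (c, true)) *
          F (Function.update (Function.update S d false) c true)))) * h4
      · rw [if_neg h, if_neg h, mul_zero, mul_zero]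
    rw [Finset.sum_congr rfl hrest]
    ring
  rw [key]
  refine sub_mem ?_ ?_
  · rw [← D.CrC_J hS 1]
    exact Ideal.mul_mem_left _ _ (Ideal.mul_mem_left _ _ (hF _))
  · rw [← D.CrC_J hS 1]
    exact Ideal.mul_mem_left _ _ ((D.chg c).th_sub_mem hS)

theorem CrC_val {c : Fin n} (hc : D.pos c = true) (F : Ch n) (ε : Arc n → Bool)
    (hε : ε (c, true) = !ε (c, false)) (h : D.Lf ε (cf2 c F) = 0) : (D.chg c).Lf ε F = 0 := by
  unfold Lf at h ⊢
  rw [D.chg_So hc]
  have h1 : D.So c = false := by
    unfold So
    rw [hc]
    rfl
  unfold cf2 at h
  rw [if_pos h1, map_mul, map_mul, map_sub, evl_X, evl_X, hε] at h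
  have h2 : evl ε (C (zt c D.So)) ≠ 0 := by
    rw [algHom_C]
    intro h3
    have h4 := zt_sq D.So c
    have h5 : zt c D.So = 0 := h3
    rw [h5] at h4
    norm_num at h4
  rcases mul_eq_zero.mp h with h3 | h3
  · exact absurd h3 h2
  · rcases mul_eq_zero.mp h3 with h4 | h4
    · exfalso
      cases hb : ε (c, false)
      · rw [hb] at h4
        norm_num at h4
      · rw [hb] at h4
        norm_num at h4
    · exact h4

theorem CrC_fil {c : Fin n} (hc : D.pos c = true) {F : Ch n} {j : ℤ} (h : (D.chg c).Fil j F) :
    D.Fil j (cf2 c F) := by
  rw [Fil_iff] at h ⊢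
  intro S m hm
  by_cases hS : S c = false
  · unfold cf2 at hm
    rw [if_pos hS, coeff_C_mul] at hm
    have hm1 := right_ne_zero_of_mul hm
    have hkey : ∃ e : Arc n, coeff m (X e * F (Function.update S c true)) ≠ 0 := by
      by_contra hcon
      push Not at hcon
      apply hm1
      rw [sub_mul, coeff_sub, hcon, hcon, sub_zero]
    obtain ⟨e, he⟩ := hkey
    rw [coeff_X_mul'] at he
    split_ifs at he with he1
    · have h1 := h _ _ he
      have h2 : m = (m - Finsupp.single e 1) + Finsupp.single e 1 := by
        rw [tsub_add_cancel_of_le]
        rw [Finsupp.single_le_iff]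
        exact Nat.one_le_iff_ne_zero.mpr (Finsupp.mem_support_iff.mp he1)
      have h3 : m.degree = (m - Finsupp.single e 1).degree + 1 := by
        conv_lhs => rw [h2]
        rw [map_add, Finsupp.degree_single]
      have h4 := D.chg_np hc
      have h5 := D.chg_nn hc
      have h6 := nb_up hS
      have h7 : (D.chg c).circ (Function.update S c true) = D.circ S := by
        unfold circ
        rw [D.CrC_sp hS]
      unfold qd at h1 ⊢
      rw [h7] at h1
      omega
    · exact absurd rfl he
  · unfold cf2 at hm
    rw [if_neg hS, coeff_zero] at hm
    exact absurd rfl hm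

/-- Cycles to cycles: at `S c = true`, `D.dif (cf2 c F) S` only has the term `c`,
`sgn * D.th (S - c) c * (X p - X q) * ...`, in `D.J 1 S` (`th_sub_mem`). At `S c = false`, up to the sign
`zt c S`, `D.dif (cf2 c F) S` and `(X p - X q) * (D.chg c).dif F (S + c)` differ by the term `c` of the
latter, `(X p - X q) * (D.chg c).th S c * F S ∈ (D.chg c).J 1 (S + c) = D.J 1 S` (`th_sub_mem`, `chg_sp`).
Filtration: the multiplication by `X p - X q` shifts by `-2`, the rest by `2`. Values: `ε p - ε q`, which is
`2` or `-2` for `ori` and for `ori'`. -/
theorem cf2_prop {c : Fin n} (hc : D.pos c = true) {F : Ch n} (hF : (D.chg c).Cy F) {j : ℤ}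
    (h : (D.chg c).Fil j F) : D.Cy (cf2 c F) ∧ D.Fil j (cf2 c F) ∧
      (D.Lf D.ori (cf2 c F) = 0 → (D.chg c).Lf D.ori F = 0) ∧
      (D.Lf D.ori' (cf2 c F) = 0 → (D.chg c).Lf D.ori' F = 0) := by
  refine ⟨fun S => ?_, D.CrC_fil hc h, D.CrC_val hc F _ (D.ori_in c), D.CrC_val hc F _ ?_⟩
  · cases hS : S c
    · exact D.CrC_cycle_false hF hS
    · exact D.CrC_cycle_true F hS
  · unfold ori'
    rw [D.ori_in c]

end Dgm

end Pool.Agent.Lib.MP_21eb54_gt
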