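import Pool.Agent.Lib.MP_21eb54_gt.LevC

/-!
# The two levels of Lee's homology, 3
-/

set_option autoImplicit false

namespace Pool.Agent.Lib.MP_21eb54_gt

open Equiv MvPolynomial

variable {n : ℕ}

namespace Dgm

variable (D : Dgm n)

theorem LevD_mono {i j : ℤ} (h : i ≤ j) (hj : D.Lw j) : D.Lw i := by
  intro a b
  obtain ⟨F, h1, h2, h3, h4⟩ := hj a b
  exact ⟨F, h1, D.Fil_mono h h2, h3, h4⟩

/-- `M` = the largest `j` with `Lv j`; `sSup` of the sets `{j | Lv j}` and `{j | Lw j}`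
(`Lv_iff`, `Lw_iff`). -/
theorem lev : ∃ M, D.smax = M ∧ D.smin = M - 2 ∧ D.Lv M ∧ ¬ D.Lv (M + 1) ∧ D.Lw (M - 2) ∧
    ¬ D.Lw (M - 1) := by
  have hne : {j : ℤ | D.Lv j}.Nonempty := D.exists_Lv
  have hbd : BddAbove {j : ℤ | D.Lv j} := ⟨D.qd D.So 0, fun j hj => D.Lv_le hj⟩
  have hM : D.Lv (sSup {j : ℤ | D.Lv j}) := Int.csSup_mem hne hbd
  have hM1 : ¬ D.Lv (sSup {j : ℤ | D.Lv j} + 1) := by
    intro h
    have h1 : sSup {j : ℤ | D.Lv j} + 1 ≤ sSup {j : ℤ | D.Lv j} := le_csSup hbd h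
    omega
  have h2 : D.smax = sSup {j : ℤ | D.Lv j} := by
    unfold Dgm.smax
    apply congrArg sSup
    ext j
    exact (D.Lv_iff j).symm
  have h3 : D.Lw (sSup {j : ℤ | D.Lv j} - 2) := D.Lw_sub hM
  have h4 : ¬ D.Lw (sSup {j : ℤ | D.Lv j} - 1) := D.not_Lw hM hM1
  have h5 : D.smin = sSup {j : ℤ | D.Lw j} := by
    unfold Dgm.smin
    apply congrArg sSup
    ext j
    exact (D.Lw_iff j).symm
  have h6 : IsGreatest {j : ℤ | D.Lw j} (sSup {j : ℤ | D.Lv j} - 2) := by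
    refine ⟨h3, ?_⟩
    intro j hj
    by_contra h
    exact h4 (D.LevD_mono (by omega) hj)
  exact ⟨sSup {j : ℤ | D.Lv j}, h2, by rw [h5]; exact h6.csSup_eq, hM, hM1, h3, h4⟩

theorem smax_eq : D.smax = D.s + 1 := by
  obtain ⟨M, h1, h2, _⟩ := D.lev
  unfold Dgm.s
  omega

theorem smin_eq : D.smin = D.s - 1 := by
  obtain ⟨M, h1, h2, _⟩ := D.lev
  unfold Dgm.s
  omega

end Dgm

end Pool.Agent.Lib.MP_21eb54_gt
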