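import Pool.Agent.Lib.MP_21eb54_gt.CrB
import Pool.Agent.Lib.MP_21eb54_gt.CrC
import Pool.Agent.Lib.MP_21eb54_gt.LevD

/-!
# Crossing changes and Rasmussen's invariant
-/

set_option autoImplicit false

namespace Pool.Agent.Lib.MP_21eb54_gt

open Equiv MvPolynomial

variable {n : ℕ}

namespace Dgm

variable (D : Dgm n)

/-- `Lv j` for `D` gives `Lv (j - 2)` for `D.chg c`, and `Lv j` for `D.chg c` gives `Lv j` for `D`; `lev`.
(`(D.chg c).ori = D.ori`.) -/
theorem s_chg {c : Fin n} (hc : D.pos c = true) : (D.chg c).s ≤ D.s ∧ D.s - 2 ≤ (D.chg c).s := by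
  obtain ⟨M, h1, -, h3, h4, -, -⟩ := D.lev
  obtain ⟨M', h1', -, h3', h4', -, -⟩ := (D.chg c).lev
  have e1 := D.smax_eq
  have e2 := (D.chg c).smax_eq
  have hz : zt c D.So ≠ 0 := by
    unfold zt
    exact pow_ne_zero _ (by norm_num)
  have a1 : M - 2 ≤ M' := by
    by_contra hcon
    obtain ⟨F, hF1, hF2, hF3⟩ := h3
    obtain ⟨g1, g2, g3⟩ := D.cf1_prop hc hF1 hF2
    refine h4' ((D.chg c).Lv_mono (i := M' + 1) (j := M - 2) (by omega) ⟨cf1 c F, g1, g2, ?_⟩)
    rcases hF3 with h | h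
    · left
      rw [g3]
      exact mul_ne_zero hz h
    · right
      rw [g3]
      exact mul_ne_zero hz h
  have a2 : M' ≤ M := by
    by_contra hcon
    obtain ⟨F, hF1, hF2, hF3⟩ := h3'
    obtain ⟨g1, g2, g3, g4⟩ := D.cf2_prop hc hF1 hF2
    refine h4 (D.Lv_mono (i := M + 1) (j := M') (by omega) ⟨cf2 c F, g1, g2, ?_⟩)
    rcases hF3 with h | h
    · left
      exact fun h' => h (g3 h')
    · right
      exact fun h' => h (g4 h')
  constructor <;> omega

end Dgm

end Pool.Agent.Lib.MP_21eb54_gt
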