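import Mathlib

/-!
# Knot diagrams, Khovanov homology, Rasmussen's invariant, signature

A knot diagram on the sphere with the crossings `0, ..., n - 1`. Colour the regions black and white and
orient every arc of the diagram so that the black region is on its left (these orientations have
nothing to do with the orientation of the knot). At every crossing two opposite arcs come in and two
opposite arcs go out. In the counterclockwise order the four ends at the crossing `c` are:
entry `0`, exit `0`, entry `1`, exit `1`. An arc is denoted by its entry `(c, s)`; `out (c, s)` is the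
arc which leaves `c` through the exit `s`.
-/

set_option autoImplicit false

namespace Pool.Agent.Lib.MP_21eb54_gt

open MvPolynomial

/-- arcs, denoted by the crossing and the entry where they end -/
abbrev Arc (n : ℕ) := Fin n × Bool

/-- states -/
abbrev St (n : ℕ) := Fin n → Bool

variable {n : ℕ}

/-- The passage from entries to exits: entry `s` to exit `s` if `H c`, else to the other exit. -/
def flp (H : St n) : Equiv.Perm (Arc n) where
  toFun e := (e.1, if H e.1 then e.2 else !e.2)
  invFun e := (e.1, if H e.1 then e.2 else !e.2)
  left_inv e := by rcases e with ⟨c, s⟩; by_cases h : H c <;> simp [h]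
  right_inv e := by rcases e with ⟨c, s⟩; by_cases h : H c <;> simp [h]

/-- The smoothing `H`: the black regions at `c` are joined if `H c`, and separated if not. It is
described by the permutation which sends an arc to the next arc of its circle. -/
def sm (out : Equiv.Perm (Arc n)) (H : St n) : Equiv.Perm (Arc n) := (flp H).trans out

/-- the number of cycles (fixed points included) -/
noncomputable def cyc {α : Type*} (p : Equiv.Perm α) : ℕ :=
  Nat.card (Quotient (Equiv.Perm.SameCycle.setoid p))

/-- Two arcs which are opposite at a crossing, i.e. consecutive arcs of the knot. -/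
def Opp (out : Equiv.Perm (Arc n)) (e f : Arc n) : Prop :=
  ∃ c, (e = (c, false) ∧ f = (c, true)) ∨ (e = out (c, false) ∧ f = out (c, true))

/-- A diagram of an oriented knot on the sphere with `n` crossings. `ov c`: the over strand of `c`
consists of the two entries. `ori e`: the orientation of the knot is that of the arc `e`.
`knot`: there is one component. `planar`: Euler's formula for the sphere, the black (white) regions
correspond to the circles of the smoothing which separates (joins) the black regions everywhere. -/
structure Dgm (n : ℕ) where
  out : Equiv.Perm (Arc n)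
  ov : Fin n → Bool
  ori : Arc n → Bool
  ori_in : ∀ c, ori (c, true) = !ori (c, false)
  ori_out : ∀ c, ori (out (c, true)) = !ori (out (c, false))
  knot : ∀ e f, Relation.EqvGen (Opp out) e f
  planar : cyc (sm out fun _ => false) + cyc (sm out fun _ => true) = n + 2

/-- the number of crossings with `S c = true` -/
def nb (S : St n) : ℕ := (Finset.univ.filter fun c => S c = true).card

/-- the chains: a polynomial in the arcs for every state, to be read modulo the ideals `J` -/
abbrev Ch (n : ℕ) := St n → MvPolynomial (Arc n) ℚ

/-- the sign of an edge of the cube -/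
def sgn (S : St n) (c : Fin n) : ℚ := (-1) ^ (Finset.univ.filter fun b => b < c ∧ S b = true).card

namespace Dgm

variable (D : Dgm n)

/-- The sign of a crossing of the oriented knot. -/
def pos (c : Fin n) : Bool := D.ov c == (D.ori (c, false) == D.ori (D.out (c, true)))

/-- the number of positive crossings -/
def np : ℕ := (Finset.univ.filter fun c => D.pos c = true).card

/-- the number of negative crossings -/
def nn : ℕ := (Finset.univ.filter fun c => D.pos c = false).card

/-- The circles of the state `S`: the `0`-smoothing at the crossings with `S c = false`, the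
`1`-smoothing at the others. -/
def sp (S : St n) : Equiv.Perm (Arc n) := sm D.out fun c => S c == D.ov c

/-- the number of circles -/
noncomputable def circ (S : St n) : ℕ := cyc (D.sp S)

/-- Modulo this ideal, the polynomials in the arcs are the tensor product over the circles of `S` of
the algebras `ℚ[X] / (X ^ 2 - t)`. `t = 0` for Khovanov's homology, `t = 1` for Lee's. -/
noncomputable def J (t : ℚ) (S : St n) : Ideal (MvPolynomial (Arc n) ℚ) :=
  Ideal.span ((Set.range fun e => X e ^ 2 - C t) ∪ Set.range fun e => X (D.sp S e) - X e)

open Classical in
/-- The map from the state `S` to the state which differs from `S` at `c` is the multiplication by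
this element: `1` if two circles are merged, the sum of the two new circles if a circle is split. -/
noncomputable def th (S : St n) (c : Fin n) : MvPolynomial (Arc n) ℚ :=
  if (D.sp S).SameCycle (c, false) (c, true) then X (c, false) + X (c, true) else 1

/-- the differential -/
noncomputable def dif (F : Ch n) : Ch n := fun S =>
  ∑ c, if S c = true then
    C (sgn S c) * (D.th (Function.update S c false) c * F (Function.update S c false)) else 0

/-- Elements of the bidegree `(b, a)`: homological degree `b`, quantum degree `a`. -/
def Hom (b a : ℤ) (F : Ch n) : Prop :=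
  ∀ S, F S = 0 ∨ ((nb S : ℤ) - D.nn = b ∧ ∃ k : ℕ, (F S).IsHomogeneous k ∧
    (D.circ S : ℤ) - 2 * k + nb S + D.np - 2 * D.nn = a)

/-- Khovanov's homology is not zero in the bidegree `(b, a)`. -/
def KhNe (b a : ℤ) : Prop :=
  ∃ F, D.Hom b a F ∧ (∀ S, D.dif F S ∈ D.J 0 S) ∧
    ¬ ∃ G, D.Hom (b - 1) a G ∧ ∀ S, F S - D.dif G S ∈ D.J 0 S

/-- Khovanov's homology is supported on two adjacent diagonals. -/
def Thin : Prop := ∃ δ : ℤ, ∀ b a, D.KhNe b a → a - 2 * b = δ ∨ a - 2 * b = δ + 2

/-- Lee's filtration: the elements all of whose monomials have quantum degree at least `j`. -/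
def Fil (j : ℤ) (F : Ch n) : Prop :=
  ∀ S, F S = 0 ∨ j ≤ (D.circ S : ℤ) - 2 * (F S).totalDegree + nb S + D.np - 2 * D.nn

/-- Lee's cycles -/
def Cy (F : Ch n) : Prop := ∀ S, D.dif F S ∈ D.J 1 S

/-- the smallest filtration level of Lee's homology -/
noncomputable def smin : ℤ :=
  sSup {j : ℤ | ∀ F, D.Cy F → ∃ F' G, D.Fil j F' ∧ ∀ S, F S - F' S - D.dif G S ∈ D.J 1 S}

/-- the largest filtration level of Lee's homology -/
noncomputable def smax : ℤ :=
  sSup {j : ℤ | ∃ F, D.Cy F ∧ D.Fil j F ∧ ¬ ∃ G, ∀ S, F S - D.dif G S ∈ D.J 1 S}

/-- Rasmussen's invariant -/
noncomputable def s : ℤ := (D.smin + D.smax) / 2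

/-- the black regions -/
abbrev Reg : Type := Quotient (Equiv.Perm.SameCycle.setoid (sm D.out fun _ => false))

/-- The Goeritz form on the real functions on the black regions: the sum over the crossings, with the
sign `1` if the `0`-smoothing joins the black regions and `-1` if not, of the squares of the
differences of the values at the two black regions of the crossing. -/
noncomputable def gq (x : D.Reg → ℝ) : ℝ :=
  ∑ c, (if D.ov c then (-1 : ℝ) else 1) * (x (Quotient.mk _ (c, false)) - x (Quotient.mk _ (c, true))) ^ 2

/-- the largest dimension of a subspace on which `q` is positive -/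
noncomputable def _root_.Pool.Agent.Lib.MP_21eb54_gt.idx {E : Type*} [AddCommGroup E] [Module ℝ E]
    (q : E → ℝ) : ℕ :=
  sSup {k : ℕ | ∃ W : Submodule ℝ E, Module.finrank ℝ W = k ∧ ∀ x ∈ W, x ≠ 0 → 0 < q x}

/-- The signature of the knot (Gordon and Litherland), positive for positive knots. -/
noncomputable def sig : ℤ :=
  (idx D.gq : ℤ) - idx (fun x => -D.gq x) + D.np - (Finset.univ.filter fun c => D.ov c = false).card

/-- the Turaev genus of the diagram -/
noncomputable def gT : ℤ :=
  ((n : ℤ) + 2 - D.circ (fun _ => false) - D.circ (fun _ => true)) / 2

/-- the diagram with the crossing `c` changed -/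
def chg (c : Fin n) : Dgm n := { D with ov := Function.update D.ov c (!D.ov c) }

end Dgm

end Pool.Agent.Lib.MP_21eb54_gt
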