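import Pool.Agent.Lib.MP_21eb54_gt.Defs

/-!
# Auxiliary definitions

Faces of the cube of states, gradings, closed sets of arcs, reflections, evaluations.
-/

set_option autoImplicit false

namespace Pool.Agent.Lib.MP_21eb54_gt

open MvPolynomial

variable {n : ℕ}

/-- The ideal of the cycles of a permutation: `D.J t S = JJ t (D.sp S)` by `rfl`. -/
noncomputable def JJ {α : Type*} (t : ℚ) (π : Equiv.Perm α) : Ideal (MvPolynomial α ℚ) :=
  Ideal.span ((Set.range fun e => X e ^ 2 - C t) ∪ Set.range fun e => X (π e) - X e)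

theorem Dgm.J_eq (D : Dgm n) (t : ℚ) (S : St n) : D.J t S = JJ t (D.sp S) := rfl

/-- the number of the cycles which meet `Z` -/
noncomputable def cyZ {α : Type*} (Z : Set α) (π : Equiv.Perm α) : ℕ :=
  Nat.card {k : Quotient (Equiv.Perm.SameCycle.setoid π) // ∃ e ∈ Z, Quotient.mk _ e = k}

open Classical in
/-- the part of a polynomial whose monomials satisfy `P` -/
noncomputable def pt {α : Type*} (P : (α →₀ ℕ) → Prop) (f : MvPolynomial α ℚ) : MvPolynomial α ℚ :=
  ∑ m ∈ f.support.filter P, monomial m (coeff m f)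

open Classical in
theorem coeff_pt {α : Type*} (P : (α →₀ ℕ) → Prop) (f : MvPolynomial α ℚ) (m : α →₀ ℕ) :
    coeff m (pt P f) = if P m then coeff m f else 0 := by
  unfold pt
  rw [coeff_sum]
  simp only [coeff_monomial]
  rw [Finset.sum_ite_eq']
  by_cases h1 : P m
  · by_cases h2 : coeff m f = 0
    · simp [h1, h2]
    · simp [h1, h2]
  · simp [h1]

/-- the ideal contains the homogeneous components of its elements -/
def Hm {α : Type*} (A : Ideal (MvPolynomial α ℚ)) : Prop :=
  ∀ f ∈ A, ∀ k, homogeneousComponent k f ∈ A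

/-- Faces of the cube of states: `Φ c = none` if the crossing `c` is free, `Φ c = some b` if the states
of the face have the value `b` at `c`. -/
abbrev Fc (n : ℕ) := Fin n → Option Bool

/-- the state `S` is in the face `Φ` -/
def InF (Φ : Fc n) (S : St n) : Prop := ∀ c b, Φ c = some b → S c = b

/-- the face of `Φ` where the value at `c` is `b` -/
def fc (Φ : Fc n) (c : Fin n) (b : Bool) : Fc n := Function.update Φ c (some b)

/-- the whole cube -/
def full (n : ℕ) : Fc n := fun _ => none

/-- the sign of the passage from `S c = false` to `S c = true` or back -/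
def zt (c : Fin n) (S : St n) : ℚ := (-1) ^ (Finset.univ.filter fun b => c < b ∧ S b = true).card

open Classical in
/-- the reflection `X e ↦ -X e` for the arcs of `Z` -/
noncomputable def al (Z : Set (Arc n)) : MvPolynomial (Arc n) ℚ →ₐ[ℚ] MvPolynomial (Arc n) ℚ :=
  aeval fun e => (if e ∈ Z then -X e else X e)

/-- the evaluation `X e ↦ 1` or `-1` -/
noncomputable def evl {α : Type*} (ε : α → Bool) : MvPolynomial α ℚ →ₐ[ℚ] ℚ :=
  aeval fun e => (if ε e then (1 : ℚ) else -1)

/-- the idempotent of `ε` -/
noncomputable def idm {α : Type*} [Fintype α] (ε : α → Bool) : MvPolynomial α ℚ :=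
  ∏ e, C (1 / 2) * (1 + C (if ε e then (1 : ℚ) else -1) * X e)

namespace Dgm

variable (D : Dgm n)

/-- the differential of a face -/
noncomputable def dfF (Φ : Fc n) (F : Ch n) : Ch n := fun S =>
  ∑ c, if Φ c = none ∧ S c = true then
    C (sgn S c) * (D.th (Function.update S c false) c * F (Function.update S c false)) else 0

/-- The grading which the differential lowers by `2`: quantum degree minus twice the homological
degree, minus `np`. -/
noncomputable def wt (S : St n) (m : Arc n →₀ ℕ) : ℤ := (D.circ S : ℤ) - 2 * (m.degree : ℤ) - nb S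

/-- the quantum degree -/
noncomputable def qd (S : St n) (m : Arc n →₀ ℕ) : ℤ :=
  (D.circ S : ℤ) - 2 * (m.degree : ℤ) + nb S + D.np - 2 * D.nn

/-- homogeneous chains of a face -/
def Gr (Φ : Fc n) (w h : ℤ) (F : Ch n) : Prop :=
  ∀ S, InF Φ S → ∀ m, coeff m (F S) ≠ 0 → (nb S : ℤ) = h ∧ D.wt S m = w

/-- The homology of the face with the coefficients reduced modulo `A` is zero in the bidegree
`(w, h)`. -/
def Ex (Φ : Fc n) (A : Ideal (MvPolynomial (Arc n) ℚ)) (w h : ℤ) : Prop :=
  ∀ F, D.Gr Φ w h F → (∀ S, InF Φ S → D.dfF Φ F S ∈ D.J 0 S ⊔ A) →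
    ∃ G, D.Gr Φ (w + 2) (h - 1) G ∧ ∀ S, InF Φ S → F S - D.dfF Φ G S ∈ D.J 0 S ⊔ A

/-- `Z` is a union of circles for every state of the face -/
def Cl (Φ : Fc n) (Z : Set (Arc n)) : Prop := ∀ S, InF Φ S → ∀ e, (D.sp S e ∈ Z ↔ e ∈ Z)

/-- the diagrams of the face are connected -/
def Cn (Φ : Fc n) : Prop := ∀ Z, D.Cl Φ Z → Z = ∅ ∨ Z = Set.univ

open Classical in
/-- a sign: `lam` changes when a circle in `Z` is split, and only then -/
noncomputable def lam (Z : Set (Arc n)) (S : St n) : ℚ :=
  (-1) ^ ((cyZ Z (D.sp S) +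
    (Finset.univ.filter fun c => (c, false) ∈ Z ∧ (c, true) ∈ Z ∧ S c = true).card) / 2)

/-- The comparison of the two faces `fc Φ c b` and `fc Φ c (!b)` when the first is disconnected. -/
noncomputable def tw (c : Fin n) (b : Bool) (Z : Set (Arc n)) (u : Ch n) : Ch n := fun S =>
  C (zt c S * D.lam Z (Function.update S c b)) * al Z (u (Function.update S c (!S c)))

/-- `ε` is constant on the circles of `S` -/
def Cmp (ε : Arc n → Bool) (S : St n) : Prop := ∀ e, ε (D.sp S e) = ε e

/-- the oriented smoothing -/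
def So : St n := fun c => !D.pos c

/-- the opposite orientation -/
def ori' : Arc n → Bool := fun e => !D.ori e

/-- the evaluation at the oriented smoothing -/
noncomputable def Lf (ε : Arc n → Bool) (F : Ch n) : ℚ := evl ε (F D.So)

/-- the part of a chain whose quantum degrees satisfy `P` -/
noncomputable def ptF (P : ℤ → Prop) (F : Ch n) : Ch n := fun S => pt (fun m => P (D.qd S m)) (F S)

open Classical in
/-- the incidence of the black region `u` and the crossing `c` -/
noncomputable def Nm (c : Fin n) (u : D.Reg) : ℝ :=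
  (if u = Quotient.mk _ (c, false) then 1 else 0) - (if u = Quotient.mk _ (c, true) then 1 else 0)

/-- the reduced Laplace matrix with the weights `y` -/
noncomputable def Lr (r : D.Reg) (y : Fin n → ℝ) :
    Matrix {u : D.Reg // u ≠ r} {u : D.Reg // u ≠ r} ℝ :=
  Matrix.of fun u v => ∑ c, y c * D.Nm c u.1 * D.Nm c v.1

/-- the functions which are constant on the black regions joined by `H` -/
def Wd (H : St n) : Submodule ℝ (Arc n → ℝ) where
  carrier := {x | (∀ e, x (sm D.out (fun _ => false) e) = x e) ∧
    ∀ c, H c = true → x (c, false) = x (c, true)}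
  add_mem' := by
    rintro x y ⟨h1, h2⟩ ⟨h3, h4⟩
    exact ⟨fun e => by simp [h1 e, h3 e], fun c hc => by simp [h2 c hc, h4 c hc]⟩
  zero_mem' := ⟨fun _ => rfl, fun _ _ => rfl⟩
  smul_mem' := by
    rintro a x ⟨h1, h2⟩
    exact ⟨fun e => by simp [h1 e], fun c hc => by simp [h2 c hc]⟩

/-- the number of connected components of the black graph with the edges `H` -/
noncomputable def kd (H : St n) : ℕ := Module.finrank ℝ (D.Wd H)

end Dgm

end Pool.Agent.Lib.MP_21eb54_gt
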