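import Pool.Agent.Lib.MP_21eb54_gt.DefsB

/-!
# Signs and faces
-/

set_option autoImplicit false

namespace Pool.Agent.Lib.MP_21eb54_gt

open Equiv MvPolynomial

variable {n : ℕ}

theorem DifA_card (P : Fin n → Prop) [DecidablePred P] (S : St n) (c : Fin n) (hc : P c) :
    (Finset.univ.filter fun b => P b ∧ Function.update S c true b = true).card =
      (Finset.univ.filter fun b => P b ∧ Function.update S c false b = true).card + 1 := by
  have h1 : (Finset.univ.filter fun b => P b ∧ Function.update S c true b = true) =
      insert c (Finset.univ.filter fun b => P b ∧ Function.update S c false b = true) := by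
    ext b
    simp only [Finset.mem_filter, Finset.mem_univ, true_and, Finset.mem_insert]
    by_cases hb : b = c
    · subst hb
      simp [hc]
    · simp [hb]
  rw [h1, Finset.card_insert_of_notMem]
  simp

theorem DifA_same (P : Fin n → Prop) [DecidablePred P] (S : St n) (c : Fin n) (x : Bool)
    (hc : ¬ P c) :
    (Finset.univ.filter fun b => P b ∧ Function.update S c x b = true) =
      (Finset.univ.filter fun b => P b ∧ S b = true) := by
  ext b
  simp only [Finset.mem_filter, Finset.mem_univ, true_and]
  by_cases hb : b = c
  · subst hb
    simp [hc]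
  · simp [Function.update_of_ne hb]

/-- the sign changes if a value is changed inside the set of the `b` with `P b` -/
theorem DifA_pow (P : Fin n → Prop) [DecidablePred P] (S : St n) (c : Fin n) (hc : P c) :
    ((-1 : ℚ)) ^ (Finset.univ.filter fun b => P b ∧ Function.update S c (!S c) b = true).card =
      - (-1) ^ (Finset.univ.filter fun b => P b ∧ S b = true).card := by
  have h1 := DifA_card P S c hc
  cases hS : S c
  · have h2 : Function.update S c false = S := by
      rw [← hS]; exact Function.update_eq_self c S
    rw [h2] at h1
    simp only [Bool.not_false]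
    rw [h1, pow_succ]
    ring
  · have h2 : Function.update S c true = S := by
      rw [← hS]; exact Function.update_eq_self c S
    rw [h2] at h1
    simp only [Bool.not_true]
    rw [h1, pow_succ]
    ring

/-- The number of `b < c` with `S b = true` does not depend on `S c`. -/
theorem sgn_up (S : St n) (c : Fin n) (b : Bool) : sgn (Function.update S c b) c = sgn S c := by
  unfold sgn
  rw [DifA_same (fun b => b < c) S c b (lt_irrefl c)]

theorem sgn_sq (S : St n) (c : Fin n) : sgn S c * sgn S c = 1 := by
  unfold sgn
  rw [← mul_pow]
  simp

theorem DifA_lt {S : St n} {c c' : Fin n} (h : c < c') :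
    sgn (Function.update S c (!S c)) c' = - sgn S c' := by
  unfold sgn
  exact DifA_pow (fun b => b < c') S c h

theorem DifA_gt {S : St n} {c c' : Fin n} (h : c' < c) (x : Bool) :
    sgn (Function.update S c x) c' = sgn S c' := by
  unfold sgn
  rw [DifA_same (fun b => b < c') S c x (not_lt.mpr h.le)]

theorem DifA_zlt {S : St n} {c c' : Fin n} (h : c' < c) :
    zt c' (Function.update S c (!S c)) = - zt c' S := by
  unfold zt
  exact DifA_pow (fun b => c' < b) S c h

theorem DifA_zgt {S : St n} {c c' : Fin n} (h : c < c') (x : Bool) :
    zt c' (Function.update S c x) = zt c' S := by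
  unfold zt
  rw [DifA_same (fun b => c' < b) S c x (not_lt.mpr h.le)]

/-- anticommutation of the signs (`S c = S c' = false`; compare `c < c'` and `c' < c`) -/
theorem sgn_comm {S : St n} {c c' : Fin n} (hc : S c = false) (hc' : S c' = false) (hne : c ≠ c') :
    sgn S c * sgn (Function.update S c true) c' = - (sgn S c' * sgn (Function.update S c' true) c) := by
  rcases lt_or_gt_of_ne hne with h | h
  · have h1 := DifA_lt (S := S) h
    rw [hc, Bool.not_false] at h1
    rw [h1, DifA_gt (S := S) h true]
    ring
  · have h1 := DifA_lt (S := S) h
    rw [hc', Bool.not_false] at h1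
    rw [h1, DifA_gt (S := S) h true]
    ring

/-- the sign `zt` (for `T c' = true`, `c' ≠ c`; compare `c < c'` and `c' < c`): the sign of `c'` in the
state where `c` is flipped -/
theorem sgn_zt {T : St n} {c c' : Fin n} (hc' : T c' = true) (hne : c ≠ c') :
    sgn (Function.update T c (!T c)) c' * zt c T = sgn T c' * zt c (Function.update T c' false) := by
  rcases lt_or_gt_of_ne hne with h | h
  · have h1 := DifA_zlt (S := T) h
    rw [hc', Bool.not_true] at h1
    rw [h1, DifA_lt (S := T) h]
    ring
  · rw [DifA_gt (S := T) h, DifA_zgt (S := T) h]

theorem zt_up (S : St n) (c : Fin n) (b : Bool) : zt c (Function.update S c b) = zt c S := by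
  unfold zt
  rw [DifA_same (fun b => c < b) S c b (lt_irrefl c)]

theorem zt_sq (S : St n) (c : Fin n) : zt c S * zt c S = 1 := by
  unfold zt
  rw [← mul_pow]
  simp

theorem InF_full (S : St n) : InF (full n) S := by
  intro c b h
  simp [full] at h

/-- the lower state is in the face -/
theorem InF_dn {Φ : Fc n} {S : St n} {c : Fin n} (h : InF Φ S) (hc : Φ c = none) (b : Bool) :
    InF Φ (Function.update S c b) := by
  intro c' b' h'
  have hne : c' ≠ c := by
    rintro rfl
    rw [hc] at h'
    cases h'
  rw [Function.update_of_ne hne]
  exact h c' b' h'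

theorem InF_fc {Φ : Fc n} {S : St n} {c : Fin n} (hc : Φ c = none) {b : Bool} :
    InF (fc Φ c b) S ↔ InF Φ S ∧ S c = b := by
  constructor
  · intro h
    refine ⟨fun c' b' h' => ?_, ?_⟩
    · have hne : c' ≠ c := by
        rintro rfl
        rw [hc] at h'
        cases h'
      apply h c' b'
      unfold fc
      rw [Function.update_of_ne hne]
      exact h'
    · apply h c b
      unfold fc
      rw [Function.update_self]
  · rintro ⟨h1, h2⟩ c' b' h'
    unfold fc at h'
    by_cases hcc : c' = c
    · subst hcc
      rw [Function.update_self] at h'
      cases h'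
      exact h2
    · rw [Function.update_of_ne hcc] at h'
      exact h1 c' b' h'

end Pool.Agent.Lib.MP_21eb54_gt
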