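import Pool.Agent.Lib.MP_21eb54_gt.JIa

/-!
# The faces of dimension two commute
-/

set_option autoImplicit false

namespace Pool.Agent.Lib.MP_21eb54_gt

open Equiv MvPolynomial

variable {n : ℕ} {t : ℚ}

theorem ThA_circ (D : Dgm n) {S : St n} {c : Fin n} (hc : S c = false) :
    ((D.sp S).SameCycle (c, false) (c, true) →
      D.circ (Function.update S c true) = D.circ S + 1) ∧
    (¬ (D.sp S).SameCycle (c, false) (c, true) →
      D.circ (Function.update S c true) + 1 = D.circ S) := by
  have h0 : (!S c) = true := by rw [hc]; rfl
  constructor
  · intro h
    have h1 := D.circ_flip_split h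
    rw [h0] at h1
    exact h1
  · intro h
    have h1 := D.circ_flip_merge h
    rw [h0] at h1
    exact h1

/-- if `p ~ p'` and `q ~ q'`, or `p ~ q'` and `q ~ p'`, the sums agree modulo the ideal -/
theorem ThA_sum {α : Type*} [DecidableEq α] [Finite α] {π : Perm α} {p q p' q' : α} {t : ℚ}
    (h : (π.SameCycle p p' ∧ π.SameCycle q q') ∨ (π.SameCycle p q' ∧ π.SameCycle q p')) :
    (X p + X q) - (X p' + X q') ∈ JJ t π := by
  rcases h with ⟨h1, h2⟩ | ⟨h1, h2⟩
  · have h3 : ((X p + X q) - (X p' + X q') : MvPolynomial α ℚ) = (X p - X p') + (X q - X q') := by
      ring
    rw [h3]
    exact Ideal.add_mem _ (JJ_same h1) (JJ_same h2)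
  · have h3 : ((X p + X q) - (X p' + X q') : MvPolynomial α ℚ) = (X p - X q') + (X q - X p') := by
      ring
    rw [h3]
    exact Ideal.add_mem _ (JJ_same h1) (JJ_same h2)

/-- the case of two splits followed by two merges -/
theorem ThA_split {α : Type*} [DecidableEq α] [Finite α] {π : Perm α} {p q p' q' : α}
    (hpq : p ≠ q) (hA : π.SameCycle p q) (hA' : π.SameCycle p' q')
    (hB' : ¬ (π * swap p q).SameCycle p' q') :
    (((π * swap p q) * swap p' q').SameCycle p p' ∧ ((π * swap p q) * swap p' q').SameCycle q q') ∨
    (((π * swap p q) * swap p' q').SameCycle p q' ∧ ((π * swap p q) * swap p' q').SameCycle q p') := by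
  have h1 : ¬ (π * swap p q).SameCycle p q := sc_split hpq hA
  have h2 := (sc_iff h1 p' q').1 (by rw [mul_swap_swap]; exact hA')
  have h3 : ∀ x y, (π * swap p q).SameCycle x y →
      ((π * swap p q) * swap p' q').SameCycle x y := fun x y h => (sc_iff hB' x y).2 (Or.inl h)
  rcases h2 with h2 | ⟨h2, h4⟩
  · exact absurd h2 hB'
  · rcases h2 with h2 | h2
    · rcases h4 with h4 | h4
      · exact absurd (h2.trans h4.symm) hB'
      · exact Or.inl ⟨h3 _ _ h2.symm, h3 _ _ h4.symm⟩
    · rcases h4 with h4 | h4
      · exact Or.inr ⟨h3 _ _ h4.symm, h3 _ _ h2.symm⟩
      · exact absurd (h2.trans h4.symm) hB'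

/-- the case of two merges followed by two splits -/
theorem ThA_merge {α : Type*} [DecidableEq α] [Finite α] {π : Perm α} {p q p' q' : α}
    (hpq' : p' ≠ q') (hA : ¬ π.SameCycle p q)
    (hB' : (π * swap p q).SameCycle p' q')
    (h3 : ¬ ((π * swap p q) * swap p' q').SameCycle p q) :
    (((π * swap p q) * swap p' q').SameCycle p p' ∧ ((π * swap p q) * swap p' q').SameCycle q q') ∨
    (((π * swap p q) * swap p' q').SameCycle p q' ∧ ((π * swap p q) * swap p' q').SameCycle q p') := by
  have h1 : ¬ ((π * swap p q) * swap p' q').SameCycle p' q' := sc_split hpq' hB'
  have h2 := (sc_iff h1 p q).1 (by rw [mul_swap_swap]; exact sc_merge hA)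
  rcases h2 with h2 | ⟨h2, h4⟩
  · exact absurd h2 h3
  · rcases h2 with h2 | h2
    · rcases h4 with h4 | h4
      · exact absurd (h2.trans h4.symm) h3
      · exact Or.inl ⟨h2, h4⟩
    · rcases h4 with h4 | h4
      · exact Or.inr ⟨h2, h4⟩
      · exact absurd (h2.trans h4.symm) h3

/-- Write `S1 = S + c`, `S2 = S + c'`, `S3 = S + c + c'`, `p, q` the entries at `c`, `p', q'` those at
`c'`. The number of circles changes by `a, b` on the path `S, S1, S3` and by `a', b'` on the path
`S, S2, S3`, each `1` or `-1`, and `a + b = a' + b'` (`circ_flip_split`, `circ_flip_merge`).
If `a + b = -2`, all factors are `1`. If `a + b = 2`, both products are `(X p + X q) * (X p' + X q')`.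
If `a + b = 0` there are four cases:
* `a = a' = 1` (both first steps split, both second steps merge): the products are `X p + X q` and
  `X p' + X q'`. The pair `p', q'` is in one circle of `S` but in two circles of `S1`; so (by `sc_iff` for
  the step back from `S1` to `S`) one of them is in the circle of `p` and the other in that of `q` in
  `S1`. Hence in `S3` (coarser than `S1`) all of `p, q, p', q'` are in the same circle, and both sums are
  `2 * X p` modulo `J` (`JJ_same`).
* `a = a' = -1` (first merge, then split): the products are `X p' + X q'` and `X p + X q`.
  In `S1` the circle `K` of `p, q` contains `p', q'` (they are in the same circle of `S1` but not of `S`,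
  so one is in the circle of `p` and one in that of `q` in `S`, by `sc_iff`). From `S1` to `S3` the circle
  `K` is split in two, that of `p'` and that of `q'`; `p` and `q` are in them (`sc_iff` for the step back
  from `S3` to `S1`), and not in the same circle of `S3` (the step from `S2` to `S3` splits `p, q`). So
  either `p ~ p', q ~ q'` or `p ~ q', q ~ p'` in `S3` and the sums agree modulo `J` (`JJ_same`).
* `a = 1, a' = -1`: first path: split `c`, merge `c'`: `X p + X q`; second path: merge `c'`, split `c`:
  `X p + X q`.
* `a = -1, a' = 1`: both products are `X p' + X q'`. -/
theorem Dgm.th_comm (D : Dgm n) {S : St n} {c c' : Fin n} (hc : S c = false) (hc' : S c' = false)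
    (hne : c ≠ c') :
    D.th (Function.update S c true) c' * D.th S c - D.th (Function.update S c' true) c * D.th S c' ∈
      D.J t (Function.update (Function.update S c true) c' true) := by
  classical
  have e1 : Function.update S c true c' = false := by
    rw [Function.update_of_ne hne.symm]; exact hc'
  have e2 : Function.update S c' true c = false := by
    rw [Function.update_of_ne hne]; exact hc
  have e3 : Function.update (Function.update S c true) c' true =
      Function.update (Function.update S c' true) c true := Function.update_comm hne _ _ _
  have s1 := D.sp_up hc
  have s2 := D.sp_up hc'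
  have s31 := D.sp_up e1
  have s32 := D.sp_up e2
  have k1 := ThA_circ D hc
  have k2 := ThA_circ D hc'
  have k31 := ThA_circ D e1
  have k32 := ThA_circ D e2
  rw [← e3] at k32 s32
  have hpq : ((c, false) : Arc n) ≠ (c, true) := by simp
  have hpq' : ((c', false) : Arc n) ≠ (c', true) := by simp
  rw [D.J_eq]
  unfold Dgm.th
  by_cases hA : (D.sp S).SameCycle (c, false) (c, true)
  · by_cases hA' : (D.sp S).SameCycle (c', false) (c', true)
    · by_cases hB' : (D.sp (Function.update S c true)).SameCycle (c', false) (c', true)
      · by_cases hB : (D.sp (Function.update S c' true)).SameCycle (c, false) (c, true)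
        · rw [if_pos hA, if_pos hA', if_pos hB', if_pos hB, mul_comm, sub_self]
          exact Ideal.zero_mem _
        · exfalso
          have := k1.1 hA
          have := k2.1 hA'
          have := k31.1 hB'
          have := k32.2 hB
          omega
      · by_cases hB : (D.sp (Function.update S c' true)).SameCycle (c, false) (c, true)
        · exfalso
          have := k1.1 hA
          have := k2.1 hA'
          have := k31.2 hB'
          have := k32.1 hB
          omega
        · rw [if_pos hA, if_pos hA', if_neg hB', if_neg hB, one_mul, one_mul]
          apply ThA_sum
          rw [s31, s1]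
          rw [s1] at hB'
          exact ThA_split hpq hA hA' hB'
    · by_cases hB' : (D.sp (Function.update S c true)).SameCycle (c', false) (c', true)
      · exfalso
        have := k1.1 hA
        have := k2.2 hA'
        have := k31.1 hB'
        by_cases hB : (D.sp (Function.update S c' true)).SameCycle (c, false) (c, true)
        · have := k32.1 hB
          omega
        · have := k32.2 hB
          omega
      · by_cases hB : (D.sp (Function.update S c' true)).SameCycle (c, false) (c, true)
        · rw [if_pos hA, if_neg hA', if_neg hB', if_pos hB, one_mul, mul_one, sub_self]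
          exact Ideal.zero_mem _
        · exfalso
          have := k1.1 hA
          have := k2.2 hA'
          have := k31.2 hB'
          have := k32.2 hB
          omega
  · by_cases hA' : (D.sp S).SameCycle (c', false) (c', true)
    · by_cases hB' : (D.sp (Function.update S c true)).SameCycle (c', false) (c', true)
      · by_cases hB : (D.sp (Function.update S c' true)).SameCycle (c, false) (c, true)
        · exfalso
          have := k1.2 hA
          have := k2.1 hA'
          have := k31.1 hB'
          have := k32.1 hB
          omega
        · rw [if_neg hA, if_pos hA', if_pos hB', if_neg hB, one_mul, mul_one, sub_self]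
          exact Ideal.zero_mem _
      · exfalso
        have := k1.2 hA
        have := k2.1 hA'
        have := k31.2 hB'
        by_cases hB : (D.sp (Function.update S c' true)).SameCycle (c, false) (c, true)
        · have := k32.1 hB
          omega
        · have := k32.2 hB
          omega
    · by_cases hB' : (D.sp (Function.update S c true)).SameCycle (c', false) (c', true)
      · by_cases hB : (D.sp (Function.update S c' true)).SameCycle (c, false) (c, true)
        · rw [if_neg hA, if_neg hA', if_pos hB', if_pos hB, mul_one, mul_one]
          have h5 : ¬ (D.sp (Function.update (Function.update S c true) c' true)).SameCycle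
              (c, false) (c, true) := by
            rw [s32]
            exact sc_split hpq hB
          have h6 : ((D.sp (Function.update (Function.update S c true) c' true)).SameCycle
              (c, false) (c', false) ∧
              (D.sp (Function.update (Function.update S c true) c' true)).SameCycle
              (c, true) (c', true)) ∨
              ((D.sp (Function.update (Function.update S c true) c' true)).SameCycle
              (c, false) (c', true) ∧
              (D.sp (Function.update (Function.update S c true) c' true)).SameCycle
              (c, true) (c', false)) := by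
            rw [s31, s1] at h5 ⊢
            rw [s1] at hB'
            exact ThA_merge hpq' hA hB' h5
          have h7 := ThA_sum (t := t) h6
          have h8 := Ideal.neg_mem_iff _ |>.2 h7
          rw [neg_sub] at h8
          exact h8
        · exfalso
          have := k1.2 hA
          have := k2.2 hA'
          have := k31.1 hB'
          have := k32.2 hB
          omega
      · by_cases hB : (D.sp (Function.update S c' true)).SameCycle (c, false) (c, true)
        · exfalso
          have := k1.2 hA
          have := k2.2 hA'
          have := k31.2 hB'
          have := k32.1 hB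
          omega
        · rw [if_neg hA, if_neg hA', if_neg hB', if_neg hB, sub_self]
          exact Ideal.zero_mem _

end Pool.Agent.Lib.MP_21eb54_gt
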