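import Pool.Agent.Lib.MP_21eb54_gt.DifA
import Pool.Agent.Lib.MP_21eb54_gt.ThA

/-!
# The differential of a face of the cube
-/

set_option autoImplicit false

namespace Pool.Agent.Lib.MP_21eb54_gt

open Equiv MvPolynomial

variable {n : ℕ} {t : ℚ}

namespace Dgm

variable (D : Dgm n)

theorem dfF_full (F : Ch n) : D.dfF (full n) F = D.dif F := by
  funext S
  unfold dfF dif full
  refine Finset.sum_congr rfl fun c _ => ?_
  by_cases h : S c = true
  · rw [if_pos ⟨rfl, h⟩, if_pos h]
  · rw [if_neg (fun h' => h h'.2), if_neg h]

theorem dfF_add (Φ : Fc n) (F G : Ch n) : D.dfF Φ (F + G) = D.dfF Φ F + D.dfF Φ G := by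
  funext S
  rw [Pi.add_apply]
  unfold dfF
  rw [← Finset.sum_add_distrib]
  refine Finset.sum_congr rfl fun c _ => ?_
  by_cases h : Φ c = none ∧ S c = true
  · rw [if_pos h, if_pos h, if_pos h, Pi.add_apply]
    ring
  · rw [if_neg h, if_neg h, if_neg h, add_zero]

theorem dfF_sub (Φ : Fc n) (F G : Ch n) : D.dfF Φ (F - G) = D.dfF Φ F - D.dfF Φ G := by
  funext S
  rw [Pi.sub_apply]
  unfold dfF
  rw [← Finset.sum_sub_distrib]
  refine Finset.sum_congr rfl fun c _ => ?_
  by_cases h : Φ c = none ∧ S c = true
  · rw [if_pos h, if_pos h, if_pos h, Pi.sub_apply]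
    ring
  · rw [if_neg h, if_neg h, if_neg h, sub_zero]

/-- the differential is linear over the polynomials -/
theorem dfF_mul (Φ : Fc n) (a : MvPolynomial (Arc n) ℚ) (F : Ch n) :
    D.dfF Φ (fun S => a * F S) = fun S => a * D.dfF Φ F S := by
  funext S
  unfold dfF
  rw [Finset.mul_sum]
  refine Finset.sum_congr rfl fun c _ => ?_
  by_cases h : Φ c = none ∧ S c = true
  · rw [if_pos h, if_pos h]
    ring
  · rw [if_neg h, if_neg h, mul_zero]

/-- the value of the differential at `S` only depends on the values at the states of the face -/
theorem dfF_congr {Φ : Fc n} {F G : Ch n} (h : ∀ S, InF Φ S → F S = G S) {S : St n} (hS : InF Φ S) :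
    D.dfF Φ F S = D.dfF Φ G S := by
  unfold dfF
  refine Finset.sum_congr rfl fun c _ => ?_
  by_cases hc : Φ c = none ∧ S c = true
  · rw [if_pos hc, if_pos hc, h _ (InF_dn hS hc.1 false)]
  · rw [if_neg hc, if_neg hc]

/-- `Dgm.th_mem` and `Ideal.mul_mem_left` for every term -/
theorem dfF_mem {Φ : Fc n} {A : Ideal (MvPolynomial (Arc n) ℚ)} {F : Ch n}
    (h : ∀ S, InF Φ S → F S ∈ D.J t S ⊔ A) {S : St n} (hS : InF Φ S) :
    D.dfF Φ F S ∈ D.J t S ⊔ A := by
  unfold dfF
  refine Ideal.sum_mem _ fun c _ => ?_
  by_cases hc : Φ c = none ∧ S c = true
  · rw [if_pos hc]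
    refine Ideal.mul_mem_left _ _ ?_
    obtain ⟨f, hf, a, ha, hfa⟩ := Submodule.mem_sup.1 (h _ (InF_dn hS hc.1 false))
    rw [← hfa, mul_add]
    refine Submodule.add_mem_sup ?_ (Ideal.mul_mem_left _ _ ha)
    have h1 := D.th_mem (t := t) (S := Function.update S c false) (c := c)
      (Function.update_self c false S) hf
    rwa [Function.update_idem, ← hc.2, Function.update_eq_self] at h1
  · rw [if_neg hc]
    exact Ideal.zero_mem _

/-- The square of the differential: the terms for `(c, c')` and `(c', c)` cancel modulo `J t S` by
`Dgm.th_comm` (for the state `S - c - c'`) and `sgn_comm`. -/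
theorem dfF_dfF (Φ : Fc n) (F : Ch n) (S : St n) : D.dfF Φ (D.dfF Φ F) S ∈ D.J t S := by
  obtain ⟨T, hT⟩ : ∃ T : Fin n → Fin n → MvPolynomial (Arc n) ℚ, ∀ c c', T c c' =
      if (Φ c = none ∧ S c = true) ∧ (Φ c' = none ∧ Function.update S c false c' = true) then
        C (sgn S c) * (D.th (Function.update S c false) c *
          (C (sgn (Function.update S c false) c') *
            (D.th (Function.update (Function.update S c false) c' false) c' *
              F (Function.update (Function.update S c false) c' false)))) else 0 := ⟨_, fun _ _ => rfl⟩
  have h1 : D.dfF Φ (D.dfF Φ F) S = ∑ c, ∑ c', T c c' := by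
    unfold dfF
    refine Finset.sum_congr rfl fun c _ => ?_
    by_cases hc : Φ c = none ∧ S c = true
    · rw [if_pos hc, Finset.mul_sum, Finset.mul_sum]
      refine Finset.sum_congr rfl fun c' _ => ?_
      rw [hT]
      by_cases hc' : Φ c' = none ∧ Function.update S c false c' = true
      · rw [if_pos hc', if_pos ⟨hc, hc'⟩]
      · rw [if_neg hc', if_neg fun h => hc' h.2, mul_zero, mul_zero]
    · rw [if_neg hc]
      refine (Finset.sum_eq_zero fun c' _ => ?_).symm
      rw [hT, if_neg fun h => hc h.1]
  have h2 : ∀ c c', T c c' + T c' c ∈ D.J t S := by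
    intro c c'
    by_cases hne : c = c'
    · subst hne
      have h3 : T c c = 0 := by
        rw [hT, if_neg]
        rintro ⟨_, _, h4⟩
        rw [Function.update_self] at h4
        exact Bool.false_ne_true h4
      rw [h3, add_zero]
      exact Ideal.zero_mem _
    · have hne' : ¬ c' = c := fun h => hne h.symm
      rw [hT c c', hT c' c, Function.update_of_ne hne', Function.update_of_ne hne]
      by_cases hcc : (Φ c = none ∧ S c = true) ∧ (Φ c' = none ∧ S c' = true)
      · rw [if_pos hcc, if_pos ⟨hcc.2, hcc.1⟩]
        obtain ⟨⟨_, hc⟩, _, hc'⟩ := hcc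
        have hcomm : Function.update (Function.update S c' false) c false =
            Function.update (Function.update S c false) c' false :=
          Function.update_comm hne' false false S
        rw [hcomm]
        obtain ⟨R, hR⟩ : ∃ R : St n, R = Function.update (Function.update S c false) c' false := ⟨_, rfl⟩
        rw [← hR]
        have hRc : R c = false := by
          rw [hR, Function.update_of_ne hne, Function.update_self]
        have hRc' : R c' = false := by
          rw [hR, Function.update_self]
        have hA : Function.update S c false = Function.update R c' true := by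
          rw [hR, Function.update_idem]
          have h5 : Function.update S c false c' = true := by
            rw [Function.update_of_ne hne', hc']
          rw [← h5, Function.update_eq_self]
        have hB : Function.update S c' false = Function.update R c true := by
          rw [hR, ← hcomm, Function.update_idem]
          have h5 : Function.update S c' false c = true := by
            rw [Function.update_of_ne hne, hc]
          rw [← h5, Function.update_eq_self]
        have hS : Function.update (Function.update R c true) c' true = S := by
          rw [← hB, Function.update_idem, ← hc', Function.update_eq_self]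
        have e1 : sgn S c = sgn (Function.update R c' true) c := by
          rw [← hA, sgn_up]
        have e2 : sgn S c' = sgn (Function.update R c true) c' := by
          rw [← hB, sgn_up]
        rw [e1, e2, hA, hB, sgn_up, sgn_up]
        have e3 := sgn_comm hRc hRc' hne
        have e4 := D.th_comm (t := t) hRc hRc' hne
        rw [hS] at e4
        have e5 : (C (sgn R c' * sgn (Function.update R c' true) c) : MvPolynomial (Arc n) ℚ) =
            - C (sgn R c * sgn (Function.update R c true) c') := by
          rw [e3, map_neg, neg_neg]
        have e6 : C (sgn (Function.update R c' true) c) * (D.th (Function.update R c' true) c *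
            (C (sgn R c') * (D.th R c' * F R))) +
            C (sgn (Function.update R c true) c') * (D.th (Function.update R c true) c' *
            (C (sgn R c) * (D.th R c * F R))) =
            (C (sgn R c * sgn (Function.update R c true) c') * F R) *
            (D.th (Function.update R c true) c' * D.th R c -
              D.th (Function.update R c' true) c * D.th R c') := by
          have e7 : C (sgn (Function.update R c' true) c) * (D.th (Function.update R c' true) c *
            (C (sgn R c') * (D.th R c' * F R))) =
              (C (sgn R c' * sgn (Function.update R c' true) c)) *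
                (D.th (Function.update R c' true) c * D.th R c' * F R) := by
            rw [map_mul]
            ring
          rw [e7, e5, map_mul]
          ring
        rw [e6]
        exact Ideal.mul_mem_left _ _ e4
      · rw [if_neg hcc, if_neg fun h => hcc ⟨h.2, h.1⟩, add_zero]
        exact Ideal.zero_mem _
  have h3 : D.dfF Φ (D.dfF Φ F) S = C (1 / 2) * ∑ c, ∑ c', (T c c' + T c' c) := by
    have h4 : ∑ c, ∑ c', (T c c' + T c' c) = C 2 * ∑ c, ∑ c', T c c' := by
      simp only [Finset.sum_add_distrib]
      rw [Finset.sum_comm (f := fun c c' => T c' c)]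
      have h5 : (C 2 : MvPolynomial (Arc n) ℚ) = 2 := map_ofNat C 2
      rw [h5]
      ring
    rw [h4, h1, ← mul_assoc, ← C_mul]
    norm_num
  rw [h3]
  exact Ideal.mul_mem_left _ _ (Ideal.sum_mem _ fun c _ => Ideal.sum_mem _ fun c' _ => h2 c c')

/-- The part of the differential in the direction `c` (a free crossing) at the states with
`S c = true`. -/
theorem dfF_true {Φ : Fc n} {c : Fin n} (hc : Φ c = none) (F : Ch n) {S : St n} (hS : S c = true) :
    D.dfF Φ F S = D.dfF (fc Φ c true) F S + C (sgn S c) *
      (D.th (Function.update S c false) c * F (Function.update S c false)) := by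
  unfold dfF
  rw [← Finset.add_sum_erase _ _ (Finset.mem_univ c), ← Finset.add_sum_erase _ _ (Finset.mem_univ c),
    if_pos ⟨hc, hS⟩, if_neg, zero_add, add_comm]
  · congr 1
    refine Finset.sum_congr rfl fun c' hc' => ?_
    have hne := Finset.ne_of_mem_erase hc'
    unfold fc
    rw [Function.update_of_ne hne]
  · rintro ⟨h, _⟩
    unfold fc at h
    rw [Function.update_self] at h
    exact absurd h (by simp)

/-- at the states with `S c = false` -/
theorem dfF_false {Φ : Fc n} {c : Fin n} (hc : Φ c = none) (F : Ch n) {S : St n} (hS : S c = false) :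
    D.dfF Φ F S = D.dfF (fc Φ c false) F S := by
  unfold dfF
  refine Finset.sum_congr rfl fun c' _ => ?_
  by_cases hne : c' = c
  · subst hne
    rw [if_neg, if_neg]
    · rintro ⟨_, h⟩
      rw [hS] at h
      exact Bool.false_ne_true h
    · rintro ⟨_, h⟩
      rw [hS] at h
      exact Bool.false_ne_true h
  · unfold fc
    rw [Function.update_of_ne hne]

end Dgm

end Pool.Agent.Lib.MP_21eb54_gt
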