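import Pool.Agent.Lib.MP_21eb54_gt.BasAB

/-!
# Counting the basis of the reduced complex
-/

set_option autoImplicit false

namespace Pool.Agent.Lib.MP_21eb54_gt

open Equiv MvPolynomial

/-- `finrank W = rank d2 + finrank (ker d2) ≤ rank d2 + rank d1`, `finrank V = rank d1 + finrank (ker d1)`,
and `range d2 < ker d1`. -/
theorem dim_lt {V W : Type*} [AddCommGroup V] [Module ℚ V] [FiniteDimensional ℚ V] [AddCommGroup W]
    [Module ℚ W] [FiniteDimensional ℚ W] (d1 : V →ₗ[ℚ] W) (d2 : W →ₗ[ℚ] V)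
    (h12 : ∀ x, d1 (d2 x) = 0) (hW : ∀ x, d2 x = 0 → ∃ y, d1 y = x)
    (hV : ∃ x, d1 x = 0 ∧ ¬ ∃ y, d2 y = x) : Module.finrank ℚ W < Module.finrank ℚ V := by
  have h1 := LinearMap.finrank_range_add_finrank_ker d2
  have h2 := LinearMap.finrank_range_add_finrank_ker d1
  have h3 : Module.finrank ℚ (LinearMap.ker d2) ≤ Module.finrank ℚ (LinearMap.range d1) :=
    Submodule.finrank_mono fun x hx => hW x hx
  have h4 : LinearMap.range d2 < LinearMap.ker d1 := by
    refine lt_of_le_of_ne ?_ ?_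
    · rintro _ ⟨y, rfl⟩
      exact h12 y
    · intro h
      obtain ⟨x, hx, hn⟩ := hV
      have hx' : x ∈ LinearMap.range d2 := by
        rw [h]
        exact hx
      exact hn hx'
  have h5 := Submodule.finrank_lt_finrank_of_lt h4
  omega

variable {n : ℕ}

namespace Dgm

variable (D : Dgm n)

/-- the basis of the reduced complex -/
abbrev Bs (e0 : Arc n) : Type := Σ S : St n, {T : Finset (Kc (D.sp S)) // kc (D.sp S) e0 ∉ T}

/-- the weight of a basis element -/
noncomputable def wB {e0 : Arc n} (b : D.Bs e0) : ℤ := (D.circ b.1 : ℤ) - 2 * (b.2.1.card : ℤ) - nb b.1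

/-- The alternating number of the subsets which do not contain a given element. -/
theorem EulA_aux1 {κ : Type*} [Fintype κ] [DecidableEq κ] (k : κ) :
    ∑ T : {T : Finset κ // k ∉ T}, (-1 : ℤ) ^ T.1.card = if Fintype.card κ = 1 then 1 else 0 := by
  have h1 : ∑ T : {T : Finset κ // k ∉ T}, (-1 : ℤ) ^ T.1.card =
      ∑ T ∈ (Finset.univ.erase k).powerset, (-1 : ℤ) ^ T.card := by
    symm
    refine Finset.sum_subtype _ ?_ fun T : Finset κ => (-1 : ℤ) ^ T.card
    intro T
    rw [Finset.mem_powerset]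
    constructor
    · intro h hk
      exact Finset.notMem_erase k _ (h hk)
    · intro h x hx
      refine Finset.mem_erase.2 ⟨?_, Finset.mem_univ _⟩
      rintro rfl
      exact h hx
  rw [h1, Finset.sum_powerset_neg_one_pow_card]
  have h2 : (Finset.univ.erase k).card = Fintype.card κ - 1 := by
    rw [Finset.card_erase_of_mem (Finset.mem_univ k), Finset.card_univ]
  have h3 : 0 < Fintype.card κ := Fintype.card_pos_iff.2 ⟨k⟩
  by_cases h : Fintype.card κ = 1
  · rw [if_pos h, if_pos]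
    rw [← Finset.card_eq_zero]
    omega
  · rw [if_neg h, if_neg]
    rw [← Finset.card_eq_zero]
    omega

/-- The difference of the numbers of the elements of the two kinds, as a sum of signs. -/
theorem EulA_aux2 {β : Type*} [Fintype β] (w : β → ℤ) (w0 : ℤ) (hw : ∀ b, (w b - w0) % 2 = 0) :
    (Nat.card {b : β // w b % 4 = w0 % 4} : ℤ) - Nat.card {b : β // w b % 4 = (w0 + 2) % 4} =
      ∑ b, if w b % 4 = w0 % 4 then (1 : ℤ) else -1 := by
  classical
  rw [Nat.card_eq_fintype_card, Nat.card_eq_fintype_card, Fintype.card_subtype,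
    Fintype.card_subtype, Finset.card_filter, Finset.card_filter, Nat.cast_sum, Nat.cast_sum,
    ← Finset.sum_sub_distrib]
  refine Finset.sum_congr rfl fun b _ => ?_
  have h := hw b
  by_cases h1 : w b % 4 = w0 % 4
  · have h2 : ¬ w b % 4 = (w0 + 2) % 4 := by omega
    simp [h1]
    omega
  · have h2 : w b % 4 = (w0 + 2) % 4 := by omega
    simp [h2]
    omega

/-- Let the sign of `b` be `1` if `wB b % 4 = w0 % 4` and `-1` if not (then `wB b % 4 = (w0 + 2) % 4` by
`hp`). The left side is the sum of the signs. For a fixed `S` it is the sign of `T = ∅` times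
`∑ T, (-1) ^ T.card` over the subsets `T` of the complement of the cycle of `e0`
(`Finset.sum_powerset_neg_one_pow_card`), so `0` if `circ S ≠ 1` and the sign of `1 - nb S` if
`circ S = 1` (`card_Kc`). -/
theorem count (e0 : Arc n) {w0 : ℤ} (hp : ∀ S, ((D.circ S : ℤ) - nb S - w0) % 2 = 0) :
    (Nat.card {b : D.Bs e0 // D.wB b % 4 = w0 % 4} : ℤ) -
      Nat.card {b : D.Bs e0 // D.wB b % 4 = (w0 + 2) % 4} =
    ∑ S with D.circ S = 1, if (1 - (nb S : ℤ) - w0) % 4 = 0 then (1 : ℤ) else -1 := by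
  classical
  rw [EulA_aux2 (fun b : D.Bs e0 => D.wB b) w0 fun b => by
    have h := hp b.1
    simp only [wB]
    omega]
  rw [Fintype.sum_sigma, Finset.sum_filter]
  refine Finset.sum_congr rfl fun S _ => ?_
  have h1 : ∀ T : {T : Finset (Kc (D.sp S)) // kc (D.sp S) e0 ∉ T},
      (if D.wB (⟨S, T⟩ : D.Bs e0) % 4 = w0 % 4 then (1 : ℤ) else -1) =
        (if ((D.circ S : ℤ) - nb S) % 4 = w0 % 4 then (1 : ℤ) else -1) * (-1) ^ T.1.card := by
    intro T
    have hpS := hp S
    have hwB : D.wB (⟨S, T⟩ : D.Bs e0) = (D.circ S : ℤ) - 2 * (T.1.card : ℤ) - nb S := rfl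
    rw [hwB]
    rcases Nat.even_or_odd T.1.card with ⟨m, hm⟩ | ⟨m, hm⟩
    · rw [Even.neg_one_pow ⟨m, hm⟩, mul_one, hm]
      push_cast
      by_cases h : ((D.circ S : ℤ) - nb S) % 4 = w0 % 4
      · rw [if_pos h, if_pos (by omega)]
      · rw [if_neg h, if_neg (by omega)]
    · rw [Odd.neg_one_pow ⟨m, hm⟩, hm]
      push_cast
      by_cases h : ((D.circ S : ℤ) - nb S) % 4 = w0 % 4
      · rw [if_pos h, if_neg (by omega)]
        norm_num
      · rw [if_neg h, if_pos (by omega)]
        norm_num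
  rw [Finset.sum_congr rfl fun T _ => h1 T, ← Finset.mul_sum, EulA_aux1, card_Kc]
  change _ * (if D.circ S = 1 then (1 : ℤ) else 0) = _
  by_cases h : D.circ S = 1
  · rw [if_pos h, if_pos h, h, mul_one]
    have h3 : (((1 : ℕ) : ℤ) - nb S) % 4 = w0 % 4 ↔ (1 - (nb S : ℤ) - w0) % 4 = 0 := by
      push_cast
      omega
    by_cases h4 : (1 - (nb S : ℤ) - w0) % 4 = 0
    · rw [if_pos h4, if_pos (h3.2 h4)]
    · rw [if_neg h4, if_neg (fun h5 => h4 (h3.1 h5))]
  · rw [if_neg h, if_neg h, mul_zero]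

end Dgm

end Pool.Agent.Lib.MP_21eb54_gt
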