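import Pool.Agent.Lib.MP_21eb54_gt.EulA
import Pool.Agent.Lib.MP_21eb54_gt.GrB

/-!
# The Euler characteristic of the reduced complex
-/

set_option autoImplicit false

namespace Pool.Agent.Lib.MP_21eb54_gt

open Equiv MvPolynomial

variable {n : ℕ}

namespace Dgm

variable (D : Dgm n)

/-- the coefficients of a chain in the basis -/
noncomputable def cf (e0 : Arc n) (F : Ch n) : D.Bs e0 → ℚ := fun b => rho (D.sp b.1) 0 (F b.1) b.2.1

/-- the chain with given coefficients -/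
noncomputable def sec (e0 : Arc n) (x : D.Bs e0 → ℚ) : Ch n := fun S =>
  ∑ T : {T : Finset (Kc (D.sp S)) // kc (D.sp S) e0 ∉ T}, C (x ⟨S, T⟩) * mon (D.sp S) T.1

theorem EulB_weight (m : Arc n →₀ ℕ) : Finsupp.weight 1 m = m.degree := by
  have h := congrArg (fun g => g m) (Finsupp.degree_eq_weight_one (σ := Arc n) (R := ℕ))
  exact h.symm

theorem EulB_cf_add (e0 : Arc n) (F G : Ch n) : D.cf e0 (F + G) = D.cf e0 F + D.cf e0 G := by
  funext b
  change rho (D.sp b.1) 0 (F b.1 + G b.1) b.2.1 = _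
  rw [map_add]
  rfl

theorem EulB_cf_sub (e0 : Arc n) (F G : Ch n) : D.cf e0 (F - G) = D.cf e0 F - D.cf e0 G := by
  funext b
  change rho (D.sp b.1) 0 (F b.1 - G b.1) b.2.1 = _
  rw [map_sub]
  rfl

theorem EulB_cf_smul (e0 : Arc n) (a : ℚ) (F : Ch n) :
    D.cf e0 (fun S => C a * F S) = a • D.cf e0 F := by
  funext b
  change rho (D.sp b.1) 0 (C a * F b.1) b.2.1 = _
  rw [← MvPolynomial.smul_eq_C_mul, map_smul]
  rfl

theorem EulB_sec_add (e0 : Arc n) (x y : D.Bs e0 → ℚ) :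
    D.sec e0 (x + y) = D.sec e0 x + D.sec e0 y := by
  funext S
  change (∑ T : {T : Finset (Kc (D.sp S)) // kc (D.sp S) e0 ∉ T},
      C (x ⟨S, T⟩ + y ⟨S, T⟩) * mon (D.sp S) T.1) = D.sec e0 x S + D.sec e0 y S
  unfold sec
  rw [← Finset.sum_add_distrib]
  refine Finset.sum_congr rfl fun T _ => ?_
  rw [C_add, add_mul]

theorem EulB_sec_smul (e0 : Arc n) (a : ℚ) (x : D.Bs e0 → ℚ) :
    D.sec e0 (a • x) = fun S => C a * D.sec e0 x S := by
  funext S
  change (∑ T : {T : Finset (Kc (D.sp S)) // kc (D.sp S) e0 ∉ T},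
      C (a * x ⟨S, T⟩) * mon (D.sp S) T.1) = C a * D.sec e0 x S
  unfold sec
  rw [Finset.mul_sum]
  refine Finset.sum_congr rfl fun T _ => ?_
  rw [C_mul, mul_assoc]

theorem EulB_dif_add (F G : Ch n) : D.dif (F + G) = D.dif F + D.dif G := by
  rw [← dfF_full, ← dfF_full, ← dfF_full, dfF_add]

theorem EulB_dif_sub (F G : Ch n) : D.dif (F - G) = D.dif F - D.dif G := by
  rw [← dfF_full, ← dfF_full, ← dfF_full, dfF_sub]

theorem EulB_dif_mul (a : MvPolynomial (Arc n) ℚ) (F : Ch n) :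
    D.dif (fun S => a * F S) = fun S => a * D.dif F S := by
  rw [← dfF_full, ← dfF_full, dfF_mul]

/-- the differential in the basis -/
noncomputable def del (e0 : Arc n) : (D.Bs e0 → ℚ) →ₗ[ℚ] (D.Bs e0 → ℚ) where
  toFun x := D.cf e0 (D.dif (D.sec e0 x))
  map_add' := by
    intro x y
    rw [EulB_sec_add, EulB_dif_add, EulB_cf_add]
  map_smul' := by
    intro a x
    rw [EulB_sec_smul, EulB_dif_mul, EulB_cf_smul]
    rfl

theorem EulB_del_apply (e0 : Arc n) (x : D.Bs e0 → ℚ) :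
    D.del e0 x = D.cf e0 (D.dif (D.sec e0 x)) := rfl

/-- `mem_X_iff` -/
theorem cf_eq_zero (e0 : Arc n) (F : Ch n) :
    D.cf e0 F = 0 ↔ ∀ S, F S ∈ D.J 0 S ⊔ Ideal.span {X e0} := by
  constructor
  · intro h S
    refine (mem_X_iff e0 (F S)).2 fun T hT => ?_
    exact congrFun h ⟨S, ⟨T, hT⟩⟩
  · intro h
    funext b
    exact (mem_X_iff e0 (F b.1)).1 (h b.1) b.2.1 b.2.2

/-- `rho_mon` -/
theorem cf_sec (e0 : Arc n) (x : D.Bs e0 → ℚ) : D.cf e0 (D.sec e0 x) = x := by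
  funext b
  obtain ⟨S, T⟩ := b
  change rho (D.sp S) 0 (∑ T' : {T : Finset (Kc (D.sp S)) // kc (D.sp S) e0 ∉ T},
    C (x ⟨S, T'⟩) * mon (D.sp S) T'.1) T.1 = x ⟨S, T⟩
  rw [map_sum, Finset.sum_apply, Finset.sum_eq_single T]
  · rw [← MvPolynomial.smul_eq_C_mul, map_smul, rho_mon]
    simp
  · intro T' _ hne
    rw [← MvPolynomial.smul_eq_C_mul, map_smul, rho_mon]
    have : T.1 ≠ T'.1 := fun h => hne (Subtype.ext h.symm)
    simp [Pi.single_eq_of_ne this]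
  · intro h
    exact absurd (Finset.mem_univ _) h

/-- `cf (F - sec (cf F)) = 0`, so it is in the ideal, and `dfF_mem` -/
theorem del_cf (e0 : Arc n) (F : Ch n) : D.del e0 (D.cf e0 F) = D.cf e0 (D.dif F) := by
  rw [EulB_del_apply, ← sub_eq_zero, ← EulB_cf_sub, ← EulB_dif_sub, cf_eq_zero]
  have h1 : D.cf e0 (D.sec e0 (D.cf e0 F) - F) = 0 := by
    rw [EulB_cf_sub, cf_sec, sub_self]
  have h2 := (D.cf_eq_zero e0 _).1 h1
  intro S
  rw [← dfF_full]
  exact D.dfF_mem (fun S _ => h2 S) (InF_full S)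

theorem del_del (e0 : Arc n) (x : D.Bs e0 → ℚ) : D.del e0 (D.del e0 x) = 0 := by
  rw [D.EulB_del_apply e0 x, del_cf, cf_eq_zero]
  intro S
  rw [← dfF_full, ← dfF_full]
  exact Ideal.mem_sup_left (D.dfF_dfF (full n) _ S)

/-- `mon_hom`: the weight of the monomials of `mon T` is `circ S - 2 * T.card - nb S` -/
theorem sec_Gr (e0 : Arc n) {w h : ℤ} {x : D.Bs e0 → ℚ}
    (hx : ∀ b, x b ≠ 0 → D.wB b = w ∧ (nb b.1 : ℤ) = h) : D.Gr (full n) w h (D.sec e0 x) := by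
  intro S _ m hm
  unfold sec at hm
  rw [coeff_sum] at hm
  obtain ⟨T, _, hT⟩ := Finset.exists_ne_zero_of_sum_ne_zero hm
  rw [coeff_C_mul] at hT
  have h1 : x ⟨S, T⟩ ≠ 0 := left_ne_zero_of_mul hT
  have h2 : coeff m (mon (D.sp S) T.1) ≠ 0 := right_ne_zero_of_mul hT
  obtain ⟨h3, h4⟩ := hx _ h1
  refine ⟨h4, ?_⟩
  have h5 : m.degree = T.1.card := by
    have h6 := mon_hom T.1 h2
    rw [EulB_weight] at h6
    exact h6
  rw [← h3]
  unfold wt wB
  rw [h5]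

/-- `rho_hom` -/
theorem cf_Gr (e0 : Arc n) {w h : ℤ} {F : Ch n} (hF : D.Gr (full n) w h F) (b : D.Bs e0)
    (hb : D.cf e0 F b ≠ 0) : D.wB b = w ∧ (nb b.1 : ℤ) = h := by
  obtain ⟨S, T⟩ := b
  have hb' : rho (D.sp S) 0 (F S) T.1 ≠ 0 := hb
  have h0 : F S ≠ 0 := by
    intro h0
    apply hb'
    rw [h0, map_zero]
    rfl
  obtain ⟨m, hm⟩ := MvPolynomial.ne_zero_iff.1 h0
  obtain ⟨h1, h2⟩ := hF S (InF_full S) m hm
  have h3 : (F S).IsHomogeneous m.degree := by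
    intro m' hm'
    obtain ⟨_, h4⟩ := hF S (InF_full S) m' hm'
    rw [EulB_weight]
    unfold wt at h2 h4
    omega
  have h5 := rho_hom h3 hb'
  refine ⟨?_, h1⟩
  rw [← h2]
  unfold wt wB
  rw [← h5]

end Dgm

end Pool.Agent.Lib.MP_21eb54_gt
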