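import Pool.Agent.Lib.MP_21eb54_gt.EulB

/-!
# The Euler characteristic of the reduced complex: exactness
-/

set_option autoImplicit false

namespace Pool.Agent.Lib.MP_21eb54_gt

open Equiv MvPolynomial

variable {n : ℕ}

namespace Dgm

variable (D : Dgm n)

/-- the bidegree of a basis element -/
noncomputable def EulC_deg {e0 : Arc n} (b : D.Bs e0) : ℤ × ℤ := (D.wB b, (nb b.1 : ℤ))

/-- the part of bidegree `p` -/
noncomputable def EulC_res {e0 : Arc n} (p : ℤ × ℤ) (x : D.Bs e0 → ℚ) : D.Bs e0 → ℚ :=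
  fun b => if D.EulC_deg b = p then x b else 0

theorem EulC_del_eq (e0 : Arc n) (x : D.Bs e0 → ℚ) :
    D.del e0 x = D.cf e0 (D.dfF (full n) (D.sec e0 x)) := by
  rw [dfF_full]
  rfl

theorem EulC_cf_sub (e0 : Arc n) (F G : Ch n) : D.cf e0 (F - G) = D.cf e0 F - D.cf e0 G := by
  funext b
  simp only [cf, Pi.sub_apply, map_sub]

theorem EulC_del_deg (e0 : Arc n) {p : ℤ × ℤ} {x : D.Bs e0 → ℚ}
    (hx : ∀ b, x b ≠ 0 → D.EulC_deg b = p) (b : D.Bs e0) (hb : D.del e0 x b ≠ 0) :
    D.EulC_deg b = (p.1 - 2, p.2 + 1) := by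
  have h1 : D.Gr (full n) p.1 p.2 (D.sec e0 x) := by
    apply D.sec_Gr
    intro b' hb'
    have h2 := hx b' hb'
    rw [EulC_deg, Prod.ext_iff] at h2
    exact h2
  have h3 := D.dfF_Gr h1
  rw [EulC_del_eq] at hb
  have h4 := D.cf_Gr e0 h3 b hb
  rw [EulC_deg, Prod.ext_iff]
  exact h4

theorem EulC_del_res (e0 : Arc n) (p : ℤ × ℤ) (x : D.Bs e0 → ℚ) (b : D.Bs e0) :
    D.del e0 (D.EulC_res p x) b =
      if D.EulC_deg b = (p.1 - 2, p.2 + 1) then D.del e0 x b else 0 := by
  by_cases hb : D.EulC_deg b = (p.1 - 2, p.2 + 1)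
  · rw [if_pos hb]
    have h1 : D.del e0 (D.EulC_res p x) = D.del e0 x - D.del e0 (x - D.EulC_res p x) := by
      rw [← map_sub]
      congr 1
      funext b'
      simp
    have h2 : D.del e0 (x - D.EulC_res p x) b = 0 := by
      rw [LinearMap.pi_apply_eq_sum_univ, Finset.sum_apply]
      apply Finset.sum_eq_zero
      intro i _
      rw [Pi.smul_apply, smul_eq_mul]
      by_cases hi : D.EulC_deg i = p
      · have h3 : (x - D.EulC_res p x) i = 0 := by
          simp [EulC_res, hi]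
        rw [h3, zero_mul]
      · have h3 : D.del e0 (fun j => if i = j then (1 : ℚ) else 0) b = 0 := by
          by_contra h4
          have h5 := D.EulC_del_deg e0 (p := D.EulC_deg i) (x := fun j => if i = j then (1 : ℚ) else 0)
            (by
              intro b' hb'
              by_cases h6 : i = b'
              · rw [h6]
              · simp [h6] at hb') b h4
          rw [hb] at h5
          apply hi
          rw [Prod.ext_iff] at h5 ⊢
          obtain ⟨h6, h7⟩ := h5
          simp only at h6 h7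
          constructor <;> omega
        rw [h3, mul_zero]
    rw [h1, Pi.sub_apply, h2, sub_zero]
  · rw [if_neg hb]
    by_contra h4
    apply hb
    apply D.EulC_del_deg e0 (p := p) (x := D.EulC_res p x) _ b h4
    intro b' hb'
    by_contra h6
    apply hb'
    simp [EulC_res, h6]

theorem EulC_sum_res (e0 : Arc n) (x : D.Bs e0 → ℚ) (s : Finset (ℤ × ℤ))
    (hs : ∀ b : D.Bs e0, D.EulC_deg b ∈ s) : ∑ p ∈ s, D.EulC_res p x = x := by
  funext b
  rw [Finset.sum_apply]
  simp only [EulC_res]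
  rw [Finset.sum_ite_eq, if_pos (hs b)]

/-- one bidegree -/
theorem EulC_exact_one (e0 : Arc n) {w h : ℤ} (hE : D.Ex (full n) (Ideal.span {X e0}) w h)
    {x : D.Bs e0 → ℚ} (hx : ∀ b, x b ≠ 0 → D.EulC_deg b = (w, h)) (hd : D.del e0 x = 0) :
    ∃ y : D.Bs e0 → ℚ, (∀ b, y b ≠ 0 → D.wB b = w + 2) ∧ D.del e0 y = x := by
  have hx' : ∀ b : D.Bs e0, x b ≠ 0 → D.wB b = w ∧ (nb b.1 : ℤ) = h := by
    intro b hb
    have h1 := hx b hb
    rw [EulC_deg, Prod.ext_iff] at h1
    exact h1
  have h0 := D.EulC_del_eq e0 x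
  rw [hd] at h0
  have h1 := (D.cf_eq_zero e0 _).1 h0.symm
  obtain ⟨G, hG1, hG2⟩ := hE (D.sec e0 x) (D.sec_Gr e0 hx') (fun S _ => h1 S)
  have h2 : D.cf e0 (D.sec e0 x - D.dfF (full n) G) = 0 := by
    rw [cf_eq_zero]
    intro S
    exact hG2 S (InF_full S)
  rw [EulC_cf_sub, cf_sec, dfF_full, ← del_cf, sub_eq_zero] at h2
  refine ⟨D.cf e0 G, ?_, h2.symm⟩
  intro b hb
  exact (D.cf_Gr e0 hG1 b hb).1

/-- Exactness outside of `w0` for the coefficients: decompose `x` as the sum of its parts `x_(w, h)`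
(the restriction to the `b` with `wB b = w`, `nb b.1 = h`). `del x_(w, h)` is the part of `del x` in
`(w - 2, h + 1)` (`sec_Gr`, `dfF_Gr`, `cf_Gr`), so it is `0`. If it is not zero then `w ≠ w0` and `D.Ex`
for `sec x_(w, h)` gives `G`, `x_(w, h) = del (cf G)`. -/
theorem del_exact (e0 : Arc n) {w0 : ℤ} (h1 : ∀ w, w ≠ w0 → ∀ h, D.Ex (full n) (Ideal.span {X e0}) w h)
    {x : D.Bs e0 → ℚ} (hx : ∀ b, x b ≠ 0 → D.wB b % 4 = (w0 + 2) % 4) (hd : D.del e0 x = 0) :
    ∃ y : D.Bs e0 → ℚ, (∀ b, y b ≠ 0 → D.wB b % 4 = w0 % 4) ∧ D.del e0 y = x := by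
  have h2 : ∀ p : ℤ × ℤ, ∃ y : D.Bs e0 → ℚ, (∀ b, y b ≠ 0 → D.wB b % 4 = w0 % 4) ∧
      D.del e0 y = D.EulC_res p x := by
    intro p
    by_cases hp : D.EulC_res p x = 0
    · refine ⟨0, ?_, ?_⟩
      · intro b hb
        simp at hb
      · rw [hp, map_zero]
    · obtain ⟨b, hb⟩ := Function.ne_iff.1 hp
      simp only [EulC_res, Pi.zero_apply] at hb
      have hb1 : D.EulC_deg b = p := by
        by_contra h3
        simp [h3] at hb
      rw [if_pos hb1] at hb
      have hb2 := hx b hb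
      have hb3 : D.wB b = p.1 := by
        rw [← hb1]
        rfl
      rw [hb3] at hb2
      have hw : p.1 ≠ w0 := by
        intro h3
        rw [h3] at hb2
        omega
      obtain ⟨y, hy1, hy2⟩ := D.EulC_exact_one e0 (h1 p.1 hw p.2) (x := D.EulC_res p x)
        (by
          intro b' hb'
          by_contra h3
          apply hb'
          simp only [EulC_res]
          rw [if_neg h3])
        (by
          funext b'
          rw [EulC_del_res, hd]
          simp)
      refine ⟨y, ?_, hy2⟩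
      intro b' hb'
      rw [hy1 b' hb']
      omega
  choose y hy1 hy2 using h2
  refine ⟨∑ p ∈ Finset.univ.image (fun b : D.Bs e0 => D.EulC_deg b), y p, ?_, ?_⟩
  · intro b hb
    rw [Finset.sum_apply] at hb
    obtain ⟨p, _, hp⟩ := Finset.exists_ne_zero_of_sum_ne_zero hb
    exact hy1 p b hp
  · rw [map_sum, Finset.sum_congr rfl (fun p _ => hy2 p)]
    apply D.EulC_sum_res
    intro b
    exact Finset.mem_image_of_mem _ (Finset.mem_univ b)

/-- There is a cycle `F` of degree `(w0, h)` which is not a boundary; `x = cf F`. If `x = del y`, the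
restriction `y'` of `y` to the `b` of degree `(w0 + 2, h - 1)` has `del y' = x`, and `sec y'` shows that
`F` is a boundary. -/
theorem del_ne (e0 : Arc n) {w0 : ℤ} (h2 : ¬ ∀ h, D.Ex (full n) (Ideal.span {X e0}) w0 h) :
    ∃ x : D.Bs e0 → ℚ, (∀ b, x b ≠ 0 → D.wB b = w0) ∧ D.del e0 x = 0 ∧
      ¬ ∃ y, D.del e0 y = x := by
  obtain ⟨h, hE⟩ := not_forall.1 h2
  simp only [Ex, not_forall] at hE
  obtain ⟨F, hF1, hF2, hF3⟩ := hE
  have hdeg : ∀ b : D.Bs e0, D.cf e0 F b ≠ 0 → D.EulC_deg b = (w0, h) := by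
    intro b hb
    have h3 := D.cf_Gr e0 hF1 b hb
    rw [EulC_deg, Prod.ext_iff]
    exact h3
  refine ⟨D.cf e0 F, fun b hb => (D.cf_Gr e0 hF1 b hb).1, ?_, ?_⟩
  · rw [del_cf, cf_eq_zero, ← dfF_full]
    intro S
    exact hF2 S (InF_full S)
  · rintro ⟨y, hy⟩
    apply hF3
    have h3 : D.del e0 (D.EulC_res (w0 + 2, h - 1) y) = D.cf e0 F := by
      funext b
      rw [EulC_del_res, hy]
      by_cases hb : D.EulC_deg b = (w0, h)
      · rw [if_pos]
        rw [hb, Prod.ext_iff]
        constructor <;> simp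
      · have h4 : D.cf e0 F b = 0 := by
          by_contra h5
          exact hb (hdeg b h5)
        rw [h4]
        simp
    refine ⟨D.sec e0 (D.EulC_res (w0 + 2, h - 1) y), ?_, ?_⟩
    · apply D.sec_Gr
      intro b hb
      have h4 : D.EulC_deg b = (w0 + 2, h - 1) := by
        by_contra h5
        apply hb
        simp only [EulC_res]
        rw [if_neg h5]
      rw [EulC_deg, Prod.ext_iff] at h4
      exact h4
    · intro S _
      have h5 : D.cf e0 (F - D.dfF (full n) (D.sec e0 (D.EulC_res (w0 + 2, h - 1) y))) = 0 := by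
        rw [EulC_cf_sub, ← EulC_del_eq, h3, sub_self]
      rw [cf_eq_zero] at h5
      exact h5 S

end Dgm

end Pool.Agent.Lib.MP_21eb54_gt
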