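import Pool.Agent.Lib.MP_21eb54_gt.EulC

/-!
# The Euler characteristic of the reduced complex: the inequality
-/

set_option autoImplicit false

namespace Pool.Agent.Lib.MP_21eb54_gt

open Equiv MvPolynomial

section EulDExt

variable {B : Type*} (P : B → Prop)

open Classical in
/-- extension by zero -/
private noncomputable def EulD_ext : ({b // P b} → ℚ) →ₗ[ℚ] (B → ℚ) where
  toFun x := fun b => if h : P b then x ⟨b, h⟩ else 0
  map_add' x y := by
    funext b
    by_cases h : P b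
    · simp [h]
    · simp [h]
  map_smul' a x := by
    funext b
    by_cases h : P b
    · simp [h]
    · simp [h]

/-- restriction -/
private def EulD_res : (B → ℚ) →ₗ[ℚ] ({b // P b} → ℚ) where
  toFun x := fun b => x b.1
  map_add' _ _ := rfl
  map_smul' _ _ := rfl

open Classical in
private theorem EulD_ext_supp (x : {b // P b} → ℚ) {b : B} (h : EulD_ext P x b ≠ 0) : P b := by
  by_contra hP
  apply h
  change (if h : P b then x ⟨b, h⟩ else 0) = 0
  rw [dif_neg hP]

open Classical in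
private theorem EulD_res_ext (x : {b // P b} → ℚ) : EulD_res P (EulD_ext P x) = x := by
  funext b
  change (if h : P b.1 then x ⟨b.1, h⟩ else 0) = x b
  rw [dif_pos b.2]

open Classical in
private theorem EulD_ext_res {x : B → ℚ} (hx : ∀ b, x b ≠ 0 → P b) : EulD_ext P (EulD_res P x) = x := by
  funext b
  change (if h : P b then x b else 0) = x b
  by_cases hP : P b
  · rw [dif_pos hP]
  · rw [dif_neg hP]
    by_contra h
    exact hP (hx b (fun h' => h h'.symm))

end EulDExt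

variable {n : ℕ}

namespace Dgm

variable (D : Dgm n)

private theorem EulD_supp (e0 : Arc n) (x : D.Bs e0 → ℚ) {b' : D.Bs e0} (h : D.del e0 x b' ≠ 0) :
    ∃ b, x b ≠ 0 ∧ D.wB b' = D.wB b - 2 := by
  classical
  have h1 : x = ∑ b, x b • (Pi.single b (1 : ℚ) : D.Bs e0 → ℚ) := by
    funext c
    rw [Finset.sum_apply]
    simp [Pi.single_apply]
  have h2 : D.del e0 x b' = ∑ b, x b * D.del e0 (Pi.single b (1 : ℚ)) b' := by
    conv_lhs => rw [h1]
    rw [map_sum, Finset.sum_apply]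
    refine Finset.sum_congr rfl fun b _ => ?_
    rw [map_smul, Pi.smul_apply, smul_eq_mul]
  rw [h2] at h
  obtain ⟨b, -, hb⟩ := Finset.exists_ne_zero_of_sum_ne_zero h
  refine ⟨b, left_ne_zero_of_mul hb, ?_⟩
  have h3 : D.cf e0 (D.dif (D.sec e0 (Pi.single b (1 : ℚ)))) b' ≠ 0 := right_ne_zero_of_mul hb
  have h4 : D.Gr (full n) (D.wB b) (nb b.1) (D.sec e0 (Pi.single b (1 : ℚ))) := by
    refine D.sec_Gr e0 fun c hc => ?_
    have : c = b := by
      by_contra hne
      exact hc (Pi.single_eq_of_ne hne _)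
    rw [this]
    exact ⟨rfl, rfl⟩
  have h5 := D.dfF_Gr h4
  rw [D.dfF_full] at h5
  exact (D.cf_Gr e0 h5 b' h3).1

/-- The parity of the weights and the Euler characteristic of the reduced complex. -/
theorem eul (e0 : Arc n) {w0 : ℤ} (h1 : ∀ w, w ≠ w0 → ∀ h, D.Ex (full n) (Ideal.span {X e0}) w h)
    (h2 : ¬ ∀ h, D.Ex (full n) (Ideal.span {X e0}) w0 h) :
    (∀ S, ((D.circ S : ℤ) - nb S - w0) % 2 = 0) ∧
    0 < ∑ S with D.circ S = 1, if (1 - (nb S : ℤ) - w0) % 4 = 0 then (1 : ℤ) else -1 := by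
  classical
  obtain ⟨x, hx, hx0, hxn⟩ := D.del_ne e0 h2
  have hp : ∀ S, ((D.circ S : ℤ) - nb S - w0) % 2 = 0 := by
    have h3 : ∃ b, x b ≠ 0 := by
      by_contra hcon
      push Not at hcon
      exact hxn ⟨0, by rw [map_zero]; exact (funext hcon).symm⟩
    obtain ⟨b, hb⟩ := h3
    have h4 := hx b hb
    unfold wB at h4
    intro S
    have h5 := D.circ_parity S
    have h6 := D.circ_parity b.1
    omega
  refine ⟨hp, ?_⟩
  rw [← D.count e0 hp]
  set PV : D.Bs e0 → Prop := fun b => D.wB b % 4 = w0 % 4 with hPV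
  set PW : D.Bs e0 → Prop := fun b => D.wB b % 4 = (w0 + 2) % 4 with hPW
  have hsV : ∀ y : D.Bs e0 → ℚ, (∀ b, y b ≠ 0 → PV b) → ∀ b, D.del e0 y b ≠ 0 → PW b := by
    intro y hy b hb
    obtain ⟨c, hc, hbc⟩ := D.EulD_supp e0 y hb
    have h3 : D.wB c % 4 = w0 % 4 := hy c hc
    change D.wB b % 4 = (w0 + 2) % 4
    omega
  have hsW : ∀ y : D.Bs e0 → ℚ, (∀ b, y b ≠ 0 → PW b) → ∀ b, D.del e0 y b ≠ 0 → PV b := by
    intro y hy b hb
    obtain ⟨c, hc, hbc⟩ := D.EulD_supp e0 y hb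
    have h3 : D.wB c % 4 = (w0 + 2) % 4 := hy c hc
    change D.wB b % 4 = w0 % 4
    omega
  have key := dim_lt ((EulD_res PW) ∘ₗ (D.del e0) ∘ₗ (EulD_ext PV))
    ((EulD_res PV) ∘ₗ (D.del e0) ∘ₗ (EulD_ext PW)) ?_ ?_ ?_
  · rw [Module.finrank_fintype_fun_eq_card, Module.finrank_fintype_fun_eq_card] at key
    have h3 : (Nat.card {b : D.Bs e0 // PW b} : ℤ) < Nat.card {b : D.Bs e0 // PV b} := by
      rw [Nat.card_eq_fintype_card, Nat.card_eq_fintype_card]
      exact_mod_cast key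
    exact sub_pos.2 h3
  · intro y
    change EulD_res PW (D.del e0 (EulD_ext PV (EulD_res PV (D.del e0 (EulD_ext PW y))))) = 0
    rw [EulD_ext_res PV (hsW _ fun b hb => EulD_ext_supp PW y hb), D.del_del, map_zero]
  · intro y hy
    have hy' : D.del e0 (EulD_ext PW y) = 0 := by
      rw [← EulD_ext_res PV (hsW _ fun b hb => EulD_ext_supp PW y hb)]
      change EulD_ext PV (((EulD_res PV) ∘ₗ (D.del e0) ∘ₗ (EulD_ext PW)) y) = 0
      rw [hy, map_zero]
    obtain ⟨z, hz, hdz⟩ := D.del_exact e0 h1 (fun b hb => EulD_ext_supp PW y hb) hy'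
    refine ⟨EulD_res PV z, ?_⟩
    change EulD_res PW (D.del e0 (EulD_ext PV (EulD_res PV z))) = y
    rw [EulD_ext_res PV hz, hdz, EulD_res_ext]
  · have hxV : ∀ b, x b ≠ 0 → PV b := fun b hb => by
      change D.wB b % 4 = w0 % 4
      rw [hx b hb]
    refine ⟨EulD_res PV x, ?_, ?_⟩
    · change EulD_res PW (D.del e0 (EulD_ext PV (EulD_res PV x))) = 0
      rw [EulD_ext_res PV hxV, hx0, map_zero]
    · rintro ⟨y, hy⟩
      apply hxn
      refine ⟨EulD_ext PW y, ?_⟩
      rw [← EulD_ext_res PV (hsW _ fun b hb => EulD_ext_supp PW y hb), ← EulD_ext_res PV hxV]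
      exact congrArg _ hy

end Dgm

end Pool.Agent.Lib.MP_21eb54_gt
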