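import Pool.Agent.Lib.MP_21eb54_gt.DifB

/-!
# Connected faces
-/

set_option autoImplicit false

namespace Pool.Agent.Lib.MP_21eb54_gt

open Equiv MvPolynomial

variable {n : ℕ}

namespace Dgm

variable (D : Dgm n)

theorem FacA_sp_apply (S : St n) (c : Fin n) (s : Bool) :
    D.sp S (c, s) = D.out (c, if (S c == D.ov c) = true then s else !s) := rfl

theorem FacA_flip_p (S : St n) (c : Fin n) :
    D.sp (Function.update S c (!S c)) (c, false) = D.sp S (c, true) := by
  rw [D.sp_flip, Perm.mul_apply, swap_apply_left]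

theorem FacA_flip_q (S : St n) (c : Fin n) :
    D.sp (Function.update S c (!S c)) (c, true) = D.sp S (c, false) := by
  rw [D.sp_flip, Perm.mul_apply, swap_apply_right]

theorem FacA_flip_ne (S : St n) (c : Fin n) {e : Arc n} (h1 : e ≠ (c, false)) (h2 : e ≠ (c, true)) :
    D.sp (Function.update S c (!S c)) e = D.sp S e := by
  rw [D.sp_flip, Perm.mul_apply, swap_apply_of_ne_of_ne h1 h2]

/-- a closed set is a union of circles -/
theorem Cl_same {Φ : Fc n} {Z : Set (Arc n)} (hZ : D.Cl Φ Z) {S : St n} (hS : InF Φ S) {x y : Arc n}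
    (h : (D.sp S).SameCycle x y) : x ∈ Z ↔ y ∈ Z := by
  exact closed_sc (hZ S hS) h

/-- The two smoothings at the free crossing `c`: `D.sp S` and `D.sp (update S c (!S c))` send
`(c, false)` to the two exits. -/
theorem Cl_free {Φ : Fc n} (hΦ : ∃ S, InF Φ S) {Z : Set (Arc n)} (hZ : D.Cl Φ Z) {c : Fin n}
    (hc : Φ c = none) : ((c, false) ∈ Z ↔ (c, true) ∈ Z) := by
  obtain ⟨S, hS⟩ := hΦ
  have hS' : InF Φ (Function.update S c (!S c)) := InF_dn hS hc _
  rw [← hZ _ hS' (c, false), D.FacA_flip_p, hZ S hS]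

/-- there is a state in every face -/
theorem exists_InF (Φ : Fc n) : ∃ S, InF Φ S := by
  refine ⟨fun c => (Φ c).getD false, fun c b h => ?_⟩
  simp only [h, Option.getD_some]

/-- `Z` closed for every state: it is closed under `Opp`, and `D.knot` shows that it is empty or
everything. -/
theorem Cn_full : D.Cn (full n) := by
  intro Z hZ
  have h1 : ∀ e f, Opp D.out e f → (e ∈ Z ↔ f ∈ Z) := by
    rintro e f ⟨c, ⟨rfl, rfl⟩ | ⟨rfl, rfl⟩⟩
    · exact D.Cl_free ⟨fun _ => false, InF_full _⟩ hZ rfl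
    · have h2 := D.Cl_free (Φ := full n) ⟨fun _ => false, InF_full _⟩ hZ (c := c) rfl
      have h3 := hZ (fun _ => D.ov c) (InF_full _) (c, false)
      have h4 := hZ (fun _ => D.ov c) (InF_full _) (c, true)
      rw [FacA_sp_apply, if_pos (by simp)] at h3 h4
      rw [h3, h4, h2]
  have h2 : ∀ e f : Arc n, (e ∈ Z ↔ f ∈ Z) := by
    intro e f
    have h3 := D.knot e f
    induction h3 with
    | rel x y h => exact h1 x y h
    | refl x => exact Iff.rfl
    | symm x y _ ih => exact ih.symm
    | trans x y z _ _ ih1 ih2 => exact ih1.trans ih2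
  by_cases h : ∃ e, e ∈ Z
  · right
    obtain ⟨e, he⟩ := h
    exact Set.eq_univ_of_forall fun f => (h2 e f).1 he
  · left
    exact Set.eq_empty_of_forall_notMem fun f hf => h ⟨f, hf⟩

/-- There is `Z`, closed for the face `fc Φ c b`, not empty and not everything. If it contained both or
none of `(c, false), (c, true)`, then also both or none of the exits at `c`, and it would be closed
for `Φ`. Replace `Z` by its complement if necessary. -/
theorem sep {Φ : Fc n} (hΦ : D.Cn Φ) {c : Fin n} (hc : Φ c = none) {b : Bool}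
    (h : ¬ D.Cn (fc Φ c b)) :
    ∃ Z, D.Cl (fc Φ c b) Z ∧ (c, false) ∉ Z ∧ (c, true) ∈ Z := by
  unfold Cn at h
  push Not at h
  obtain ⟨Z, hZ, h0, h1⟩ := h
  have hne : ¬ ((c, false) ∈ Z ↔ (c, true) ∈ Z) := by
    intro hiff
    have hcl : D.Cl Φ Z := by
      intro S hS e
      by_cases hb : S c = b
      · exact hZ S ((InF_fc hc).2 ⟨hS, hb⟩) e
      · have hb' : (!S c) = b := by
          revert hb
          cases S c <;> cases b <;> simp
        have hS' : InF (fc Φ c b) (Function.update S c (!S c)) :=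
          (InF_fc hc).2 ⟨InF_dn hS hc _, by rw [Function.update_self, hb']⟩
        by_cases e1 : e = (c, false)
        · rw [e1, ← D.FacA_flip_q S c, hZ _ hS', hiff]
        · by_cases e2 : e = (c, true)
          · rw [e2, ← D.FacA_flip_p S c, hZ _ hS', hiff]
          · rw [← D.FacA_flip_ne S c e1 e2, hZ _ hS']
    rcases hΦ Z hcl with h2 | h2
    · exact absurd h2 h0.ne_empty
    · exact h1 h2
  by_cases hp : (c, false) ∈ Z
  · have hq : (c, true) ∉ Z := fun hq => hne ⟨fun _ => hq, fun _ => hp⟩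
    refine ⟨Zᶜ, fun S hS e => ?_, fun h2 => h2 hp, hq⟩
    rw [Set.mem_compl_iff, Set.mem_compl_iff, hZ S hS e]
  · refine ⟨Z, hZ, hp, ?_⟩
    by_contra hq
    exact hne ⟨fun h2 => absurd h2 hp, fun h2 => absurd h2 hq⟩

/-- Suppose not; `sep` gives `Z0` and `Z1`. Let `Z = Z0 ∩ Z1`, `p = (c, false)`, `q = (c, true)`, `S` a state
of `fc Φ c false` and `S'` the same state flipped at `c`, a state of `fc Φ c true`;
`D.sp S' = D.sp S * swap p q`. For `e ≠ p, q`: `D.sp S e = D.sp S' e`, so it is in `Z` iff `e ∈ Z`.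
`D.sp S p ∉ Z0` as `p ∉ Z0`, and `D.sp S q = D.sp S' p ∉ Z1` as `p ∉ Z1`. So the preimage of `Z` under the
permutation `D.sp S` is `Z` without `q`, and `q ∈ Z`: it has less elements than `Z`, contradiction. -/
theorem one_conn {Φ : Fc n} (hΦ : D.Cn Φ) {c : Fin n} (hc : Φ c = none) :
    D.Cn (fc Φ c false) ∨ D.Cn (fc Φ c true) := by
  by_contra hcon
  push Not at hcon
  obtain ⟨Z0, hZ0, hp0, hq0⟩ := D.sep hΦ hc hcon.1
  obtain ⟨Z1, hZ1, hp1, hq1⟩ := D.sep hΦ hc hcon.2
  obtain ⟨S, hS⟩ := exists_InF Φ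
  have hSf : InF (fc Φ c false) (Function.update S c false) :=
    (InF_fc hc).2 ⟨InF_dn hS hc _, Function.update_self _ _ _⟩
  obtain ⟨T, hT⟩ : ∃ T, T = Function.update S c false := ⟨_, rfl⟩
  rw [← hT] at hSf
  have hTc : T c = false := by rw [hT, Function.update_self]
  have hSt : InF (fc Φ c true) (Function.update T c (!T c)) := by
    refine (InF_fc hc).2 ⟨InF_dn (by rw [hT]; exact InF_dn hS hc _) hc _, ?_⟩
    rw [Function.update_self, hTc]
    rfl
  have key : ∀ e, D.sp T e ∈ Z0 ∩ Z1 ↔ e ∈ (Z0 ∩ Z1) \ {(c, true)} := by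
    intro e
    have h0 := hZ0 T hSf e
    by_cases e1 : e = (c, false)
    · constructor
      · intro h2
        exact absurd (by rw [e1] at h0; exact h0.1 (by rw [← e1]; exact h2.1)) hp0
      · intro h2
        rw [e1] at h2
        exact absurd h2.1.1 hp0
    · by_cases e2 : e = (c, true)
      · constructor
        · intro h2
          have h3 := hZ1 _ hSt (c, false)
          rw [D.FacA_flip_p] at h3
          rw [e2] at h2
          exact absurd (h3.1 h2.2) hp1
        · intro h2
          exact absurd (Set.mem_singleton_iff.2 e2) h2.2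
      · have h3 := hZ1 _ hSt e
        rw [D.FacA_flip_ne T c e1 e2] at h3
        rw [Set.mem_inter_iff, h0, h3, Set.mem_sdiff, Set.mem_inter_iff, Set.mem_singleton_iff]
        exact ⟨fun h2 => ⟨h2, e2⟩, fun h2 => h2.1⟩
  have himg : D.sp T '' ((Z0 ∩ Z1) \ {(c, true)}) = Z0 ∩ Z1 := by
    ext x
    constructor
    · rintro ⟨e, he, rfl⟩
      exact (key e).2 he
    · intro hx
      refine ⟨(D.sp T).symm x, (key _).1 ?_, ?_⟩
      · rw [apply_symm_apply]
        exact hx
      · rw [apply_symm_apply]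
  have hcard := Set.ncard_image_of_injective ((Z0 ∩ Z1) \ {(c, true)}) (D.sp T).injective
  rw [himg] at hcard
  have hlt := Set.ncard_sdiff_singleton_lt_of_mem (s := Z0 ∩ Z1) (a := (c, true)) ⟨hq0, hq1⟩
    (Set.toFinite _)
  omega

/-- no free crossing: the circle of an arc is closed, so it is everything (`0 < n` because there is an
arc) -/
theorem circ_one {Φ : Fc n} (hΦ : D.Cn Φ) (hf : ∀ c, Φ c ≠ none) {S : St n} (hS : InF Φ S)
    (e : Arc n) : D.circ S = 1 := by
  have hone : ∀ S', InF Φ S' → S' = S := by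
    intro S' hS'
    funext c
    obtain ⟨b, hb⟩ := Option.ne_none_iff_exists'.1 (hf c)
    rw [hS' c b hb, hS c b hb]
  unfold circ cyc
  rw [Nat.card_eq_one_iff_unique]
  have hall : ∀ a b : Arc n, (D.sp S).SameCycle a b := by
    intro a b
    have hcl : D.Cl Φ {x | (D.sp S).SameCycle a x} := by
      intro S' hS' x
      rw [hone S' hS']
      exact Perm.sameCycle_apply_right
    rcases hΦ _ hcl with h2 | h2
    · have h3 : a ∈ {x | (D.sp S).SameCycle a x} := Perm.SameCycle.refl _ _
      rw [h2] at h3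
      exact absurd h3 (Set.notMem_empty _)
    · have h3 : b ∈ {x | (D.sp S).SameCycle a x} := by
        rw [h2]
        exact Set.mem_univ _
      exact h3
  refine ⟨⟨fun x y => ?_⟩, ⟨Quotient.mk _ e⟩⟩
  induction x using Quotient.inductionOn with
  | h a =>
    induction y using Quotient.inductionOn with
    | h b => exact Quotient.sound (hall a b)

end Dgm

end Pool.Agent.Lib.MP_21eb54_gt
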