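import Pool.Agent.Lib.MP_21eb54_gt.GrB
import Pool.Agent.Lib.MP_21eb54_gt.BasB

/-!
# Reduced and unreduced homology

`A = Ideal.span {X e}`. The multiplication by `X e` maps the reduced complex (coefficients modulo
`J ⊔ A`) into the unreduced one (modulo `J`), and it is injective (`ex_X`, `X_mul_mem`).
`J` is `D.J 0 S` everywhere; `J ⊔ ⊥ = J`. Every `InF (full n) S` holds. The homogeneous choices are made
with `Gr_choose` (`Hm_bot`, `Hm_span`, `isHomogeneous_X`).
-/

set_option autoImplicit false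

namespace Pool.Agent.Lib.MP_21eb54_gt

open Equiv MvPolynomial

variable {n : ℕ}

namespace Dgm

variable (D : Dgm n)

theorem RedA_zero (Φ : Fc n) (S : St n) : D.dfF Φ 0 S = 0 := by
  have h := D.dfF_sub Φ 0 0
  rw [sub_zero, sub_self] at h
  rw [h]
  rfl

/-- `F` of degree `h < 0` or `h > n` is zero: the homology is zero there. -/
theorem Ex_out {Φ : Fc n} {A : Ideal (MvPolynomial (Arc n) ℚ)} {w h : ℤ} (hh : h < 0 ∨ (n : ℤ) < h) :
    D.Ex Φ A w h := by
  intro F hF _
  refine ⟨0, fun S _ m hm => absurd (coeff_zero m) hm, fun S hS => ?_⟩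
  have h0 : F S = 0 := by
    ext m
    rw [coeff_zero]
    by_contra hm
    obtain ⟨h1, -⟩ := hF S hS m hm
    have h2 : nb S ≤ n := by
      unfold nb
      refine (Finset.card_filter_le _ _).trans ?_
      rw [Finset.card_univ, Fintype.card_fin]
    omega
  rw [h0, RedA_zero, sub_zero]
  exact Ideal.zero_mem _

theorem RedA_cast {Φ : Fc n} {w h w' h' : ℤ} {F : Ch n} (hF : D.Gr Φ w h F) (hw : w = w')
    (hh : h = h') : D.Gr Φ w' h' F := by
  subst hw
  subst hh
  exact hF

/-- `dF ≡ X e * G` implies that `G` is a reduced cycle -/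
theorem RedA_aux (e : Arc n) {F G : Ch n} (hF : ∀ S, D.dfF (full n) F S ∈ D.J 0 S)
    (h : ∀ S, F S - X e * G S ∈ D.J 0 S) (S : St n) :
    D.dfF (full n) G S ∈ D.J 0 S ⊔ Ideal.span {X e} := by
  have h1 := D.dfF_mem (t := 0) (Φ := full n) (A := ⊥) (F := F - fun S => X e * G S)
    (fun S _ => by
      rw [sup_bot_eq]
      exact h S) (S := S) (fun c b hc => by cases hc)
  rw [sup_bot_eq, D.dfF_sub, D.dfF_mul] at h1
  have h2 : X e * D.dfF (full n) G S ∈ D.J 0 S := by
    have h3 := Ideal.sub_mem _ (hF S) h1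
    have e1 : D.dfF (full n) F S - (D.dfF (full n) F - fun S => X e * D.dfF (full n) G S : Ch n) S =
        X e * D.dfF (full n) G S := by
      show D.dfF (full n) F S - (D.dfF (full n) F S - X e * D.dfF (full n) G S) = _
      ring
    rwa [e1] at h3
  exact ex_X h2

theorem RedA_full (S : St n) : InF (full n) S := fun c b hc => by cases hc

theorem RedA_choose (e : Arc n) {w h : ℤ} {F : Ch n} (hF : D.Gr (full n) w h F)
    (hm : ∀ S, F S ∈ D.J 0 S ⊔ Ideal.span {X e}) :
    ∃ u, D.Gr (full n) (w + 2) h u ∧ ∀ S, F S - X e * u S ∈ D.J 0 S := by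
  obtain ⟨u, h1, h2⟩ := D.Gr_choose (A := ⊥) Hm_bot (isHomogeneous_X ℚ e) hF (fun S _ => by
    rw [sup_bot_eq]
    exact hm S)
  refine ⟨u, h1, fun S => ?_⟩
  have h3 := h2 S (RedA_full S)
  rwa [sup_bot_eq] at h3

/-- Descending induction on `h` (`Ex_out` for `h > n`). Let `F` of degree `(w, h)` be a reduced cycle.
`dF ∈ J + (X e)` has degree `(w - 2, h + 1)`, so `dF ≡ X e * G` modulo `J` with `G` of degree
`(w, h + 1)`. `X e * dG ≡ ddF ≡ 0`, so `dG ∈ J + (X e)` by `ex_X`: `G` is a reduced cycle, and by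
induction `G ≡ dG'` modulo `J + (X e)` with `G'` of degree `(w + 2, h)`; `X e * G ≡ X e * dG'` modulo `J`
(`X_mul_mem`). So `F - X e * G'` (degree `(w, h)`) is a cycle modulo `J`, hence `≡ dE` modulo `J` by the
hypothesis, and `F ≡ dE` modulo `J + (X e)`. -/
theorem red1 (e : Arc n) {w : ℤ} (h1 : ∀ h, D.Ex (full n) ⊥ w h) (h : ℤ) :
    D.Ex (full n) (Ideal.span {X e}) w h := by
  have key : ∀ k : ℕ, ∀ h : ℤ, (n : ℤ) - h < k → D.Ex (full n) (Ideal.span {X e}) w h := by
    intro k
    induction k with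
    | zero =>
      intro h hh
      refine D.Ex_out (Or.inr ?_)
      push_cast at hh
      omega
    | succ k ih =>
      intro h hh F hF hc
      have ih' := ih (h + 1) (by
        push_cast at hh
        omega)
      obtain ⟨G, g1, g2⟩ := D.RedA_choose e (D.dfF_Gr hF) fun S => hc S (RedA_full S)
      have g1' : D.Gr (full n) w (h + 1) G := D.RedA_cast g1 (by ring) rfl
      obtain ⟨G', g3, g4⟩ := ih' G g1' fun S _ =>
        D.RedA_aux e (fun S => D.dfF_dfF (full n) F S) g2 S
      have g3' : D.Gr (full n) w h (fun S => X e * G' S) :=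
        D.RedA_cast (D.Gr_mul (isHomogeneous_X ℚ e) g3) (by ring) (by ring)
      obtain ⟨E, e1, e2⟩ := h1 h _ (D.Gr_sub hF g3') fun S _ => by
        rw [sup_bot_eq, D.dfF_sub, D.dfF_mul]
        have h5 := Ideal.add_mem _ (g2 S) (X_mul_mem (g4 S (RedA_full S)))
        have e3 : D.dfF (full n) F S - X e * G S + X e * (G S - D.dfF (full n) G' S) =
            (D.dfF (full n) F - fun S => X e * D.dfF (full n) G' S : Ch n) S := by
          show _ = D.dfF (full n) F S - X e * D.dfF (full n) G' S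
          ring
        rw [e3] at h5
        exact h5
      refine ⟨E, e1, fun S hS => ?_⟩
      have h6 := e2 S hS
      rw [sup_bot_eq] at h6
      have h7 : X e * G' S ∈ Ideal.span {(X e : MvPolynomial (Arc n) ℚ)} :=
        Ideal.mul_mem_right _ _ (Ideal.mem_span_singleton_self _)
      have h8 := Submodule.add_mem_sup h6 h7
      have e3 : (F - fun S => X e * G' S : Ch n) S - D.dfF (full n) E S + X e * G' S =
          F S - D.dfF (full n) E S := by
        show F S - X e * G' S - D.dfF (full n) E S + X e * G' S = _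
        ring
      rw [e3] at h8
      exact h8
  refine key ((n : ℤ) - h + 1).toNat h ?_
  omega

/-- Induction on `h` (`Ex_out` for `h < 0`). Let `F` of degree `(w, h)` be a reduced cycle.
`X e * F` (degree `(w - 2, h)`) is a cycle modulo `J` (`X_mul_mem`), hence `≡ dE` modulo `J` by the
hypothesis, `E` of degree `(w, h - 1)`. `dE ∈ J + (X e)`: `E` is a reduced cycle, and by induction
`E ≡ dE'` modulo `J + (X e)`, so `E ≡ dE' + X e * E''` modulo `J` with `E''` of degree
`(w + 2, h - 1)`. Then `X e * F ≡ dE ≡ X e * dE''`, and `F - dE'' ∈ J + (X e)` by `ex_X`. -/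
theorem red2 (e : Arc n) {w : ℤ} (h1 : ∀ h, D.Ex (full n) ⊥ (w - 2) h) (h : ℤ) :
    D.Ex (full n) (Ideal.span {X e}) w h := by
  have key : ∀ k : ℕ, ∀ h : ℤ, h < k → D.Ex (full n) (Ideal.span {X e}) w h := by
    intro k
    induction k with
    | zero =>
      intro h hh
      exact D.Ex_out (Or.inl (by exact_mod_cast hh))
    | succ k ih =>
      intro h hh F hF hc
      have ih' := ih (h - 1) (by
        push_cast at hh
        omega)
      obtain ⟨E, e1, e2⟩ := h1 h _ (D.Gr_mul (isHomogeneous_X ℚ e) hF) fun S _ => by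
        rw [sup_bot_eq, D.dfF_mul]
        exact X_mul_mem (hc S (RedA_full S))
      have e2' : ∀ S, X e * F S - D.dfF (full n) E S ∈ D.J 0 S := fun S => by
        have h3 := e2 S (RedA_full S)
        rwa [sup_bot_eq] at h3
      have e1' : D.Gr (full n) w (h - 1) E := D.RedA_cast e1 (by ring) rfl
      obtain ⟨E', e3, e4⟩ := ih' E e1' fun S _ => by
        have h7 : X e * F S ∈ Ideal.span {(X e : MvPolynomial (Arc n) ℚ)} :=
          Ideal.mul_mem_right _ _ (Ideal.mem_span_singleton_self _)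
        have h8 := Submodule.add_mem_sup (Ideal.neg_mem_iff _ |>.2 (e2' S)) h7
        have e5 : -(X e * F S - D.dfF (full n) E S) + X e * F S = D.dfF (full n) E S := by ring
        rwa [e5] at h8
      have g1 : D.Gr (full n) w (h - 1) (D.dfF (full n) E') :=
        D.RedA_cast (D.dfF_Gr e3) (by ring) (by ring)
      obtain ⟨E'', f1, f2⟩ := D.RedA_choose e (D.Gr_sub e1' g1) fun S => e4 S (RedA_full S)
      refine ⟨E'', f1, fun S hS => ex_X ?_⟩
      have h5 := D.dfF_mem (t := 0) (Φ := full n) (A := ⊥)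
        (F := E - D.dfF (full n) E' - fun S => X e * E'' S)
        (fun S _ => by
          rw [sup_bot_eq]
          exact f2 S) (S := S) hS
      rw [sup_bot_eq, D.dfF_sub, D.dfF_sub, D.dfF_mul] at h5
      have h6 := Ideal.add_mem _ (Ideal.add_mem _ (e2' S) h5) (D.dfF_dfF (full n) E' S)
      have e5 : X e * F S - D.dfF (full n) E S +
          (D.dfF (full n) E - D.dfF (full n) (D.dfF (full n) E') -
            fun S => X e * D.dfF (full n) E'' S : Ch n) S + D.dfF (full n) (D.dfF (full n) E') S =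
          X e * (F S - D.dfF (full n) E'' S) := by
        show X e * F S - D.dfF (full n) E S +
          (D.dfF (full n) E S - D.dfF (full n) (D.dfF (full n) E') S -
            X e * D.dfF (full n) E'' S) + D.dfF (full n) (D.dfF (full n) E') S = _
        ring
      rw [e5] at h6
      exact h6
  refine key (h + 1).toNat h ?_
  omega

/-- Let `F` of degree `(w, h)` be a cycle modulo `J`. It is a reduced cycle, so `F ≡ dE` modulo
`J + (X e)`, so `F ≡ dE + X e * G` modulo `J`, `G` of degree `(w + 2, h)`. `X e * dG ≡ 0` modulo `J`, so `G`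
is a reduced cycle (`ex_X`) and `G ≡ dG'` modulo `J + (X e)`; `X e * G ≡ d (X e * G')` modulo `J`.
So `F ≡ d (E + X e * G')`. -/
theorem red3 (e : Arc n) {w h : ℤ} (h1 : D.Ex (full n) (Ideal.span {X e}) w h)
    (h2 : D.Ex (full n) (Ideal.span {X e}) (w + 2) h) : D.Ex (full n) ⊥ w h := by
  intro F hF hc
  have hc' : ∀ S, D.dfF (full n) F S ∈ D.J 0 S := fun S => by
    have h3 := hc S (RedA_full S)
    rwa [sup_bot_eq] at h3
  obtain ⟨E, e1, e2⟩ := h1 F hF fun S _ => Submodule.mem_sup_left (hc' S)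
  have g1 : D.Gr (full n) w h (D.dfF (full n) E) :=
    D.RedA_cast (D.dfF_Gr e1) (by ring) (by ring)
  obtain ⟨G, g2, g3⟩ := D.RedA_choose e (D.Gr_sub hF g1) fun S => e2 S (RedA_full S)
  obtain ⟨G', g4, g5⟩ := h2 G g2 fun S _ => D.RedA_aux e (F := F - D.dfF (full n) E) (fun S => by
    rw [D.dfF_sub]
    exact Ideal.sub_mem _ (hc' S) (D.dfF_dfF (full n) E S)) g3 S
  refine ⟨E + fun S => X e * G' S, D.Gr_add e1
    (D.RedA_cast (D.Gr_mul (isHomogeneous_X ℚ e) g4) (by ring) rfl), fun S hS => ?_⟩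
  rw [sup_bot_eq, D.dfF_add, D.dfF_mul]
  have h5 := Ideal.add_mem _ (g3 S) (X_mul_mem (g5 S hS))
  have e3 : (F - D.dfF (full n) E) S - X e * G S + X e * (G S - D.dfF (full n) G' S) =
      F S - (D.dfF (full n) E + fun S => X e * D.dfF (full n) G' S : Ch n) S := by
    show F S - D.dfF (full n) E S - X e * G S + X e * (G S - D.dfF (full n) G' S) =
      F S - (D.dfF (full n) E S + X e * D.dfF (full n) G' S)
    ring
  rw [e3] at h5
  exact h5

end Dgm

end Pool.Agent.Lib.MP_21eb54_gt
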