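import Pool.Agent.Lib.MP_21eb54_gt.TrF
import Pool.Agent.Lib.MP_21eb54_gt.RedA

/-!
# The homology lives on the diagonals of the states with one circle, 2
-/

set_option autoImplicit false

namespace Pool.Agent.Lib.MP_21eb54_gt

open Equiv MvPolynomial

variable {n : ℕ}

namespace Dgm

variable (D : Dgm n)

theorem np_add_nn : D.np + D.nn = n := by
  have h1 : (Finset.univ.filter fun c => D.pos c = false) =
      Finset.univ.filter fun c => ¬ D.pos c = true := by
    ext c
    simp
  unfold np nn
  rw [h1, Finset.card_filter_add_card_filter_not, Finset.card_univ, Fintype.card_fin]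

/-- The homology lives on the diagonals of the states with one circle. -/
theorem KhNe_tree {b a : ℤ} (h : D.KhNe b a) : ∃ S, D.circ S = 1 ∧
    (1 - (nb S : ℤ) = a - 2 * b - D.np ∨ 1 - (nb S : ℤ) = a - 2 * b - D.np + 2) := by
  rw [KhNe_iff] at h
  by_contra hcon
  push Not at hcon
  let e : Arc n := (⟨0, D.n_pos⟩, false)
  apply h
  apply D.red3 e
  · apply D.tree e D.Cn_full
    intro S _ hS heq
    exact (hcon S hS).1 heq.symm
  · apply D.tree e D.Cn_full
    intro S _ hS heq
    exact (hcon S hS).2 heq.symm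

/-- The upper bound for the quantum degrees in the homological degree `0`. -/
theorem KhNe_le {a : ℤ} (h : D.KhNe 0 a) : a ≤ D.np + 2 - D.circ fun _ => false := by
  obtain ⟨S, hS, h1⟩ := D.KhNe_tree h
  have h2 := D.sA_le S
  rw [hS] at h2
  have h3 : (D.circ (fun _ => false) : ℤ) ≤ 1 + nb S := by exact_mod_cast h2
  rcases h1 with h1 | h1
  · linarith
  · linarith

/-- The lower bound for the quantum degrees in the homological degree `0`. -/
theorem le_KhNe {a : ℤ} (h : D.KhNe 0 a) : (D.circ (fun _ => true) : ℤ) - D.nn - 2 ≤ a := by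
  obtain ⟨S, hS, h1⟩ := D.KhNe_tree h
  have h2 := D.sB_le S
  rw [hS] at h2
  have h3 : (D.circ (fun _ => true) : ℤ) + nb S ≤ 1 + n := by exact_mod_cast h2
  have h4 : (D.np : ℤ) + D.nn = n := by exact_mod_cast D.np_add_nn
  rcases h1 with h1 | h1
  · linarith
  · linarith

end Dgm

end Pool.Agent.Lib.MP_21eb54_gt
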