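import Pool.Agent.Lib.MP_21eb54_gt.ThT
import Pool.Agent.Lib.MP_21eb54_gt.TrG

/-!
# Thin diagrams: the reduced homology
-/

set_option autoImplicit false

namespace Pool.Agent.Lib.MP_21eb54_gt

open Equiv MvPolynomial

variable {n : ℕ}

namespace Dgm

variable (D : Dgm n)

theorem FinA_bot (h : D.Thin) {w : ℤ} (h1 : w + D.np ≠ D.s - 1) (h2 : w + D.np ≠ D.s + 1) (j : ℤ) :
    D.Ex (full n) ⊥ w j := by
  obtain ⟨δ, hδ⟩ := h
  have e1 := hδ 0 _ D.KhNe_smax
  have e2 := hδ 0 _ D.KhNe_smin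
  by_contra hne
  have h3 : D.KhNe (j - D.nn) (w + D.np + 2 * (j - D.nn)) := by
    rw [D.KhNe_iff]
    have e3 : w + (D.np : ℤ) + 2 * (j - D.nn) - 2 * (j - D.nn) - D.np = w := by ring
    have e4 : j - (D.nn : ℤ) + D.nn = j := by ring
    rw [e3, e4]
    exact hne
  have e5 := hδ _ _ h3
  omega

/-- `KhNe_smax`, `KhNe_smin`: the two diagonals of a thin diagram are `s - 1` and `s + 1`. By `KhNe_iff`
`D.Ex (full n) ⊥ w h` for all `h` if `w + np ≠ s - 1, s + 1`. `red1` for `w + np ≠ s - 1, s + 1`, `red2` for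
`w + np = s - 1`. -/
theorem thin_red (h : D.Thin) (e0 : Arc n) {w : ℤ} (hw : w ≠ D.s + 1 - D.np) (j : ℤ) :
    D.Ex (full n) (Ideal.span {X e0}) w j := by
  by_cases h1 : w + D.np = D.s - 1
  · refine D.red2 e0 ?_ j
    intro i
    exact D.FinA_bot h (by omega) (by omega) i
  · refine D.red1 e0 ?_ j
    intro i
    exact D.FinA_bot h h1 (by omega) i

/-- if not, `D.Ex` for all `w`, by `red3` also for `⊥`, and `KhNe_smax` is false -/
theorem thin_ne (h : D.Thin) (e0 : Arc n) :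
    ¬ ∀ j, D.Ex (full n) (Ideal.span {X e0}) (D.s + 1 - D.np) j := by
  intro h1
  have h2 : ∀ w j, D.Ex (full n) (Ideal.span {X e0}) w j := by
    intro w j
    by_cases hw : w = D.s + 1 - D.np
    · rw [hw]
      exact h1 j
    · exact D.thin_red h e0 hw j
  exact (D.KhNe_iff _ _).1 D.KhNe_smax (D.red3 e0 (h2 _ _) (h2 _ _))

end Dgm

end Pool.Agent.Lib.MP_21eb54_gt
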