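import Pool.Agent.Lib.MP_21eb54_gt.KirB
import Pool.Agent.Lib.MP_21eb54_gt.CBi

/-!
# The matrix tree theorem
-/

set_option autoImplicit false

namespace Pool.Agent.Lib.MP_21eb54_gt

open Equiv Matrix

variable {n : ℕ}

namespace Dgm

variable (D : Dgm n)

/-- the state of a set of crossings -/
def KirC_st (T : Finset (Fin n)) : St n := fun c => decide (c ∈ T)

theorem KirC_filter (T : Finset (Fin n)) : (Finset.univ.filter fun c => KirC_st T c = true) = T := by
  ext c
  simp [KirC_st]

theorem KirC_nb (T : Finset (Fin n)) : nb (KirC_st T) = T.card := by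
  unfold nb
  rw [KirC_filter]

theorem KirC_card (r : D.Reg) : Fintype.card {u : D.Reg // u ≠ r} + 1 = Nat.card D.Reg := by
  rw [Nat.card_eq_fintype_card]
  have h5 : Fintype.card {u : D.Reg // u ≠ r} = Fintype.card D.Reg - 1 := by
    rw [Fintype.card_subtype_compl]
    simp
  have h6 : 0 < Fintype.card D.Reg := Fintype.card_pos_iff.2 ⟨r⟩
  omega

open Classical in
theorem KirC_det (r : D.Reg) (T : Finset (Fin n)) (e : {u : D.Reg // u ≠ r} ≃ {c : Fin n // c ∈ T}) :
    (Matrix.of fun (i j : {u : D.Reg // u ≠ r}) => D.Nm (e j).1 i.1).det ^ 2 =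
      if D.kd (KirC_st T) = 1 then 1 else 0 := by
  have h1 : ∀ c, c ∈ T ↔ KirC_st T c = true := fun c => by simp [KirC_st]
  let e' : {u : D.Reg // u ≠ r} ≃ {c : Fin n // KirC_st T c = true} := e.trans (Equiv.subtypeEquivRight h1)
  have h2 : (Matrix.of fun (i j : {u : D.Reg // u ≠ r}) => D.Nm (e j).1 i.1) =
      Matrix.of fun (i j : {u : D.Reg // u ≠ r}) => D.Nm (e' j).1 i.1 := rfl
  rw [h2]
  by_cases h : D.kd (KirC_st T) = 1
  · rw [if_pos h]
    exact D.det_sq r e' h
  · rw [if_neg h]
    have h3 := mt (D.det_ne_iff r e').1 h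
    rw [not_not] at h3
    rw [h3]
    norm_num

/-- `cauchy_binet` with `M u c = Nm c u`; the sets `T` of crossings are the `H`; `tree_iff`, `det_ne_iff`,
`det_sq`. -/
theorem kir (r : D.Reg) (y : Fin n → ℝ) :
    (D.Lr r y).det = ∑ H : St n with cyc (sm D.out H) = 1, ∏ c with H c = true, y c := by
  classical
  have h0 : ∀ T : {T : Finset (Fin n) // T.card = Fintype.card {u : D.Reg // u ≠ r}},
      Nonempty ({u : D.Reg // u ≠ r} ≃ {c : Fin n // c ∈ T.1}) := by
    intro T
    refine ⟨Fintype.equivOfCardEq ?_⟩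
    rw [Fintype.card_coe, T.2]
  have h1 := cauchy_binet (fun (u : {u : D.Reg // u ≠ r}) c => D.Nm c u.1) y fun T => Classical.choice (h0 T)
  have h2 : D.Lr r y = Matrix.of fun (i j : {u : D.Reg // u ≠ r}) => ∑ c, y c * D.Nm c i.1 * D.Nm c j.1 := rfl
  rw [h2, h1]
  have h3 : ∀ T : {T : Finset (Fin n) // T.card = Fintype.card {u : D.Reg // u ≠ r}},
      (Matrix.of fun (i j : {u : D.Reg // u ≠ r}) => D.Nm (Classical.choice (h0 T) j).1 i.1).det ^ 2 * ∏ c ∈ T.1, y c =
        (fun T : Finset (Fin n) => if D.kd (KirC_st T) = 1 then ∏ c ∈ T, y c else 0) T.1 := by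
    intro T
    rw [D.KirC_det r T.1]
    by_cases h : D.kd (KirC_st T.1) = 1
    · simp [h]
    · simp [h]
  rw [Finset.sum_congr rfl fun T _ => h3 T]
  rw [← Finset.sum_subtype (Finset.univ.filter fun T : Finset (Fin n) => T.card = Fintype.card {u : D.Reg // u ≠ r})
    (by simp) fun T : Finset (Fin n) => if D.kd (KirC_st T) = 1 then ∏ c ∈ T, y c else 0]
  rw [← Finset.sum_filter, Finset.filter_filter]
  have h4 := D.KirC_card r
  refine Finset.sum_bij' (fun T _ => KirC_st T) (fun H _ => Finset.univ.filter fun c => H c = true) ?_ ?_ ?_ ?_ ?_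
  · intro T hT
    simp only [Finset.mem_filter, Finset.mem_univ, true_and] at hT ⊢
    rw [D.tree_iff, KirC_nb]
    exact ⟨by omega, hT.2⟩
  · intro H hH
    simp only [Finset.mem_filter, Finset.mem_univ, true_and] at hH ⊢
    rw [D.tree_iff] at hH
    have h5 : KirC_st (Finset.univ.filter fun c => H c = true) = H := by
      funext c
      simp [KirC_st]
    rw [h5]
    refine ⟨?_, hH.2⟩
    have h6 := hH.1
    unfold nb at h6
    omega
  · intro T _
    exact KirC_filter T
  · intro H _
    funext c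
    simp [KirC_st]
  · intro T _
    rw [KirC_filter]

end Dgm

end Pool.Agent.Lib.MP_21eb54_gt
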