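import Pool.Agent.Lib.MP_21eb54_gt.PlA

/-!
# The matrix tree theorem for the black graph
-/

set_option autoImplicit false

namespace Pool.Agent.Lib.MP_21eb54_gt

open Equiv Matrix

variable {n : ℕ}

noncomputable instance Dgm.instFinReg (D : Dgm n) : Fintype D.Reg := Fintype.ofFinite _

noncomputable instance Dgm.instDecReg (D : Dgm n) : DecidableEq D.Reg := Classical.decEq _

namespace Dgm

variable (D : Dgm n)

theorem sum_Nm (c : Fin n) (x : D.Reg → ℝ) :
    ∑ u, x u * D.Nm c u = x (Quotient.mk _ (c, false)) - x (Quotient.mk _ (c, true)) := by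
  unfold Nm
  simp only [mul_sub, Finset.sum_sub_distrib, mul_ite, mul_one, mul_zero]
  rw [Finset.sum_ite_eq', Finset.sum_ite_eq', if_pos (Finset.mem_univ _), if_pos (Finset.mem_univ _)]

/-- The extension by zero at `r` of a vector in the kernel of the transposed matrix. -/
private theorem KirA_ker (r : D.Reg) {H : St n} (e : {u : D.Reg // u ≠ r} ≃ {c : Fin n // H c = true})
    (x : D.Reg → ℝ) (hx : x r = 0) :
    (fun i : {u : D.Reg // u ≠ r} => x i.1) ᵥ*
        (Matrix.of fun (i j : {u : D.Reg // u ≠ r}) => D.Nm (e j).1 i.1) = 0 ↔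
      ∀ c, H c = true → x (Quotient.mk _ (c, false)) = x (Quotient.mk _ (c, true)) := by
  have h1 : ∀ j : {u : D.Reg // u ≠ r}, ((fun i : {u : D.Reg // u ≠ r} => x i.1) ᵥ*
        (Matrix.of fun (i j : {u : D.Reg // u ≠ r}) => D.Nm (e j).1 i.1)) j =
      x (Quotient.mk _ ((e j).1, false)) - x (Quotient.mk _ ((e j).1, true)) := by
    intro j
    rw [← D.sum_Nm (e j).1 x]
    have h2 : ∑ u, x u * D.Nm (e j).1 u =
        ∑ u ∈ Finset.univ.filter (fun u : D.Reg => u ≠ r), x u * D.Nm (e j).1 u := by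
      symm
      refine Finset.sum_subset (Finset.filter_subset _ _) fun u _ hu => ?_
      rw [Finset.mem_filter] at hu
      have h3 : u = r := by
        by_contra h4
        exact hu ⟨Finset.mem_univ _, h4⟩
      rw [h3, hx, zero_mul]
    rw [h2]
    exact (Finset.sum_subtype (Finset.univ.filter fun u : D.Reg => u ≠ r) (fun u => by simp)
      (fun u => x u * D.Nm (e j).1 u)).symm
  constructor
  · intro h c hc
    have h2 := congrFun h (e.symm ⟨c, hc⟩)
    rw [h1, e.apply_symm_apply, Pi.zero_apply, sub_eq_zero] at h2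
    exact h2
  · intro h
    funext j
    rw [h1, Pi.zero_apply, sub_eq_zero]
    exact h _ (e j).2

/-- The constant function. -/
private theorem KirA_one (H : St n) : (fun _ : Arc n => (1 : ℝ)) ∈ D.Wd H :=
  ⟨fun _ => rfl, fun _ _ => rfl⟩

/-- The value at the region of an element of `D.Wd H`. -/
private theorem KirA_lift {H : St n} {y : Arc n → ℝ} (hy : y ∈ D.Wd H) :
    ∃ x : D.Reg → ℝ, ∀ a, x (Quotient.mk _ a) = y a := by
  refine ⟨Quotient.lift y fun a b hab => ?_, fun a => rfl⟩
  have h1 : ∀ k : ℕ, ∀ a, y ((sm D.out (fun _ => false) ^ k) a) = y a := by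
    intro k
    induction k with
    | zero => intro a; rfl
    | succ k ih =>
      intro a
      rw [pow_succ', Equiv.Perm.mul_apply, hy.1, ih]
  have h2 : Equiv.Perm.SameCycle (sm D.out fun _ => false) a b := hab
  obtain ⟨k, -, hk⟩ := h2.exists_pow_eq'
  rw [← hk, h1]

/-- The minor of the incidence matrix is not zero if and only if the graph is connected. -/
theorem det_ne_iff (r : D.Reg) {H : St n} (e : {u : D.Reg // u ≠ r} ≃ {c : Fin n // H c = true}) :
    (Matrix.of fun (i j : {u : D.Reg // u ≠ r}) => D.Nm (e j).1 i.1).det ≠ 0 ↔ D.kd H = 1 := by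
  obtain ⟨a₀, rfl⟩ := Quotient.exists_rep r
  constructor
  · intro hdet
    by_contra hk
    have hk2 : 1 < D.kd H := by
      have := D.kd_pos H
      omega
    -- a function which vanishes at the arc `a₀`
    let L : D.Wd H →ₗ[ℝ] ℝ := (LinearMap.proj a₀).comp (D.Wd H).subtype
    have hL : ∃ y : D.Wd H, y ≠ 0 ∧ L y = 0 := by
      by_contra hno
      have hinj : Function.Injective L := by
        rw [injective_iff_map_eq_zero]
        intro y hy
        by_contra hy0
        exact hno ⟨y, hy0, hy⟩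
      have h1 := LinearMap.finrank_le_finrank_of_injective hinj
      rw [Module.finrank_self] at h1
      unfold kd at hk2
      omega
    obtain ⟨⟨y, hy⟩, hy0, hLy⟩ := hL
    obtain ⟨x, hx⟩ := D.KirA_lift hy
    have hxr : x (Quotient.mk _ a₀) = 0 := by
      rw [hx]
      exact hLy
    have h1 := (D.KirA_ker _ e x hxr).2 fun c hc => by rw [hx, hx]; exact hy.2 c hc
    apply hdet
    refine Matrix.exists_vecMul_eq_zero_iff.1 ⟨_, ?_, h1⟩
    intro h0
    apply hy0
    apply Subtype.ext
    funext a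
    change y a = 0
    rw [← hx]
    by_cases ha : (Quotient.mk _ a : D.Reg) = Quotient.mk _ a₀
    · rw [ha, hxr]
    · exact congrFun h0 ⟨Quotient.mk _ a, ha⟩
  · intro hk hdet
    obtain ⟨v, hv0, hv⟩ := Matrix.exists_vecMul_eq_zero_iff.2 hdet
    let x : D.Reg → ℝ := fun u => if hu : u ≠ Quotient.mk _ a₀ then v ⟨u, hu⟩ else 0
    have hxr : x (Quotient.mk _ a₀) = 0 := dif_neg (fun h => h rfl)
    have hxv : (fun i : {u : D.Reg // u ≠ Quotient.mk _ a₀} => x i.1) = v := by
      funext i
      exact dif_pos i.2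
    have h1 := (D.KirA_ker _ e x hxr).1 (by rw [hxv]; exact hv)
    have hy : (fun a => x (Quotient.mk _ a)) ∈ D.Wd H := by
      refine ⟨fun a => ?_, h1⟩
      have h2 : (Quotient.mk _ (sm D.out (fun _ => false) a) : D.Reg) = Quotient.mk _ a :=
        Quotient.sound (Equiv.Perm.SameCycle.symm ⟨1, by rw [zpow_one]⟩)
      show x _ = x _
      rw [h2]
    have hne : (⟨_, D.KirA_one H⟩ : D.Wd H) ≠ 0 := by
      intro h
      have h2 := congrFun (congrArg Subtype.val h) a₀
      exact one_ne_zero h2
    obtain ⟨c, hc⟩ := (finrank_eq_one_iff_of_nonzero' _ hne).1 hk ⟨_, hy⟩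
    have hc' : ∀ a, c * 1 = x (Quotient.mk _ a) := fun a => congrFun (congrArg Subtype.val hc) a
    have hc0 : c = 0 := by
      have h2 := hc' a₀
      rw [hxr, mul_one] at h2
      exact h2
    apply hv0
    rw [← hxv]
    funext i
    obtain ⟨a, ha⟩ := Quotient.exists_rep i.1
    show x i.1 = 0
    rw [← ha, ← hc' a, hc0, zero_mul]

end Dgm

end Pool.Agent.Lib.MP_21eb54_gt
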