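import Pool.Agent.Lib.MP_21eb54_gt.InB
import Pool.Agent.Lib.MP_21eb54_gt.KirA

/-!
# The Goeritz form
-/

set_option autoImplicit false

namespace Pool.Agent.Lib.MP_21eb54_gt

open Equiv Matrix

variable {n : ℕ}

namespace Dgm

variable (D : Dgm n)

/-- the weights of the crossings in the Goeritz form -/
def ey (c : Fin n) : ℝ := if D.ov c then -1 else 1

/-- functions on the arcs which are constant on the black regions are functions on the black regions;
`D.gq x = ∑ c, ey c * (y (c, false) - y (c, true)) ^ 2` for the function `y e = x [e]` -/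
theorem gq_eq (x : D.Reg → ℝ) : D.gq x =
    ∑ c, D.ey c * (x (Quotient.mk _ (c, false)) - x (Quotient.mk _ (c, true))) ^ 2 := rfl

/-- the functions which vanish at `r` are the functions on the other regions -/
noncomputable def SgA_equiv (r : D.Reg) :
    LinearMap.ker (LinearMap.proj r : (D.Reg → ℝ) →ₗ[ℝ] ℝ) ≃ₗ[ℝ] ({u : D.Reg // u ≠ r} → ℝ) where
  toFun x u := x.1 u.1
  invFun y := ⟨fun u => if h : u ≠ r then y ⟨u, h⟩ else 0, by simp⟩
  left_inv x := by
    apply Subtype.ext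
    funext u
    by_cases h : u = r
    · have h1 : x.1 r = 0 := x.2
      simp [h, h1]
    · simp [h]
  right_inv y := by
    funext u
    simp [u.2]
  map_add' x y := rfl
  map_smul' a x := rfl

theorem SgA_compl (r : D.Reg) :
    IsCompl (LinearMap.range (LinearMap.pi fun _ => LinearMap.id : ℝ →ₗ[ℝ] (D.Reg → ℝ)))
      (LinearMap.ker (LinearMap.proj r : (D.Reg → ℝ) →ₗ[ℝ] ℝ)) := by
  constructor
  · rw [Submodule.disjoint_def]
    rintro x ⟨t, rfl⟩ hx
    have h1 : t = 0 := hx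
    rw [h1, map_zero]
  · rw [codisjoint_iff, eq_top_iff]
    intro x _
    rw [Submodule.mem_sup]
    refine ⟨_, ⟨x r, rfl⟩, x - (LinearMap.pi fun _ => LinearMap.id : ℝ →ₗ[ℝ] (D.Reg → ℝ)) (x r), ?_, by abel⟩
    rw [LinearMap.mem_ker]
    simp

theorem SgA_key (r : D.Reg) (q : (D.Reg → ℝ) → ℝ) (q' : ({u : D.Reg // u ≠ r} → ℝ) → ℝ) (h0 : q 0 = 0)
    (hc : ∀ (x : D.Reg → ℝ) (t : ℝ), q (x + fun _ => t) = q x)
    (hq : ∀ x : D.Reg → ℝ, x r = 0 → q' (fun u => x u.1) = q x) : idx q = idx q' := by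
  have h1 := idx_complement (q := q) (D.SgA_compl r) h0 (by
    rintro x k ⟨t, rfl⟩
    exact hc x t)
  rw [← h1]
  symm
  refine idx_equiv (D.SgA_equiv r) fun x => ?_
  exact hq x.1 x.2

theorem SgA_quad (r : D.Reg) (y : Fin n → ℝ) (x : D.Reg → ℝ) (hx : x r = 0) :
    (fun u : {u : D.Reg // u ≠ r} => x u.1) ⬝ᵥ D.Lr r y *ᵥ (fun u : {u : D.Reg // u ≠ r} => x u.1) =
      ∑ c, y c * (x (Quotient.mk _ (c, false)) - x (Quotient.mk _ (c, true))) ^ 2 := by
  have h1 : ∀ c, ∑ u : {u : D.Reg // u ≠ r}, x u.1 * D.Nm c u.1 =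
      x (Quotient.mk _ (c, false)) - x (Quotient.mk _ (c, true)) := by
    intro c
    rw [← D.sum_Nm c x, ← Fintype.sum_subtype_add_sum_subtype (fun u : D.Reg => u ≠ r) fun u => x u * D.Nm c u]
    have h2 : ∑ u : {u : D.Reg // ¬ u ≠ r}, x u.1 * D.Nm c u.1 = 0 := by
      refine Finset.sum_eq_zero fun u _ => ?_
      have h3 : u.1 = r := not_not.1 u.2
      rw [h3, hx, zero_mul]
    rw [h2, add_zero]
  have h4 : ∀ c, y c * (x (Quotient.mk _ (c, false)) - x (Quotient.mk _ (c, true))) ^ 2 =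
      ∑ u : {u : D.Reg // u ≠ r}, ∑ v : {u : D.Reg // u ≠ r}, x u.1 * (y c * D.Nm c u.1 * D.Nm c v.1 * x v.1) := by
    intro c
    rw [← h1 c, sq, Finset.sum_mul_sum, Finset.mul_sum]
    refine Finset.sum_congr rfl fun u _ => ?_
    rw [Finset.mul_sum]
    refine Finset.sum_congr rfl fun v _ => ?_
    ring
  rw [Finset.sum_congr rfl fun c _ => h4 c, Finset.sum_comm]
  simp only [dotProduct, mulVec, Lr, Matrix.of_apply]
  refine Finset.sum_congr rfl fun u _ => ?_
  rw [Finset.sum_comm, Finset.mul_sum]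
  refine Finset.sum_congr rfl fun v _ => ?_
  rw [Finset.sum_mul, Finset.mul_sum]

/-- `idx_complement` for `K` the constants and `U` the functions which are zero at `r`, `idx_equiv` for
`U ≃ ({u // u ≠ r} → ℝ)`, `sum_Nm`. -/
theorem idx_gq (r : D.Reg) : idx D.gq = idx (fun x => x ⬝ᵥ D.Lr r D.ey *ᵥ x) := by
  refine D.SgA_key r _ _ ?_ ?_ ?_
  · rw [gq_eq]
    simp
  · intro x t
    rw [gq_eq, gq_eq]
    refine Finset.sum_congr rfl fun c _ => ?_
    simp only [Pi.add_apply]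
    ring
  · intro x hx
    rw [gq_eq]
    exact D.SgA_quad r D.ey x hx

theorem idx_gq' (r : D.Reg) : idx (fun x => -D.gq x) = idx (fun x => -(x ⬝ᵥ D.Lr r D.ey *ᵥ x)) := by
  refine D.SgA_key r _ _ ?_ ?_ ?_
  · rw [gq_eq]
    simp
  · intro x t
    rw [gq_eq, gq_eq]
    congr 1
    refine Finset.sum_congr rfl fun c _ => ?_
    simp only [Pi.add_apply]
    ring
  · intro x hx
    rw [gq_eq]
    congr 1
    exact D.SgA_quad r D.ey x hx

/-- `inert` -/
theorem gq_inert (r : D.Reg) (h : (D.Lr r D.ey).det ≠ 0) :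
    idx D.gq + idx (fun x => -D.gq x) + 1 = Nat.card D.Reg ∧
      0 < (-1) ^ idx (fun x => -D.gq x) * (D.Lr r D.ey).det := by
  have hs : (D.Lr r D.ey).IsSymm := by
    ext u v
    simp only [Lr, Matrix.transpose_apply, Matrix.of_apply]
    refine Finset.sum_congr rfl fun c _ => ?_
    ring
  obtain ⟨h1, h2⟩ := inert hs h
  have h3 := D.idx_gq r
  have h4 := D.idx_gq' r
  refine ⟨?_, ?_⟩
  · rw [h3, h4, h1, Nat.card_eq_fintype_card]
    have h5 : Fintype.card {u : D.Reg // u ≠ r} = Fintype.card D.Reg - 1 := by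
      rw [Fintype.card_subtype_compl]
      simp
    have h6 : 0 < Fintype.card D.Reg := Fintype.card_pos_iff.2 ⟨r⟩
    omega
  · rw [h4]
    exact h2

end Dgm

end Pool.Agent.Lib.MP_21eb54_gt
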