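import Pool.Agent.Lib.MP_21eb54_gt.FinA
import Pool.Agent.Lib.MP_21eb54_gt.EulD
import Pool.Agent.Lib.MP_21eb54_gt.KirC
import Pool.Agent.Lib.MP_21eb54_gt.SgA

/-!
# Thin diagrams: modulo four
-/

set_option autoImplicit false

namespace Pool.Agent.Lib.MP_21eb54_gt

open Equiv MvPolynomial

variable {n : ℕ}

namespace Dgm

variable (D : Dgm n)

/-- the states and the smoothings of the black graph -/
def FinB_T (S : St n) : St n := fun c => S c == D.ov c

theorem FinB_T_T (S : St n) : D.FinB_T (D.FinB_T S) = S := by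
  funext c
  unfold FinB_T
  cases S c <;> cases D.ov c <;> rfl

/-- the number of crossings where the black regions are joined by the `1`-smoothing -/
def FinB_a (H : St n) : ℕ := (Finset.univ.filter fun c => H c = true ∧ D.ov c = true).card

/-- the number of crossings with `ov c = false` -/
def FinB_m : ℕ := (Finset.univ.filter fun c => D.ov c = false).card

theorem FinB_nb (H : St n) : nb (D.FinB_T H) + nb H = 2 * D.FinB_a H + D.FinB_m := by
  unfold nb FinB_a FinB_m FinB_T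
  rw [Finset.card_filter, Finset.card_filter, Finset.card_filter, Finset.card_filter,
    ← Finset.sum_add_distrib, Finset.mul_sum, ← Finset.sum_add_distrib]
  refine Finset.sum_congr rfl fun c _ => ?_
  cases H c <;> cases D.ov c <;> simp

theorem FinB_prod (H : St n) :
    (∏ c with H c = true, D.ey c) = (-1 : ℝ) ^ D.FinB_a H := by
  unfold FinB_a ey
  rw [Finset.prod_ite, Finset.prod_const, Finset.prod_const_one, mul_one, Finset.filter_filter]

theorem FinB_even {k a : ℤ} : ((2 * k - 2 * a) % 4 = 0) ↔ (k - a) % 2 = 0 := by omega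

theorem FinB_pow (k : ℤ) (a : ℕ) :
    (((if (2 * k - 2 * (a : ℤ)) % 4 = 0 then (1 : ℤ) else -1 : ℤ)) : ℝ) =
      (if k % 2 = 0 then (1 : ℝ) else -1) * (-1) ^ a := by
  have h1 : (-1 : ℝ) ^ a = if (a : ℤ) % 2 = 0 then 1 else -1 := by
    rcases Nat.even_or_odd a with h | h
    · rw [h.neg_one_pow, if_pos]
      obtain ⟨b, rfl⟩ := h
      omega
    · rw [h.neg_one_pow, if_neg]
      obtain ⟨b, rfl⟩ := h
      omega
  rw [h1]
  by_cases h2 : k % 2 = 0
  · by_cases h3 : (a : ℤ) % 2 = 0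
    · rw [if_pos h2, if_pos h3, if_pos (by omega)]
      norm_num
    · rw [if_pos h2, if_neg h3, if_neg (by omega)]
      norm_num
  · by_cases h3 : (a : ℤ) % 2 = 0
    · rw [if_neg h2, if_pos h3, if_neg (by omega)]
      norm_num
    · rw [if_neg h2, if_neg h3, if_pos (by omega)]
      norm_num

/-- `circ S = 1` for `S` iff `cyc (sm D.out H) = 1` for `H c = (S c == ov c)`. Then (`tree_iff`)
`nb H + 1 = V`; let `a` be the number of the `c` with `H c` and `ov c` and `m` the number of the `c` with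
`ov c = false`. `nb S = 2 * a + m - V + 1`, and `∏ c with H c, ey c = (-1) ^ a`. So, with
`w0 = s + 1 - np`, `1 - nb S - w0 = V - m - w0 - 2 * a`, and the sum in `eul` is `(-1) ^ k * det (Lr)`
with `2 * k = V - m - w0` (even by the first part of `eul`). So the determinant is not zero and has the
sign `(-1) ^ k`; by `gq_inert` it has the sign `(-1) ^ neg` and `pos + neg + 1 = V`. So `neg ≡ k` modulo
`2`, `2 * neg ≡ V - m - w0` modulo `4`, `w0 ≡ pos - neg + 1 - m`, `s ≡ pos - neg + np - m = sig`. -/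
theorem thin_mod (h : D.Thin) : 4 ∣ D.s - D.sig := by
  have e0 : Arc n := (⟨0, D.n_pos⟩, false)
  obtain ⟨w0, hw0⟩ : ∃ w0, w0 = D.s + 1 - D.np := ⟨_, rfl⟩
  obtain ⟨hpar, hsum⟩ := D.eul e0 (w0 := w0) (fun w hw j => D.thin_red h e0 (by rw [← hw0]; exact hw) j)
    (by rw [hw0]; exact D.thin_ne h e0)
  obtain ⟨r, hr⟩ : ∃ r : D.Reg, r = Quotient.mk _ e0 := ⟨_, rfl⟩
  obtain ⟨V, hV⟩ : ∃ V, V = Nat.card D.Reg := ⟨_, rfl⟩
  -- a state with one circle
  have hex : ∃ S, D.circ S = 1 := by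
    by_contra hcon
    push Not at hcon
    rw [Finset.filter_false_of_mem fun S _ => hcon S, Finset.sum_empty] at hsum
    exact lt_irrefl _ hsum
  have hnbS : ∀ S, D.circ S = 1 → nb S + V = 2 * D.FinB_a (D.FinB_T S) + D.FinB_m + 1 := by
    intro S hS
    have h1 : cyc (sm D.out (D.FinB_T S)) = 1 := hS
    have h2 := ((D.tree_iff _).1 h1).1
    have h3 := D.FinB_nb (D.FinB_T S)
    rw [D.FinB_T_T] at h3
    rw [← hV] at h2
    omega
  obtain ⟨k, hk⟩ : ∃ k : ℤ, (V : ℤ) - D.FinB_m - w0 = 2 * k := by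
    obtain ⟨S, hS⟩ := hex
    have h1 := hnbS S hS
    have h2 := hpar S
    rw [hS] at h2
    refine ⟨((V : ℤ) - D.FinB_m - w0) / 2, ?_⟩
    push_cast at h2
    omega
  have hterm : ∀ S, D.circ S = 1 → (((if (1 - (nb S : ℤ) - w0) % 4 = 0 then (1 : ℤ) else -1 : ℤ)) : ℝ) =
      (if k % 2 = 0 then (1 : ℝ) else -1) * (-1) ^ D.FinB_a (D.FinB_T S) := by
    intro S hS
    rw [← FinB_pow]
    have h1 := hnbS S hS
    have h2 : 1 - (nb S : ℤ) - w0 = 2 * k - 2 * (D.FinB_a (D.FinB_T S) : ℤ) := by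
      omega
    rw [h2]
  have hdet := D.kir r D.ey
  have hsum2 : ((∑ S with D.circ S = 1, if (1 - (nb S : ℤ) - w0) % 4 = 0 then (1 : ℤ) else -1 : ℤ) : ℝ) =
      (if k % 2 = 0 then (1 : ℝ) else -1) * (D.Lr r D.ey).det := by
    rw [hdet, Finset.mul_sum, Int.cast_sum]
    refine Finset.sum_bij' (fun S _ => D.FinB_T S) (fun H _ => D.FinB_T H) ?_ ?_ ?_ ?_ ?_
    · intro S hS
      rw [Finset.mem_filter] at hS ⊢
      exact ⟨Finset.mem_univ _, hS.2⟩
    · intro H hH
      rw [Finset.mem_filter] at hH ⊢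
      refine ⟨Finset.mem_univ _, ?_⟩
      have h1 : cyc (sm D.out (D.FinB_T (D.FinB_T H))) = 1 := by
        rw [D.FinB_T_T]
        exact hH.2
      exact h1
    · intro S _
      exact D.FinB_T_T S
    · intro H _
      exact D.FinB_T_T H
    · intro S hS
      rw [Finset.mem_filter] at hS
      rw [hterm S hS.2, D.FinB_prod]
  have hpos : 0 < (if k % 2 = 0 then (1 : ℝ) else -1) * (D.Lr r D.ey).det := by
    rw [← hsum2]
    exact_mod_cast hsum
  have hne : (D.Lr r D.ey).det ≠ 0 := by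
    intro h1
    rw [h1, mul_zero] at hpos
    exact lt_irrefl _ hpos
  obtain ⟨h1, h2⟩ := D.gq_inert r hne
  obtain ⟨neg, hneg⟩ : ∃ neg, neg = idx (fun x => -D.gq x) := ⟨_, rfl⟩
  obtain ⟨pos, hpos'⟩ : ∃ pos, pos = idx D.gq := ⟨_, rfl⟩
  rw [← hneg, ← hpos', ← hV] at h1
  rw [← hneg] at h2
  -- the parities agree
  have hmod : (k - neg) % 2 = 0 := by
    by_contra hcon
    have h3 : (-1 : ℝ) ^ neg = - (if k % 2 = 0 then (1 : ℝ) else -1) := by
      rcases Nat.even_or_odd neg with h | h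
      · rw [h.neg_one_pow, if_neg, neg_neg]
        obtain ⟨b, rfl⟩ := h
        push_cast at hcon
        omega
      · rw [h.neg_one_pow, if_pos]
        obtain ⟨b, rfl⟩ := h
        push_cast at hcon
        omega
    rw [h3, neg_mul] at h2
    linarith
  have hs : D.s = w0 - 1 + D.np := by omega
  have hsig : D.sig = (pos : ℤ) - neg + D.np - D.FinB_m := by
    unfold sig FinB_m
    rw [hneg, hpos']
  rw [hs, hsig]
  have h3 : (pos : ℤ) + neg + 1 = V := by exact_mod_cast h1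
  have h4 : w0 - 1 + (D.np : ℤ) - ((pos : ℤ) - neg + D.np - D.FinB_m) = 2 * ((neg : ℤ) - k) := by
    linarith
  rw [h4]
  obtain ⟨j, hj⟩ : ∃ j : ℤ, (neg : ℤ) - k = 2 * j := ⟨((neg : ℤ) - k) / 2, by omega⟩
  rw [hj]
  exact ⟨j, by ring⟩

end Dgm

end Pool.Agent.Lib.MP_21eb54_gt
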