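import Pool.Agent.Lib.MP_21eb54_gt.SgB

/-!
# The Goeritz form, 3
-/

set_option autoImplicit false

namespace Pool.Agent.Lib.MP_21eb54_gt

open Equiv Matrix

variable {n : ℕ}

namespace Dgm

variable (D : Dgm n)

/-- `circ (fun _ => false)` is `cyc (sm D.out fun c => !D.ov c)`; `plan`, `kd_le_neg`, `gq_add_le` -/
theorem sig_le : D.sig ≤ D.np + 1 - D.circ fun _ => false := by
  have h1 := D.gq_add_le
  have h2 := D.kd_le_neg
  have h3 := D.plan (fun c => !D.ov c)
  have h4 : D.circ (fun _ => false) = cyc (sm D.out fun c => !D.ov c) := by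
    unfold circ sp
    congr 2
    funext c
    cases D.ov c <;> rfl
  have h5 : nb (fun c => !D.ov c) = (Finset.univ.filter fun c => D.ov c = false).card := by
    unfold nb
    congr 1
    ext c
    simp
  unfold sig
  rw [h4]
  rw [h5] at h3
  omega

/-- `circ (fun _ => true)` is `cyc (sm D.out D.ov)`; `plan`, `kd_le_pos`, `gq_add_le` -/
theorem le_sig : (D.circ (fun _ => true) : ℤ) - D.nn - 1 ≤ D.sig := by
  have h1 := D.gq_add_le
  have h2 := D.kd_le_pos
  have h3 := D.plan D.ov
  have h4 : D.circ (fun _ => true) = cyc (sm D.out D.ov) := by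
    unfold circ sp
    congr 2
    funext c
    cases D.ov c <;> rfl
  have h5 : nb D.ov + (Finset.univ.filter fun c => D.ov c = false).card = n := by
    have h := Finset.card_filter_add_card_filter_not (s := (Finset.univ : Finset (Fin n))) (fun c => D.ov c = true)
    simp only [Bool.not_eq_true, Finset.card_univ, Fintype.card_fin] at h
    exact h
  have h6 : D.np + D.nn = n := by
    have h := Finset.card_filter_add_card_filter_not (s := (Finset.univ : Finset (Fin n))) (fun c => D.pos c = true)
    simp only [Bool.not_eq_true, Finset.card_univ, Fintype.card_fin] at h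
    exact h
  unfold sig
  rw [h4]
  omega

end Dgm

end Pool.Agent.Lib.MP_21eb54_gt
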