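import Pool.Agent.Lib.MP_21eb54_gt.SgA
import Pool.Agent.Lib.MP_21eb54_gt.CrA

/-!
# The Goeritz form and crossing changes
-/

set_option autoImplicit false

namespace Pool.Agent.Lib.MP_21eb54_gt

open Equiv Matrix

variable {n : ℕ}

namespace Dgm

variable (D : Dgm n)

/-- `D.np` decreases by one. If `ov c = false`: `gq` decreases by `2 * (...) ^ 2`, so `idx gq` decreases by
`0` or `1`, `idx (-gq)` increases by `0` or `1` (`idx_sub_sq`), and the number of `ov = false` decreases by
one. If `ov c = true`: `gq` increases, the indices change the other way, and the number of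
`ov = false` increases by one. -/
theorem sig_chg {c : Fin n} (hc : D.pos c = true) :
    (D.chg c).sig ≤ D.sig ∧ D.sig - 2 ≤ (D.chg c).sig := by
  have hnp := D.chg_np hc
  obtain ⟨ℓ, hℓa⟩ : ∃ ℓ : (D.Reg → ℝ) →ₗ[ℝ] ℝ, ∀ x : D.Reg → ℝ,
      ℓ x = x (Quotient.mk _ (c, false)) - x (Quotient.mk _ (c, true)) :=
    ⟨{ toFun := fun x => x (Quotient.mk _ (c, false)) - x (Quotient.mk _ (c, true))
       map_add' := fun x y => by simp only [Pi.add_apply]; ring
       map_smul' := fun a x => by simp only [Pi.smul_apply, smul_eq_mul, RingHom.id_apply]; ring }, fun _ => rfl⟩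
  set q' : (D.Reg → ℝ) → ℝ := fun x => (D.chg c).gq x with hq'
  have hrest : ∀ x : D.Reg → ℝ, q' x = D.gq x +
      ((if (!D.ov c) then (-1 : ℝ) else 1) - (if D.ov c then (-1 : ℝ) else 1)) * ℓ x ^ 2 := by
    intro x
    rw [hℓa]
    have hdef : q' x = ∑ d, (if (D.chg c).ov d then (-1 : ℝ) else 1) *
        (x (Quotient.mk (Equiv.Perm.SameCycle.setoid (sm D.out fun _ => false)) (d, false)) -
          x (Quotient.mk (Equiv.Perm.SameCycle.setoid (sm D.out fun _ => false)) (d, true))) ^ 2 := rfl
    rw [hdef]
    unfold gq
    rw [← Finset.add_sum_erase _ _ (Finset.mem_univ c)]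
    conv_rhs => rw [← Finset.add_sum_erase _ _ (Finset.mem_univ c)]
    have h1 : ∑ x_1 ∈ Finset.univ.erase c, (if (D.chg c).ov x_1 = true then (-1 : ℝ) else 1) *
          (x (Quotient.mk _ (x_1, false)) - x (Quotient.mk _ (x_1, true))) ^ 2 =
        ∑ x_1 ∈ Finset.univ.erase c, (if D.ov x_1 = true then (-1 : ℝ) else 1) *
          (x (Quotient.mk _ (x_1, false)) - x (Quotient.mk _ (x_1, true))) ^ 2 := by
      refine Finset.sum_congr rfl fun d hd => ?_
      have h2 : (D.chg c).ov d = D.ov d := by
        unfold chg
        simp only
        exact Function.update_of_ne (Finset.ne_of_mem_erase hd) _ _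
      rw [h2]
    have h3 : (D.chg c).ov c = !D.ov c := by
      unfold chg
      simp
    rw [h3, h1]
    ring
  have hfl : ∀ b : Bool, D.ov c = b →
      ((Finset.univ.filter fun d => (D.chg c).ov d = false).card : ℤ) =
        (Finset.univ.filter fun d => D.ov d = false).card + (if b then 1 else -1) := by
    intro b hb
    have h3 : (D.chg c).ov c = !D.ov c := by
      unfold chg
      simp
    have h2 : ∀ d, d ≠ c → (D.chg c).ov d = D.ov d := fun d hd => by
      unfold chg
      simp only
      exact Function.update_of_ne hd _ _
    cases b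
    · have h4 : (Finset.univ.filter fun d => D.ov d = false) =
          insert c (Finset.univ.filter fun d => (D.chg c).ov d = false) := by
        ext d
        by_cases hd : d = c
        · subst hd
          simp [hb]
        · simp [hd, h2 d hd]
      have h5 : c ∉ Finset.univ.filter fun d => (D.chg c).ov d = false := by
        simp [h3, hb]
      rw [h4, Finset.card_insert_of_notMem h5]
      push_cast
      simp
    · have h4 : (Finset.univ.filter fun d => (D.chg c).ov d = false) =
          insert c (Finset.univ.filter fun d => D.ov d = false) := by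
        ext d
        by_cases hd : d = c
        · subst hd
          simp [h3, hb]
        · simp [hd, h2 d hd]
      have h5 : c ∉ Finset.univ.filter fun d => D.ov d = false := by
        simp [hb]
      rw [h4, Finset.card_insert_of_notMem h5]
      push_cast
      simp
  have hs : (D.chg c).sig = (idx q' : ℤ) - idx (fun x => -q' x) + (D.chg c).np -
      (Finset.univ.filter fun d => (D.chg c).ov d = false).card := rfl
  have hs0 : D.sig = (idx D.gq : ℤ) - idx (fun x => -D.gq x) + D.np -
      (Finset.univ.filter fun d => D.ov d = false).card := rfl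
  rw [hs, hs0]
  cases hb : D.ov c
  · have h1 := hfl false hb
    simp only [hb] at hrest
    have h2 := idx_sub_sq (q := D.gq) ℓ (a := 2) (by norm_num) (q' := q') fun x => by
      rw [hrest x]
      norm_num <;> ring
    have h3 := idx_sub_sq (q := fun x => -q' x) ℓ (a := 2) (by norm_num) (q' := fun x => -D.gq x) fun x => by
      rw [hrest x]
      norm_num <;> ring
    simp only [Bool.false_eq_true, if_false] at h1
    omega
  · have h1 := hfl true hb
    simp only [hb] at hrest
    have h2 := idx_sub_sq (q := q') ℓ (a := 2) (by norm_num) (q' := D.gq) fun x => by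
      rw [hrest x]
      norm_num <;> ring
    have h3 := idx_sub_sq (q := fun x => -D.gq x) ℓ (a := 2) (by norm_num) (q' := fun x => -q' x) fun x => by
      rw [hrest x]
      norm_num <;> ring
    simp only [if_true] at h1
    omega

end Dgm

end Pool.Agent.Lib.MP_21eb54_gt
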