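import Pool.Agent.Lib.MP_21eb54_gt.FinB
import Pool.Agent.Lib.MP_21eb54_gt.CrD
import Pool.Agent.Lib.MP_21eb54_gt.SgC
import Pool.Agent.Lib.MP_21eb54_gt.SgD

/-!
# Thin diagrams: the theorem
-/

set_option autoImplicit false

namespace Pool.Agent.Lib.MP_21eb54_gt

open Equiv MvPolynomial

variable {n : ℕ}

namespace Dgm

variable (D : Dgm n)

/-- The number `n + 2 - circ S_A - circ S_B` is even. -/
theorem gT_eq : 2 * D.gT = (n : ℤ) + 2 - D.circ (fun _ => false) - D.circ (fun _ => true) := by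
  have h1 := D.circ_parity (fun _ => true)
  have h2 : nb (fun _ : Fin n => true) = n := by
    unfold nb
    simp
  rw [h2] at h1
  unfold gT
  omega

/-- Rasmussen's invariant and the signature satisfy the same two inequalities. -/
theorem abs_le : |D.s - D.sig| ≤ 2 * D.gT := by
  have h1 := D.KhNe_le D.KhNe_smax
  have h2 := D.le_KhNe D.KhNe_smin
  have h3 := D.sig_le
  have h4 := D.le_sig
  have h5 := D.gT_eq
  have h6 := D.np_add_nn
  rw [h5]
  exact _root_.abs_le.2 ⟨by omega, by omega⟩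

/-- Crossing changes: both invariants change by `0` or `2` in the same direction. -/
theorem chg_le (c : Fin n) : |(D.s - D.sig) - ((D.chg c).s - (D.chg c).sig)| ≤ 2 := by
  by_cases hc : D.pos c = true
  · have h1 := D.s_chg hc
    have h2 := D.sig_chg hc
    exact _root_.abs_le.2 ⟨by omega, by omega⟩
  · have hc' : (D.chg c).pos c = true := by
      rw [D.chg_pos c c, if_pos rfl]
      simpa using hc
    have h1 := (D.chg c).s_chg hc'
    have h2 := (D.chg c).sig_chg hc'
    rw [D.chg_chg c] at h1 h2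
    exact _root_.abs_le.2 ⟨by omega, by omega⟩

/-- the theorem -/
theorem main (h : D.Thin) : 4 ∣ D.s - D.sig ∧ |D.s - D.sig| ≤ 2 * D.gT ∧
    (D.gT ≤ 1 → D.s = D.sig) ∧
    ∀ c, ((D.chg c).Thin → D.s - D.sig = (D.chg c).s - (D.chg c).sig) ∧
      ((D.chg c).s = (D.chg c).sig → D.s = D.sig) := by
  have h4 := D.thin_mod h
  refine ⟨h4, D.abs_le, fun hg => ?_, fun c => ⟨fun hT => ?_, fun hs => ?_⟩⟩
  · have h1 := _root_.abs_le.1 D.abs_le
    obtain ⟨k, hk⟩ := h4
    omega
  · obtain ⟨k, hk⟩ := h4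
    obtain ⟨k', hk'⟩ := (D.chg c).thin_mod hT
    have h1 := _root_.abs_le.1 (D.chg_le c)
    omega
  · obtain ⟨k, hk⟩ := h4
    have h1 := _root_.abs_le.1 (D.chg_le c)
    rw [hs, sub_self, sub_zero] at h1
    omega

end Dgm

end Pool.Agent.Lib.MP_21eb54_gt
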