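import Pool.Agent.Lib.MP_21eb54_gt.DifB

/-!
# Gradings
-/

set_option autoImplicit false

namespace Pool.Agent.Lib.MP_21eb54_gt

open Equiv MvPolynomial

variable {n : ℕ}

namespace Dgm

variable (D : Dgm n)

theorem GrA_mulX {S : St n} {c : Fin n} (hc : S c = false)
    (hs : (D.sp S).SameCycle (c, false) (c, true)) {f : MvPolynomial (Arc n) ℚ}
    {m : Arc n →₀ ℕ} (e : Arc n) (h : coeff m (X e * f) ≠ 0) :
    ∃ m', coeff m' f ≠ 0 ∧ D.wt (Function.update S c true) m = D.wt S m' - 2 ∧
      D.qd (Function.update S c true) m = D.qd S m' := by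
  classical
  rw [coeff_X_mul'] at h
  by_cases he : e ∈ m.support
  · rw [if_pos he] at h
    refine ⟨_, h, ?_⟩
    have h1 : D.circ (Function.update S c true) = D.circ S + 1 := by
      have := D.circ_flip_split hs
      rwa [hc] at this
    have h2 : nb (Function.update S c true) = nb S + 1 := nb_up hc
    have h3 : m.degree = (m - Finsupp.single e 1).degree + 1 := by
      have h4 : m - Finsupp.single e 1 + Finsupp.single e 1 = m := by
        apply tsub_add_cancel_of_le
        rw [Finsupp.single_le_iff]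
        exact Nat.one_le_iff_ne_zero.mpr (Finsupp.mem_support_iff.mp he)
      have h5 : (m - Finsupp.single e 1 + Finsupp.single e 1).degree
          = (m - Finsupp.single e 1).degree + (Finsupp.single e 1).degree := map_add _ _ _
      rw [h4, Finsupp.degree_single] at h5
      exact h5
    unfold wt qd
    rw [h1, h2, h3]
    constructor <;> push_cast <;> ring
  · rw [if_neg he] at h
    exact absurd rfl h

/-- `th S c` is homogeneous of degree `1` if a circle is split and of degree `0` if not, so
`circ - 2 * degree` changes by `-1` in both cases and `nb` by `1`: the weight changes by `-2`. -/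
theorem th_coeff {S : St n} {c : Fin n} (hc : S c = false) {f : MvPolynomial (Arc n) ℚ}
    {m : Arc n →₀ ℕ} (h : coeff m (D.th S c * f) ≠ 0) :
    ∃ m', coeff m' f ≠ 0 ∧ D.wt (Function.update S c true) m = D.wt S m' - 2 ∧
      D.qd (Function.update S c true) m = D.qd S m' := by
  unfold th at h
  by_cases hs : (D.sp S).SameCycle (c, false) (c, true)
  · rw [if_pos hs, add_mul, coeff_add] at h
    by_cases h0 : coeff m (X (c, false) * f) = 0
    · rw [h0, zero_add] at h
      exact D.GrA_mulX hc hs _ h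
    · exact D.GrA_mulX hc hs _ h0
  · rw [if_neg hs, one_mul] at h
    refine ⟨m, h, ?_⟩
    have h1 : D.circ (Function.update S c true) + 1 = D.circ S := by
      have := D.circ_flip_merge hs
      rwa [hc] at this
    have h2 : nb (Function.update S c true) = nb S + 1 := nb_up hc
    unfold wt qd
    rw [← h1, h2]
    constructor <;> push_cast <;> ring

theorem dfF_Gr {Φ : Fc n} {w h : ℤ} {F : Ch n} (hF : D.Gr Φ w h F) :
    D.Gr Φ (w - 2) (h + 1) (D.dfF Φ F) := by
  intro S hS m hm
  unfold dfF at hm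
  rw [coeff_sum] at hm
  obtain ⟨c, -, hc⟩ := Finset.exists_ne_zero_of_sum_ne_zero hm
  by_cases h1 : Φ c = none ∧ S c = true
  · rw [if_pos h1, coeff_C_mul] at hc
    have h2 := right_ne_zero_of_mul hc
    have h3 : Function.update S c false c = false := Function.update_self c false S
    obtain ⟨m', h4, h5, -⟩ := D.th_coeff h3 h2
    have h6 : Function.update (Function.update S c false) c true = S := by
      rw [Function.update_idem, ← h1.2, Function.update_eq_self]
    rw [h6] at h5
    obtain ⟨h7, h8⟩ := hF _ (InF_dn hS h1.1 false) m' h4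
    have h9 := nb_dn h1.2
    constructor
    · rw [← h9]
      push_cast
      rw [h7]
    · rw [h5, h8]
  · rw [if_neg h1, coeff_zero] at hc
    exact absurd rfl hc

theorem Gr_add {Φ : Fc n} {w h : ℤ} {F G : Ch n} (hF : D.Gr Φ w h F) (hG : D.Gr Φ w h G) :
    D.Gr Φ w h (F + G) := by
  intro S hS m hm
  rw [Pi.add_apply, coeff_add] at hm
  by_cases h0 : coeff m (F S) = 0
  · rw [h0, zero_add] at hm
    exact hG S hS m hm
  · exact hF S hS m h0

theorem Gr_sub {Φ : Fc n} {w h : ℤ} {F G : Ch n} (hF : D.Gr Φ w h F) (hG : D.Gr Φ w h G) :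
    D.Gr Φ w h (F - G) := by
  intro S hS m hm
  rw [Pi.sub_apply, coeff_sub] at hm
  by_cases h0 : coeff m (F S) = 0
  · rw [h0, zero_sub] at hm
    exact hG S hS m (neg_ne_zero.mp hm)
  · exact hF S hS m h0

theorem Gr_mul {Φ : Fc n} {w h : ℤ} {F : Ch n} {g : MvPolynomial (Arc n) ℚ} (hg : g.IsHomogeneous 1)
    (hF : D.Gr Φ w h F) : D.Gr Φ (w - 2) h (fun S => g * F S) := by
  classical
  intro S hS m hm
  have hm' : coeff m (g * F S) ≠ 0 := hm
  rw [coeff_mul] at hm'
  obtain ⟨⟨a, b⟩, hab, hc⟩ := Finset.exists_ne_zero_of_sum_ne_zero hm'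
  rw [Finset.HasAntidiagonal.mem_antidiagonal] at hab
  have h1 : coeff a g ≠ 0 := left_ne_zero_of_mul hc
  have h2 : coeff b (F S) ≠ 0 := right_ne_zero_of_mul hc
  obtain ⟨h3, h4⟩ := hF S hS b h2
  have h5 : a.degree = 1 := by
    have := hg h1
    rwa [Finsupp.degree_eq_weight_one]
  have h6 : m.degree = b.degree + 1 := by
    have h7 : (a + b).degree = a.degree + b.degree := map_add _ _ _
    have hab' : a + b = m := hab
    rw [hab', h5] at h7
    omega
  refine ⟨h3, ?_⟩
  unfold wt at h4 ⊢
  rw [h6]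
  push_cast
  linarith

/-- restriction to a face -/
theorem Gr_fc {Φ : Fc n} {w h : ℤ} {F : Ch n} {c : Fin n} (hc : Φ c = none) (b : Bool)
    (hF : D.Gr Φ w h F) : D.Gr (fc Φ c b) w h F := fun S hS m hm =>
  hF S ((InF_fc hc).mp hS).1 m hm

/-- extension by zero from a face -/
theorem Gr_ext {Φ : Fc n} {w h : ℤ} {F : Ch n} {c : Fin n} (hc : Φ c = none) {b : Bool}
    (hF : D.Gr (fc Φ c b) w h F) : D.Gr Φ w h (fun S => if S c = b then F S else 0) := by
  intro S hS m hm
  have hm' : coeff m (if S c = b then F S else 0) ≠ 0 := hm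
  by_cases h1 : S c = b
  · rw [if_pos h1] at hm'
    exact hF S ((InF_fc hc).mpr ⟨hS, h1⟩) m hm'
  · rw [if_neg h1, coeff_zero] at hm'
    exact absurd rfl hm'

end Dgm

end Pool.Agent.Lib.MP_21eb54_gt
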