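import Pool.Agent.Lib.MP_21eb54_gt.Defs

/-!
# The index of a quadratic form
-/

set_option autoImplicit false

namespace Pool.Agent.Lib.MP_21eb54_gt

open Matrix

section

variable {E : Type*} [AddCommGroup E] [Module ℝ E] [FiniteDimensional ℝ E] {q : E → ℝ}

theorem InA_aux1 (q : E → ℝ) : BddAbove {d | ∃ W : Submodule ℝ E, Module.finrank ℝ W = d ∧
    ∀ x ∈ W, x ≠ 0 → 0 < q x} := by
  refine ⟨Module.finrank ℝ E, ?_⟩
  rintro d ⟨W, rfl, -⟩
  exact Submodule.finrank_le W

omit [FiniteDimensional ℝ E] in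
theorem InA_aux2 (q : E → ℝ) : Set.Nonempty {d | ∃ W : Submodule ℝ E, Module.finrank ℝ W = d ∧
    ∀ x ∈ W, x ≠ 0 → 0 < q x} :=
  ⟨0, ⊥, finrank_bot ℝ E, fun _ hx h0 => absurd ((Submodule.mem_bot ℝ).1 hx) h0⟩

/-- the set in the definition of `idx` is bounded by `finrank E` -/
theorem le_idx {W : Submodule ℝ E} (hW : ∀ x ∈ W, x ≠ 0 → 0 < q x) : Module.finrank ℝ W ≤ idx q :=
  le_csSup (InA_aux1 q) ⟨W, rfl, hW⟩

/-- it contains `0` (`W = ⊥`) -/
theorem exists_idx (q : E → ℝ) :
    ∃ W : Submodule ℝ E, Module.finrank ℝ W = idx q ∧ ∀ x ∈ W, x ≠ 0 → 0 < q x :=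
  Nat.sSup_mem (InA_aux2 q) (InA_aux1 q)

/-- `W` of `exists_idx` for `q` meets `U` in `0` -/
theorem idx_add_le {U : Submodule ℝ E} (hU : ∀ x ∈ U, q x ≤ 0) :
    idx q + Module.finrank ℝ U ≤ Module.finrank ℝ E := by
  obtain ⟨W, hW, h⟩ := exists_idx q
  have hd : Disjoint W U := by
    rw [Submodule.disjoint_def]
    intro x hx hx'
    by_contra h0
    exact absurd (h x hx h0) (not_lt.2 (hU x hx'))
  rw [← hW]
  exact Submodule.finrank_add_finrank_le_of_disjoint hd

/-- `q' = q - a * ℓ ^ 2`, `a ≥ 0`: a subspace positive for `q'` is positive for `q`; if `W` is positive for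
`q`, `W ⊓ ker ℓ` is positive for `q'` and has dimension at least `finrank W - 1`. -/
theorem idx_sub_sq (ℓ : E →ₗ[ℝ] ℝ) {a : ℝ} (ha : 0 ≤ a) {q' : E → ℝ} (h : ∀ x, q' x = q x - a * ℓ x ^ 2) :
    idx q' ≤ idx q ∧ idx q ≤ idx q' + 1 := by
  constructor
  · obtain ⟨W, hW, h1⟩ := exists_idx q'
    rw [← hW]
    refine le_idx fun x hx h0 => ?_
    have h2 := h1 x hx h0
    rw [h] at h2
    have h3 : 0 ≤ a * ℓ x ^ 2 := mul_nonneg ha (sq_nonneg _)
    linarith
  · obtain ⟨W, hW, h1⟩ := exists_idx q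
    have h2 : Module.finrank ℝ (W ⊓ LinearMap.ker ℓ : Submodule ℝ E) ≤ idx q' := by
      refine le_idx fun x hx h0 => ?_
      have h3 := h1 x hx.1 h0
      have h4 : ℓ x = 0 := hx.2
      rw [h, h4]
      linarith
    have h3 := Submodule.finrank_sup_add_finrank_inf_eq W (LinearMap.ker ℓ)
    have h4 := ℓ.finrank_range_add_finrank_ker
    have h5 : Module.finrank ℝ (LinearMap.range ℓ) ≤ 1 := by
      have := Submodule.finrank_le (LinearMap.range ℓ)
      rwa [Module.finrank_self] at this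
    have h6 := Submodule.finrank_le (W ⊔ LinearMap.ker ℓ)
    omega

theorem InA_aux3 {F : Type*} [AddCommGroup F] [Module ℝ F] [FiniteDimensional ℝ F] (f : E →ₗ[ℝ] F)
    {q : E → ℝ} {q' : F → ℝ} (h : ∀ x, q' (f x) = q x)
    (hf : ∀ W : Submodule ℝ E, (∀ x ∈ W, x ≠ 0 → 0 < q x) → ∀ x ∈ W, f x = 0 → x = 0) :
    idx q ≤ idx q' := by
  obtain ⟨W, hW, h1⟩ := exists_idx q
  have hinj : Function.Injective (f.domRestrict W) := by
    rw [← LinearMap.ker_eq_bot, LinearMap.ker_eq_bot']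
    rintro ⟨x, hx⟩ h0
    exact Subtype.ext (hf W h1 x hx h0)
  have h2 : Module.finrank ℝ (LinearMap.range (f.domRestrict W)) = Module.finrank ℝ W :=
    LinearMap.finrank_range_of_inj hinj
  rw [← hW, ← h2]
  refine le_idx ?_
  rintro _ ⟨⟨x, hx⟩, rfl⟩ h0
  have h3 : q' (f x) = q x := h x
  show 0 < q' (f x)
  rw [h3]
  refine h1 x hx fun h4 => h0 ?_
  show f x = 0
  rw [h4, map_zero]

/-- a linear bijection which is compatible with the forms -/
theorem idx_equiv {F : Type*} [AddCommGroup F] [Module ℝ F] [FiniteDimensional ℝ F] (f : E ≃ₗ[ℝ] F)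
    {q' : F → ℝ} (h : ∀ x, q' (f x) = q x) : idx q' = idx q := by
  refine le_antisymm ?_ ?_
  · refine InA_aux3 (f.symm : F →ₗ[ℝ] E) (fun x => ?_) fun W _ x _ h0 => ?_
    · have := h (f.symm x)
      rw [f.apply_symm_apply] at this
      exact this.symm
    · exact f.symm.map_eq_zero_iff.1 h0
  · refine InA_aux3 (f : E →ₗ[ℝ] F) h fun W _ x _ h0 => ?_
    exact f.map_eq_zero_iff.1 h0

/-- `q` is invariant under the translations by the elements of `K`, `q 0 = 0`, and `U` is a complement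
of `K`: the projection to `U` is injective on every subspace on which `q` is positive (it meets `K` in
`0`) and preserves `q`. -/
theorem idx_complement {K U : Submodule ℝ E} (hc : IsCompl K U) (h0 : q 0 = 0)
    (h : ∀ x, ∀ k ∈ K, q (x + k) = q x) : idx (fun x : U => q x) = idx q := by
  refine le_antisymm ?_ ?_
  · exact InA_aux3 U.subtype (fun x => rfl) fun W _ x _ hx => Subtype.ext hx
  · refine InA_aux3 (Submodule.projectionOnto U K hc.symm) (fun x => ?_) fun W hW x hx h1 => ?_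
    · obtain ⟨u, hu⟩ : ∃ u : U, u = Submodule.projectionOnto U K hc.symm x := ⟨_, rfl⟩
      have h2 : x - (u : E) ∈ K := by
        rw [← Submodule.projectionOnto_apply_eq_zero_iff hc.symm, map_sub,
          Submodule.projectionOnto_apply_left, ← hu, sub_self]
      have h3 := h (u : E) _ h2
      rw [add_sub_cancel] at h3
      rw [← hu]
      exact h3.symm
    · by_contra hne
      have h2 : x ∈ K := (Submodule.projectionOnto_apply_eq_zero_iff hc.symm).1 h1
      have h3 := hW x hx hne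
      have h4 := h 0 x h2
      rw [zero_add, h0] at h4
      rw [h4] at h3
      exact lt_irrefl _ h3

end

end Pool.Agent.Lib.MP_21eb54_gt
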