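import Pool.Agent.Lib.MP_21eb54_gt.InA

/-!
# The index of a symmetric matrix
-/

set_option autoImplicit false

namespace Pool.Agent.Lib.MP_21eb54_gt

open Matrix

theorem InB_diag {ι : Type*} [Fintype ι] [DecidableEq ι] {M : Matrix ι ι ℝ} (hM : M.IsSymm) :
    ∃ (U : Matrix ι ι ℝ) (l : ι → ℝ), U * Uᵀ = 1 ∧ Uᵀ * U = 1 ∧ M = U * diagonal l * Uᵀ ∧
      M.det = ∏ i, l i := by
  have hH : M.IsHermitian := by
    unfold Matrix.IsHermitian
    rw [conjTranspose_eq_transpose_of_trivial]
    exact hM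
  have h1 := hH.eigenvectorUnitary.2
  have hs : star (hH.eigenvectorUnitary : Matrix ι ι ℝ) = (hH.eigenvectorUnitary : Matrix ι ι ℝ)ᵀ := by
    rw [star_eq_conjTranspose, conjTranspose_eq_transpose_of_trivial]
  refine ⟨(hH.eigenvectorUnitary : Matrix ι ι ℝ), hH.eigenvalues, ?_, ?_, ?_, ?_⟩
  · rw [← hs]
    exact Matrix.mem_unitaryGroup_iff.mp h1
  · rw [← hs]
    exact Matrix.mem_unitaryGroup_iff'.mp h1
  · have h2 := hH.spectral_theorem
    rw [Unitary.conjStarAlgAut_apply, hs] at h2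
    exact h2
  · have h3 := hH.det_eq_prod_eigenvalues
    exact h3

/-- the coordinate subspace of a set of indices -/
noncomputable def InB_W {ι : Type*} [DecidableEq ι] (p : ι → Prop) : Submodule ℝ (ι → ℝ) :=
  Submodule.span ℝ (Set.range fun i : {i // p i} => (Pi.single i.1 1 : ι → ℝ))

theorem InB_finrank {ι : Type*} [Fintype ι] [DecidableEq ι] (p : ι → Prop) [Fintype {i // p i}] :
    Module.finrank ℝ (InB_W p) = Fintype.card {i // p i} := by
  unfold InB_W
  refine finrank_span_eq_card ?_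
  have h1 := (Pi.basisFun ℝ ι).linearIndependent.comp (fun i : {i // p i} => i.1) Subtype.val_injective
  have h2 : (fun i : {i // p i} => (Pi.single i.1 1 : ι → ℝ)) =
      ⇑(Pi.basisFun ℝ ι) ∘ (fun i : {i // p i} => i.1) := by
    funext i
    simp [Pi.basisFun_apply]
  rw [h2]
  exact h1

theorem InB_mem {ι : Type*} [Fintype ι] [DecidableEq ι] (p : ι → Prop) {x : ι → ℝ} (hx : x ∈ InB_W p)
    (i : ι) (hi : ¬ p i) : x i = 0 := by
  unfold InB_W at hx
  induction hx using Submodule.span_induction with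
  | mem x h =>
    obtain ⟨j, rfl⟩ := h
    refine Pi.single_eq_of_ne ?_ _
    rintro rfl
    exact hi j.2
  | zero => rfl
  | add x y _ _ hx hy => rw [Pi.add_apply, hx, hy, add_zero]
  | smul a x _ hx => rw [Pi.smul_apply, hx, smul_zero]

theorem InB_idx {ι : Type*} [Fintype ι] [DecidableEq ι] (l : ι → ℝ) (_h0 : ∀ i, l i ≠ 0) :
    idx (fun x : ι → ℝ => ∑ i, l i * x i ^ 2) = Fintype.card {i // 0 < l i} := by
  have hP : Fintype.card {i // 0 < l i} ≤ idx (fun x : ι → ℝ => ∑ i, l i * x i ^ 2) := by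
    rw [← InB_finrank]
    refine le_idx fun x hx hx0 => ?_
    have h1 : ∀ i ∈ (Finset.univ : Finset ι), 0 ≤ l i * x i ^ 2 := by
      intro i _
      by_cases hi : 0 < l i
      · positivity
      · rw [InB_mem _ hx i hi]
        simp
    refine Finset.sum_pos' h1 ?_
    by_contra h2
    push Not at h2
    apply hx0
    funext i
    by_cases hi : 0 < l i
    · have h3 := h2 i (Finset.mem_univ i)
      have h4 : x i ^ 2 ≤ 0 := by
        by_contra h5
        push Not at h5
        exact absurd (mul_pos hi h5) (not_lt.mpr h3)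
      have h5 : x i ^ 2 = 0 := le_antisymm h4 (sq_nonneg _)
      exact pow_eq_zero_iff (two_ne_zero) |>.mp h5
    · exact InB_mem _ hx i hi
  have hN := idx_add_le (q := fun x : ι → ℝ => ∑ i, l i * x i ^ 2) (U := InB_W fun i => ¬ 0 < l i) (by
    intro x hx
    refine Finset.sum_nonpos fun i _ => ?_
    by_cases hi : 0 < l i
    · rw [InB_mem _ hx i (not_not.mpr hi)]
      simp
    · push Not at hi
      exact mul_nonpos_of_nonpos_of_nonneg hi (sq_nonneg _))
  rw [InB_finrank, Module.finrank_fintype_fun_eq_card, Fintype.card_subtype_compl] at hN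
  have hle : Fintype.card {i // 0 < l i} ≤ Fintype.card ι := Fintype.card_subtype_le _
  omega

/-- Let `λ i` be the eigenvalues of `M` (`Matrix.IsHermitian`, the spectral theorem), `u i` an orthonormal
basis of eigenvectors. If `x = ∑ a i * u i` then `x ⬝ᵥ M *ᵥ x = ∑ λ i * a i ^ 2`. The form is positive on the
span of the `u i` with `λ i > 0`, of dimension `P`, and negative on the span of the others (no `λ i` is
`0`, as `det M = ∏ λ i`), of dimension `N`, `P + N = card ι`; so the indices are `P` and `N` (`le_idx`,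
`idx_add_le`), and the sign of the determinant is `(-1) ^ N`. -/
theorem inert {ι : Type*} [Fintype ι] [DecidableEq ι] {M : Matrix ι ι ℝ} (hM : M.IsSymm)
    (hd : M.det ≠ 0) :
    idx (fun x : ι → ℝ => x ⬝ᵥ M *ᵥ x) + idx (fun x : ι → ℝ => -(x ⬝ᵥ M *ᵥ x)) = Fintype.card ι ∧
      0 < (-1) ^ idx (fun x : ι → ℝ => -(x ⬝ᵥ M *ᵥ x)) * M.det := by
  obtain ⟨U, l, hU1, hU2, hMU, hdet⟩ := InB_diag hM
  have hl : ∀ i, l i ≠ 0 := fun i hi => hd (by rw [hdet]; exact Finset.prod_eq_zero (Finset.mem_univ i) hi)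
  have hq : ∀ x : ι → ℝ, x ⬝ᵥ M *ᵥ x = ∑ i, l i * (Uᵀ *ᵥ x) i ^ 2 := by
    intro x
    have h1 : x ⬝ᵥ M *ᵥ x = (Uᵀ *ᵥ x) ⬝ᵥ (diagonal l *ᵥ (Uᵀ *ᵥ x)) := by
      rw [hMU, Matrix.mul_assoc, ← Matrix.mulVec_mulVec, ← Matrix.mulVec_mulVec, Matrix.dotProduct_mulVec,
        ← Matrix.mulVec_transpose]
    rw [h1]
    unfold dotProduct
    refine Finset.sum_congr rfl fun i _ => ?_
    rw [Matrix.mulVec_diagonal]
    ring
  have e1 : idx (fun x : ι → ℝ => x ⬝ᵥ M *ᵥ x) = Fintype.card {i // 0 < l i} := by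
    rw [← InB_idx l hl]
    exact (idx_equiv (Matrix.toLin'OfInv hU1 hU2) fun x => (hq x).symm).symm
  have e2 : idx (fun x : ι → ℝ => -(x ⬝ᵥ M *ᵥ x)) = Fintype.card {i // ¬ 0 < l i} := by
    have h1 : Fintype.card {i // ¬ 0 < l i} = Fintype.card {i // 0 < -l i} := by
      refine Fintype.card_congr (Equiv.subtypeEquivRight fun i => ?_)
      constructor
      · intro h
        have := hl i
        push Not at h
        exact neg_pos.mpr (lt_of_le_of_ne h this)
      · intro h
        exact not_lt.mpr (neg_pos.mp h).le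
    rw [h1, ← InB_idx (fun i => -l i) (fun i => neg_ne_zero.mpr (hl i))]
    refine (idx_equiv (Matrix.toLin'OfInv hU1 hU2) fun x => ?_).symm
    rw [hq x]
    rw [← Finset.sum_neg_distrib]
    refine Finset.sum_congr rfl fun i _ => ?_
    rw [neg_mul]
    rfl
  constructor
  · rw [e1, e2, Fintype.card_subtype_compl]
    have hle : Fintype.card {i // 0 < l i} ≤ Fintype.card ι := Fintype.card_subtype_le _
    omega
  · rw [e2, hdet]
    have h1 : ((-1 : ℝ)) ^ Fintype.card {i // ¬ 0 < l i} = ∏ i, (if ¬ 0 < l i then (-1 : ℝ) else 1) := by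
      rw [Finset.prod_ite, Finset.prod_const, Finset.prod_const_one, mul_one, Fintype.card_subtype]
    rw [h1, ← Finset.prod_mul_distrib]
    refine Finset.prod_pos fun i _ => ?_
    by_cases hi : 0 < l i
    · rw [if_neg (not_not.mpr hi), one_mul]
      exact hi
    · rw [if_pos hi]
      push Not at hi
      have := lt_of_le_of_ne hi (hl i)
      linarith

end Pool.Agent.Lib.MP_21eb54_gt
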