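import Pool.Agent.Lib.MP_21eb54_gt.SpA

/-!
# The ideals of the states
-/

set_option autoImplicit false

namespace Pool.Agent.Lib.MP_21eb54_gt

open Equiv MvPolynomial

variable {α : Type*} [DecidableEq α] [Finite α] {π : Perm α} {p q : α} {t : ℚ}

theorem JJ_sq (e : α) : X e ^ 2 - C t ∈ JJ t π := by
  exact Ideal.subset_span (Or.inl ⟨e, rfl⟩)

/-- The arcs of a circle are equal modulo the ideal. -/
theorem JJ_same {e f : α} (h : π.SameCycle e f) : X e - X f ∈ JJ t π := by
  rw [← Ideal.Quotient.eq]
  refine inv_sc (x := fun e => Ideal.Quotient.mk (JJ t π) (X e)) (fun e => ?_) h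
  exact Ideal.Quotient.eq.2 (Ideal.subset_span (Or.inr ⟨e, rfl⟩))

/-- An ideal contains `JJ t π` iff it contains the generators. -/
theorem JJ_le {I : Ideal (MvPolynomial α ℚ)} (h1 : ∀ e, X e ^ 2 - C t ∈ I)
    (h2 : ∀ e, X (π e) - X e ∈ I) : JJ t π ≤ I := by
  refine Ideal.span_le.2 ?_
  rintro f (⟨e, rfl⟩ | ⟨e, rfl⟩)
  · exact h1 e
  · exact h2 e

/-- Two circles are merged. -/
theorem JJ_merge (h : ¬ π.SameCycle p q) :
    JJ t (π * swap p q) = JJ t π ⊔ Ideal.span {X p - X q} := by
  apply le_antisymm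
  · refine JJ_le (fun e => Ideal.mem_sup_left (JJ_sq e)) fun e => ?_
    have h1 : (X ((π * swap p q) e) - X e : MvPolynomial α ℚ) =
        (X (π (swap p q e)) - X (swap p q e)) + (X (swap p q e) - X e) := by
      rw [Perm.mul_apply]
      ring
    rw [h1]
    refine Ideal.add_mem _ (Ideal.mem_sup_left (Ideal.subset_span (Or.inr ⟨_, rfl⟩)))
      (Ideal.mem_sup_right ?_)
    by_cases hp : e = p
    · subst hp
      rw [swap_apply_left]
      have h2 : (X q - X e : MvPolynomial α ℚ) = -(X e - X q) := by ring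
      rw [h2]
      exact neg_mem (Ideal.subset_span rfl)
    · by_cases hq : e = q
      · subst hq
        rw [swap_apply_right]
        exact Ideal.subset_span rfl
      · rw [swap_apply_of_ne_of_ne hp hq, sub_self]
        exact zero_mem _
  · refine sup_le (JJ_le JJ_sq fun e => JJ_same ?_) ?_
    · exact (sc_iff h _ _).2 (Or.inl (Perm.SameCycle.symm ⟨1, by rw [zpow_one]⟩))
    · rw [Ideal.span_singleton_le_iff_mem]
      exact JJ_same (sc_merge h)

/-- A circle is split. -/
theorem JJ_split (hpq : p ≠ q) (h : π.SameCycle p q) :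
    JJ t π = JJ t (π * swap p q) ⊔ Ideal.span {X p - X q} := by
  have h1 := JJ_merge (t := t) (sc_split hpq h)
  rw [mul_swap_swap] at h1
  exact h1

variable {n : ℕ}

theorem Dgm.J_merge (D : Dgm n) {S : St n} {c : Fin n} (h : ¬ (D.sp S).SameCycle (c, false) (c, true)) :
    D.J t (Function.update S c (!S c)) = D.J t S ⊔ Ideal.span {X (c, false) - X (c, true)} := by
  rw [D.J_eq, D.J_eq, D.sp_flip]
  exact JJ_merge h

theorem Dgm.J_split (D : Dgm n) {S : St n} {c : Fin n} (h : (D.sp S).SameCycle (c, false) (c, true)) :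
    D.J t S = D.J t (Function.update S c (!S c)) ⊔ Ideal.span {X (c, false) - X (c, true)} := by
  rw [D.J_eq, D.J_eq, D.sp_flip]
  exact JJ_split (by simp) h

/-- The multiplication by `th S c` maps the ideal of `S` into that of the new state. -/
theorem Dgm.th_mem (D : Dgm n) {S : St n} {c : Fin n} (hc : S c = false)
    {f : MvPolynomial (Arc n) ℚ} (hf : f ∈ D.J t S) :
    D.th S c * f ∈ D.J t (Function.update S c true) := by
  have hu : Function.update S c true = Function.update S c (!S c) := by rw [hc]; rfl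
  rw [hu]
  unfold th
  by_cases h : (D.sp S).SameCycle (c, false) (c, true)
  · rw [if_pos h]
    rw [D.J_split h] at hf
    obtain ⟨a, ha, b, hb, rfl⟩ := Submodule.mem_sup.1 hf
    obtain ⟨r, rfl⟩ := Ideal.mem_span_singleton'.1 hb
    have h1 : (X (c, false) + X (c, true) : MvPolynomial (Arc n) ℚ) *
        (a + r * (X (c, false) - X (c, true))) =
        (X (c, false) + X (c, true)) * a +
          r * ((X (c, false) ^ 2 - C t) - (X (c, true) ^ 2 - C t)) := by ring
    rw [h1]
    exact Ideal.add_mem _ (Ideal.mul_mem_left _ _ ha)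
      (Ideal.mul_mem_left _ _ (sub_mem (JJ_sq _) (JJ_sq _)))
  · rw [if_neg h, one_mul, D.J_merge h]
    exact Ideal.mem_sup_left hf

/-- `(X p - X q) * th S c` is in the ideal of the new state. -/
theorem Dgm.th_sub_mem (D : Dgm n) {S : St n} {c : Fin n} (hc : S c = false) :
    D.th S c * (X (c, false) - X (c, true)) ∈ D.J t (Function.update S c true) := by
  by_cases h : (D.sp S).SameCycle (c, false) (c, true)
  · exact D.th_mem hc (JJ_same h)
  · have hu : Function.update S c true = Function.update S c (!S c) := by rw [hc]; rfl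
    unfold th
    rw [if_neg h, one_mul, hu, D.J_merge h]
    exact Ideal.mem_sup_right (Ideal.subset_span rfl)

end Pool.Agent.Lib.MP_21eb54_gt
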