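import Pool.Agent.Lib.MP_21eb54_gt.KirA

/-!
# The matrix tree theorem: the determinants
-/

set_option autoImplicit false

namespace Pool.Agent.Lib.MP_21eb54_gt

open Equiv Matrix

variable {n : ℕ}

namespace Dgm

variable (D : Dgm n)

/-- The integral version of `Nm`. -/
noncomputable def KirB_Nz (c : Fin n) (u : D.Reg) : ℤ :=
  (if u = Quotient.mk _ (c, false) then 1 else 0) - (if u = Quotient.mk _ (c, true) then 1 else 0)

theorem KirB_cast (c : Fin n) (u : D.Reg) : ((D.KirB_Nz c u : ℤ) : ℝ) = D.Nm c u := by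
  unfold KirB_Nz Nm
  have h : ∀ (p : Prop) (h1 h2 : Decidable p),
      (((@ite ℤ p h1 1 0 : ℤ)) : ℝ) = @ite ℝ p h2 1 0 := by
    intro p h1 h2
    by_cases hp : p
    · rw [if_pos hp, if_pos hp, Int.cast_one]
    · rw [if_neg hp, if_neg hp, Int.cast_zero]
  rw [Int.cast_sub, h, h]

/-- The unit vector of the region `u`, which is zero if `u = r`. -/
noncomputable def KirB_dl (r : D.Reg) (u : D.Reg) : {u : D.Reg // u ≠ r} → ℤ :=
  fun i => if i.1 = u then 1 else 0

theorem KirB_dl_self (r : D.Reg) : D.KirB_dl r r = 0 := by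
  funext i
  exact if_neg i.2

/-- All unit vectors are combinations of the columns. -/
theorem KirB_mem (r : D.Reg) {H : St n} (e : {u : D.Reg // u ≠ r} ≃ {c : Fin n // H c = true})
    (h : D.kd H = 1) (u : D.Reg) :
    ∃ y : {u : D.Reg // u ≠ r} → ℤ,
      (Matrix.of fun (i j : {u : D.Reg // u ≠ r}) => D.KirB_Nz (e j).1 i.1) *ᵥ y = D.KirB_dl r u := by
  classical
  set M : Matrix {u : D.Reg // u ≠ r} {u : D.Reg // u ≠ r} ℤ :=
    Matrix.of fun (i j : {u : D.Reg // u ≠ r}) => D.KirB_Nz (e j).1 i.1 with hM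
  -- the columns
  have hcol : ∀ c, H c = true → ∃ y, M *ᵥ y =
      D.KirB_dl r (Quotient.mk _ (c, false)) - D.KirB_dl r (Quotient.mk _ (c, true)) := by
    intro c hc
    refine ⟨Pi.single (e.symm ⟨c, hc⟩) 1, ?_⟩
    rw [Matrix.mulVec_single_one]
    funext i
    show D.KirB_Nz (e (e.symm ⟨c, hc⟩)).1 i.1 = _
    rw [Equiv.apply_symm_apply]
    rfl
  let x : Arc n → ℝ := fun a => if ∃ y, M *ᵥ y = D.KirB_dl r (Quotient.mk _ a) then 1 else 0
  have hx : x ∈ D.Wd H := by
    refine ⟨fun a => ?_, fun c hc => ?_⟩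
    · have h1 : (Quotient.mk (Equiv.Perm.SameCycle.setoid (sm D.out fun _ => false))
          (sm D.out (fun _ => false) a)) = Quotient.mk _ a := by
        refine Quotient.sound ?_
        exact (Equiv.Perm.sameCycle_apply_left).2 (Equiv.Perm.SameCycle.refl _ _)
      show (if _ then (1 : ℝ) else 0) = if _ then (1 : ℝ) else 0
      rw [h1]
    · obtain ⟨y, hy⟩ := hcol c hc
      have h1 : (∃ y, M *ᵥ y = D.KirB_dl r (Quotient.mk _ (c, false))) ↔
          ∃ y, M *ᵥ y = D.KirB_dl r (Quotient.mk _ (c, true)) := by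
        constructor
        · rintro ⟨z, hz⟩
          refine ⟨z - y, ?_⟩
          rw [Matrix.mulVec_sub, hz, hy]
          abel
        · rintro ⟨z, hz⟩
          refine ⟨z + y, ?_⟩
          rw [Matrix.mulVec_add, hz, hy]
          abel
      show (if _ then (1 : ℝ) else 0) = if _ then (1 : ℝ) else 0
      simp only [h1]
  have h1 : (fun _ : Arc n => (1 : ℝ)) ∈ D.Wd H := ⟨fun _ => rfl, fun _ _ => rfl⟩
  obtain ⟨a, ha⟩ := Quotient.exists_rep r
  have hne : (⟨fun _ => 1, h1⟩ : D.Wd H) ≠ 0 := by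
    intro h0
    have h2 := congrFun (congrArg Subtype.val h0) a
    exact one_ne_zero h2
  obtain ⟨t, ht⟩ := (finrank_eq_one_iff_of_nonzero' _ hne).1 h ⟨x, hx⟩
  have hval : ∀ b, x b = t := by
    intro b
    have h2 := congrFun (congrArg Subtype.val ht) b
    have h3 : t * 1 = x b := h2
    rw [← h3, mul_one]
  have hxa : x a = 1 := by
    refine if_pos ⟨0, ?_⟩
    rw [Matrix.mulVec_zero]
    have h2 : (Quotient.mk (Equiv.Perm.SameCycle.setoid (sm D.out fun _ => false)) a) = r := ha
    rw [h2, D.KirB_dl_self r]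
  obtain ⟨b, hb⟩ := Quotient.exists_rep u
  have hxb : x b = 1 := by rw [hval b, ← hval a, hxa]
  by_contra hc
  have h2 : x b = 0 := by
    refine if_neg ?_
    have h3 : (Quotient.mk (Equiv.Perm.SameCycle.setoid (sm D.out fun _ => false)) b) = u := hb
    rw [h3]
    exact hc
  rw [h2] at hxb
  exact zero_ne_one hxb

/-- The reduced incidence matrices of spanning trees have determinant `1` or `-1`. -/
theorem det_sq (r : D.Reg) {H : St n} (e : {u : D.Reg // u ≠ r} ≃ {c : Fin n // H c = true})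
    (h : D.kd H = 1) :
    (Matrix.of fun (i j : {u : D.Reg // u ≠ r}) => D.Nm (e j).1 i.1).det ^ 2 = 1 := by
  classical
  set M : Matrix {u : D.Reg // u ≠ r} {u : D.Reg // u ≠ r} ℤ :=
    Matrix.of fun (i j : {u : D.Reg // u ≠ r}) => D.KirB_Nz (e j).1 i.1 with hM
  have hmap : (Matrix.of fun (i j : {u : D.Reg // u ≠ r}) => D.Nm (e j).1 i.1) =
      M.map (Int.castRingHom ℝ) := by
    ext i j
    rw [Matrix.map_apply, hM, Matrix.of_apply, Matrix.of_apply]
    exact (D.KirB_cast _ _).symm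
  choose y hy using fun v : {u : D.Reg // u ≠ r} => D.KirB_mem r e h v.1
  have hinv : M * (Matrix.of fun (i j : {u : D.Reg // u ≠ r}) => y j i) = 1 := by
    ext i j
    have h1 := congrFun (hy j) i
    rw [Matrix.mul_apply]
    rw [Matrix.mulVec, dotProduct] at h1
    rw [Matrix.one_apply]
    have h2 : D.KirB_dl r j.1 i = if i = j then 1 else 0 := by
      unfold KirB_dl
      by_cases hij : i = j
      · rw [if_pos hij, if_pos (congrArg Subtype.val hij)]
      · rw [if_neg hij, if_neg fun h3 => hij (Subtype.ext h3)]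
    rw [← h2, ← h1]
    rfl
  have hdet := congrArg Matrix.det hinv
  rw [Matrix.det_mul, Matrix.det_one] at hdet
  have hu : IsUnit M.det := IsUnit.of_mul_eq_one _ hdet
  have hsq : M.det ^ 2 = 1 := by
    rcases Int.isUnit_iff.1 hu with h1 | h1 <;> rw [h1] <;> norm_num
  rw [hmap, ← RingHom.mapMatrix_apply, ← RingHom.map_det, ← map_pow, hsq, map_one]

end Dgm

end Pool.Agent.Lib.MP_21eb54_gt
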