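import Pool.Agent.Lib.MP_21eb54_gt.JIa

/-!
# The evaluations
-/

set_option autoImplicit false
set_option linter.unusedSectionVars false

namespace Pool.Agent.Lib.MP_21eb54_gt

open Equiv MvPolynomial

variable {α : Type*} [Fintype α] [DecidableEq α] {π : Perm α}

theorem evl_X (ε : α → Bool) (e : α) : evl ε (X e) = if ε e then 1 else -1 := by
  unfold evl
  rw [aeval_X]

theorem LeeA_fac (ε ε' : α → Bool) (e : α) :
    evl ε' (C (1 / 2) * (1 + C (if ε e then (1 : ℚ) else -1) * X e)) =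
      if ε' e = ε e then 1 else 0 := by
  rw [map_mul, map_add, map_mul, map_one, evl_X, algHom_C, algHom_C]
  change (1 / 2 : ℚ) * (1 + (if ε e then (1 : ℚ) else -1) * (if ε' e then (1 : ℚ) else -1)) = _
  cases ε e <;> cases ε' e <;> norm_num

theorem evl_idm (ε ε' : α → Bool) : evl ε' (idm ε) = if ε' = ε then 1 else 0 := by
  unfold idm
  rw [map_prod, Finset.prod_congr rfl fun e _ => LeeA_fac ε ε' e]
  by_cases h : ε' = ε
  · rw [if_pos h, h]
    simp
  · rw [if_neg h]
    obtain ⟨e, he⟩ := Function.ne_iff.mp h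
    exact Finset.prod_eq_zero (Finset.mem_univ e) (if_neg he)

theorem LeeA_X (e : α) (ε : α → Bool) :
    (X e - C (if ε e then (1 : ℚ) else -1)) * idm ε ∈ JJ 1 π := by
  unfold idm
  rw [← Finset.mul_prod_erase _ _ (Finset.mem_univ e)]
  have h1 : (X e - C (if ε e then (1 : ℚ) else -1)) *
      (C (1 / 2) * (1 + C (if ε e then (1 : ℚ) else -1) * X e) *
        ∏ d ∈ Finset.univ.erase e, C (1 / 2) * (1 + C (if ε d then (1 : ℚ) else -1) * X d)) =
      (C (1 / 2) * C (if ε e then (1 : ℚ) else -1) *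
        ∏ d ∈ Finset.univ.erase e, C (1 / 2) * (1 + C (if ε d then (1 : ℚ) else -1) * X d)) *
        (X e ^ 2 - C 1) := by
    cases ε e
    · simp only [Bool.false_eq_true, if_false, C_neg, C_1]
      ring
    · simp only [if_true, C_1]
      ring
  rw [h1]
  exact Ideal.mul_mem_left _ _ (JJ_sq e)

/-- in every ideal with `X e ^ 2 - 1` for all `e`: `f * idm ε ≡ evl ε f * idm ε` -/
theorem mul_idm (f : MvPolynomial α ℚ) (ε : α → Bool) : f * idm ε - C (evl ε f) * idm ε ∈ JJ 1 π := by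
  induction f using MvPolynomial.induction_on with
  | C a =>
    have h1 : evl ε (C a) = a := by
      rw [algHom_C]
      rfl
    rw [h1, sub_self]
    exact zero_mem _
  | add p q hp hq =>
    have h1 : (p + q) * idm ε - C (evl ε (p + q)) * idm ε =
        (p * idm ε - C (evl ε p) * idm ε) + (q * idm ε - C (evl ε q) * idm ε) := by
      rw [map_add, C_add]
      ring
    rw [h1]
    exact add_mem hp hq
  | mul_X p e hp =>
    have h1 : p * X e * idm ε - C (evl ε (p * X e)) * idm ε =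
        X e * (p * idm ε - C (evl ε p) * idm ε) +
          C (evl ε p) * ((X e - C (if ε e then (1 : ℚ) else -1)) * idm ε) := by
      rw [map_mul, evl_X, C_mul]
      ring
    rw [h1]
    exact add_mem (Ideal.mul_mem_left _ _ hp) (Ideal.mul_mem_left _ _ (LeeA_X e ε))

/-- `∏ e, (1 / 2 * (1 + X e) + 1 / 2 * (1 - X e)) = 1` -/
theorem sum_idm : ∑ ε : α → Bool, idm ε = (1 : MvPolynomial α ℚ) := by
  have h1 := Finset.prod_univ_sum (fun _ : α => (Finset.univ : Finset Bool))
    (fun e b => (C (1 / 2) * (1 + C (if b then (1 : ℚ) else -1) * X e) : MvPolynomial α ℚ))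
  rw [Fintype.piFinset_univ] at h1
  unfold idm
  rw [← h1]
  apply Finset.prod_eq_one
  intro e _
  rw [Fintype.sum_bool]
  simp only [if_true, Bool.false_eq_true, if_false, C_neg, C_1]
  have h2 : (C (1 / 2) : MvPolynomial α ℚ) + C (1 / 2) = 1 := by
    rw [← C_add]
    norm_num
  linear_combination h2

/-- if `ε (π e) ≠ ε e` then `(1 + a * X e) * (1 - a * X (π e)) ≡ 1 - X e ^ 2` -/
theorem idm_mem {ε : α → Bool} (h : ¬ ∀ e, ε (π e) = ε e) : idm ε ∈ JJ 1 π := by
  obtain ⟨e, he⟩ := not_forall.mp h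
  have h1 := mul_idm (π := π) (X (π e) - X e) ε
  have h2 : (X (π e) - X e : MvPolynomial α ℚ) ∈ JJ 1 π :=
    Ideal.subset_span (Or.inr ⟨e, rfl⟩)
  have h3 : C (evl ε (X (π e) - X e)) * idm ε ∈ JJ 1 π := by
    have h4 := sub_mem (Ideal.mul_mem_right (idm ε) _ h2) h1
    rwa [sub_sub_cancel] at h4
  have h4 : evl ε (X (π e) - X e) ≠ 0 := by
    rw [map_sub, evl_X, evl_X]
    revert he
    cases ε (π e) <;> cases ε e <;> norm_num
  have h5 := Ideal.mul_mem_left _ (C (evl ε (X (π e) - X e))⁻¹) h3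
  rwa [← mul_assoc, ← C_mul, inv_mul_cancel₀ h4, C_1, one_mul] at h5

/-- `→`: the generators are evaluated to zero. `←`: `f = ∑ ε, f * idm ε ≡ ∑ ε, C (evl ε f) * idm ε`. -/
theorem mem_J1_iff {f : MvPolynomial α ℚ} :
    f ∈ JJ 1 π ↔ ∀ ε : α → Bool, (∀ e, ε (π e) = ε e) → evl ε f = 0 := by
  constructor
  · intro hf ε hε
    have h1 : JJ 1 π ≤ RingHom.ker (evl ε) := by
      refine JJ_le (fun e => ?_) fun e => ?_
      · rw [RingHom.mem_ker, map_sub, map_pow, evl_X, algHom_C]
        change (if ε e then (1 : ℚ) else -1) ^ 2 - 1 = 0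
        cases ε e <;> norm_num
      · rw [RingHom.mem_ker, map_sub, evl_X, evl_X, hε e, sub_self]
    exact RingHom.mem_ker.mp (h1 hf)
  · intro h
    rw [← mul_one f, ← sum_idm, Finset.mul_sum]
    refine sum_mem fun ε _ => ?_
    by_cases hε : ∀ e, ε (π e) = ε e
    · have h1 := mul_idm (π := π) f ε
      rwa [h ε hε, C_0, zero_mul, sub_zero] at h1
    · exact Ideal.mul_mem_left _ _ (idm_mem hε)

end Pool.Agent.Lib.MP_21eb54_gt
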