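import Pool.Agent.Lib.MP_21eb54_gt.LeeA
import Pool.Agent.Lib.MP_21eb54_gt.DifB

/-!
# Orientations and evaluations
-/

set_option autoImplicit false

namespace Pool.Agent.Lib.MP_21eb54_gt

open Equiv MvPolynomial

variable {n : ℕ}

namespace Dgm

variable (D : Dgm n)

/-- `mem_J1_iff` -/
theorem mem_J1 {S : St n} {f : MvPolynomial (Arc n) ℚ} :
    f ∈ D.J 1 S ↔ ∀ ε, D.Cmp ε S → evl ε f = 0 := by
  rw [D.J_eq]
  exact mem_J1_iff

/-- Both smoothings at `c` are compatible with `ε` if the two entries have the same value. -/
theorem Cmp_flip {ε : Arc n → Bool} {c : Fin n} (h : ε (c, false) = ε (c, true)) {S : St n}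
    (hS : D.Cmp ε S) (b : Bool) : D.Cmp ε (Function.update S c b) := by
  by_cases hb : b = S c
  · rw [hb, Function.update_eq_self]
    exact hS
  · have hb2 : b = !S c := by
      revert hb
      cases b <;> cases S c <;> simp
    rw [hb2]
    intro e
    rw [D.sp_flip, Equiv.Perm.mul_apply, hS]
    by_cases h1 : e = (c, false)
    · rw [h1, Equiv.swap_apply_left, h]
    · by_cases h2 : e = (c, true)
      · rw [h2, Equiv.swap_apply_right, h]
      · rw [Equiv.swap_apply_of_ne_of_ne h1 h2]

theorem LeeB_aux1 {ε : Arc n → Bool} {c : Fin n} {S : St n} (hS : D.Cmp ε S) (s : Bool) :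
    ε (D.out (c, if (S c == D.ov c) = true then s else !s)) = ε (c, s) := hS (c, s)

/-- if the two entries have different values, at most one smoothing at `c` is compatible -/
theorem Cmp_unique {ε : Arc n → Bool} {c : Fin n} (h : ε (c, false) ≠ ε (c, true)) {S S' : St n}
    (hS : D.Cmp ε S) (hS' : D.Cmp ε S') : S c = S' c := by
  by_contra hne
  apply h
  have h1 := D.LeeB_aux1 (c := c) hS false
  have h2 := D.LeeB_aux1 (c := c) hS true
  have h3 := D.LeeB_aux1 (c := c) hS' false
  have h4 := D.LeeB_aux1 (c := c) hS' true
  revert h1 h2 h3 h4 hne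
  cases S c <;> cases S' c <;> cases D.ov c <;> simp
  all_goals
    intro h1 h2 h3 h4
    exact h1.symm.trans h4

/-- `S` not compatible, `S + c` compatible: the step splits a circle (if it merged, the circles of `S`
would be contained in circles of `S + c`) and `ε` has different values at `p` and `q` (if not, `Cmp_flip`
for `S + c`), so `evl ε (X p + X q) = 0`. -/
theorem evl_th_zero {ε : Arc n → Bool} {S : St n} {c : Fin n} (hc : S c = false)
    (h1 : D.Cmp ε (Function.update S c true)) (h2 : ¬ D.Cmp ε S) : evl ε (D.th S c) = 0 := by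
  have hpq : ε (c, false) ≠ ε (c, true) := by
    intro he
    apply h2
    have h3 := D.Cmp_flip he h1 false
    have h4 : Function.update (Function.update S c true) c false = S := by
      rw [Function.update_idem]
      exact Function.update_eq_self_iff.mpr hc.symm
    rw [h4] at h3
    exact h3
  have hsc : (D.sp S).SameCycle (c, false) (c, true) := by
    by_contra hn
    have h5 := (D.same_flip S c).mpr hn
    rw [hc] at h5
    exact hpq (inv_sc h1 h5)
  unfold th
  rw [if_pos hsc, map_add, evl_X, evl_X]
  revert hpq
  cases ε (c, false) <;> cases ε (c, true) <;> simp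

/-- if `p, q` are in the same circle of `S`, `ε` is the same at `p` and `q` -/
theorem evl_th_ne {ε : Arc n → Bool} {S : St n} {c : Fin n} (h : D.Cmp ε S) :
    evl ε (D.th S c) ≠ 0 := by
  unfold th
  by_cases hsc : (D.sp S).SameCycle (c, false) (c, true)
  · rw [if_pos hsc, map_add, evl_X, evl_X]
    have h1 : ε (c, false) = ε (c, true) := inv_sc h hsc
    rw [h1]
    cases ε (c, true) <;> norm_num
  · rw [if_neg hsc, map_one]
    exact one_ne_zero

end Dgm

end Pool.Agent.Lib.MP_21eb54_gt
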