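import Pool.Agent.Lib.MP_21eb54_gt.LeeB

/-!
# Lee's homology
-/

set_option autoImplicit false

namespace Pool.Agent.Lib.MP_21eb54_gt

open Equiv MvPolynomial

variable {n : ℕ}

namespace Dgm

variable (D : Dgm n)

/-- the differential of the numbers -/
noncomputable def dn (ε : Arc n → Bool) (u : St n → ℚ) : St n → ℚ := fun S =>
  ∑ c, if S c = true then sgn S c * (evl ε (D.th (Function.update S c false) c) *
    u (Function.update S c false)) else 0

theorem evl_dif (ε : Arc n → Bool) (F : Ch n) (S : St n) :
    evl ε (D.dif F S) = D.dn ε (fun T => evl ε (F T)) S := by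
  unfold dif dn
  rw [map_sum]
  refine Finset.sum_congr rfl fun c _ => ?_
  by_cases h : S c = true
  · rw [if_pos h, if_pos h, map_mul, map_mul]
    unfold evl
    rw [MvPolynomial.aeval_C]
    rfl
  · rw [if_neg h, if_neg h, map_zero]

open Classical in
/-- the contraction -/
noncomputable def LeeC_g (ε : Arc n → Bool) (c : Fin n) (u : St n → ℚ) : St n → ℚ := fun S =>
  if S c = false ∧ D.Cmp ε S then
    sgn S c / evl ε (D.th S c) * u (Function.update S c true) else 0

theorem LeeC_g_true {ε : Arc n → Bool} {c : Fin n} {u : St n → ℚ} {S : St n} (hS : S c = true) :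
    D.LeeC_g ε c u S = 0 := by
  unfold LeeC_g
  rw [if_neg]
  rintro ⟨h, -⟩
  rw [hS] at h
  exact Bool.noConfusion h

theorem LeeC_g_not {ε : Arc n → Bool} {c : Fin n} {u : St n → ℚ} {S : St n} (hS : ¬ D.Cmp ε S) :
    D.LeeC_g ε c u S = 0 := by
  unfold LeeC_g
  rw [if_neg]
  rintro ⟨-, h⟩
  exact hS h

theorem LeeC_g_pos {ε : Arc n → Bool} {c : Fin n} {u : St n → ℚ} {S : St n} (hc : S c = false)
    (hS : D.Cmp ε S) :
    D.LeeC_g ε c u S = sgn S c / evl ε (D.th S c) * u (Function.update S c true) := by
  unfold LeeC_g
  rw [if_pos ⟨hc, hS⟩]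

/-- the term `c'` of the differential of the numbers -/
noncomputable def LeeC_t (ε : Arc n → Bool) (u : St n → ℚ) (S : St n) (c : Fin n) : ℚ :=
  if S c = true then sgn S c * (evl ε (D.th (Function.update S c false) c) *
    u (Function.update S c false)) else 0

theorem LeeC_dn (ε : Arc n → Bool) (u : St n → ℚ) (S : St n) (c : Fin n) :
    D.dn ε u S = D.LeeC_t ε u S c + ∑ c' ∈ Finset.univ.erase c, D.LeeC_t ε u S c' :=
  (Finset.add_sum_erase Finset.univ (fun c' => D.LeeC_t ε u S c') (Finset.mem_univ c)).symm

/-- the terms `c' ≠ c` -/
theorem LeeC_term {ε : Arc n → Bool} {c : Fin n} (h : ε (c, false) = ε (c, true)) (u : St n → ℚ)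
    {S : St n} (hS : D.Cmp ε S) (hc : S c = false) {c' : Fin n} (hne : c' ≠ c) :
    D.LeeC_t ε (D.LeeC_g ε c u) S c' = -(sgn S c / evl ε (D.th S c)) *
      D.LeeC_t ε u (Function.update S c true) c' := by
  unfold LeeC_t
  have e0 : Function.update S c true c' = S c' := Function.update_of_ne hne _ _
  rw [e0]
  by_cases h1 : S c' = true
  · rw [if_pos h1, if_pos h1]
    have hS1 : D.Cmp ε (Function.update S c true) := D.Cmp_flip h hS true
    set S' : St n := Function.update S c' false with hS'
    have e1 : Function.update (Function.update S c true) c' false = Function.update S' c true := by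
      rw [hS', Function.update_comm hne]
    have e2 : S' c = false := by
      rw [hS', Function.update_of_ne hne.symm, hc]
    have e3 : S' c' = false := by
      rw [hS', Function.update_self]
    have e4 : Function.update S' c' true = S := by
      rw [hS', Function.update_idem, ← h1, Function.update_eq_self]
    have e5 : Function.update (Function.update S' c true) c' true = Function.update S c true := by
      rw [Function.update_comm hne.symm, e4]
    have e6 : sgn S c' = sgn S' c' := (sgn_up S c' false).symm
    have e7 : sgn (Function.update S c true) c' = sgn (Function.update S' c true) c' := by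
      rw [← e1, sgn_up]
    rw [e1, e6, e7]
    have e8 : Function.update S' c true c' = false := by
      rw [Function.update_of_ne hne, e3]
    by_cases h2 : D.Cmp ε S'
    · rw [D.LeeC_g_pos e2 h2]
      have k1 := D.th_comm (t := 1) e2 e3 hne.symm
      rw [e5, e4] at k1
      have k2 := D.mem_J1.1 k1 ε hS1
      rw [map_sub, map_mul, map_mul, sub_eq_zero] at k2
      have k3 := sgn_comm e2 e3 hne.symm
      rw [e4] at k3
      have k4 := D.evl_th_ne (c := c) hS
      have k5 := D.evl_th_ne (c := c) h2
      have q1 := sgn_sq (Function.update S' c true) c'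
      have q2 := sgn_sq S' c'
      generalize sgn S' c = s1 at *
      generalize sgn (Function.update S' c true) c' = s2 at *
      generalize sgn S' c' = s3 at *
      generalize sgn S c = s4 at *
      generalize evl ε (D.th S' c') = E1 at *
      generalize evl ε (D.th S' c) = E2 at *
      generalize evl ε (D.th (Function.update S' c true) c') = E3 at *
      generalize evl ε (D.th S c) = a at *
      generalize u (Function.update S' c true) = U at *
      have k6 : s3 * s1 = -(s4 * s2) := by
        have : s3 * s1 = s1 * s2 * (s2 * s3) := by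
          linear_combination (-s1 * s3) * q1
        rw [this, k3]
        linear_combination (-(s4 * s2)) * q2
      field_simp
      linear_combination (U * E1 * a) * k6 + (-(s4 * s2) * U) * (-k2)
    · rw [D.LeeC_g_not h2]
      have h3 : ¬ D.Cmp ε (Function.update S' c true) := by
        intro h4
        have h5 := D.Cmp_flip h h4 false
        rw [Function.update_idem, ← e2, Function.update_eq_self] at h5
        exact h2 h5
      have h6 : D.Cmp ε (Function.update (Function.update S' c true) c' true) := by
        rw [e5]
        exact hS1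
      rw [D.evl_th_zero e8 h6 h3]
      ring
  · rw [if_neg h1, if_neg h1, mul_zero]

/-- `ε (c, false) = ε (c, true)`: a contraction. Let
`g S = sgn S c / evl ε (th S c) * u (S + c)` if `S c = false` and `Cmp ε S`, and `0` otherwise.
At a compatible `S` with `S c = true`: in `dn g S` only the term `c` is not zero (`g` is `0` at the states
with value `true` at `c`) and it is `u S` (`Cmp_flip`, `evl_th_ne`, `sgn_up`, `sgn_sq`).
At a compatible `S` with `S c = false`: `0 = dn u (S + c) = sgn * evl (th S c) * u S + ∑ (c' ≠ c) ...`, and
`dn g S = ∑ (c' ≠ c, S c' = true) sgn S c' * evl (th S' c') * g S'`, `S' = S - c'`; if `S'` is not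
compatible the factor `evl (th S' c')` is zero (`evl_th_zero`), and `S' + c` is not compatible either
(`Cmp_flip`), so the term of `c'` in `dn u (S + c)` is also zero. If `S'` is compatible: by `th_comm` and
`mem_J1`, `evl (th (S' + c) c') * evl (th S' c) = evl (th S c) * evl (th S' c')`, and the signs:
`sgn_comm` for `S'`. -/
theorem dn_contract {ε : Arc n → Bool} {c : Fin n} (h : ε (c, false) = ε (c, true)) {u : St n → ℚ}
    (hu : ∀ S, D.Cmp ε S → D.dn ε u S = 0) :
    ∃ g : St n → ℚ, ∀ S, D.Cmp ε S → u S = D.dn ε g S := by
  refine ⟨D.LeeC_g ε c u, fun S hS => ?_⟩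
  rw [D.LeeC_dn ε (D.LeeC_g ε c u) S c]
  by_cases hc : S c = true
  · have z : ∑ c' ∈ Finset.univ.erase c, D.LeeC_t ε (D.LeeC_g ε c u) S c' = 0 := by
      refine Finset.sum_eq_zero fun c' hc' => ?_
      have hne : c' ≠ c := Finset.ne_of_mem_erase hc'
      unfold LeeC_t
      by_cases h1 : S c' = true
      · rw [if_pos h1, D.LeeC_g_true (by rw [Function.update_of_ne hne.symm, hc])]
        ring
      · rw [if_neg h1]
    rw [z, add_zero]
    unfold LeeC_t
    rw [if_pos hc]
    have e1 : Function.update S c false c = false := Function.update_self _ _ _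
    have e2 : D.Cmp ε (Function.update S c false) := D.Cmp_flip h hS false
    rw [D.LeeC_g_pos e1 e2, sgn_up, Function.update_idem]
    have e3 : Function.update S c true = S := by
      rw [← hc, Function.update_eq_self]
    rw [e3]
    have k := D.evl_th_ne (c := c) e2
    have q := sgn_sq S c
    field_simp
    linear_combination (-(u S)) * q
  · have hc0 : S c = false := by
      cases hh : S c
      · rfl
      · exact absurd hh hc
    have t0 : D.LeeC_t ε (D.LeeC_g ε c u) S c = 0 := by
      unfold LeeC_t
      rw [if_neg hc]
    rw [t0, zero_add]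
    have hS1 : D.Cmp ε (Function.update S c true) := D.Cmp_flip h hS true
    have k0 := hu _ hS1
    rw [D.LeeC_dn ε u _ c] at k0
    have e1 : Function.update S c true c = true := Function.update_self _ _ _
    have e2 : Function.update (Function.update S c true) c false = S := by
      rw [Function.update_idem, ← hc0, Function.update_eq_self]
    have t1 : D.LeeC_t ε u (Function.update S c true) c = sgn S c * (evl ε (D.th S c) * u S) := by
      unfold LeeC_t
      rw [if_pos e1, e2, sgn_up]
    rw [t1] at k0
    have z : ∑ c' ∈ Finset.univ.erase c, D.LeeC_t ε (D.LeeC_g ε c u) S c' =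
        ∑ c' ∈ Finset.univ.erase c, (-(sgn S c / evl ε (D.th S c)) *
          D.LeeC_t ε u (Function.update S c true) c') :=
      Finset.sum_congr rfl fun c' hc' => D.LeeC_term h u hS hc0 (Finset.ne_of_mem_erase hc')
    rw [z, ← Finset.mul_sum]
    have k := D.evl_th_ne (c := c) hS
    have q := sgn_sq S c
    generalize ∑ c' ∈ Finset.univ.erase c, D.LeeC_t ε u (Function.update S c true) c' = Y at *
    have hY : Y = -(sgn S c * (evl ε (D.th S c) * u S)) := by linear_combination k0
    rw [hY]
    field_simp
    linear_combination (-(u S)) * q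

end Dgm

end Pool.Agent.Lib.MP_21eb54_gt
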