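import Pool.Agent.Lib.MP_21eb54_gt.LeeB

/-!
# Orientations and evaluations, 2
-/

set_option autoImplicit false

namespace Pool.Agent.Lib.MP_21eb54_gt

open Equiv MvPolynomial

variable {n : ℕ}

namespace Dgm

variable (D : Dgm n)

/-- At every crossing the oriented smoothing joins an entry to the exit with the same value of
`ori`. `ori_in`, `ori_out`, the definition of `pos`. -/
theorem Cmp_ori (S : St n) : D.Cmp D.ori S ↔ S = D.So := by
  have key : ∀ c, ((D.ori (D.sp S (c, false)) = D.ori (c, false)) ∧
      (D.ori (D.sp S (c, true)) = D.ori (c, true))) ↔ S c = D.So c := by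
    intro c
    have e1 : D.sp S (c, false) = D.out (c, if (S c == D.ov c) = true then false else true) := rfl
    have e2 : D.sp S (c, true) = D.out (c, if (S c == D.ov c) = true then true else false) := rfl
    have h1 := D.ori_in c
    have h2 := D.ori_out c
    rw [e1, e2]
    unfold So pos
    cases hS : S c <;> cases hv : D.ov c <;> cases h3 : D.ori (c, false) <;>
      cases h4 : D.ori (D.out (c, false)) <;> simp_all
  constructor
  · intro h
    funext c
    exact (key c).1 ⟨h _, h _⟩
  · rintro h ⟨c, s⟩
    have := (key c).2 (by rw [h])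
    cases s
    · exact this.1
    · exact this.2

theorem Cmp_ori' (S : St n) : D.Cmp D.ori' S ↔ S = D.So := by
  rw [← D.Cmp_ori S]
  unfold Cmp ori'
  constructor
  · intro h e
    exact Bool.not_inj (h e)
  · intro h e
    rw [h e]

/-- If `ε (c, true) ≠ ε (c, false)` for all `c`, and `S` is compatible with `ε`, then the exits at `c`
have different values too; so `ε` and `ori` both change along `Opp`, and by `D.knot` they are equal or
opposite. -/
theorem ori_or {ε : Arc n → Bool} {S : St n} (hS : D.Cmp ε S) (h : ∀ c, ε (c, false) ≠ ε (c, true)) :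
    ε = D.ori ∨ ε = D.ori' := by
  have hout : ∀ c, ε (D.out (c, false)) ≠ ε (D.out (c, true)) := by
    intro c
    have e1 : D.sp S (c, false) = D.out (c, if (S c == D.ov c) = true then false else true) := rfl
    have e2 : D.sp S (c, true) = D.out (c, if (S c == D.ov c) = true then true else false) := rfl
    have a1 := hS (c, false)
    have a2 := hS (c, true)
    rw [e1] at a1
    rw [e2] at a2
    have a3 := h c
    cases hq : (S c == D.ov c)
    · rw [hq] at a1 a2
      simp only [Bool.false_eq_true, if_false] at a1 a2
      rw [a1, a2]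
      exact fun hh => a3 hh.symm
    · rw [hq] at a1 a2
      simp only [if_true] at a1 a2
      rw [a1, a2]
      exact a3
  have hstep : ∀ e f, Opp D.out e f → (ε e == D.ori e) = (ε f == D.ori f) := by
    rintro e f ⟨c, ⟨rfl, rfl⟩ | ⟨rfl, rfl⟩⟩
    · have h1 := D.ori_in c
      have h2 := h c
      rw [h1]
      cases hx : ε (c, false) <;> cases hy : ε (c, true) <;> cases hz : D.ori (c, false) <;> simp_all
    · have h1 := D.ori_out c
      have h2 := hout c
      rw [h1]
      cases hx : ε (D.out (c, false)) <;> cases hy : ε (D.out (c, true)) <;>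
        cases hz : D.ori (D.out (c, false)) <;> simp_all
  have hall : ∀ e f, (ε e == D.ori e) = (ε f == D.ori f) := by
    intro e f
    have := D.knot e f
    induction this with
    | rel x y hxy => exact hstep x y hxy
    | refl x => rfl
    | symm x y _ ih => exact ih.symm
    | trans x y z _ _ ih1 ih2 => exact ih1.trans ih2
  by_cases hx : ∃ e, (ε e == D.ori e) = true
  · obtain ⟨e, he⟩ := hx
    left
    funext f
    have := (hall f e).trans he
    exact eq_of_beq this
  · right
    funext f
    unfold ori'
    have h1 : ¬ (ε f == D.ori f) = true := fun hh => hx ⟨f, hh⟩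
    cases ha : ε f <;> cases hb : D.ori f <;> simp_all

theorem nb_So : nb D.So = D.nn := by
  unfold nb nn So
  simp only [Bool.not_eq_true']

/-- the states below `So` are not compatible with `ε`: `evl_th_zero` -/
theorem Lf_dif {ε : Arc n → Bool} (hε : ∀ S, D.Cmp ε S ↔ S = D.So) (F : Ch n) :
    D.Lf ε (D.dif F) = 0 := by
  unfold Lf dif
  rw [map_sum]
  refine Finset.sum_eq_zero ?_
  intro c _
  by_cases hc : D.So c = true
  · rw [if_pos hc, map_mul, map_mul]
    have h0 : evl ε (D.th (Function.update D.So c false) c) = 0 := by
      refine D.evl_th_zero ?_ ?_ ?_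
      · simp
      · rw [Function.update_idem]
        have h3 : Function.update D.So c true = D.So := by
          rw [← hc]
          exact Function.update_eq_self c D.So
        rw [h3]
        exact (hε _).2 rfl
      · intro h4
        have h5 := (hε _).1 h4
        have h6 := congrFun h5 c
        rw [Function.update_self, hc] at h6
        exact Bool.false_ne_true h6
    rw [h0, zero_mul, mul_zero]
  · rw [if_neg hc, map_zero]

theorem Lf_J {ε : Arc n → Bool} (hε : ∀ S, D.Cmp ε S ↔ S = D.So) {F : Ch n}
    (h : ∀ S, F S ∈ D.J 1 S) : D.Lf ε F = 0 := by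
  exact D.mem_J1.1 (h D.So) ε ((hε _).2 rfl)

/-- The canonical cycle: `th * idm ε` is in `D.J 1 S` for `S ≠ So` (`mem_J1`, `evl_idm`). -/
theorem can_Cy {ε : Arc n → Bool} (hε : ∀ S, D.Cmp ε S ↔ S = D.So) :
    D.Cy (fun S => if S = D.So then idm ε else 0) := by
  intro S
  unfold dif
  refine Ideal.sum_mem _ ?_
  intro c _
  by_cases hc : S c = true
  · rw [if_pos hc]
    refine Ideal.mul_mem_left _ _ ?_
    dsimp only
    by_cases h1 : Function.update S c false = D.So
    · rw [if_pos h1]
      refine D.mem_J1.2 ?_
      intro ε' hε'
      rw [map_mul, evl_idm]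
      by_cases h2 : ε' = ε
      · exfalso
        rw [h2] at hε'
        have h3 := (hε S).1 hε'
        have h4 := congrFun h1 c
        rw [Function.update_self, ← h3, hc] at h4
        exact Bool.false_ne_true h4
      · rw [if_neg h2, mul_zero]
    · rw [if_neg h1, mul_zero]
      exact Ideal.zero_mem _
  · rw [if_neg hc]
    exact Ideal.zero_mem _

end Dgm

end Pool.Agent.Lib.MP_21eb54_gt
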