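import Pool.Agent.Lib.MP_21eb54_gt.LeeC
import Pool.Agent.Lib.MP_21eb54_gt.LeeD

/-!
# Lee's homology, 2
-/

set_option autoImplicit false

namespace Pool.Agent.Lib.MP_21eb54_gt

open Equiv MvPolynomial

variable {n : ℕ}

namespace Dgm

variable (D : Dgm n)

/-- `mem_J1`: we need, for every `ε`, numbers `g ε S` with `evl ε (F S) = dn ε (g ε) S` for all `S`
compatible with `ε`; then `G S = ∑ ε, C (g ε S) * idm ε` (`evl_idm`, `evl_dif`). If there is `c` with
`ε (c, false) = ε (c, true)`: `dn_contract`. If no state is compatible with `ε`: nothing to prove. If not: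
`ori_or`: `ε = ori` or `ori'`, the only compatible state is `So`, `evl ε (F So) = 0` by hypothesis and
`g = 0`. -/
theorem lee_exact {F : Ch n} (hF : D.Cy F) (h1 : D.Lf D.ori F = 0) (h2 : D.Lf D.ori' F = 0) :
    ∃ G, ∀ S, F S - D.dif G S ∈ D.J 1 S := by
  classical
  have key : ∀ ε : Arc n → Bool, ∃ g : St n → ℚ, ∀ S, D.Cmp ε S → evl ε (F S) = D.dn ε g S := by
    intro ε
    by_cases hc : ∃ c, ε (c, false) = ε (c, true)
    · obtain ⟨c, hc⟩ := hc
      exact D.dn_contract hc (u := fun S => evl ε (F S)) (fun S hS => by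
        rw [← evl_dif]
        exact (D.mem_J1.1 (hF S)) ε hS)
    · have hc' : ∀ c, ε (c, false) ≠ ε (c, true) := fun c h => hc ⟨c, h⟩
      by_cases hS : ∃ S, D.Cmp ε S
      · obtain ⟨S0, hS0⟩ := hS
        refine ⟨fun _ => 0, fun S hS => ?_⟩
        have h0 : D.dn ε (fun _ => 0) S = 0 := by
          unfold dn
          simp
        rw [h0]
        rcases D.ori_or hS0 hc' with h | h
        · subst h
          rw [(D.Cmp_ori S).1 hS]
          exact h1
        · subst h
          rw [(D.Cmp_ori' S).1 hS]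
          exact h2
      · exact ⟨fun _ => 0, fun S hS' => absurd ⟨S, hS'⟩ hS⟩
  choose g hg using key
  refine ⟨fun S => ∑ ε, C (g ε S) * idm ε, fun S => D.mem_J1.2 fun ε hε => ?_⟩
  rw [map_sub, evl_dif, hg ε S hε]
  have h3 : (fun T => evl ε (∑ ε', C (g ε' T) * idm ε')) = g ε := by
    funext T
    rw [map_sum, Finset.sum_eq_single ε]
    · rw [map_mul, evl_idm, if_pos rfl, mul_one]
      simp [evl]
    · intro b _ hb
      rw [map_mul, evl_idm, if_neg (fun h => hb h.symm), mul_zero]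
    · intro h
      exact absurd (Finset.mem_univ _) h
  rw [h3, sub_self]

/-- boundaries and elements of the ideal are cycles; sums of cycles are cycles -/
theorem Cy_add {F G : Ch n} (hF : D.Cy F) (hG : D.Cy G) : D.Cy (F + G) := by
  intro S
  have h : D.dif (F + G) S = D.dif F S + D.dif G S := by
    rw [← dfF_full, ← dfF_full, ← dfF_full, dfF_add]
    rfl
  rw [h]
  exact Ideal.add_mem _ (hF S) (hG S)

theorem Cy_sub {F G : Ch n} (hF : D.Cy F) (hG : D.Cy G) : D.Cy (F - G) := by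
  intro S
  have h : D.dif (F - G) S = D.dif F S - D.dif G S := by
    rw [← dfF_full, ← dfF_full, ← dfF_full, dfF_sub]
    rfl
  rw [h]
  exact Ideal.sub_mem _ (hF S) (hG S)

theorem Cy_dif (G : Ch n) : D.Cy (D.dif G) := by
  intro S
  rw [← dfF_full, ← dfF_full]
  exact D.dfF_dfF _ G S

theorem Cy_J {F : Ch n} (h : ∀ S, F S ∈ D.J 1 S) : D.Cy F := by
  intro S
  have h1 := D.dfF_mem (t := 1) (Φ := full n) (A := ⊥) (F := F)
    (fun S _ => by rw [sup_bot_eq]; exact h S) (InF_full S)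
  rw [sup_bot_eq, dfF_full] at h1
  exact h1

/-- the multiplication by a polynomial -/
theorem Cy_mul {F : Ch n} (hF : D.Cy F) (g : MvPolynomial (Arc n) ℚ) : D.Cy (fun S => g * F S) := by
  intro S
  have h : D.dif (fun S => g * F S) S = g * D.dif F S := by
    rw [← dfF_full, ← dfF_full, dfF_mul]
  rw [h]
  exact Ideal.mul_mem_left _ _ (hF S)

/-- `Lf_dif`, `Lf_J`, `lee_exact` -/
theorem lee_iff {F : Ch n} (hF : D.Cy F) :
    (∃ G, ∀ S, F S - D.dif G S ∈ D.J 1 S) ↔ D.Lf D.ori F = 0 ∧ D.Lf D.ori' F = 0 := by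
  constructor
  · rintro ⟨G, hG⟩
    have h : ∀ ε : Arc n → Bool, (∀ S, D.Cmp ε S ↔ S = D.So) → D.Lf ε F = 0 := by
      intro ε hε
      have h1 := D.Lf_J hε hG
      have h2 := D.Lf_dif hε G
      unfold Lf at h1 h2 ⊢
      rw [map_sub, h2, sub_zero] at h1
      exact h1
    exact ⟨h _ D.Cmp_ori, h _ D.Cmp_ori'⟩
  · rintro ⟨h1, h2⟩
    exact D.lee_exact hF h1 h2

end Dgm

end Pool.Agent.Lib.MP_21eb54_gt
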