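import Pool.Agent.Lib.MP_21eb54_gt.LevA
import Pool.Agent.Lib.MP_21eb54_gt.FacA

/-!
# The two levels of Lee's homology
-/

set_option autoImplicit false

namespace Pool.Agent.Lib.MP_21eb54_gt

open Equiv MvPolynomial

variable {n : ℕ}

namespace Dgm

variable (D : Dgm n)

/-- there is a nonzero class in the level `j` -/
def Lv (j : ℤ) : Prop := ∃ F, D.Cy F ∧ D.Fil j F ∧ (D.Lf D.ori F ≠ 0 ∨ D.Lf D.ori' F ≠ 0)

/-- all classes are in the level `j` -/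
def Lw (j : ℤ) : Prop := ∀ a b : ℚ, ∃ F, D.Cy F ∧ D.Fil j F ∧ D.Lf D.ori F = a ∧ D.Lf D.ori' F = b

/-- `lee_iff` -/
theorem Lv_iff (j : ℤ) : D.Lv j ↔
    ∃ F, D.Cy F ∧ D.Fil j F ∧ ¬ ∃ G, ∀ S, F S - D.dif G S ∈ D.J 1 S := by
  constructor
  · rintro ⟨F, h1, h2, h3⟩
    refine ⟨F, h1, h2, fun h => ?_⟩
    have h4 := (D.lee_iff h1).1 h
    rcases h3 with h3 | h3
    · exact h3 h4.1
    · exact h3 h4.2
  · rintro ⟨F, h1, h2, h3⟩
    refine ⟨F, h1, h2, ?_⟩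
    by_contra h
    rw [not_or, not_not, not_not] at h
    exact h3 ((D.lee_iff h1).2 h)

theorem LevB_ori_ne : ¬ D.ori = D.ori' := by
  intro h
  have h1 := congrFun h ((⟨0, D.n_pos⟩ : Fin n), false)
  unfold ori' at h1
  revert h1
  cases D.ori ((⟨0, D.n_pos⟩ : Fin n), false) <;> simp

/-- the chain with the value `C a * idm ori + C b * idm ori'` at `So` -/
noncomputable def LevB_can (a b : ℚ) : Ch n :=
  (fun S => C a * (if S = D.So then idm D.ori else 0)) +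
    fun S => C b * (if S = D.So then idm D.ori' else 0)

theorem LevB_can_Cy (a b : ℚ) : D.Cy (D.LevB_can a b) :=
  D.Cy_add (D.Cy_mul (D.can_Cy D.Cmp_ori) (C a)) (D.Cy_mul (D.can_Cy D.Cmp_ori') (C b))

theorem LevB_can_So (a b : ℚ) :
    D.LevB_can a b D.So = C a * idm D.ori + C b * idm D.ori' := by
  unfold LevB_can
  simp only [Pi.add_apply, if_true]

theorem LevB_Lf_can (a b : ℚ) (ε : Arc n → Bool) :
    D.Lf ε (D.LevB_can a b) = a * (if ε = D.ori then 1 else 0) + b * (if ε = D.ori' then 1 else 0) := by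
  unfold Lf
  rw [D.LevB_can_So, map_add, map_mul, map_mul, evl_idm, evl_idm]
  unfold evl
  rw [algHom_C, algHom_C]
  rfl

theorem LevB_Lf_sub (ε : Arc n → Bool) (F G : Ch n) : D.Lf ε (F - G) = D.Lf ε F - D.Lf ε G := by
  unfold Lf
  rw [Pi.sub_apply, map_sub]

/-- combinations of the canonical cycles of `ori` and `ori'` (`can_Cy`, `evl_idm`; `ori ≠ ori'` as there
is an arc, `n_pos`) -/
theorem exists_Cy (a b : ℚ) : ∃ F, D.Cy F ∧ D.Lf D.ori F = a ∧ D.Lf D.ori' F = b := by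
  refine ⟨D.LevB_can a b, D.LevB_can_Cy a b, ?_, ?_⟩
  · rw [D.LevB_Lf_can, if_pos rfl, if_neg D.LevB_ori_ne]
    ring
  · rw [D.LevB_Lf_can, if_pos rfl, if_neg fun h => D.LevB_ori_ne h.symm]
    ring

/-- `→`: for `F` take `F'` with the same values, `lee_iff` for `F - F'`. `←`: take `F` of `exists_Cy`;
`F'` is a cycle with the same values (`Lf_dif`, `Lf_J`, `Cy_sub`, `Cy_dif`, `Cy_J`). -/
theorem Lw_iff (j : ℤ) : D.Lw j ↔
    ∀ F, D.Cy F → ∃ F' G, D.Fil j F' ∧ ∀ S, F S - F' S - D.dif G S ∈ D.J 1 S := by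
  constructor
  · intro h F hF
    obtain ⟨F', h1, h2, h3, h4⟩ := h (D.Lf D.ori F) (D.Lf D.ori' F)
    obtain ⟨G, hG⟩ := (D.lee_iff (D.Cy_sub hF h1)).2
      ⟨by rw [D.LevB_Lf_sub, h3, sub_self], by rw [D.LevB_Lf_sub, h4, sub_self]⟩
    exact ⟨F', G, h2, hG⟩
  · intro h a b
    obtain ⟨F, hF, h1, h2⟩ := D.exists_Cy a b
    obtain ⟨F', G, h3, h4⟩ := h F hF
    have h5 : F' = F - D.dif G - (F - F' - D.dif G) := by
      funext S
      simp only [Pi.sub_apply]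
      ring
    have h6 : ∀ S, (F - F' - D.dif G) S ∈ D.J 1 S := h4
    have h7 : ∀ ε : Arc n → Bool, (∀ S, D.Cmp ε S ↔ S = D.So) → D.Lf ε F' = D.Lf ε F := by
      intro ε hε
      have h8 : D.Lf ε F' = D.Lf ε (F - D.dif G - (F - F' - D.dif G)) := congrArg _ h5
      rw [D.LevB_Lf_sub, D.LevB_Lf_sub, D.Lf_dif hε, D.Lf_J hε h6, sub_zero, sub_zero] at h8
      exact h8
    refine ⟨F', ?_, h3, ?_, ?_⟩
    · rw [h5]
      exact D.Cy_sub (D.Cy_sub hF (D.Cy_dif G)) (D.Cy_J h6)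
    · rw [h7 _ D.Cmp_ori, h1]
    · rw [h7 _ D.Cmp_ori', h2]

/-- a monomial at `So` has quantum degree at most `qd So 0` -/
theorem Lv_le {j : ℤ} (h : D.Lv j) : j ≤ D.qd D.So 0 := by
  obtain ⟨F, _, h2, h3⟩ := h
  have h4 : F D.So ≠ 0 := by
    intro h0
    unfold Lf at h3
    rw [h0, map_zero, map_zero] at h3
    rcases h3 with h3 | h3
    · exact h3 rfl
    · exact h3 rfl
  obtain ⟨m, hm⟩ := MvPolynomial.ne_zero_iff.1 h4
  have h5 := (D.Fil_iff j F).1 h2 D.So m hm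
  refine h5.trans ?_
  unfold qd
  have h6 : (0 : ℤ) ≤ (m.degree : ℤ) := Int.natCast_nonneg _
  have h7 : ((0 : Arc n →₀ ℕ).degree : ℤ) = 0 := by simp
  rw [h7]
  linarith

theorem exists_Lv : ∃ j, D.Lv j := by
  obtain ⟨F, hF, h1, _⟩ := D.exists_Cy 1 0
  refine ⟨-2 * ((Finset.univ.sup fun S => (F S).totalDegree : ℕ) : ℤ) - 2 * D.nn, F, hF, ?_, ?_⟩
  · intro S
    right
    have h2 : (F S).totalDegree ≤ Finset.univ.sup fun S => (F S).totalDegree :=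
      Finset.le_sup (f := fun S => (F S).totalDegree) (Finset.mem_univ S)
    have h3 : ((F S).totalDegree : ℤ) ≤ ((Finset.univ.sup fun S => (F S).totalDegree : ℕ) : ℤ) := by
      exact_mod_cast h2
    have h4 : (0 : ℤ) ≤ (D.circ S : ℤ) := Int.natCast_nonneg _
    have h5 : (0 : ℤ) ≤ (nb S : ℤ) := Int.natCast_nonneg _
    have h6 : (0 : ℤ) ≤ (D.np : ℤ) := Int.natCast_nonneg _
    linarith
  · left
    rw [h1]
    exact one_ne_zero

theorem Lv_mono {i j : ℤ} (h : i ≤ j) (hj : D.Lv j) : D.Lv i := by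
  obtain ⟨F, h1, h2, h3⟩ := hj
  exact ⟨F, h1, D.Fil_mono h h2, h3⟩

theorem Lw_Lv {j : ℤ} (h : D.Lw j) : D.Lv j := by
  obtain ⟨F, h1, h2, h3, _⟩ := h 1 0
  exact ⟨F, h1, h2, Or.inl (by rw [h3]; exact one_ne_zero)⟩

end Dgm

end Pool.Agent.Lib.MP_21eb54_gt
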