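import Pool.Agent.Lib.MP_21eb54_gt.LevB

/-!
# The two levels of Lee's homology, 2
-/

set_option autoImplicit false

namespace Pool.Agent.Lib.MP_21eb54_gt

open Equiv MvPolynomial

variable {n : ℕ}

namespace Dgm

variable (D : Dgm n)

theorem LevC_aux_add (ε : Arc n → Bool) (F G : Ch n) : D.Lf ε (F + G) = D.Lf ε F + D.Lf ε G := by
  unfold Lf
  rw [Pi.add_apply, map_add]

theorem LevC_aux_mul (ε : Arc n → Bool) (g : MvPolynomial (Arc n) ℚ) (F : Ch n) :
    D.Lf ε (fun S => g * F S) = evl ε g * D.Lf ε F := by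
  unfold Lf
  rw [map_mul]

theorem LevC_aux_C (ε : Arc n → Bool) (a : ℚ) (F : Ch n) :
    D.Lf ε (fun S => C a * F S) = a * D.Lf ε F := by
  rw [D.LevC_aux_mul]
  unfold evl
  rw [algHom_C]
  rfl

/-- a class with the values `(a, σ * a)` and its multiple by an arc -/
theorem LevC_aux_Lw {j : ℤ} {F : Ch n} (hF : D.Cy F) (hj : D.Fil j F) {σ : ℚ} (hσ : σ * σ = 1)
    (h1 : D.Lf D.ori' F = σ * D.Lf D.ori F) (h2 : D.Lf D.ori F ≠ 0) : D.Lw (j - 2) := by
  have hn : 0 < n := D.n_pos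
  intro x y
  obtain ⟨ε, hε, hεe⟩ : ∃ ε : ℚ, ε * ε = 1 ∧
      evl D.ori (X (⟨0, hn⟩, false)) = ε ∧ evl D.ori' (X (⟨0, hn⟩, false)) = -ε := by
    rw [evl_X, evl_X]
    unfold ori'
    by_cases ho : D.ori (⟨0, hn⟩, false) = true
    · exact ⟨1, by norm_num, by simp [ho], by simp [ho]⟩
    · exact ⟨-1, by norm_num, by simp [ho], by simp [ho]⟩
  set e : Arc n := (⟨0, hn⟩, false) with he
  obtain ⟨he1, he2⟩ := hεe
  set a : ℚ := D.Lf D.ori F with ha
  refine ⟨(fun S => C ((x + σ * y) / (2 * a)) * F S) +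
    (fun S => C (ε * (x - σ * y) / (2 * a)) * (X e * F S)), ?_, ?_, ?_, ?_⟩
  · exact D.Cy_add (D.Cy_mul hF _) (D.Cy_mul (D.Cy_mul hF _) _)
  · exact D.Fil_add (D.Fil_mono (by omega) (D.Fil_C _ hj)) (D.Fil_C _ (D.Fil_X e hj))
  · rw [D.LevC_aux_add, D.LevC_aux_C, D.LevC_aux_C D.ori _ (fun S => X e * F S), D.LevC_aux_mul,
      he1, ← ha]
    have : (x + σ * y) / (2 * a) * a + ε * (x - σ * y) / (2 * a) * (ε * a) =
      ((x + σ * y) + (ε * ε) * (x - σ * y)) / 2 := by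
      field_simp
    rw [this, hε]
    ring
  · rw [D.LevC_aux_add, D.LevC_aux_C, D.LevC_aux_C D.ori' _ (fun S => X e * F S), D.LevC_aux_mul,
      he2, h1]
    have : (x + σ * y) / (2 * a) * (σ * a) + ε * (x - σ * y) / (2 * a) * (-ε * (σ * a)) =
      (σ * x + (σ * σ) * y - (ε * ε) * (σ * x - (σ * σ) * y)) / 2 := by
      field_simp
      ring
    rw [this, hε, hσ]
    ring

/-- Let `r = qd So 0` and `F` of the level `j` with a nonzero value. Let `F1, F2` be the parts of `F` with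
the quantum degrees `≡ r` and not `≡ r` modulo `4` (then `≡ r + 2`, `qd_parity`): cycles of the level `j`
with the values `(a, a)` and `(b, -b)` (`Lf_mod4`), and `a` or `b` is not zero. If `a ≠ 0`: `X e * F1` is of
the level `j - 2` and has the values `(ε * a, - ε * a)` with `ε` the sign of `ori e` (`Cy_mul`, `Fil_X`),
and combinations of `F1` and `X e * F1` have all values. The same for `b`. -/
theorem Lw_sub {j : ℤ} (h : D.Lv j) : D.Lw (j - 2) := by
  obtain ⟨F, hF, hj, hv⟩ := h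
  set P : ℤ → Prop := fun x => (x - D.qd D.So 0) % 4 = 0 with hPdef
  have hP : ∀ x, P (x + 4) ↔ P x := by
    intro x
    simp only [hPdef]
    omega
  have hPn : ∀ x, ¬ P (x + 4) ↔ ¬ P x := fun x => not_congr (hP x)
  have e1 : D.Lf D.ori' (D.ptF P F) = 1 * D.Lf D.ori (D.ptF P F) := by
    have := D.Lf_mod4 (r := D.qd D.So 0) (F := D.ptF P F)
      (fun S m hm => ((D.ptF_coeff P F S m).1 hm).1)
    rw [if_pos (by simp)] at this
    exact this
  have e2 : D.Lf D.ori' (D.ptF (fun x => ¬ P x) F) =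
      (-1) * D.Lf D.ori (D.ptF (fun x => ¬ P x) F) := by
    have := D.Lf_mod4 (r := D.qd D.So 0 + 2) (F := D.ptF (fun x => ¬ P x) F)
      (fun S m hm => by
        have h3 := ((D.ptF_coeff (fun x => ¬ P x) F S m).1 hm).1
        have h4 := D.qd_parity S D.So m 0
        simp only [hPdef] at h3
        omega)
    rw [if_neg (by omega)] at this
    exact this
  have e3 : ∀ ε, D.Lf ε F = D.Lf ε (D.ptF P F) + D.Lf ε (D.ptF (fun x => ¬ P x) F) := by
    intro ε
    rw [← D.LevC_aux_add, D.ptF_add_not]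
  by_cases h5 : D.Lf D.ori (D.ptF P F) = 0
  · have h6 : D.Lf D.ori (D.ptF (fun x => ¬ P x) F) ≠ 0 := by
      intro h6
      rw [e3, e3, e1, e2, h5, h6] at hv
      simp at hv
    exact D.LevC_aux_Lw (D.ptF_Cy hPn hF) (D.Fil_ptF _ hj) (by norm_num) e2 h6
  · exact D.LevC_aux_Lw (D.ptF_Cy hP hF) (D.Fil_ptF _ hj) (by norm_num) e1 h5

/-- Suppose `Lw (M - 1)`. First: `M ≡ qd` modulo `2`, if not `Fil M = Fil (M + 1)` and `Lv (M + 1)`. So
`Fil (M - 1) = Fil M` and `Lw M`. Let `η` be the sign of `Lf_mod4` for `r = M + 2` (then the sign for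
`r = M` is `-η`, as `qd So 0 - M` is even). Take `F` of the level `M` with the values `(1, η)`. Its parts
with the quantum degrees `≡ M` and `≡ M + 2` modulo `4` have the values `(a, -η * a)` and `(b, η * b)`,
`a + b = 1`, `b - a = 1`, so `b = 1`, and the second part is of the level `M + 2`: `Lv (M + 1)`. -/
theorem not_Lw {M : ℤ} (h : D.Lv M) (h' : ¬ D.Lv (M + 1)) : ¬ D.Lw (M - 1) := by
  intro hw
  have hpar : (D.qd D.So 0 - M) % 2 = 0 := by
    by_contra hne
    apply h'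
    obtain ⟨F, hF, hj, hv⟩ := h
    refine ⟨F, hF, ?_, hv⟩
    rw [D.Fil_iff] at hj ⊢
    intro S m hm
    have h1 := hj S m hm
    have h2 := D.qd_parity S D.So m 0
    omega
  set P : ℤ → Prop := fun x => (x - M) % 4 = 0 with hPdef
  have hP : ∀ x, P (x + 4) ↔ P x := by
    intro x
    simp only [hPdef]
    omega
  have hPn : ∀ x, ¬ P (x + 4) ↔ ¬ P x := fun x => not_congr (hP x)
  obtain ⟨η, hη, hη1, hη2⟩ : ∃ η : ℚ, η * η = 1 ∧
      (if (D.qd D.So 0 - M) % 4 = 0 then (1 : ℚ) else -1) = -η ∧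
      (if (D.qd D.So 0 - (M + 2)) % 4 = 0 then (1 : ℚ) else -1) = η := by
    by_cases h4 : (D.qd D.So 0 - M) % 4 = 0
    · refine ⟨-1, by norm_num, ?_, ?_⟩
      · rw [if_pos h4]; norm_num
      · rw [if_neg (by omega)]
    · refine ⟨1, by norm_num, ?_, ?_⟩
      · rw [if_neg h4]
      · rw [if_pos (by omega)]
  obtain ⟨F, hF, hj, hv1, hv2⟩ := hw 1 η
  have e1 : D.Lf D.ori' (D.ptF P F) = -η * D.Lf D.ori (D.ptF P F) := by
    have := D.Lf_mod4 (r := M) (F := D.ptF P F)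
      (fun S m hm => ((D.ptF_coeff P F S m).1 hm).1)
    rw [hη1] at this
    exact this
  have e2 : D.Lf D.ori' (D.ptF (fun x => ¬ P x) F) =
      η * D.Lf D.ori (D.ptF (fun x => ¬ P x) F) := by
    have := D.Lf_mod4 (r := M + 2) (F := D.ptF (fun x => ¬ P x) F)
      (fun S m hm => by
        have h3 := ((D.ptF_coeff (fun x => ¬ P x) F S m).1 hm).1
        have h4 := D.qd_parity S D.So m 0
        simp only [hPdef] at h3
        omega)
    rw [hη2] at this
    exact this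
  have e3 : ∀ ε, D.Lf ε F = D.Lf ε (D.ptF P F) + D.Lf ε (D.ptF (fun x => ¬ P x) F) := by
    intro ε
    rw [← D.LevC_aux_add, D.ptF_add_not]
  rw [e3] at hv1
  rw [e3, e1, e2] at hv2
  have hb : D.Lf D.ori (D.ptF (fun x => ¬ P x) F) = 1 := by
    have h7 : η * (-η * D.Lf D.ori (D.ptF P F) + η * D.Lf D.ori (D.ptF (fun x => ¬ P x) F)) =
        η * η := by rw [hv2]
    have h8 : η * (-η * D.Lf D.ori (D.ptF P F) + η * D.Lf D.ori (D.ptF (fun x => ¬ P x) F)) =
        (η * η) * (-D.Lf D.ori (D.ptF P F) + D.Lf D.ori (D.ptF (fun x => ¬ P x) F)) := by ring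
    rw [h8, hη] at h7
    linarith
  apply h'
  refine ⟨D.ptF (fun x => ¬ P x) F, D.ptF_Cy hPn hF, ?_, Or.inl (by rw [hb]; norm_num)⟩
  rw [D.Fil_iff] at hj ⊢
  intro S m hm
  obtain ⟨h3, h4⟩ := (D.ptF_coeff (fun x => ¬ P x) F S m).1 hm
  have h5 := hj S m h4
  have h6 := D.qd_parity S D.So m 0
  simp only [hPdef] at h3
  omega

end Dgm

end Pool.Agent.Lib.MP_21eb54_gt
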