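import Pool.Agent.Lib.MP_21eb54_gt.DefsB

/-!
# The invariant functions of a permutation
-/

set_option autoImplicit false

namespace Pool.Agent.Lib.MP_21eb54_gt

open Equiv

variable {α : Type*} [Finite α] {π : Perm α}

/-- the functions invariant under a permutation -/
def Iv (π : Perm α) : Submodule ℝ (α → ℝ) where
  carrier := {x | ∀ e, x (π e) = x e}
  add_mem' := by
    intro x y h1 h2 e
    simp [h1 e, h2 e]
  zero_mem' := fun _ => rfl
  smul_mem' := by
    intro a x h1 e
    simp [h1 e]

omit [Finite α] in
theorem PmC_zpow {x : α → ℝ} (hx : ∀ e, x (π e) = x e) (k : ℤ) (e : α) : x ((π ^ k) e) = x e := by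
  induction k using Int.induction_on generalizing e with
  | zero => rw [zpow_zero, Perm.one_apply]
  | succ i ih =>
    rw [zpow_add_one, Perm.mul_apply, ih, hx]
  | pred i ih =>
    rw [zpow_sub_one, Perm.mul_apply, ih, ← hx (π⁻¹ e)]
    exact congrArg x (π.apply_symm_apply e)

omit [Finite α] in
theorem PmC_sc {x : α → ℝ} (hx : ∀ e, x (π e) = x e) {a b : α} (h : π.SameCycle a b) : x a = x b := by
  obtain ⟨k, rfl⟩ := h
  exact (PmC_zpow hx k a).symm

/-- the invariant functions as functions on the set of cycles -/
noncomputable def PmC_equiv (π : Perm α) : Iv π ≃ₗ[ℝ] (Quotient (Perm.SameCycle.setoid π) → ℝ) where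
  toFun x := fun k => Quotient.lift x.1 (fun _ _ h => PmC_sc x.2 h) k
  invFun y := ⟨fun a => y (Quotient.mk _ a), fun e => congrArg y
    (Quotient.sound (s := Perm.SameCycle.setoid π) (Perm.sameCycle_apply_left.mpr (Perm.SameCycle.refl π e)))⟩
  left_inv x := rfl
  right_inv y := by
    funext k
    induction k using Quotient.inductionOn with
    | h a => rfl
  map_add' x y := by
    funext k
    induction k using Quotient.inductionOn with
    | h a => rfl
  map_smul' c x := by
    funext k
    induction k using Quotient.inductionOn with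
    | h a => rfl

/-- The invariant functions are the functions on the set of cycles. -/
theorem finrank_Iv : Module.finrank ℝ (Iv π) = cyc π := by
  have : Fintype (Quotient (Perm.SameCycle.setoid π)) := Fintype.ofFinite _
  rw [(PmC_equiv π).finrank_eq, Module.finrank_fintype_fun_eq_card, ← Nat.card_eq_fintype_card]
  rfl

end Pool.Agent.Lib.MP_21eb54_gt
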