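import Pool.Agent.Lib.MP_21eb54_gt.SpA
import Pool.Agent.Lib.MP_21eb54_gt.PmC

/-!
# The black graph: circles and components

`V = Nat.card D.Reg` is the number of black regions, the cycles of `sm D.out (fun _ => false)`.
-/

set_option autoImplicit false

namespace Pool.Agent.Lib.MP_21eb54_gt

open Equiv

variable {n : ℕ}

namespace Dgm

variable (D : Dgm n)

theorem card_Reg : Nat.card D.Reg = cyc (sm D.out fun _ => false) := rfl

/-- `D.Wd (fun _ => false)` is `Iv (sm D.out fun _ => false)`: `finrank_Iv`. -/
theorem kd_zero : D.kd (fun _ => false) = Nat.card D.Reg := by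
  have h1 : D.Wd (fun _ => false) = Iv (sm D.out fun _ => false) := by
    ext x
    constructor
    · intro h
      exact h.1
    · intro h
      refine ⟨h, fun c hc => ?_⟩
      exact absurd hc (by simp)
  rw [card_Reg, kd, h1, finrank_Iv]

/-- the smoothing with all black regions separated -/
theorem PlA_sm_false (c : Fin n) (s : Bool) :
    sm D.out (fun _ => false) (c, s) = D.out (c, !s) := by
  simp [sm, flp]

/-- A function in `D.Wd (fun _ => true)` is constant. -/
theorem PlA_const {x : Arc n → ℝ} (hx : x ∈ D.Wd (fun _ => true)) (e f : Arc n) : x e = x f := by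
  have h := D.knot e f
  induction h with
  | rel e f h =>
    obtain ⟨c, ⟨rfl, rfl⟩ | ⟨rfl, rfl⟩⟩ := h
    · exact hx.2 c rfl
    · have h1 := hx.1 (c, true)
      have h2 := hx.1 (c, false)
      rw [PlA_sm_false] at h1 h2
      simp only [Bool.not_true, Bool.not_false] at h1 h2
      rw [h1, h2]
      exact (hx.2 c rfl).symm
  | refl e => rfl
  | symm e f _ ih => exact ih.symm
  | trans e f g _ _ ih1 ih2 => exact ih1.trans ih2

theorem PlA_one_mem (H : St n) : (fun _ => (1 : ℝ)) ∈ D.Wd H := ⟨fun _ => rfl, fun _ _ => rfl⟩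

theorem PlA_one_ne (hn : 0 < n) : (fun _ : Arc n => (1 : ℝ)) ≠ 0 := by
  intro h
  have h1 := congrFun h (⟨0, hn⟩, false)
  simp at h1

/-- A function in `D.Wd (fun _ => true)` is constant along `Opp`, so constant by `D.knot`: the entries at
`c` by definition; `x (D.out (c, false)) = x (c, true)` and `x (D.out (c, true)) = x (c, false)` by the
invariance under `sm D.out (fun _ => false)`. There is an arc: `D.planar` excludes `n = 0`. -/
theorem kd_all : D.kd (fun _ => true) = 1 := by
  have h1 : D.Wd (fun _ => true) = Submodule.span ℝ {fun _ => (1 : ℝ)} := by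
    ext x
    rw [Submodule.mem_span_singleton]
    constructor
    · intro h
      refine ⟨x (⟨0, D.n_pos⟩, false), ?_⟩
      funext e
      rw [Pi.smul_apply, smul_eq_mul, mul_one]
      exact D.PlA_const h _ _
    · rintro ⟨a, rfl⟩
      exact Submodule.smul_mem _ a (D.PlA_one_mem _)
  rw [kd, h1]
  exact finrank_span_singleton (PlA_one_ne D.n_pos)

/-- `sm D.out H e = D.out (flp H e)`: if `H c` it is `sm D.out (fun _ => false)` of the other entry. -/
theorem Wd_sm {H : St n} {x : Arc n → ℝ} (hx : x ∈ D.Wd H) (e : Arc n) : x (sm D.out H e) = x e := by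
  obtain ⟨c, s⟩ := e
  by_cases h : H c = true
  · have h1 : sm D.out H (c, s) = sm D.out (fun _ => false) (c, !s) := by
      rw [PlA_sm_false]
      simp [sm, flp, h]
    rw [h1, hx.1]
    have h2 := hx.2 c h
    cases s
    · exact h2.symm
    · exact h2
  · have h1 : sm D.out H (c, s) = sm D.out (fun _ => false) (c, s) := by
      rw [PlA_sm_false]
      simp [sm, flp, h]
    rw [h1, hx.1]

theorem PlA_Wd_up {H : St n} {c : Fin n} (hc : H c = false) (x : Arc n → ℝ) :
    x ∈ D.Wd (Function.update H c true) ↔ x ∈ D.Wd H ∧ x (c, false) = x (c, true) := by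
  constructor
  · intro h
    refine ⟨⟨h.1, fun d hd => h.2 d ?_⟩, h.2 c (by simp)⟩
    by_cases hdc : d = c
    · subst hdc; simp
    · rw [Function.update_of_ne hdc]; exact hd
  · rintro ⟨h1, h2⟩
    refine ⟨h1.1, fun d hd => ?_⟩
    by_cases hdc : d = c
    · subst hdc; exact h2
    · rw [Function.update_of_ne hdc] at hd
      exact h1.2 d hd

/-- `D.Wd (H + c)` is the kernel of the functional `x ↦ x (c, false) - x (c, true)` on `D.Wd H`. -/
theorem kd_up {H : St n} {c : Fin n} (hc : H c = false) :
    ((∀ x ∈ D.Wd H, x (c, false) = x (c, true)) ∧ D.kd (Function.update H c true) = D.kd H) ∨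
    ((∃ x ∈ D.Wd H, x (c, false) ≠ x (c, true)) ∧ D.kd (Function.update H c true) + 1 = D.kd H) := by
  by_cases h : ∀ x ∈ D.Wd H, x (c, false) = x (c, true)
  · left
    refine ⟨h, ?_⟩
    have h1 : D.Wd (Function.update H c true) = D.Wd H := by
      ext x
      rw [D.PlA_Wd_up hc]
      exact ⟨fun h2 => h2.1, fun h2 => ⟨h2, h x h2⟩⟩
    rw [kd, kd, h1]
  · right
    push Not at h
    refine ⟨h, ?_⟩
    obtain ⟨x, hx, hxc⟩ := h
    let φ : (Arc n → ℝ) →ₗ[ℝ] ℝ :=
      (LinearMap.proj (R := ℝ) (φ := fun _ : Arc n => ℝ) ((c, false) : Arc n)) -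
        (LinearMap.proj (R := ℝ) (φ := fun _ : Arc n => ℝ) ((c, true) : Arc n))
    let ψ : D.Wd H →ₗ[ℝ] ℝ := φ.domRestrict (D.Wd H)
    have h1 : (LinearMap.ker ψ).map (D.Wd H).subtype = D.Wd (Function.update H c true) := by
      ext y
      rw [D.PlA_Wd_up hc, Submodule.mem_map]
      constructor
      · rintro ⟨⟨z, hz⟩, hz1, rfl⟩
        refine ⟨hz, ?_⟩
        have h2 : z (c, false) - z (c, true) = 0 := hz1
        exact sub_eq_zero.1 h2
      · rintro ⟨hy, hyc⟩
        refine ⟨⟨y, hy⟩, ?_, rfl⟩
        rw [LinearMap.mem_ker]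
        exact sub_eq_zero.2 hyc
    have h2 : Module.finrank ℝ (D.Wd (Function.update H c true)) =
        Module.finrank ℝ (LinearMap.ker ψ) := by
      rw [← h1]
      exact Submodule.finrank_map_subtype_eq _ _
    have h3 : LinearMap.range ψ = ⊤ := by
      rw [LinearMap.range_eq_top]
      intro a
      have h4 : x (c, false) - x (c, true) ≠ 0 := sub_ne_zero.2 hxc
      refine ⟨(a / (x (c, false) - x (c, true))) • ⟨x, hx⟩, ?_⟩
      rw [map_smul]
      have h5 : ψ ⟨x, hx⟩ = x (c, false) - x (c, true) := rfl
      rw [h5, smul_eq_mul, div_mul_cancel₀ _ h4]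
    have h4 := LinearMap.finrank_range_add_finrank_ker ψ
    rw [h3, finrank_top, Module.finrank_self] at h4
    rw [kd, kd, h2]
    omega

/-- the defect of the planarity formula -/
noncomputable def PlA_f (H : St n) : ℤ :=
  2 * D.kd H + nb H - Nat.card D.Reg - cyc (sm D.out H)

theorem PlA_step {H : St n} {c : Fin n} (hc : H c = false) :
    D.PlA_f H ≤ D.PlA_f (Function.update H c true) := by
  have h1 : sm D.out (Function.update H c true) = sm D.out H * swap (c, false) (c, true) := by
    have h2 := sm_update D.out H c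
    rwa [hc, Bool.not_false] at h2
  have h2 := nb_up hc
  have hne : ((c, false) : Arc n) ≠ (c, true) := by simp
  unfold PlA_f
  rw [h1, h2]
  rcases D.kd_up hc with ⟨_, h3⟩ | ⟨⟨x, hx, hxc⟩, h3⟩
  · rw [h3]
    by_cases h4 : (sm D.out H).SameCycle (c, false) (c, true)
    · rw [cyc_split hne h4]
      push_cast
      linarith
    · have h5 := cyc_merge h4
      push_cast
      omega
  · have h4 : ¬ (sm D.out H).SameCycle (c, false) (c, true) := fun h5 =>
      hxc (inv_sc (D.Wd_sm hx) h5)
    have h5 := cyc_merge h4
    push_cast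
    omega

theorem PlA_f_false : D.PlA_f (fun _ => false) = 0 := by
  unfold PlA_f
  have h1 : nb (fun _ : Fin n => false) = 0 := by simp [nb]
  rw [D.kd_zero, h1, card_Reg]
  push_cast
  ring

theorem PlA_f_true : D.PlA_f (fun _ => true) = 0 := by
  unfold PlA_f
  have h1 : nb (fun _ : Fin n => true) = n := by simp [nb]
  have h2 := D.planar
  rw [D.kd_all, h1, card_Reg]
  push_cast
  omega

theorem PlA_ind (P : St n → Prop) (h0 : P fun _ => false)
    (h1 : ∀ (H : St n) (c : Fin n), H c = false → P H → P (Function.update H c true)) (H : St n) :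
    P H := by
  obtain ⟨k, hk⟩ : ∃ k, nb H = k := ⟨_, rfl⟩
  induction k generalizing H with
  | zero =>
    have h2 : H = fun _ => false := by
      funext c
      by_contra h3
      have h4 : c ∈ Finset.univ.filter fun c => H c = true := by
        rw [Finset.mem_filter]
        exact ⟨Finset.mem_univ _, by simpa using h3⟩
      rw [Finset.card_eq_zero.1 hk] at h4
      exact absurd h4 (Finset.notMem_empty _)
    rw [h2]
    exact h0
  | succ k ih =>
    obtain ⟨c, hc⟩ : ∃ c, H c = true := by
      by_contra h3
      push Not at h3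
      have h4 : nb H = 0 := by
        unfold nb
        rw [Finset.card_eq_zero, Finset.filter_eq_empty_iff]
        intro c _
        exact h3 c
      omega
    have h2 := nb_dn hc
    have h3 := h1 (Function.update H c false) c (by simp) (ih _ (by omega))
    rw [Function.update_idem] at h3
    rw [← hc, Function.update_eq_self] at h3
    exact h3

theorem PlA_ind' (P : St n → Prop) (h0 : P fun _ => true)
    (h1 : ∀ (H : St n) (c : Fin n), H c = false → P (Function.update H c true) → P H) (H : St n) :
    P H := by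
  obtain ⟨k, hk⟩ : ∃ k, (Finset.univ.filter fun c => H c = false).card = k := ⟨_, rfl⟩
  induction k generalizing H with
  | zero =>
    have h2 : H = fun _ => true := by
      funext c
      by_contra h3
      have h4 : c ∈ Finset.univ.filter fun c => H c = false := by
        rw [Finset.mem_filter]
        exact ⟨Finset.mem_univ _, by simpa using h3⟩
      rw [Finset.card_eq_zero.1 hk] at h4
      exact absurd h4 (Finset.notMem_empty _)
    rw [h2]
    exact h0
  | succ k ih =>
    obtain ⟨c, hc⟩ : ∃ c, H c = false := by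
      by_contra h3
      push Not at h3
      have h4 : (Finset.univ.filter fun c => H c = false).card = 0 := by
        rw [Finset.card_eq_zero, Finset.filter_eq_empty_iff]
        intro c _
        exact h3 c
      omega
    apply h1 H c hc
    apply ih
    have h2 : (Finset.univ.filter fun d => Function.update H c true d = false) =
        (Finset.univ.filter fun d => H d = false).erase c := by
      ext d
      simp only [Finset.mem_filter, Finset.mem_univ, true_and, Finset.mem_erase]
      by_cases hdc : d = c
      · subst hdc; simp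
      · rw [Function.update_of_ne hdc]
        simp [hdc]
    rw [h2, Finset.card_erase_of_mem, hk]
    · rfl
    · simp [hc]

/-- Let `f H = 2 * kd H + nb H - V - cyc (sm D.out H)`. When `c` is added to `H`: in the second case of
`kd_up` the entries at `c` are in different cycles of `sm D.out H` (`Wd_sm`, `inv_sc`), so `cyc` decreases by
one (`sm_update`, `cyc_merge`) and `f` is the same. In the first case `f` increases by `0` or `2`. As
`f = 0` for `H` everywhere false (`kd_zero`) and everywhere true (`kd_all`, `D.planar`), `f = 0`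
everywhere (induction over the crossings for `f H ≥ f (all false)` and `f H ≤ f (all true)`). -/
theorem plan (H : St n) : cyc (sm D.out H) + Nat.card D.Reg = 2 * D.kd H + nb H := by
  have h1 : 0 ≤ D.PlA_f H := PlA_ind (fun H => 0 ≤ D.PlA_f H) (by rw [D.PlA_f_false])
    (fun H c hc h => h.trans (D.PlA_step hc)) H
  have h2 : D.PlA_f H ≤ 0 := PlA_ind' (fun H => D.PlA_f H ≤ 0) (by rw [D.PlA_f_true])
    (fun H c hc h => (D.PlA_step hc).trans h) H
  unfold PlA_f at h1 h2
  omega

theorem kd_pos (H : St n) : 0 < D.kd H := by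
  rw [kd]
  have h1 : 1 ≤ Module.finrank ℝ (D.Wd H) := by
    rw [Submodule.one_le_finrank_iff]
    intro h2
    have h3 := D.PlA_one_mem H
    rw [h2, Submodule.mem_bot] at h3
    exact PlA_one_ne D.n_pos h3
  omega

/-- `kd H + nb H ≥ V` by `kd_up` -/
theorem le_kd (H : St n) : Nat.card D.Reg ≤ D.kd H + nb H := by
  refine PlA_ind (fun H => Nat.card D.Reg ≤ D.kd H + nb H) ?_ ?_ H
  · rw [D.kd_zero]
    exact Nat.le_add_right _ _
  · intro H c hc h
    rw [nb_up hc]
    rcases D.kd_up hc with ⟨_, h3⟩ | ⟨_, h3⟩ <;> omega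

theorem tree_iff (H : St n) : cyc (sm D.out H) = 1 ↔ nb H + 1 = Nat.card D.Reg ∧ D.kd H = 1 := by
  have h1 := D.plan H
  have h2 := D.le_kd H
  have h3 := D.kd_pos H
  omega

end Dgm

end Pool.Agent.Lib.MP_21eb54_gt
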