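import Pool.Agent.Lib.MP_21eb54_gt.DefsB

/-!
# Multiplication of a permutation by a transposition: the cycles
-/

set_option autoImplicit false

namespace Pool.Agent.Lib.MP_21eb54_gt

open Equiv

theorem PmA_zpow {β : Type*} {σ : Perm β} {Z : Set β} (hZ : ∀ e, (σ e ∈ Z ↔ e ∈ Z)) (i : ℤ) :
    ∀ x, ((σ ^ i) x ∈ Z ↔ x ∈ Z) := by
  induction i using Int.induction_on with
  | zero => intro x; rw [zpow_zero, Perm.one_apply]
  | succ i ih =>
    intro x
    rw [zpow_add_one, Perm.mul_apply, ih, hZ]
  | pred i ih =>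
    intro x
    have h1 := ih x
    have h2 : (σ ^ (-(i : ℤ))) x = σ ((σ ^ (-(i : ℤ) - 1)) x) := by
      rw [← Perm.mul_apply, ← zpow_one_add]
      congr 2
      ring
    rw [h2, hZ] at h1
    exact h1

theorem PmA_closed {β : Type*} {σ : Perm β} {Z : Set β} (hZ : ∀ e, (σ e ∈ Z ↔ e ∈ Z)) {x y : β}
    (h : σ.SameCycle x y) : x ∈ Z ↔ y ∈ Z := by
  obtain ⟨i, rfl⟩ := h
  exact (PmA_zpow hZ i x).symm

variable {α : Type*} [DecidableEq α] [Finite α] {π : Perm α} {p q : α}

theorem PmA_p : (π * swap p q) p = π q := by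
  rw [Perm.mul_apply, swap_apply_left]

theorem PmA_q : (π * swap p q) q = π p := by
  rw [Perm.mul_apply, swap_apply_right]

theorem PmA_ne {x : α} (h1 : x ≠ p) (h2 : x ≠ q) : (π * swap p q) x = π x := by
  rw [Perm.mul_apply, swap_apply_of_ne_of_ne h1 h2]

/-- Let `q, π q, ..., π^m q = q` be the cycle of `q` (`m ≥ 1` minimal); it does not contain `p`. The
new permutation `π' = π * swap p q` has `π' p = π q`, and `π' (π^j q) = π^(j+1) q` for `1 ≤ j < m`, so
`π'^m p = q`. (If a set contains `p` and is closed under `π'` and its inverse, it contains `q`.) -/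
theorem sc_merge (h : ¬ π.SameCycle p q) : (π * swap p q).SameCycle p q := by
  by_contra hc
  have key : ∀ j : ℕ, (π * swap p q).SameCycle p ((π ^ (j + 1)) q) := by
    intro j
    induction j with
    | zero =>
      rw [zero_add, pow_one, ← PmA_p (p := p)]
      exact Perm.sameCycle_apply_right.2 (Perm.SameCycle.refl _ _)
    | succ j ih =>
      have h1 : (π ^ (j + 1)) q ≠ p := by
        intro h2
        exact h (Perm.SameCycle.symm ⟨((j + 1 : ℕ) : ℤ), by rw [zpow_natCast]; exact h2⟩)
      have h2 : (π ^ (j + 1)) q ≠ q := by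
        intro h3
        rw [h3] at ih
        exact hc ih
      rw [pow_succ' π (j + 1), Perm.mul_apply, ← PmA_ne h1 h2]
      exact Perm.sameCycle_apply_right.2 ih
  have h1 : 0 < orderOf π := orderOf_pos π
  have h2 := key (orderOf π - 1)
  rw [Nat.sub_add_cancel h1, pow_orderOf_eq_one, Perm.one_apply] at h2
  exact hc h2

/-- Let `m ≥ 1` be minimal with `π^m q = p`. Then `π^j q ∉ {p, q}` for `1 ≤ j < m`. The set
`{π^j q : 1 ≤ j ≤ m}` contains `p`, does not contain `q`, and is mapped to itself by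
`π' = π * swap p q` (`π' p = π q`); the set is finite, so it is closed under `SameCycle`. -/
theorem sc_split (hpq : p ≠ q) (h : π.SameCycle p q) : ¬ (π * swap p q).SameCycle p q := by
  classical
  obtain ⟨i, hi0, -, hi⟩ := h.symm.exists_pow_eq''
  have hex : ∃ m : ℕ, 0 < m ∧ (π ^ m) q = p := ⟨i, hi0, hi⟩
  obtain ⟨m, ⟨hm0, hm⟩, hmin⟩ : ∃ m : ℕ, (0 < m ∧ (π ^ m) q = p) ∧ ∀ j < m, ¬ (0 < j ∧ (π ^ j) q = p) :=
    ⟨Nat.find hex, Nat.find_spec hex, fun j hj => Nat.find_min hex hj⟩
  have hq : ∀ j, 0 < j → j < m → (π ^ j) q ≠ q := by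
    intro j hj0 hjm h1
    apply hmin (m - j) (by omega)
    refine ⟨by omega, ?_⟩
    have h2 : (π ^ (m - j)) ((π ^ j) q) = p := by
      rw [← Perm.mul_apply, ← pow_add, Nat.sub_add_cancel hjm.le]
      exact hm
    rw [h1] at h2
    exact h2
  -- powers of the new permutation
  have key : ∀ j : ℕ, ∃ l, 0 < l ∧ l ≤ m ∧ ((π * swap p q) ^ j) p = (π ^ l) q := by
    intro j
    induction j with
    | zero => exact ⟨m, hm0, le_refl m, by rw [pow_zero, Perm.one_apply, hm]⟩
    | succ j ih =>
      obtain ⟨l, hl0, hlm, hl⟩ := ih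
      rcases Nat.lt_or_ge l m with h1 | h1
      · refine ⟨l + 1, by omega, by omega, ?_⟩
        have h2 : (π ^ l) q ≠ p := fun h3 => hmin l h1 ⟨hl0, h3⟩
        rw [pow_succ', Perm.mul_apply, hl, PmA_ne h2 (hq l hl0 h1), pow_succ' π l, Perm.mul_apply]
      · refine ⟨1, by omega, by omega, ?_⟩
        have h2 : l = m := le_antisymm hlm h1
        rw [pow_succ', Perm.mul_apply, hl, h2, hm, PmA_p, pow_one]
  intro hc
  obtain ⟨j, -, -, hj⟩ := hc.exists_pow_eq''
  obtain ⟨l, hl0, hlm, hl⟩ := key j
  rw [hj] at hl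
  rcases Nat.lt_or_ge l m with h1 | h1
  · exact hq l hl0 h1 hl.symm
  · have h2 : l = m := le_antisymm hlm h1
    rw [h2, hm] at hl
    exact hpq hl.symm

/-- a set closed under `π` is a union of cycles -/
theorem closed_sc {Z : Set α} (hZ : ∀ e, (π e ∈ Z ↔ e ∈ Z)) {x y : α} (h : π.SameCycle x y) :
    x ∈ Z ↔ y ∈ Z :=
  PmA_closed hZ h

/-- `→`: the right side is an equivalence relation `R x y`, and `R x (π' x)` for all `x`: if
`x ≠ p, q` then `π' x = π x`; `π' p = π q` and `π' q = π p`.
`←`: `x` and `π x` are in the same cycle of `π'` for all `x` (`π p = π' q` and `p, q` are in the same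
cycle of `π'` by `sc_merge`). -/
theorem sc_iff (h : ¬ π.SameCycle p q) (x y : α) : (π * swap p q).SameCycle x y ↔
    π.SameCycle x y ∨ ((π.SameCycle x p ∨ π.SameCycle x q) ∧ (π.SameCycle y p ∨ π.SameCycle y q)) := by
  have hm := sc_merge h
  have hpp : π.SameCycle p p := Perm.SameCycle.refl _ _
  have hqq : π.SameCycle q q := Perm.SameCycle.refl _ _
  have hp1 : π.SameCycle (π p) p := Perm.sameCycle_apply_left.2 hpp
  have hq1 : π.SameCycle (π q) q := Perm.sameCycle_apply_left.2 hqq
  constructor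
  · intro hxy
    have h1 := closed_sc (π := π * swap p q) (Z := {y | π.SameCycle x y ∨ ((π.SameCycle x p ∨ π.SameCycle x q) ∧
        (π.SameCycle y p ∨ π.SameCycle y q))}) ?_ hxy
    · exact h1.1 (Or.inl (Perm.SameCycle.refl _ _))
    · intro e
      simp only [Set.mem_setOf_eq]
      by_cases he : e = p
      · subst he
        rw [PmA_p, Perm.sameCycle_apply_right]
        constructor
        · rintro (h2 | ⟨h2, -⟩)
          · exact Or.inr ⟨Or.inr h2, Or.inl hpp⟩
          · exact Or.inr ⟨h2, Or.inl hpp⟩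
        · rintro (h2 | ⟨h2, -⟩)
          · exact Or.inr ⟨Or.inl h2, Or.inr hq1⟩
          · exact Or.inr ⟨h2, Or.inr hq1⟩
      · by_cases he2 : e = q
        · subst he2
          rw [PmA_q, Perm.sameCycle_apply_right]
          constructor
          · rintro (h2 | ⟨h2, -⟩)
            · exact Or.inr ⟨Or.inl h2, Or.inr hqq⟩
            · exact Or.inr ⟨h2, Or.inr hqq⟩
          · rintro (h2 | ⟨h2, -⟩)
            · exact Or.inr ⟨Or.inr h2, Or.inl hp1⟩
            · exact Or.inr ⟨h2, Or.inl hp1⟩
        · rw [PmA_ne he he2, Perm.sameCycle_apply_right, Perm.sameCycle_apply_left, Perm.sameCycle_apply_left]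
  · have hstep : ∀ e, (π * swap p q).SameCycle e (π e) := by
      intro e
      by_cases he : e = p
      · subst he
        rw [← PmA_q (p := e) (q := q)]
        exact Perm.sameCycle_apply_right.2 hm
      · by_cases he2 : e = q
        · subst he2
          rw [← PmA_p (p := p) (q := e)]
          exact Perm.sameCycle_apply_right.2 hm.symm
        · have h1 : π e = (π * swap p q) e := (PmA_ne he he2).symm
          rw [h1]
          exact Perm.sameCycle_apply_right.2 (Perm.SameCycle.refl _ _)
    have hall : ∀ a b, π.SameCycle a b → (π * swap p q).SameCycle a b := by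
      intro a b hab
      have h1 := closed_sc (π := π) (Z := {y | (π * swap p q).SameCycle a y}) ?_ hab
      · exact h1.1 (Perm.SameCycle.refl _ _)
      · intro e
        simp only [Set.mem_setOf_eq]
        exact ⟨fun h2 => h2.trans (hstep e).symm, fun h2 => h2.trans (hstep e)⟩
    have hP : ∀ a, π.SameCycle a p ∨ π.SameCycle a q → (π * swap p q).SameCycle a p := by
      rintro a (h1 | h1)
      · exact hall _ _ h1
      · exact (hall _ _ h1).trans hm.symm
    rintro (h1 | ⟨h1, h2⟩)
    · exact hall _ _ h1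
    · exact (hP x h1).trans (hP y h2).symm

/-- a function invariant under `π` is constant on the cycles -/
theorem inv_sc {β : Type*} {x : α → β} (hx : ∀ e, x (π e) = x e) {a b : α} (h : π.SameCycle a b) :
    x a = x b := by
  have h1 := closed_sc (π := π) (Z := {e | x e = x a}) ?_ h
  · exact (h1.1 rfl).symm
  · intro e
    simp only [Set.mem_setOf_eq, hx e]

theorem mul_swap_swap : (π * swap p q) * swap p q = π := by
  rw [mul_assoc, swap_mul_self, mul_one]

end Pool.Agent.Lib.MP_21eb54_gt
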