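import Pool.Agent.Lib.MP_21eb54_gt.PmA

/-!
# Multiplication of a permutation by a transposition: the number of cycles
-/

set_option autoImplicit false

namespace Pool.Agent.Lib.MP_21eb54_gt

open Equiv

variable {α : Type*} [DecidableEq α] [Finite α] {π : Perm α} {p q : α}

/-- `{k // ∃ e ∈ univ, ...}` is everything. -/
theorem cyZ_univ : cyZ Set.univ π = cyc π := by
  unfold cyZ cyc
  refine Nat.card_congr (Equiv.subtypeUnivEquiv fun k => ?_)
  induction k using Quotient.inductionOn with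
  | h a => exact ⟨a, Set.mem_univ a, rfl⟩

omit [DecidableEq α] [Finite α] in
theorem PmB_ncard (Z : Set α) :
    cyZ Z π = ((fun e => (Quotient.mk (Equiv.Perm.SameCycle.setoid π) e)) '' Z).ncard := by
  unfold cyZ
  rw [← Nat.card_coe_set_eq]
  exact Nat.card_congr (Equiv.refl _)

omit [DecidableEq α] [Finite α] in
theorem PmB_mk {x y : α} : (Quotient.mk (Equiv.Perm.SameCycle.setoid π) x =
    Quotient.mk (Equiv.Perm.SameCycle.setoid π) y) ↔ π.SameCycle x y :=
  ⟨fun h => Quotient.exact h, fun h => Quotient.sound h⟩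

/-- By `sc_iff`, the cycles of `π * swap p q` which meet `Z` are those of `π`, with the cycles of `p`
and of `q` identified: the map `k ↦ class of k` from the cycles of `π` meeting `Z` and different from
that of `q`, to the cycles of `π * swap p q` meeting `Z`, is a bijection. -/
theorem cyZ_merge {Z : Set α} (hZ : ∀ e, (π e ∈ Z ↔ e ∈ Z)) (hp : p ∈ Z) (hq : q ∈ Z)
    (h : ¬ π.SameCycle p q) : cyZ Z (π * swap p q) + 1 = cyZ Z π := by
  have hmem : Quotient.mk (Equiv.Perm.SameCycle.setoid π) q ∈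
      (fun e => (Quotient.mk (Equiv.Perm.SameCycle.setoid π) e)) '' Z := ⟨q, hq, rfl⟩
  rw [PmB_ncard, PmB_ncard, ← Set.ncard_sdiff_singleton_add_one hmem (Set.toFinite _)]
  refine congrArg (fun t => t + 1) (Eq.symm ?_)
  refine Set.ncard_congr (fun k _ => Quotient.map' (s₁ := Equiv.Perm.SameCycle.setoid π)
    (s₂ := Equiv.Perm.SameCycle.setoid (π * swap p q)) id
    (fun x y hxy => (sc_iff h x y).2 (Or.inl hxy)) k) ?_ ?_ ?_
  · rintro k ⟨⟨x, hx, rfl⟩, _⟩
    exact ⟨x, hx, rfl⟩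
  · rintro k l ⟨⟨x, hx, rfl⟩, hk⟩ ⟨⟨y, hy, rfl⟩, hl⟩ hkl
    have h1 : (π * swap p q).SameCycle x y := Quotient.exact hkl
    have h2 : ¬ π.SameCycle x q := fun h3 => hk (PmB_mk.2 h3)
    have h3 : ¬ π.SameCycle y q := fun h4 => hl (PmB_mk.2 h4)
    refine PmB_mk.2 ?_
    rcases (sc_iff h x y).1 h1 with h4 | ⟨h4, h5⟩
    · exact h4
    · exact (h4.resolve_right h2).trans (h5.resolve_right h3).symm
  · rintro k ⟨y, hy, rfl⟩
    by_cases h1 : π.SameCycle y q
    · refine ⟨Quotient.mk (Equiv.Perm.SameCycle.setoid π) p, ⟨⟨p, hp, rfl⟩, fun h2 =>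
        h (PmB_mk.1 h2)⟩, ?_⟩
      exact Quotient.sound ((sc_iff h p y).2 (Or.inr ⟨Or.inl (Equiv.Perm.SameCycle.refl π p),
        Or.inr h1⟩))
    · exact ⟨Quotient.mk (Equiv.Perm.SameCycle.setoid π) y, ⟨⟨y, hy, rfl⟩, fun h2 =>
        h1 (PmB_mk.1 h2)⟩, rfl⟩

/-- `cyZ_merge` for `π * swap p q` (`sc_split`, `mul_swap_swap`). -/
theorem cyZ_split {Z : Set α} (hZ : ∀ e, (π e ∈ Z ↔ e ∈ Z)) (hp : p ∈ Z) (hq : q ∈ Z) (hpq : p ≠ q)
    (h : π.SameCycle p q) : cyZ Z (π * swap p q) = cyZ Z π + 1 := by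
  have hZ' : ∀ e, ((π * swap p q) e ∈ Z ↔ e ∈ Z) := by
    intro e
    rw [Equiv.Perm.mul_apply]
    by_cases h1 : e = p
    · rw [h1, swap_apply_left, hZ]
      exact ⟨fun _ => hp, fun _ => hq⟩
    · by_cases h2 : e = q
      · rw [h2, swap_apply_right, hZ]
        exact ⟨fun _ => hq, fun _ => hp⟩
      · rw [swap_apply_of_ne_of_ne h1 h2, hZ]
  have h1 := cyZ_merge hZ' hp hq (sc_split hpq h)
  rw [mul_swap_swap] at h1
  exact h1.symm

theorem PmB_out {Z : Set α} (hZ : ∀ e, (π e ∈ Z ↔ e ∈ Z)) (hp : p ∉ Z) (hq : q ∉ Z) {x y : α}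
    (hx : x ∈ Z) (h : π.SameCycle x y) : (π * swap p q).SameCycle x y := by
  have h1 := inv_sc (π := π) (x := fun e => (e ∈ Z → (π * swap p q).SameCycle x e)) (fun e => by
    apply propext
    by_cases he : e ∈ Z
    · have h2 : (π * swap p q) e = π e := by
        rw [Equiv.Perm.mul_apply, swap_apply_of_ne_of_ne (fun h3 : e = p => hp (h3 ▸ he))
          (fun h3 : e = q => hq (h3 ▸ he))]
      have h3 : π e ∈ Z := (hZ e).2 he
      rw [← h2]
      rw [← h2] at h3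
      constructor
      · intro h4 _
        exact (Equiv.Perm.sameCycle_apply_right).1 (h4 h3)
      · intro h4 _
        exact (Equiv.Perm.sameCycle_apply_right).2 (h4 he)
    · have h3 : π e ∉ Z := fun h4 => he ((hZ e).1 h4)
      exact ⟨fun _ h4 => absurd h4 he, fun _ h4 => absurd h4 h3⟩) h
  have h2 : y ∈ Z := (closed_sc hZ h).1 hx
  exact (cast h1 fun _ => Equiv.Perm.SameCycle.refl _ x) h2

/-- On `Z` the two permutations agree. -/
theorem cyZ_out {Z : Set α} (hZ : ∀ e, (π e ∈ Z ↔ e ∈ Z)) (hp : p ∉ Z) (hq : q ∉ Z) :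
    cyZ Z (π * swap p q) = cyZ Z π := by
  have hZ' : ∀ e, ((π * swap p q) e ∈ Z ↔ e ∈ Z) := by
    intro e
    rw [Equiv.Perm.mul_apply]
    by_cases h1 : e = p
    · rw [h1, swap_apply_left, hZ]
      exact ⟨fun h2 => absurd h2 hq, fun h2 => absurd h2 hp⟩
    · by_cases h2 : e = q
      · rw [h2, swap_apply_right, hZ]
        exact ⟨fun h3 => absurd h3 hp, fun h3 => absurd h3 hq⟩
      · rw [swap_apply_of_ne_of_ne h1 h2, hZ]
  have hiff : ∀ x ∈ Z, ∀ y, (π * swap p q).SameCycle x y ↔ π.SameCycle x y := by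
    intro x hx y
    constructor
    · intro h1
      have h2 := PmB_out hZ' hp hq hx h1
      rwa [mul_swap_swap] at h2
    · exact PmB_out hZ hp hq hx
  rw [PmB_ncard, PmB_ncard]
  refine Set.ncard_congr (fun k hk => Quotient.mk (Equiv.Perm.SameCycle.setoid π) hk.choose) ?_ ?_ ?_
  · intro k hk
    exact ⟨hk.choose, hk.choose_spec.1, rfl⟩
  · intro k l hk hl hkl
    have h1 := PmB_mk.1 hkl
    rw [← hiff _ hk.choose_spec.1] at h1
    rw [← hk.choose_spec.2, ← hl.choose_spec.2]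
    exact PmB_mk.2 h1
  · rintro k ⟨y, hy, rfl⟩
    refine ⟨Quotient.mk (Equiv.Perm.SameCycle.setoid (π * swap p q)) y, ⟨y, hy, rfl⟩, ?_⟩
    have hk : ∃ e, e ∈ Z ∧ Quotient.mk (Equiv.Perm.SameCycle.setoid (π * swap p q)) e =
      Quotient.mk (Equiv.Perm.SameCycle.setoid (π * swap p q)) y := ⟨y, hy, rfl⟩
    have h1 := PmB_mk.1 hk.choose_spec.2
    rw [hiff _ hk.choose_spec.1] at h1
    exact PmB_mk.2 h1

theorem cyc_merge (h : ¬ π.SameCycle p q) : cyc (π * swap p q) + 1 = cyc π := by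
  rw [← cyZ_univ, ← cyZ_univ]
  exact cyZ_merge (fun e => ⟨fun _ => Set.mem_univ _, fun _ => Set.mem_univ _⟩) (Set.mem_univ _)
    (Set.mem_univ _) h

theorem cyc_split (hpq : p ≠ q) (h : π.SameCycle p q) : cyc (π * swap p q) = cyc π + 1 := by
  rw [← cyZ_univ, ← cyZ_univ]
  exact cyZ_split (fun e => ⟨fun _ => Set.mem_univ _, fun _ => Set.mem_univ _⟩) (Set.mem_univ _)
    (Set.mem_univ _) hpq h

theorem cyc_pos [Nonempty α] : 0 < cyc π := by
  unfold cyc
  have : Nonempty (Quotient (Equiv.Perm.SameCycle.setoid π)) :=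
    ⟨Quotient.mk _ (Classical.arbitrary α)⟩
  exact Nat.card_pos

end Pool.Agent.Lib.MP_21eb54_gt
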