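import Pool.Agent.Lib.MP_21eb54_gt.SgA

/-!
# The Goeritz form, 2
-/

set_option autoImplicit false

namespace Pool.Agent.Lib.MP_21eb54_gt

open Equiv Matrix

variable {n : ℕ}

namespace Dgm

variable (D : Dgm n)

/-- the functions on the black regions as functions on the arcs -/
noncomputable def SgB_pull : (D.Reg → ℝ) →ₗ[ℝ] (Arc n → ℝ) where
  toFun x := fun e => x (Quotient.mk _ e)
  map_add' _ _ := rfl
  map_smul' _ _ := rfl

theorem SgB_pull_apply (x : D.Reg → ℝ) (e : Arc n) : D.SgB_pull x e = x (Quotient.mk _ e) := rfl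

theorem SgB_pull_injective : Function.Injective D.SgB_pull := by
  intro x y h
  funext u
  induction u using Quotient.inductionOn with
  | h e => exact congrFun h e

theorem SgB_le_range (H : St n) : D.Wd H ≤ LinearMap.range D.SgB_pull := by
  intro x hx
  refine ⟨Quotient.lift x fun a b hab => inv_sc hx.1 hab, ?_⟩
  funext e
  rfl

theorem SgB_finrank_comap (H : St n) :
    Module.finrank ℝ ((D.Wd H).comap D.SgB_pull) = D.kd H := by
  have h1 : ((D.Wd H).comap D.SgB_pull).map D.SgB_pull = D.Wd H := by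
    rw [Submodule.map_comap_eq]
    exact inf_eq_right.2 (D.SgB_le_range H)
  have h2 := (Submodule.equivMapOfInjective D.SgB_pull D.SgB_pull_injective
    ((D.Wd H).comap D.SgB_pull)).finrank_eq
  rw [h2, h1]
  rfl

/-- evaluation at a region -/
noncomputable def SgB_ev (r : D.Reg) : (D.Reg → ℝ) →ₗ[ℝ] ℝ := LinearMap.proj r

theorem SgB_inf_ker (W : Submodule ℝ (D.Reg → ℝ)) (r : D.Reg) :
    Module.finrank ℝ W ≤ Module.finrank ℝ (W ⊓ LinearMap.ker (D.SgB_ev r) : Submodule ℝ (D.Reg → ℝ)) + 1 := by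
  have h1 := Submodule.finrank_sup_add_finrank_inf_eq W (LinearMap.ker (D.SgB_ev r))
  have h2 := LinearMap.finrank_range_add_finrank_ker (D.SgB_ev r)
  have h3 : Module.finrank ℝ (LinearMap.range (D.SgB_ev r)) ≤ 1 := by
    have h := Submodule.finrank_le (LinearMap.range (D.SgB_ev r))
    rwa [Module.finrank_self] at h
  have h4 := Submodule.finrank_le (W ⊔ LinearMap.ker (D.SgB_ev r))
  omega

theorem SgB_region : ∃ r : D.Reg, True := by
  by_contra h
  have h1 : IsEmpty (Arc n) := ⟨fun e => h ⟨Quotient.mk _ e, trivial⟩⟩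
  have h2 := D.kd_all
  unfold kd at h2
  have h3 := Submodule.finrank_le (D.Wd fun _ => true)
  rw [h2] at h3
  simp at h3

/-- `x` is zero if it is zero at `r` and takes equal values at the two regions of every crossing -/
theorem SgB_zero {x : D.Reg → ℝ} {r : D.Reg} (hr : x r = 0)
    (h : ∀ c, x (Quotient.mk _ (c, false)) = x (Quotient.mk _ (c, true))) : x = 0 := by
  have h1 : D.SgB_pull x ∈ D.Wd fun _ => true := by
    refine ⟨fun e => ?_, fun c _ => h c⟩
    rw [SgB_pull_apply, SgB_pull_apply]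
    congr 1
    apply Quotient.sound
    exact (Perm.SameCycle.refl _ e).apply_left
  have h2 : (fun _ => 1 : Arc n → ℝ) ∈ D.Wd fun _ => true := ⟨fun _ => rfl, fun _ _ => rfl⟩
  have h3 := D.kd_all
  unfold kd at h3
  obtain ⟨v, hv0, hv⟩ := finrank_eq_one_iff'.1 h3
  obtain ⟨a, ha⟩ := hv ⟨_, h1⟩
  obtain ⟨b, hb⟩ := hv ⟨_, h2⟩
  have ha' : ∀ e, a * v.1 e = x (Quotient.mk _ e) := fun e => congrFun (congrArg Subtype.val ha) e
  have hb' : ∀ e, b * v.1 e = 1 := fun e => congrFun (congrArg Subtype.val hb) e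
  have hb0 : ∀ e, v.1 e = b⁻¹ := fun e => by
    have := hb' e
    have hb1 : b ≠ 0 := by
      rintro rfl
      simp at this
    field_simp
    linarith
  induction r using Quotient.inductionOn with
  | h e₀ =>
    funext u
    induction u using Quotient.inductionOn with
    | h e =>
      have e1 := ha' e
      have e2 := ha' e₀
      rw [hb0] at e1 e2
      rw [← e1, e2, hr]
      rfl

theorem SgB_kd (H : St n) (q : (D.Reg → ℝ) → ℝ) (hq : ∀ x : D.Reg → ℝ,
    (∀ c, H c = true → x (Quotient.mk _ (c, false)) = x (Quotient.mk _ (c, true))) →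
    q x = ∑ c, if H c = true then 0 else (x (Quotient.mk _ (c, false)) - x (Quotient.mk _ (c, true))) ^ 2) :
    D.kd H ≤ idx q + 1 := by
  obtain ⟨r, -⟩ := D.SgB_region
  have h1 := D.SgB_inf_ker ((D.Wd H).comap D.SgB_pull) r
  rw [SgB_finrank_comap] at h1
  refine h1.trans (Nat.add_le_add_right (le_idx ?_) 1)
  rintro x ⟨hx1, hx2⟩ hx0
  have hx3 : ∀ c, H c = true → x (Quotient.mk _ (c, false)) = x (Quotient.mk _ (c, true)) :=
    fun c hc => hx1.2 c hc
  rw [hq x hx3]
  have hnn : ∀ c ∈ Finset.univ, 0 ≤ if H c = true then 0 else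
      (x (Quotient.mk _ (c, false)) - x (Quotient.mk _ (c, true))) ^ 2 := by
    intro c _
    split_ifs
    · exact le_rfl
    · positivity
  refine lt_of_le_of_ne (Finset.sum_nonneg hnn) fun h0 => hx0 ?_
  have h2 := (Finset.sum_eq_zero_iff_of_nonneg hnn).1 h0.symm
  refine D.SgB_zero (r := r) hx2 fun c => ?_
  by_cases hc : H c = true
  · exact hx3 c hc
  · have h3 := h2 c (Finset.mem_univ _)
    rw [if_neg hc] at h3
    have h4 := pow_eq_zero_iff (two_ne_zero) |>.1 h3
    linarith

/-- `W` of `exists_idx` for `-gq`; `gq ≤ 0` on `W ⊔ constants`, which has the dimension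
`finrank W + 1`; `idx_add_le`. -/
theorem gq_add_le : idx D.gq + idx (fun x => -D.gq x) + 1 ≤ Nat.card D.Reg := by
  obtain ⟨W, hW1, hW2⟩ := exists_idx (fun x => -D.gq x)
  obtain ⟨r, -⟩ := D.SgB_region
  set one : D.Reg → ℝ := fun _ => 1 with hone
  set K : Submodule ℝ (D.Reg → ℝ) := Submodule.span ℝ {one} with hK
  have hone0 : one ≠ 0 := by
    intro h
    have := congrFun h r
    simp [hone] at this
  have hinv : ∀ x, ∀ k ∈ K, D.gq (x + k) = D.gq x := by
    intro x k hk
    obtain ⟨a, rfl⟩ := Submodule.mem_span_singleton.1 hk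
    unfold gq
    refine Finset.sum_congr rfl fun c _ => ?_
    simp only [Pi.add_apply, Pi.smul_apply, hone, smul_eq_mul]
    ring
  have hg0 : D.gq 0 = 0 := by
    unfold gq
    simp
  have hinf : W ⊓ K = ⊥ := by
    rw [eq_bot_iff]
    rintro x ⟨hx1, hx2⟩
    by_contra hx0
    have h1 := hW2 x hx1 hx0
    have h2 := hinv 0 x hx2
    rw [zero_add, hg0] at h2
    simp only [h2, neg_zero, lt_self_iff_false] at h1
  have hU : ∀ x ∈ W ⊔ K, D.gq x ≤ 0 := by
    intro x hx
    obtain ⟨w, hw, k, hk, rfl⟩ := Submodule.mem_sup.1 hx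
    rw [hinv w k hk]
    by_cases hw0 : w = 0
    · rw [hw0, hg0]
    · have := hW2 w hw hw0
      linarith
  have h1 := idx_add_le (q := D.gq) hU
  have h2 := Submodule.finrank_sup_add_finrank_inf_eq W K
  rw [hinf, finrank_bot, add_zero, hK, finrank_span_singleton hone0, hW1] at h2
  rw [h2, Module.finrank_fintype_fun_eq_card] at h1
  rw [Nat.card_eq_fintype_card]
  omega

/-- Functions on the black regions which are constant on the components of the graph with the edges
`ov c = false`, and zero at one region: dimension `kd - 1`. There `-gq x` is the sum over `ov c = true` of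
the squares; if it is zero then `x` is constant (`kd_all`), so zero. `le_idx`. -/
theorem kd_le_neg : D.kd (fun c => !D.ov c) ≤ idx (fun x => -D.gq x) + 1 := by
  refine D.SgB_kd _ _ fun x hx => ?_
  unfold gq
  rw [← Finset.sum_neg_distrib]
  refine Finset.sum_congr rfl fun c _ => ?_
  cases hc : D.ov c
  · have h := hx c (by simp [hc])
    simp [h]
  · simp

/-- the same -/
theorem kd_le_pos : D.kd D.ov ≤ idx D.gq + 1 := by
  refine D.SgB_kd _ _ fun x hx => ?_
  unfold gq
  refine Finset.sum_congr rfl fun c _ => ?_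
  cases hc : D.ov c
  · simp
  · have h := hx c hc
    simp [h]

end Dgm

end Pool.Agent.Lib.MP_21eb54_gt
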