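import Pool.Agent.Lib.MP_21eb54_gt.PmB

/-!
# The circles of the states of a diagram
-/

set_option autoImplicit false

namespace Pool.Agent.Lib.MP_21eb54_gt

open Equiv

variable {n : ℕ}

theorem SpA_flp (H : St n) (c : Fin n) (e : Arc n) :
    flp (Function.update H c (!H c)) e = flp H (swap ((c, false) : Arc n) (c, true) e) := by
  rcases e with ⟨d, s⟩
  by_cases hd : d = c
  · subst hd
    cases s
    · rw [swap_apply_left]
      show (d, if (Function.update H d (!H d)) d = true then false else !false) =
        (d, if H d = true then true else !true)
      rw [Function.update_self]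
      cases H d <;> rfl
    · rw [swap_apply_right]
      show (d, if (Function.update H d (!H d)) d = true then true else !true) =
        (d, if H d = true then false else !false)
      rw [Function.update_self]
      cases H d <;> rfl
  · have h1 : ((d, s) : Arc n) ≠ (c, false) := fun h => hd (congrArg Prod.fst h)
    have h2 : ((d, s) : Arc n) ≠ (c, true) := fun h => hd (congrArg Prod.fst h)
    rw [swap_apply_of_ne_of_ne h1 h2]
    show (d, if (Function.update H c (!H c)) d = true then s else !s) =
      (d, if H d = true then s else !s)
    rw [Function.update_of_ne hd]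

theorem SpA_ne (c : Fin n) : ((c, false) : Arc n) ≠ (c, true) := by
  intro h
  exact Bool.false_ne_true (congrArg Prod.snd h)

/-- `flp` with `H c` negated is `flp H` after the exchange of the two entries at `c`. -/
theorem sm_update (out : Perm (Arc n)) (H : St n) (c : Fin n) :
    sm out (Function.update H c (!H c)) = sm out H * swap (c, false) (c, true) := by
  refine Equiv.ext ?_
  intro e
  show out (flp (Function.update H c (!H c)) e) = out (flp H (swap ((c, false) : Arc n) (c, true) e))
  rw [SpA_flp]

/-- `(fun d => Function.update S c (!S c) d == ov d)` is `(fun d => S d == ov d)` with the value at `c`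
negated. -/
theorem Dgm.sp_flip (D : Dgm n) (S : St n) (c : Fin n) :
    D.sp (Function.update S c (!S c)) = D.sp S * swap (c, false) (c, true) := by
  have h : (fun d => Function.update S c (!S c) d == D.ov d) =
      Function.update (fun d => S d == D.ov d) c (!(fun d => S d == D.ov d) c) := by
    funext d
    by_cases hd : d = c
    · subst hd
      rw [Function.update_self, Function.update_self]
      show ((!S d) == D.ov d) = !(S d == D.ov d)
      cases S d <;> cases D.ov d <;> rfl
    · rw [Function.update_of_ne hd, Function.update_of_ne hd]
  unfold Dgm.sp
  rw [h]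
  exact sm_update D.out (fun d => S d == D.ov d) c

theorem Dgm.sp_up (D : Dgm n) {S : St n} {c : Fin n} (hc : S c = false) :
    D.sp (Function.update S c true) = D.sp S * swap (c, false) (c, true) := by
  have h := D.sp_flip S c
  rw [hc] at h
  exact h

theorem Dgm.sp_dn (D : Dgm n) {S : St n} {c : Fin n} (hc : S c = true) :
    D.sp (Function.update S c false) = D.sp S * swap (c, false) (c, true) := by
  have h := D.sp_flip S c
  rw [hc] at h
  exact h

theorem nb_up {S : St n} {c : Fin n} (hc : S c = false) : nb (Function.update S c true) = nb S + 1 := by
  unfold nb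
  have h : (Finset.univ.filter fun d => Function.update S c true d = true) =
      insert c (Finset.univ.filter fun d => S d = true) := by
    ext d
    simp only [Finset.mem_filter, Finset.mem_univ, true_and, Finset.mem_insert]
    by_cases hd : d = c
    · subst hd
      simp
    · rw [Function.update_of_ne hd]
      simp [hd]
  rw [h, Finset.card_insert_of_notMem]
  simp [hc]

theorem nb_dn {S : St n} {c : Fin n} (hc : S c = true) : nb (Function.update S c false) + 1 = nb S := by
  have h := nb_up (S := Function.update S c false) (c := c) (by rw [Function.update_self])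
  rw [Function.update_idem] at h
  have h2 : Function.update S c true = S := by
    rw [← hc]
    exact Function.update_eq_self c S
  rw [h2] at h
  exact h.symm

/-- `cyc_split`: a circle is split. -/
theorem Dgm.circ_flip_split (D : Dgm n) {S : St n} {c : Fin n}
    (h : (D.sp S).SameCycle (c, false) (c, true)) :
    D.circ (Function.update S c (!S c)) = D.circ S + 1 := by
  unfold Dgm.circ
  rw [D.sp_flip]
  exact cyc_split (SpA_ne c) h

/-- `cyc_merge`: two circles are merged. -/
theorem Dgm.circ_flip_merge (D : Dgm n) {S : St n} {c : Fin n}
    (h : ¬ (D.sp S).SameCycle (c, false) (c, true)) :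
    D.circ (Function.update S c (!S c)) + 1 = D.circ S := by
  unfold Dgm.circ
  rw [D.sp_flip]
  exact cyc_merge h

/-- after the exchange of the smoothing at `c`, `p, q` are in the same circle iff they were not -/
theorem Dgm.same_flip (D : Dgm n) (S : St n) (c : Fin n) :
    (D.sp (Function.update S c (!S c))).SameCycle (c, false) (c, true) ↔
      ¬ (D.sp S).SameCycle (c, false) (c, true) := by
  rw [D.sp_flip]
  constructor
  · intro h h2
    exact sc_split (SpA_ne c) h2 h
  · intro h
    exact sc_merge h

/-- one step changes the number of circles by one -/
theorem Dgm.SpA_step (D : Dgm n) (S : St n) (c : Fin n) :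
    D.circ (Function.update S c (!S c)) = D.circ S + 1 ∨
      D.circ (Function.update S c (!S c)) + 1 = D.circ S := by
  by_cases h : (D.sp S).SameCycle (c, false) (c, true)
  · exact Or.inl (D.circ_flip_split h)
  · exact Or.inr (D.circ_flip_merge h)

theorem SpA_zero {S : St n} (h : nb S = 0) : S = fun _ => false := by
  unfold nb at h
  rw [Finset.card_eq_zero, Finset.filter_eq_empty_iff] at h
  funext c
  have h1 := h (Finset.mem_univ c)
  cases h2 : S c
  · rfl
  · exact absurd h2 h1

theorem SpA_pos {S : St n} {k : ℕ} (h : nb S = k + 1) : ∃ c, S c = true := by
  unfold nb at h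
  have h1 : (Finset.univ.filter fun c => S c = true).Nonempty := by
    rw [← Finset.card_pos, h]
    omega
  obtain ⟨c, hc⟩ := h1
  exact ⟨c, (Finset.mem_filter.1 hc).2⟩

theorem SpA_top {S : St n} (h : ∀ c, S c ≠ false) : S = fun _ => true := by
  funext c
  have h1 := h c
  cases h2 : S c
  · exact absurd h2 h1
  · rfl

theorem SpA_nbtop : nb (fun _ : Fin n => true) = n := by
  unfold nb
  simp

theorem SpA_nble (S : St n) : nb S ≤ n := by
  unfold nb
  exact (Finset.card_filter_le _ _).trans (by simp)

/-- Induction on `nb S`; every step changes `circ S` by one. -/
theorem Dgm.circ_parity (D : Dgm n) (S : St n) :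
    ((D.circ S : ℤ) + nb S) % 2 = (D.circ fun _ => false) % 2 := by
  have key : ∀ k : ℕ, ∀ S : St n, nb S = k →
      ((D.circ S : ℤ) + nb S) % 2 = (D.circ fun _ => false) % 2 := by
    intro k
    induction k with
    | zero =>
      intro S hS
      rw [hS, SpA_zero hS]
      simp
    | succ k ih =>
      intro S hS
      obtain ⟨c, hc⟩ := SpA_pos hS
      have h1 := nb_dn hc
      have h2 := D.SpA_step S c
      rw [hc] at h2
      have h2' : D.circ (Function.update S c false) = D.circ S + 1 ∨
        D.circ (Function.update S c false) + 1 = D.circ S := h2
      have h3 := ih (Function.update S c false) (by omega)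
      omega
  exact key _ S rfl

/-- Induction on `nb S`; every step changes `circ S` by one. -/
theorem Dgm.sA_le (D : Dgm n) (S : St n) : (D.circ fun _ => false) ≤ D.circ S + nb S := by
  have key : ∀ k : ℕ, ∀ S : St n, nb S = k → (D.circ fun _ => false) ≤ D.circ S + nb S := by
    intro k
    induction k with
    | zero =>
      intro S hS
      rw [hS, SpA_zero hS]
      simp
    | succ k ih =>
      intro S hS
      obtain ⟨c, hc⟩ := SpA_pos hS
      have h1 := nb_dn hc
      have h2 := D.SpA_step S c
      rw [hc] at h2
      have h2' : D.circ (Function.update S c false) = D.circ S + 1 ∨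
        D.circ (Function.update S c false) + 1 = D.circ S := h2
      have h3 := ih (Function.update S c false) (by omega)
      omega
  exact key _ S rfl

/-- Induction on the number of `c` with `S c = false`. -/
theorem Dgm.sB_le (D : Dgm n) (S : St n) : (D.circ fun _ => true) + nb S ≤ D.circ S + n := by
  have key : ∀ k : ℕ, ∀ S : St n, n - nb S = k →
      (D.circ fun _ => true) + nb S ≤ D.circ S + n := by
    intro k
    induction k with
    | zero =>
      intro S hS
      have h0 : nb S = n := by
        have := SpA_nble S
        omega
      have h1 : ∀ c, S c ≠ false := by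
        intro c hc
        have h2 := nb_up hc
        have h3 := SpA_nble (Function.update S c true)
        omega
      rw [h0, SpA_top h1]
    | succ k ih =>
      intro S hS
      have h0 : ∃ c, S c = false := by
        by_contra hh
        push Not at hh
        have h1 := SpA_top hh
        rw [h1, SpA_nbtop] at hS
        omega
      obtain ⟨c, hc⟩ := h0
      have h1 := nb_up hc
      have h2 := D.SpA_step S c
      rw [hc] at h2
      have h2' : D.circ (Function.update S c true) = D.circ S + 1 ∨
        D.circ (Function.update S c true) + 1 = D.circ S := h2
      have h3 := ih (Function.update S c true) (by omega)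
      omega
  exact key _ S rfl

/-- `D.planar` excludes `n = 0` (there `cyc` is `0`). -/
theorem Dgm.n_pos (D : Dgm n) : 0 < n := by
  rcases Nat.eq_zero_or_pos n with h | h
  · exfalso
    subst h
    have h0 : ∀ p : Perm (Arc 0), cyc p = 0 := by
      intro p
      unfold cyc
      have : IsEmpty (Quotient (Perm.SameCycle.setoid p)) :=
        ⟨fun q => Quotient.inductionOn q (fun a => a.1.elim0)⟩
      exact Nat.card_of_isEmpty
    have h1 := D.planar
    rw [h0, h0] at h1
    omega
  · exact h

end Pool.Agent.Lib.MP_21eb54_gt
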