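import Pool.Agent.Lib.MP_21eb54_gt.LevB

/-!
# Khovanov's homology at the levels of Lee's homology
-/

set_option autoImplicit false

namespace Pool.Agent.Lib.MP_21eb54_gt

open Equiv MvPolynomial

variable {n : ℕ}

namespace Dgm

variable (D : Dgm n)

/-- the part of homological degree `0` -/
noncomputable def z0 (F : Ch n) : Ch n := fun S => if nb S = D.nn then F S else 0

theorem ThS_nb {S : St n} {c : Fin n} (hc : S c = true) :
    nb (Function.update S c false) + 1 = nb S := by
  classical
  unfold nb
  have h1 : (Finset.univ.filter fun d => S d = true) =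
      insert c (Finset.univ.filter fun d => (Function.update S c false) d = true) := by
    ext d
    by_cases h : d = c
    · subst h; simp [hc]
    · simp [h]
  rw [h1, Finset.card_insert_of_notMem (by simp)]

/-- `dif` raises `nb` by one; `nb_So` -/
theorem z0_prop {F : Ch n} (hF : D.Cy F) {j : ℤ} (h : D.Fil j F) : D.Cy (D.z0 F) ∧
    D.Fil j (D.z0 F) ∧ ∀ ε, D.Lf ε (D.z0 F) = D.Lf ε F := by
  refine ⟨?_, ?_, ?_⟩
  · intro S
    by_cases hS : nb S = D.nn + 1
    · have e : D.dif (D.z0 F) S = D.dif F S := by
        unfold dif
        refine Finset.sum_congr rfl fun c _ => ?_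
        by_cases hc : S c = true
        · have h1 := ThS_nb hc
          have h2 : nb (Function.update S c false) = D.nn := by omega
          simp only [hc, if_true, z0, h2]
        · simp only [hc]
          simp
      rw [e]
      exact hF S
    · have e : D.dif (D.z0 F) S = 0 := by
        unfold dif
        refine Finset.sum_eq_zero fun c _ => ?_
        by_cases hc : S c = true
        · have h1 := ThS_nb hc
          have h2 : ¬ nb (Function.update S c false) = D.nn := by omega
          simp only [hc, if_true, z0, h2, if_false, mul_zero]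
        · simp only [hc]
          simp
      rw [e]
      exact Ideal.zero_mem _
  · intro S
    unfold z0
    by_cases hS : nb S = D.nn
    · simp only [hS, if_true]
      have := h S
      rw [hS] at this
      exact this
    · simp only [hS, if_false]
      exact Or.inl trivial
  · intro ε
    unfold Lf z0
    simp only [D.nb_So, if_true]

/-- `F` of the level `j`; the part of quantum degree `j` is a cycle of Khovanov's complex: the part of
quantum degree `j` of `dif F` (`dif_ptF`) is at every state the homogeneous component of the largest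
possible degree `k` (`circ S - 2 * k + ... = j`) of an element of `D.J 1 S`: `lead1`. -/
theorem lead_Cy {F : Ch n} (hF : D.Cy F) {j : ℤ} (h : D.Fil j F) (S : St n) :
    D.dif (D.ptF (fun x => x = j) F) S ∈ D.J 0 S := by
  have hFj := (D.Fil_iff j F).1 h
  have e1 : D.ptF (fun x => j ≤ x) F = F := by
    funext S
    ext m
    unfold ptF
    rw [coeff_pt]
    by_cases h1 : j ≤ D.qd S m
    · rw [if_pos h1]
    · rw [if_neg h1]
      by_contra h2
      exact h1 (hFj S m (fun h3 => h2 h3.symm))
  have e2 : ∀ m, coeff m (D.dif F S) ≠ 0 → j ≤ D.qd S m := by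
    intro m hm
    have e3 := D.dif_ptF (fun x => j ≤ x) F
    rw [e1] at e3
    rw [e3] at hm
    exact ((D.ptF_coeff (fun x => j ≤ x) (D.dif F) S m).1 hm).1
  rw [D.dif_ptF]
  by_cases hk : ∃ k : ℕ, (D.circ S : ℤ) - 2 * k + nb S + D.np - 2 * D.nn = j
  · obtain ⟨k, hk⟩ := hk
    have e4 : D.ptF (fun x => x = j) (D.dif F) S = homogeneousComponent k (D.dif F S) := by
      ext m
      unfold ptF
      rw [coeff_pt, coeff_homogeneousComponent]
      have e5 : D.qd S m = j ↔ m.degree = k := by
        unfold qd
        constructor
        · intro h1; omega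
        · intro h1; rw [h1]; exact hk
      by_cases h1 : m.degree = k
      · rw [if_pos h1, if_pos (e5.2 h1)]
      · rw [if_neg h1, if_neg (fun h2 => h1 (e5.1 h2))]
    rw [e4]
    refine lead1 (π := D.sp S) (hF S) ?_
    intro m hm
    have h1 := e2 m hm
    unfold qd at h1
    omega
  · have e4 : D.ptF (fun x => x = j) (D.dif F) S = 0 := by
      ext m
      unfold ptF
      rw [coeff_pt, coeff_zero, if_neg]
      intro h1
      exact hk ⟨m.degree, h1⟩
    rw [e4]
    exact Ideal.zero_mem _

/-- `lead2` for every state -/
theorem lead_lift {F : Ch n} {j : ℤ} (h : ∀ S m, coeff m (F S) ≠ 0 → D.qd S m = j)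
    (hJ : ∀ S, F S ∈ D.J 0 S) : ∃ F', D.Fil (j + 1) F' ∧ ∀ S, F S - F' S ∈ D.J 1 S := by
  have key : ∀ S, ∃ g : MvPolynomial (Arc n) ℚ, (∀ m, coeff m g ≠ 0 → j + 1 ≤ D.qd S m) ∧
      F S - g ∈ D.J 1 S := by
    intro S
    by_cases h0 : F S = 0
    · refine ⟨0, fun m hm => absurd (coeff_zero m) hm, ?_⟩
      rw [h0, sub_zero]
      exact Ideal.zero_mem _
    · obtain ⟨m0, hm0⟩ := MvPolynomial.ne_zero_iff.1 h0
      have q0 := h S m0 hm0
      have hh : (F S).IsHomogeneous m0.degree := by
        intro m hm
        have q1 := h S m hm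
        have : m.degree = m0.degree := by
          unfold qd at q0 q1
          omega
        rw [← this]
        show Finsupp.weight 1 m = m.degree
        rw [Finsupp.degree_eq_weight_one]
        rfl
      obtain ⟨g, hg1, hg2⟩ := lead2 (π := D.sp S) (hJ S) hh
      refine ⟨g, fun m hm => ?_, hg2⟩
      have h1 := hg1 m hm
      unfold qd at q0 ⊢
      omega
  choose g hg using key
  exact ⟨g, (D.Fil_iff (j + 1) g).2 fun S m hm => (hg S).1 m hm, fun S => (hg S).2⟩

end Dgm

end Pool.Agent.Lib.MP_21eb54_gt
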