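import Pool.Agent.Lib.MP_21eb54_gt.ThS
import Pool.Agent.Lib.MP_21eb54_gt.LevD

/-!
# Khovanov's homology at the levels of Lee's homology, 2
-/

set_option autoImplicit false

namespace Pool.Agent.Lib.MP_21eb54_gt

open Equiv MvPolynomial

variable {n : ℕ}

namespace Dgm

variable (D : Dgm n)

/-- a chain homologous to a cycle is a cycle with the same values -/
theorem ThT_hom {F F' G : Ch n} (hF : D.Cy F) (h : ∀ S, F S - F' S - D.dif G S ∈ D.J 1 S) :
    D.Cy F' ∧ D.Lf D.ori F' = D.Lf D.ori F ∧ D.Lf D.ori' F' = D.Lf D.ori' F := by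
  have hC : D.Cy F' := by
    have h1 : D.Cy (F - D.dif G - (fun S => F S - F' S - D.dif G S)) :=
      D.Cy_sub (D.Cy_sub hF (D.Cy_dif G)) (D.Cy_J h)
    have h2 : (F - D.dif G - fun S => F S - F' S - D.dif G S) = F' := by
      funext S
      simp only [Pi.sub_apply]
      ring
    rwa [h2] at h1
  have h1 := (D.lee_iff (D.Cy_sub hF hC)).1 ⟨G, fun S => by
    rw [Pi.sub_apply]
    exact h S⟩
  have h2 : ∀ ε, D.Lf ε (F - F') = D.Lf ε F - D.Lf ε F' := by
    intro ε
    unfold Lf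
    rw [Pi.sub_apply, map_sub]
  rw [h2, h2] at h1
  exact ⟨hC, (sub_eq_zero.1 h1.1).symm, (sub_eq_zero.1 h1.2).symm⟩

theorem ThT_w (m : Arc n →₀ ℕ) : Finsupp.weight (1 : Arc n → ℕ) m = m.degree := by
  rw [Finsupp.degree_eq_weight_one]
  rfl

/-- the quantum degree determines the degree -/
theorem ThT_Hom {F : Ch n} {b a : ℤ} (hF : D.Hom b a F) {S : St n} {m : Arc n →₀ ℕ}
    (hm : coeff m (F S) ≠ 0) : D.qd S m = a := by
  rcases hF S with h | ⟨_, k, hk, h⟩
  · rw [h, coeff_zero] at hm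
    exact absurd rfl hm
  · have h1 := hk hm
    rw [ThT_w] at h1
    unfold qd
    have h2 : (m.degree : ℤ) = k := by exact_mod_cast h1
    rw [h2]
    exact h

/-- Let `F0 = z0 F` (homologous to `F`: `lee_iff` for `F - F0`) and `f` its part of quantum degree `j`: it is
in `Hom 0 j` (at a state the quantum degree determines the degree of the monomials) and a cycle of
Khovanov's complex (`lead_Cy`). Suppose `f - dif G ∈ D.J 0 S` for all `S`, `G ∈ Hom (-1) j`. The monomials
of `f - dif G` have quantum degree `j` (`th_coeff`), so by `lead_lift` there is `F'` of the level `j + 1` with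
`f - dif G - F' ∈ D.J 1 S`. Then `F0 - ((F0 - f) + F') - dif G ∈ D.J 1 S`, and `(F0 - f) + F'` is of the level
`j + 1`: contradiction to `hn` (as `F` and `F0` are homologous). -/
theorem lead_ne {F : Ch n} (hF : D.Cy F) {j : ℤ} (h : D.Fil j F)
    (hn : ¬ ∃ F' G, D.Fil (j + 1) F' ∧ ∀ S, F S - F' S - D.dif G S ∈ D.J 1 S) : D.KhNe 0 j := by
  obtain ⟨hC0, hF0, hL⟩ := D.z0_prop hF h
  have hz : ∀ S, nb S ≠ D.nn → D.z0 F S = 0 := by
    intro S hS
    unfold z0
    rw [if_neg hS]
  generalize D.z0 F = F0 at hC0 hF0 hL hz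
  -- the two are homologous
  have hL2 : ∀ ε, D.Lf ε (F - F0) = 0 := by
    intro ε
    have h1 := hL ε
    unfold Lf at h1 ⊢
    rw [Pi.sub_apply, map_sub, h1, sub_self]
  obtain ⟨G1, hG1⟩ := (D.lee_iff (D.Cy_sub hF hC0)).2 ⟨hL2 _, hL2 _⟩
  set f : Ch n := D.ptF (fun x => x = j) F0 with hf
  refine ⟨f, ?_, fun S => D.lead_Cy hC0 hF0 S, ?_⟩
  · intro S
    by_cases h0 : f S = 0
    · exact Or.inl h0
    · right
      obtain ⟨m0, hm0⟩ : ∃ m, coeff m (f S) ≠ 0 := by
        by_contra hcon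
        apply h0
        ext m
        rw [coeff_zero]
        by_contra hm
        exact hcon ⟨m, hm⟩
      have h1 := (D.ptF_coeff _ F0 S m0).1 hm0
      have hnb : nb S = D.nn := by
        by_contra hcon
        apply h1.2
        rw [hz S hcon, coeff_zero]
      refine ⟨by rw [hnb]; ring, m0.degree, ?_, ?_⟩
      · intro m hm
        have h2 := (D.ptF_coeff _ F0 S m).1 hm
        rw [ThT_w]
        have h3 : D.qd S m = D.qd S m0 := h2.1.trans h1.1.symm
        unfold qd at h3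
        have h4 : (m.degree : ℤ) = m0.degree := by linarith
        exact_mod_cast h4
      · exact h1.1
  · rintro ⟨G, hG, hb⟩
    have hGj : D.ptF (fun x => x = j) G = G := by
      funext S
      ext m
      by_cases hm : coeff m (G S) = 0
      · rw [hm]
        by_contra hcon
        exact ((D.ptF_coeff _ G S m).1 hcon).2 hm
      · have h1 : coeff m (D.ptF (fun x => x = j) G S) ≠ 0 :=
          (D.ptF_coeff _ G S m).2 ⟨D.ThT_Hom hG hm, hm⟩
        unfold ptF at h1 ⊢
        rw [coeff_pt] at h1 ⊢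
        by_cases hP : D.qd S m = j
        · rw [if_pos hP]
        · rw [if_neg hP] at h1
          exact absurd rfl h1
    have hE : ∀ S m, coeff m ((f - D.dif G) S) ≠ 0 → D.qd S m = j := by
      intro S m hm
      rw [Pi.sub_apply, coeff_sub] at hm
      by_cases h1 : coeff m (f S) = 0
      · have h2 : coeff m (D.dif G S) ≠ 0 := by
          intro h2
          rw [h1, h2, sub_zero] at hm
          exact hm rfl
        rw [← hGj, D.dif_ptF] at h2
        exact ((D.ptF_coeff _ _ S m).1 h2).1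
      · exact ((D.ptF_coeff _ _ S m).1 h1).1
    obtain ⟨F', hF', hJ⟩ := D.lead_lift hE (fun S => by
      rw [Pi.sub_apply]
      exact hb S)
    apply hn
    refine ⟨(F0 - f) + F', G + G1, D.Fil_add ?_ hF', fun S => ?_⟩
    · have h1 : F0 - f = D.ptF (fun x => ¬ x = j) F0 := by
        rw [hf]
        nth_rewrite 1 [← D.ptF_add_not (fun x => x = j) F0]
        rw [add_sub_cancel_left]
      rw [h1, Fil_iff]
      intro S m hm
      obtain ⟨h2, h3⟩ := (D.ptF_coeff _ _ S m).1 hm
      have h4 := (D.Fil_iff j F0).1 hF0 S m h3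
      omega
    · have h1 : D.dif (G + G1) S = D.dif G S + D.dif G1 S := by
        rw [← dfF_full, ← dfF_full, ← dfF_full, dfF_add]
        rfl
      have h2 : F S - ((F0 - f) + F') S - D.dif (G + G1) S =
          ((F - F0) S - D.dif G1 S) + ((f - D.dif G) S - F' S) := by
        rw [h1]
        simp only [Pi.sub_apply, Pi.add_apply]
        ring
      rw [h2]
      exact Ideal.add_mem _ (hG1 S) (hJ S)

/-- `lev`: `Lv smax`, not `Lv (smax + 1)`; `lead_ne`. -/
theorem KhNe_smax : D.KhNe 0 (D.s + 1) := by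
  obtain ⟨M, h1, h2, ⟨F, hF, hj, hv⟩, h4, h5, h6⟩ := D.lev
  have hM : D.s + 1 = M := by
    rw [← h1, D.smax_eq]
  rw [hM]
  refine D.lead_ne hF hj ?_
  rintro ⟨F', G, hF', hJ⟩
  obtain ⟨a1, a2, a3⟩ := D.ThT_hom hF hJ
  apply h4
  refine ⟨F', a1, hF', ?_⟩
  rw [a2, a3]
  exact hv

/-- `lev`: `Lw smin`, not `Lw (smin + 1)`: by `Lw_iff` there is a cycle `F` not homologous to an element of
the level `smin + 1`, and it is homologous to a cycle `F'` of the level `smin`. `lead_ne` for `F'`. -/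
theorem KhNe_smin : D.KhNe 0 (D.s - 1) := by
  obtain ⟨M, h1, h2, h3, h4, h5, h6⟩ := D.lev
  have hM : D.s - 1 = M - 2 := by
    rw [← h2, D.smin_eq]
  rw [hM]
  rw [Lw_iff] at h5 h6
  have h7 : ∃ F, D.Cy F ∧ ¬ ∃ F' G, D.Fil (M - 1) F' ∧ ∀ S, F S - F' S - D.dif G S ∈ D.J 1 S := by
    by_contra hcon
    apply h6
    intro F hF
    by_contra hc
    exact hcon ⟨F, hF, hc⟩
  obtain ⟨F, hF, hn⟩ := h7
  obtain ⟨F', G, hF', hJ⟩ := h5 F hF
  obtain ⟨a1, a2, a3⟩ := D.ThT_hom hF hJ
  refine D.lead_ne a1 hF' ?_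
  rintro ⟨F2, G2, hF2, hJ2⟩
  apply hn
  refine ⟨F2, G + G2, ?_, fun S => ?_⟩
  · have h8 : M - 2 + 1 = M - 1 := by ring
    rwa [h8] at hF2
  · have h1 : D.dif (G + G2) S = D.dif G S + D.dif G2 S := by
      rw [← dfF_full, ← dfF_full, ← dfF_full, dfF_add]
      rfl
    have h2 : F S - F2 S - D.dif (G + G2) S =
        (F S - F' S - D.dif G S) + (F' S - F2 S - D.dif G2 S) := by
      rw [h1]
      ring
    rw [h2]
    exact Ideal.add_mem _ (hJ S) (hJ2 S)

end Dgm

end Pool.Agent.Lib.MP_21eb54_gt
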