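import Pool.Agent.Lib.MP_21eb54_gt.GrB

/-!
# A face as a cone: both faces exact
-/

set_option autoImplicit false

namespace Pool.Agent.Lib.MP_21eb54_gt

open Equiv MvPolynomial

variable {n : ℕ}

namespace Dgm

variable (D : Dgm n)

/-- The multiplication by `th` maps the ideal of a state, enlarged by `A`, to that of the next state. -/
theorem TrC_th {A : Ideal (MvPolynomial (Arc n) ℚ)} {S : St n} {c : Fin n} (hS : S c = true)
    {f : MvPolynomial (Arc n) ℚ} (hf : f ∈ D.J 0 (Function.update S c false) ⊔ A) (a : ℚ) :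
    C a * (D.th (Function.update S c false) c * f) ∈ D.J 0 S ⊔ A := by
  apply Ideal.mul_mem_left
  obtain ⟨u, hu, v, hv, rfl⟩ := Submodule.mem_sup.mp hf
  rw [mul_add]
  have h1 := D.th_mem (Function.update_self c false S) hu
  have h2 : Function.update (Function.update S c false) c true = S := by
    rw [Function.update_idem, ← hS, Function.update_eq_self]
  rw [h2] at h1
  exact Ideal.add_mem _ (Ideal.mem_sup_left h1) (Ideal.mem_sup_right (Ideal.mul_mem_left _ _ hv))

/-- If the homology of the face `fc Φ c false` is zero, a cycle may be replaced by one which is zero there. -/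
theorem cone1 {Φ : Fc n} {c : Fin n} (hc : Φ c = none) {A : Ideal (MvPolynomial (Arc n) ℚ)} {w h : ℤ}
    (h0 : D.Ex (fc Φ c false) A w h) {F : Ch n} (hF : D.Gr Φ w h F)
    (hd : ∀ S, InF Φ S → D.dfF Φ F S ∈ D.J 0 S ⊔ A) :
    ∃ G, D.Gr Φ (w + 2) (h - 1) G ∧ D.Gr Φ w h (F - D.dfF Φ G) ∧
      (∀ S, InF (fc Φ c false) S → (F - D.dfF Φ G) S ∈ D.J 0 S ⊔ A) ∧
      (∀ S, InF Φ S → D.dfF Φ (F - D.dfF Φ G) S ∈ D.J 0 S ⊔ A) := by
  obtain ⟨G0, hG0, hG0'⟩ := h0 F (D.Gr_fc hc false hF) (fun S hS => by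
    obtain ⟨hS1, hS2⟩ := (InF_fc hc).mp hS
    rw [← D.dfF_false hc F hS2]
    exact hd S hS1)
  have hG := D.Gr_ext hc hG0
  refine ⟨fun S => if S c = false then G0 S else 0, hG, ?_, ?_, ?_⟩
  · have h1 := D.dfF_Gr hG
    rw [show w + 2 - 2 = w by ring, show h - 1 + 1 = h by ring] at h1
    exact D.Gr_sub hF h1
  · intro S hS
    have hS2 := ((InF_fc hc).mp hS).2
    have h2 : D.dfF (fc Φ c false) (fun S => if S c = false then G0 S else 0) S = D.dfF (fc Φ c false) G0 S := by
      apply D.dfF_congr (Φ := fc Φ c false) _ hS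
      intro T hT
      rw [if_pos ((InF_fc hc).mp hT).2]
    rw [Pi.sub_apply, D.dfF_false hc _ hS2, h2]
    exact hG0' S hS
  · intro S hS
    rw [D.dfF_sub, Pi.sub_apply]
    exact Ideal.sub_mem _ (hd S hS) (Ideal.mem_sup_left (D.dfF_dfF Φ _ S))

/-- If the homology of both faces is zero, then that of the face `Φ` is zero. -/
theorem ex_cone {Φ : Fc n} {c : Fin n} (hc : Φ c = none) {A : Ideal (MvPolynomial (Arc n) ℚ)} {w h : ℤ}
    (h0 : D.Ex (fc Φ c false) A w h) (h1 : D.Ex (fc Φ c true) A w h) : D.Ex Φ A w h := by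
  intro F hF hd
  obtain ⟨G, hG, hF', hF0, hd'⟩ := D.cone1 hc h0 hF hd
  have hlow : ∀ S, InF Φ S → S c = true →
      (F - D.dfF Φ G) (Function.update S c false) ∈ D.J 0 (Function.update S c false) ⊔ A := by
    intro S hS _
    apply hF0
    exact (InF_fc hc).mpr ⟨InF_dn hS hc false, Function.update_self c false S⟩
  obtain ⟨G1, hG1, hG1'⟩ := h1 (F - D.dfF Φ G) (D.Gr_fc hc true hF') (fun S hS => by
    obtain ⟨hS1, hS2⟩ := (InF_fc hc).mp hS
    have h2 := hd' S hS1
    rw [D.dfF_true hc _ hS2] at h2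
    have h3 := D.TrC_th hS2 (hlow S hS1 hS2) (sgn S c)
    have h4 := Ideal.sub_mem _ h2 h3
    rwa [add_sub_cancel_right] at h4)
  have hG' := D.Gr_ext hc hG1
  refine ⟨G + fun S => if S c = true then G1 S else 0, D.Gr_add hG hG', ?_⟩
  intro S hS
  rw [D.dfF_add, Pi.add_apply, ← sub_sub]
  have hFe : F S - D.dfF Φ G S = (F - D.dfF Φ G) S := rfl
  rw [hFe]
  cases hSc : S c with
  | false =>
    have h2 : D.dfF Φ (fun S => if S c = true then G1 S else 0) S = 0 := by
      rw [D.dfF_false hc _ hSc]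
      have hS' : InF (fc Φ c false) S := (InF_fc hc).mpr ⟨hS, hSc⟩
      have h3 : D.dfF (fc Φ c false) (fun S => if S c = true then G1 S else 0) S =
          D.dfF (fc Φ c false) (fun _ => 0) S := by
        apply D.dfF_congr (Φ := fc Φ c false) _ hS'
        intro T hT
        rw [((InF_fc hc).mp hT).2, if_neg Bool.false_ne_true]
      rw [h3]
      unfold dfF
      apply Finset.sum_eq_zero
      intro b _
      rw [mul_zero, mul_zero, ite_self]
    rw [h2, sub_zero]
    exact hF0 S ((InF_fc hc).mpr ⟨hS, hSc⟩)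
  | true =>
    have hS' : InF (fc Φ c true) S := (InF_fc hc).mpr ⟨hS, hSc⟩
    have h2 : D.dfF Φ (fun S => if S c = true then G1 S else 0) S = D.dfF (fc Φ c true) G1 S := by
      rw [D.dfF_true hc _ hSc]
      have h3 : D.dfF (fc Φ c true) (fun S => if S c = true then G1 S else 0) S =
          D.dfF (fc Φ c true) G1 S := by
        apply D.dfF_congr (Φ := fc Φ c true) _ hS'
        intro T hT
        rw [if_pos ((InF_fc hc).mp hT).2]
      rw [h3, Function.update_self, if_neg Bool.false_ne_true, mul_zero, mul_zero, add_zero]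
    rw [h2]
    exact hG1' S hS'

end Dgm

end Pool.Agent.Lib.MP_21eb54_gt
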