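import Pool.Agent.Lib.MP_21eb54_gt.TwA
import Pool.Agent.Lib.MP_21eb54_gt.GrA

/-!
# The comparison of the faces: gradings
-/

set_option autoImplicit false

namespace Pool.Agent.Lib.MP_21eb54_gt

open Equiv MvPolynomial

variable {n : ℕ}

namespace Dgm

variable (D : Dgm n)

theorem TwC_co {c : Fin n} {b : Bool} {Z : Set (Arc n)} {u : Ch n} {S : St n} {m : Arc n →₀ ℕ}
    (h : coeff m (D.tw c b Z u S) ≠ 0) : coeff m (u (Function.update S c (!S c))) ≠ 0 := by
  intro h0
  apply h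
  unfold tw
  rw [coeff_C_mul, (al_coeff Z _ m).2 h0, mul_zero]

theorem TwC_sep {Φ : Fc n} {c : Fin n} {b : Bool} {Z : Set (Arc n)} (hZ : D.Cl (fc Φ c b) Z)
    (hp : (c, false) ∉ Z) (hq : (c, true) ∈ Z) {V : St n} (hV : InF (fc Φ c b) V) :
    D.circ (Function.update V c (!V c)) + 1 = D.circ V :=
  D.circ_flip_merge fun h => hp ((D.Cl_same hZ hV h).2 hq)

/-- the merged state has one circle less; from the disconnected face `b` to the other one. For
`b = false`: `h + 1`, `w - 2` (`circ` decreases by one and `nb` increases by one). -/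
theorem Gr_tw_false {Φ : Fc n} {c : Fin n} (hc : Φ c = none) {Z : Set (Arc n)}
    (hZ : D.Cl (fc Φ c false) Z) (hp : (c, false) ∉ Z) (hq : (c, true) ∈ Z) {u : Ch n} {w h : ℤ}
    (hu : D.Gr (fc Φ c false) w h u) : D.Gr (fc Φ c true) (w - 2) (h + 1) (D.tw c false Z u) := by
  intro S hS m hm
  have h1 := D.TwC_co hm
  obtain ⟨h2, h3⟩ := (InF_fc hc).1 hS
  rw [h3] at h1
  have h4 : InF (fc Φ c false) (Function.update S c (!true)) :=
    (InF_fc hc).2 ⟨InF_dn h2 hc _, by simp⟩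
  obtain ⟨h5, h6⟩ := hu _ h4 m h1
  have h7 := D.TwC_sep hZ hp hq h4
  have h8 : Function.update (Function.update S c (!true)) c (!(Function.update S c (!true)) c) = S := by
    funext d
    by_cases hd : d = c
    · subst hd
      simp [h3]
    · simp [Function.update_of_ne hd]
  rw [h8] at h7
  have h9 := nb_dn h3
  have h10 : (!true) = false := rfl
  unfold wt at h6 ⊢
  rw [h10] at h5 h6 h7
  refine ⟨by omega, by omega⟩

/-- the inverse direction -/
theorem Gr_tw_false' {Φ : Fc n} {c : Fin n} (hc : Φ c = none) {Z : Set (Arc n)}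
    (hZ : D.Cl (fc Φ c false) Z) (hp : (c, false) ∉ Z) (hq : (c, true) ∈ Z) {u : Ch n} {w h : ℤ}
    (hu : D.Gr (fc Φ c true) w h u) : D.Gr (fc Φ c false) (w + 2) (h - 1) (D.tw c false Z u) := by
  intro S hS m hm
  have h1 := D.TwC_co hm
  obtain ⟨h2, h3⟩ := (InF_fc hc).1 hS
  have h7 := D.TwC_sep hZ hp hq hS
  rw [h3] at h1 h7
  have h4 : InF (fc Φ c true) (Function.update S c (!false)) :=
    (InF_fc hc).2 ⟨InF_dn h2 hc _, by simp⟩
  obtain ⟨h5, h6⟩ := hu _ h4 m h1
  have h9 := nb_up h3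
  have h10 : (!false) = true := rfl
  unfold wt at h6 ⊢
  rw [h10] at h5 h6 h7
  refine ⟨by omega, by omega⟩

/-- `b = true`: from `fc Φ c true` to `fc Φ c false`: `nb` and `circ` decrease by one, `w` is the same -/
theorem Gr_tw_true {Φ : Fc n} {c : Fin n} (hc : Φ c = none) {Z : Set (Arc n)}
    (hZ : D.Cl (fc Φ c true) Z) (hp : (c, false) ∉ Z) (hq : (c, true) ∈ Z) {u : Ch n} {w h : ℤ}
    (hu : D.Gr (fc Φ c true) w h u) : D.Gr (fc Φ c false) w (h - 1) (D.tw c true Z u) := by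
  intro S hS m hm
  have h1 := D.TwC_co hm
  obtain ⟨h2, h3⟩ := (InF_fc hc).1 hS
  rw [h3] at h1
  have h4 : InF (fc Φ c true) (Function.update S c (!false)) :=
    (InF_fc hc).2 ⟨InF_dn h2 hc _, by simp⟩
  obtain ⟨h5, h6⟩ := hu _ h4 m h1
  have h7 := D.TwC_sep hZ hp hq h4
  have h8 : Function.update (Function.update S c (!false)) c (!(Function.update S c (!false)) c) = S := by
    funext d
    by_cases hd : d = c
    · subst hd
      simp [h3]
    · simp [Function.update_of_ne hd]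
  rw [h8] at h7
  have h9 := nb_up h3
  have h10 : (!false) = true := rfl
  unfold wt at h6 ⊢
  rw [h10] at h5 h6 h7
  refine ⟨by omega, by omega⟩

theorem Gr_tw_true' {Φ : Fc n} {c : Fin n} (hc : Φ c = none) {Z : Set (Arc n)}
    (hZ : D.Cl (fc Φ c true) Z) (hp : (c, false) ∉ Z) (hq : (c, true) ∈ Z) {u : Ch n} {w h : ℤ}
    (hu : D.Gr (fc Φ c false) w h u) : D.Gr (fc Φ c true) w (h + 1) (D.tw c true Z u) := by
  intro S hS m hm
  have h1 := D.TwC_co hm
  obtain ⟨h2, h3⟩ := (InF_fc hc).1 hS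
  have h7 := D.TwC_sep hZ hp hq hS
  rw [h3] at h1 h7
  have h4 : InF (fc Φ c false) (Function.update S c (!true)) :=
    (InF_fc hc).2 ⟨InF_dn h2 hc _, by simp⟩
  obtain ⟨h5, h6⟩ := hu _ h4 m h1
  have h9 := nb_dn h3
  have h10 : (!true) = false := rfl
  unfold wt at h6 ⊢
  rw [h10] at h5 h6 h7
  refine ⟨by omega, by omega⟩

end Dgm

end Pool.Agent.Lib.MP_21eb54_gt
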