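import Pool.Agent.Lib.MP_21eb54_gt.TwB
import Pool.Agent.Lib.MP_21eb54_gt.TwC
import Pool.Agent.Lib.MP_21eb54_gt.GrB
import Pool.Agent.Lib.MP_21eb54_gt.BasB

/-!
# The face where the `0`-smoothing disconnects

`JA S = D.J 0 S ⊔ span {X e0}`. `p = (c, false)`, `q = (c, true)`. All states of `fc Φ c false` have `p, q`
in different circles (`Cl_same`), so `th S c = 1` there, and `D.J 0 (S + c) = D.J 0 S ⊔ span {X p - X q}`.
-/

set_option autoImplicit false

namespace Pool.Agent.Lib.MP_21eb54_gt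

open Equiv MvPolynomial

variable {n : ℕ}

namespace Dgm

variable (D : Dgm n)

/-- the two entries are in different circles -/
theorem TrD_ns {Φ : Fc n} {c : Fin n} {Z : Set (Arc n)}
    (hZ : D.Cl (fc Φ c false) Z) (hp : (c, false) ∉ Z) (hq : (c, true) ∈ Z) {S : St n}
    (hS : InF (fc Φ c false) S) : ¬ (D.sp S).SameCycle (c, false) (c, true) := fun h =>
  hp ((D.Cl_same hZ hS h).2 hq)

theorem TrD_th {Φ : Fc n} {c : Fin n} {Z : Set (Arc n)}
    (hZ : D.Cl (fc Φ c false) Z) (hp : (c, false) ∉ Z) (hq : (c, true) ∈ Z) {S : St n}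
    (hS : InF (fc Φ c false) S) : D.th S c = 1 := by
  unfold th
  rw [if_neg (D.TrD_ns hZ hp hq hS)]

theorem TrD_up {S : St n} {c : Fin n} (hc : S c = true) :
    Function.update (Function.update S c false) c true = S := by
  rw [Function.update_idem, ← hc, Function.update_eq_self]

theorem TrD_dn {S : St n} {c : Fin n} (hc : S c = false) :
    Function.update (Function.update S c true) c false = S := by
  rw [Function.update_idem, ← hc, Function.update_eq_self]

/-- the ideal of the merged state -/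
theorem TrD_J {Φ : Fc n} {c : Fin n} {Z : Set (Arc n)}
    (hZ : D.Cl (fc Φ c false) Z) (hp : (c, false) ∉ Z) (hq : (c, true) ∈ Z) {S : St n}
    (hS : InF (fc Φ c false) S) (hSc : S c = false) :
    D.J 0 (Function.update S c true) = D.J 0 S ⊔ Ideal.span {X (c, false) - X (c, true)} := by
  have h := D.J_merge (t := 0) (D.TrD_ns hZ hp hq hS)
  rwa [hSc, Bool.not_false] at h

/-- multiplication by a square root of one -/
theorem TrD_unit {I : Ideal (MvPolynomial (Arc n) ℚ)} {a : ℚ} (ha : a * a = 1)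
    {f : MvPolynomial (Arc n) ℚ} (h : C a * f ∈ I) : f ∈ I := by
  have h1 := I.mul_mem_left (C a) h
  rwa [← mul_assoc, ← C_mul, ha, C_1, one_mul] at h1

/-- the differential of the other face of a chain which is zero on it -/
theorem TrD_zero {Φ : Fc n} {G : Ch n} (h : ∀ S, InF Φ S → G S = 0) {S : St n} (hS : InF Φ S) :
    D.dfF Φ G S = 0 := by
  rw [D.dfF_congr (G := fun _ => 0) h hS]
  unfold dfF
  simp

theorem TrD_G1 {Φ : Fc n} {c : Fin n} (hc : Φ c = none) {Z : Set (Arc n)}
    (hZ : D.Cl (fc Φ c false) Z) (hp : (c, false) ∉ Z) (hq : (c, true) ∈ Z) {w h : ℤ} {F : Ch n}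
    (hF : D.Gr Φ w h F) :
    D.Gr Φ (w + 2) (h - 1)
      (fun S => if S c = false then C (sgn S c) * F (Function.update S c true) else 0) := by
  intro S hS m hm
  dsimp only at hm
  by_cases hSc : S c = false
  · rw [if_pos hSc, coeff_C_mul] at hm
    have hS' : InF (fc Φ c false) S := (InF_fc hc).2 ⟨hS, hSc⟩
    obtain ⟨h1, h2⟩ := hF _ (InF_dn hS hc true) m (right_ne_zero_of_mul hm)
    have h3 := nb_up hSc
    have h4 := D.circ_flip_merge (D.TrD_ns hZ hp hq hS')
    rw [hSc, Bool.not_false] at h4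
    unfold wt at h2 ⊢
    rw [h3] at h1 h2
    rw [← h4]
    push_cast at h1 h2 ⊢
    constructor
    · linarith
    · linarith
  · rw [if_neg hSc, coeff_zero] at hm
    exact absurd rfl hm

/-- If the `0`-smoothing at `c` disconnects the diagrams of the face and the homology of the other face
vanishes in the next degree, the homology of the face vanishes. -/
theorem ex_dis0 {Φ : Fc n} {c : Fin n} (hc : Φ c = none) {Z : Set (Arc n)}
    (hZ : D.Cl (fc Φ c false) Z) (hp : (c, false) ∉ Z) (hq : (c, true) ∈ Z) (e0 : Arc n) {w h : ℤ}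
    (h1 : D.Ex (fc Φ c true) (Ideal.span {X e0}) w (h + 1)) : D.Ex Φ (Ideal.span {X e0}) w h := by
  intro F hF hd
  set A : Ideal (MvPolynomial (Arc n) ℚ) := Ideal.span {X e0} with hA
  set g : MvPolynomial (Arc n) ℚ := X (c, false) - X (c, true) with hg
  have hgh : g.IsHomogeneous 1 := (isHomogeneous_X _ _).sub (isHomogeneous_X _ _)
  have hAh : Hm A := Hm_span (isHomogeneous_X _ e0)
  -- states of the two faces
  have hfalse : ∀ S, InF (fc Φ c false) S → InF Φ S ∧ S c = false := fun S hS => (InF_fc hc).1 hS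
  have htrue : ∀ S, InF (fc Φ c true) S → InF Φ S ∧ S c = true := fun S hS => (InF_fc hc).1 hS
  have hup : ∀ S, InF (fc Φ c false) S → InF (fc Φ c true) (Function.update S c true) := fun S hS =>
    (InF_fc hc).2 ⟨InF_dn (hfalse S hS).1 hc true, Function.update_self _ _ _⟩
  have hdn : ∀ S, InF (fc Φ c true) S → InF (fc Φ c false) (Function.update S c false) := fun S hS =>
    (InF_fc hc).2 ⟨InF_dn (htrue S hS).1 hc false, Function.update_self _ _ _⟩
  -- step 1
  set G1 : Ch n := fun S => if S c = false then C (sgn S c) * F (Function.update S c true) else 0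
    with hG1
  have hG1d : D.Gr Φ (w + 2) (h - 1) G1 := D.TrD_G1 hc hZ hp hq hF
  have hG1z : ∀ S, InF (fc Φ c true) S → G1 S = 0 := by
    intro S hS
    rw [hG1]
    simp only [(htrue S hS).2]
    rfl
  set F' : Ch n := F - D.dfF Φ G1 with hF'
  have hdG1 : D.Gr Φ w h (D.dfF Φ G1) := by
    have h2 := D.dfF_Gr hG1d
    rwa [add_sub_cancel_right, sub_add_cancel] at h2
  have hF'd : D.Gr Φ w h F' := D.Gr_sub hF hdG1
  have hF'0 : ∀ S, InF (fc Φ c true) S → F' S = 0 := by
    intro S hS
    rw [hF', Pi.sub_apply, D.dfF_true hc G1 (htrue S hS).2, D.TrD_zero hG1z hS, zero_add,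
      D.TrD_th hZ hp hq (hdn S hS), one_mul]
    have h2 : G1 (Function.update S c false) = C (sgn S c) * F S := by
      rw [hG1]
      simp only [Function.update_self, if_true, sgn_up, TrD_up (htrue S hS).2]
    rw [h2, ← mul_assoc, ← C_mul, sgn_sq, C_1, one_mul, sub_self]
  have hF'c : ∀ S, InF Φ S → D.dfF Φ F' S ∈ D.J 0 S ⊔ A := by
    intro S hS
    rw [hF', dfF_sub, Pi.sub_apply]
    exact Ideal.sub_mem _ (hd S hS) (Ideal.mem_sup_left (D.dfF_dfF Φ G1 S))
  -- step 2
  have hF'm : ∀ S, InF (fc Φ c false) S → F' S ∈ D.J 0 S ⊔ A ⊔ Ideal.span {g} := by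
    intro S hS
    have h2 := hF'c _ (htrue _ (hup S hS)).1
    rw [D.dfF_true hc F' (Function.update_self _ _ _), D.TrD_zero hF'0 (hup S hS), zero_add,
      TrD_dn (hfalse S hS).2, D.TrD_th hZ hp hq hS, one_mul, sgn_up] at h2
    have h3 := TrD_unit (sgn_sq S c) h2
    rw [D.TrD_J hZ hp hq hS (hfalse S hS).2] at h3
    rwa [sup_right_comm] at h3
  obtain ⟨u, hud, hu⟩ := D.Gr_choose hAh hgh (D.Gr_fc hc false hF'd) hF'm
  -- step 3
  have h3 : ∀ S, InF (fc Φ c false) S →
      D.dfF (fc Φ c false) u S ∈ D.J 0 S ⊔ A ⊔ Ideal.span {X (c, false) + X (c, true)} := by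
    intro S hS
    have h2 := hF'c S (hfalse S hS).1
    rw [D.dfF_false hc F' (hfalse S hS).2] at h2
    have h4 : D.dfF (fc Φ c false) (F' - fun S => g * u S) S ∈ D.J 0 S ⊔ A :=
      D.dfF_mem (fun S hS => hu S hS) hS
    rw [dfF_sub, dfF_mul, Pi.sub_apply] at h4
    have h5 : g * D.dfF (fc Φ c false) u S ∈ D.J 0 S ⊔ A := by
      have h6 := Ideal.sub_mem _ h2 h4
      rwa [sub_sub_cancel] at h6
    exact ex_minus (D.TrD_ns hZ hp hq hS) h5
  -- step 4
  set U : Ch n := D.tw c false Z u with hU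
  have hUd : D.Gr (fc Φ c true) w (h + 1) U := by
    have h2 := D.Gr_tw_false hc hZ hp hq hud
    rwa [add_sub_cancel_right] at h2
  have halJ : ∀ T, InF (fc Φ c true) T → ∀ f : MvPolynomial (Arc n) ℚ,
      (al Z f ∈ D.J 0 T ⊔ A ↔
        f ∈ D.J 0 (Function.update T c false) ⊔ A ⊔ Ideal.span {X (c, false) + X (c, true)}) := by
    intro T hT f
    have h2 := D.al_J' (hZ _ (hdn T hT)) e0 hp hq (f := f)
    rwa [Function.update_self, Bool.not_false, TrD_up (htrue T hT).2] at h2
  have htwT : ∀ (x : Ch n) T, InF (fc Φ c true) T → D.tw c false Z x T =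
      C (zt c T * D.lam Z (Function.update T c false)) * al Z (x (Function.update T c false)) := by
    intro x T hT
    unfold tw
    rw [(htrue T hT).2, Bool.not_true]
  have hUc : ∀ T, InF (fc Φ c true) T → D.dfF (fc Φ c true) U T ∈ D.J 0 T ⊔ A := by
    intro T hT
    rw [hU, D.dfF_tw hc hZ hp hq u true hT, Bool.not_true, htwT _ T hT]
    exact Ideal.mul_mem_left _ _ ((halJ T hT _).2 (h3 _ (hdn T hT)))
  -- step 5
  obtain ⟨V, hVd, hV⟩ := h1 U hUd hUc
  rw [add_sub_cancel_right] at hVd
  -- step 6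
  set v : Ch n := D.tw c false Z V with hv
  have hvd : D.Gr (fc Φ c false) (w + 2 + 2) (h - 1) v := D.Gr_tw_false' hc hZ hp hq hVd
  have h6 : ∀ S, InF (fc Φ c false) S → u S - D.dfF (fc Φ c false) v S ∈
      D.J 0 S ⊔ A ⊔ Ideal.span {X (c, false) + X (c, true)} := by
    intro S hS
    have hT := hup S hS
    have h2 := hV _ hT
    have e1 : D.dfF (fc Φ c true) V (Function.update S c true) =
        D.tw c false Z (D.dfF (fc Φ c false) v) (Function.update S c true) := by
      have h4 := D.dfF_tw hc hZ hp hq v true hT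
      rwa [hv, tw_tw, Bool.not_true, ← hv] at h4
    rw [e1, hU, htwT _ _ hT, htwT _ _ hT, ← mul_sub, ← map_sub, TrD_dn (hfalse S hS).2] at h2
    have h5 : al Z (u S - D.dfF (fc Φ c false) v S) ∈ D.J 0 (Function.update S c true) ⊔ A := by
      refine TrD_unit ?_ h2
      calc zt c (Function.update S c true) * D.lam Z S * (zt c (Function.update S c true) * D.lam Z S) =
          (zt c (Function.update S c true) * zt c (Function.update S c true)) *
            (D.lam Z S * D.lam Z S) := by ring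
        _ = 1 := by rw [zt_sq, lam_sq, one_mul]
    have h7 := (halJ _ hT _).1 h5
    rwa [TrD_dn (hfalse S hS).2] at h7
  have h7 : ∀ S, InF (fc Φ c false) S →
      g * u S - D.dfF (fc Φ c false) (fun S => g * v S) S ∈ D.J 0 S ⊔ A := by
    intro S hS
    rw [dfF_mul, ← mul_sub]
    obtain ⟨a, ha, b, hb, hab⟩ := Submodule.mem_sup.1 (h6 S hS)
    obtain ⟨r, hr⟩ := Ideal.mem_span_singleton'.1 hb
    rw [← hab, ← hr, mul_add]
    refine Ideal.add_mem _ (Ideal.mul_mem_left _ _ ha) (Ideal.mem_sup_left ?_)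
    have e1 : g * (r * (X (c, false) + X (c, true))) =
        r * ((X (c, false) ^ 2 - C 0) - (X (c, true) ^ 2 - C 0)) := by
      rw [hg]; ring
    rw [e1]
    exact Ideal.mul_mem_left _ _ (Ideal.sub_mem _ (JJ_sq _) (JJ_sq _))
  -- step 7
  set G2 : Ch n := fun S => if S c = false then g * v S else 0 with hG2
  have hG2d : D.Gr Φ (w + 2) (h - 1) G2 := by
    have h2 := D.Gr_mul hgh hvd
    rw [add_sub_cancel_right] at h2
    exact D.Gr_ext hc h2
  have hG2z : ∀ S, InF (fc Φ c true) S → G2 S = 0 := by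
    intro S hS
    rw [hG2]
    simp only [(htrue S hS).2]
    rfl
  refine ⟨G1 + G2, D.Gr_add hG1d hG2d, fun S hS => ?_⟩
  have e0 : F S - D.dfF Φ (G1 + G2) S = F' S - D.dfF Φ G2 S := by
    rw [hF', dfF_add, Pi.add_apply, Pi.sub_apply]
    ring
  rw [e0]
  by_cases hSc : S c = false
  · have hS' : InF (fc Φ c false) S := (InF_fc hc).2 ⟨hS, hSc⟩
    have e1 : D.dfF Φ G2 S = D.dfF (fc Φ c false) (fun S => g * v S) S := by
      rw [D.dfF_false hc G2 hSc]
      refine D.dfF_congr (fun T hT => ?_) hS'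
      rw [hG2]
      simp only [(hfalse T hT).2, if_true]
    have e2 : F' S - D.dfF Φ G2 S = (F' S - g * u S) +
        (g * u S - D.dfF (fc Φ c false) (fun S => g * v S) S) := by
      rw [e1]; ring
    rw [e2]
    exact Ideal.add_mem _ (hu S hS') (h7 S hS')
  · have hSt : S c = true := by
      cases hb : S c
      · exact absurd hb hSc
      · rfl
    have hS' : InF (fc Φ c true) S := (InF_fc hc).2 ⟨hS, hSt⟩
    rw [hF'0 S hS', zero_sub, D.dfF_true hc G2 hSt, D.TrD_zero hG2z hS', zero_add,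
      D.TrD_th hZ hp hq (hdn S hS'), one_mul]
    have e1 : G2 (Function.update S c false) = g * v (Function.update S c false) := by
      rw [hG2]
      simp only [Function.update_self, if_true]
    rw [e1]
    refine Ideal.neg_mem_iff _ |>.2 (Ideal.mem_sup_left ?_)
    have e2 := D.TrD_J hZ hp hq (hdn S hS') (Function.update_self _ _ _)
    rw [TrD_up hSt] at e2
    rw [e2]
    exact Ideal.mul_mem_left _ _ (Ideal.mul_mem_right _ _
      (Ideal.mem_sup_right (Ideal.mem_span_singleton_self _)))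

end Dgm

end Pool.Agent.Lib.MP_21eb54_gt
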