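import Pool.Agent.Lib.MP_21eb54_gt.TwB
import Pool.Agent.Lib.MP_21eb54_gt.TwC
import Pool.Agent.Lib.MP_21eb54_gt.GrB
import Pool.Agent.Lib.MP_21eb54_gt.BasB
import Pool.Agent.Lib.MP_21eb54_gt.TrC

/-!
# The face where the `1`-smoothing disconnects

`JA S = D.J 0 S ⊔ span {X e0}`. `p = (c, false)`, `q = (c, true)`. All states `S + c` of `fc Φ c true` have
`p, q` in different circles (`Cl_same`), so (`same_flip`) `p, q` are in the same circle of `S`,
`th S c = X p + X q`, and `D.J 0 S = D.J 0 (S + c) ⊔ span {X p - X q}` (`J_merge` for `S + c`).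
-/

set_option autoImplicit false

namespace Pool.Agent.Lib.MP_21eb54_gt

open Equiv MvPolynomial

variable {n : ℕ}

namespace Dgm

variable (D : Dgm n)

/-- The two entries are in different circles. -/
private theorem TrE_ns {Φ : Fc n} {c : Fin n} {Z : Set (Arc n)}
    (hZ : D.Cl (fc Φ c true) Z) (hp : (c, false) ∉ Z) (hq : (c, true) ∈ Z) {S : St n}
    (hS : InF (fc Φ c true) S) : ¬ (D.sp S).SameCycle (c, false) (c, true) := fun h =>
  hp ((D.Cl_same hZ hS h).2 hq)

private theorem TrE_up {S : St n} {c : Fin n} (hc : S c = true) :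
    Function.update (Function.update S c false) c true = S := by
  rw [Function.update_idem, ← hc, Function.update_eq_self]

private theorem TrE_dn {S : St n} {c : Fin n} (hc : S c = false) :
    Function.update (Function.update S c true) c false = S := by
  rw [Function.update_idem, ← hc, Function.update_eq_self]

/-- The two entries are in the same circle of the other state. -/
private theorem TrE_same {Φ : Fc n} {c : Fin n} {Z : Set (Arc n)}
    (hZ : D.Cl (fc Φ c true) Z) (hp : (c, false) ∉ Z) (hq : (c, true) ∈ Z) {T : St n}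
    (hT : InF (fc Φ c true) T) (hTc : T c = true) :
    (D.sp (Function.update T c false)).SameCycle (c, false) (c, true) := by
  have h := (D.same_flip T c).2 (D.TrE_ns hZ hp hq hT)
  rwa [hTc, Bool.not_true] at h

private theorem TrE_th {Φ : Fc n} {c : Fin n} {Z : Set (Arc n)}
    (hZ : D.Cl (fc Φ c true) Z) (hp : (c, false) ∉ Z) (hq : (c, true) ∈ Z) {T : St n}
    (hT : InF (fc Φ c true) T) (hTc : T c = true) :
    D.th (Function.update T c false) c = X (c, false) + X (c, true) := by
  unfold th
  rw [if_pos (D.TrE_same hZ hp hq hT hTc)]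

/-- The ideal of the merged state. -/
private theorem TrE_J {Φ : Fc n} {c : Fin n} {Z : Set (Arc n)}
    (hZ : D.Cl (fc Φ c true) Z) (hp : (c, false) ∉ Z) (hq : (c, true) ∈ Z) {T : St n}
    (hT : InF (fc Φ c true) T) (hTc : T c = true) :
    D.J 0 (Function.update T c false) = D.J 0 T ⊔ Ideal.span {X (c, false) - X (c, true)} := by
  have h := D.J_merge (t := 0) (D.TrE_ns hZ hp hq hT)
  rwa [hTc, Bool.not_true] at h

/-- Multiplication by a square root of one. -/
private theorem TrE_unit {I : Ideal (MvPolynomial (Arc n) ℚ)} {a : ℚ} (ha : a * a = 1)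
    {f : MvPolynomial (Arc n) ℚ} (h : C a * f ∈ I) : f ∈ I := by
  have h1 := I.mul_mem_left (C a) h
  rwa [← mul_assoc, ← C_mul, ha, C_1, one_mul] at h1

/-- The map to the upper state. -/
private theorem TrE_th_mem {A : Ideal (MvPolynomial (Arc n) ℚ)} {S : St n} {c : Fin n}
    (hc : S c = false) {f : MvPolynomial (Arc n) ℚ} (hf : f ∈ D.J 0 S ⊔ A) :
    D.th S c * f ∈ D.J 0 (Function.update S c true) ⊔ A := by
  obtain ⟨a, ha, b, hb, rfl⟩ := Submodule.mem_sup.1 hf
  rw [mul_add]
  exact Ideal.add_mem _ (Ideal.mem_sup_left (D.th_mem hc ha))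
    (Ideal.mem_sup_right (Ideal.mul_mem_left _ _ hb))

/-- The free crossings of a face. -/
private theorem TrE_free {Φ : Fc n} {c c' : Fin n} {b : Bool} :
    fc Φ c b c' = none ↔ c' ≠ c ∧ Φ c' = none := by
  unfold fc
  by_cases h : c' = c
  · subst h
    simp
  · rw [Function.update_of_ne h]
    simp [h]

/-- The signs. -/
private theorem TrE_sgn {S : St n} {c c' : Fin n} (hc : S c = false) (hc' : S c' = true) (hne : c' ≠ c) :
    sgn S c' * sgn (Function.update S c' false) c =
      - (sgn S c * sgn (Function.update S c true) c') := by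
  have h1 := sgn_comm (S := Function.update S c' false) (c := c) (c' := c')
    (by rw [Function.update_of_ne hne.symm]; exact hc) (Function.update_self _ _ _) hne.symm
  rw [sgn_up S c' false, TrE_up hc', Function.update_comm hne, sgn_up _ c' false] at h1
  have h2 := sgn_sq S c'
  have h3 := sgn_sq (Function.update S c true) c'
  calc sgn S c' * sgn (Function.update S c' false) c =
      sgn S c' * (sgn (Function.update S c true) c' * sgn (Function.update S c true) c') *
        sgn (Function.update S c' false) c := by rw [h3, mul_one]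
    _ = sgn S c' * sgn (Function.update S c true) c' *
        (sgn (Function.update S c' false) c * sgn (Function.update S c true) c') := by ring
    _ = - (sgn S c' * sgn S c') * (sgn S c * sgn (Function.update S c true) c') := by
        rw [h1]; ring
    _ = _ := by rw [h2]; ring

/-- The chain which is `v` on one face and comes from `y` on the other one. -/
private noncomputable def TrE_G (c : Fin n) (v y : Ch n) : Ch n := fun S =>
  if S c = true then v S else C (sgn S c) * y (Function.update S c true)

private theorem TrE_G_Gr {Φ : Fc n} {c : Fin n} (hc : Φ c = none) {Z : Set (Arc n)}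
    (hZ : D.Cl (fc Φ c true) Z) (hp : (c, false) ∉ Z) (hq : (c, true) ∈ Z) {w h : ℤ} {v y : Ch n}
    (hv : D.Gr (fc Φ c true) w (h - 1) v) (hy : D.Gr (fc Φ c true) w h y) :
    D.Gr Φ w (h - 1) (TrE_G c v y) := by
  intro S hS m hm
  unfold TrE_G at hm
  by_cases hSc : S c = true
  · rw [if_pos hSc] at hm
    exact hv S ((InF_fc hc).2 ⟨hS, hSc⟩) m hm
  · rw [if_neg hSc, coeff_C_mul] at hm
    have hSf : S c = false := by
      cases hb : S c
      · rfl
      · exact absurd hb hSc
    have hT : InF (fc Φ c true) (Function.update S c true) :=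
      (InF_fc hc).2 ⟨InF_dn hS hc true, Function.update_self _ _ _⟩
    obtain ⟨h1, h2⟩ := hy _ hT m (right_ne_zero_of_mul hm)
    have h3 := nb_up hSf
    have hsame := D.TrE_same hZ hp hq hT (Function.update_self _ _ _)
    rw [TrE_dn hSf] at hsame
    have h4 := D.circ_flip_split hsame
    rw [hSf, Bool.not_false] at h4
    unfold wt at h2 ⊢
    rw [h3] at h1 h2
    rw [h4] at h2
    push_cast at h1 h2 ⊢
    constructor
    · linarith
    · linarith

/-- The differential of this chain on the face of `S c = false`. -/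
private theorem TrE_dfG {Φ : Fc n} {c : Fin n} (hc : Φ c = none) {Z : Set (Arc n)}
    (hZ : D.Cl (fc Φ c true) Z) (hp : (c, false) ∉ Z) (hq : (c, true) ∈ Z) (v y : Ch n) {S : St n}
    (hS : InF (fc Φ c false) S) :
    D.dfF (fc Φ c false) (TrE_G c v y) S =
      - (C (sgn S c) * D.dfF (fc Φ c true) y (Function.update S c true)) := by
  have hSc : S c = false := ((InF_fc hc).1 hS).2
  have hSΦ : InF Φ S := ((InF_fc hc).1 hS).1
  unfold dfF
  rw [Finset.mul_sum, ← Finset.sum_neg_distrib]
  refine Finset.sum_congr rfl fun c' _ => ?_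
  by_cases h1 : fc Φ c false c' = none ∧ S c' = true
  · obtain ⟨hne, hΦ'⟩ := TrE_free.1 h1.1
    have h2 : fc Φ c true c' = none ∧ Function.update S c true c' = true :=
      ⟨TrE_free.2 ⟨hne, hΦ'⟩, by rw [Function.update_of_ne hne]; exact h1.2⟩
    rw [if_pos h1, if_pos h2]
    -- the state `T' = S - c' + c`
    have hcomm : Function.update (Function.update S c true) c' false =
        Function.update (Function.update S c' false) c true := Function.update_comm hne.symm _ _ _
    have hS'c : Function.update S c' false c = false := by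
      rw [Function.update_of_ne hne.symm]
      exact hSc
    have hT' : InF (fc Φ c true) (Function.update (Function.update S c' false) c true) :=
      (InF_fc hc).2 ⟨InF_dn (InF_dn hSΦ hΦ' false) hc true, Function.update_self _ _ _⟩
    have hth : D.th (Function.update S c' false) c' =
        D.th (Function.update (Function.update S c' false) c true) c' := by
      have h3 := D.th_flip (hZ _ hT') hp hq (D.Cl_free (exists_InF _) hZ h2.1)
      rw [Function.update_self, Bool.not_true, TrE_dn hS'c] at h3
      exact h3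
    have hG : TrE_G c v y (Function.update S c' false) =
        C (sgn (Function.update S c' false) c) *
          y (Function.update (Function.update S c' false) c true) := by
      unfold TrE_G
      rw [if_neg (by rw [hS'c]; simp)]
    rw [hG, hcomm, hth]
    have hs : (C (sgn S c') * C (sgn (Function.update S c' false) c) : MvPolynomial (Arc n) ℚ) =
        - (C (sgn S c) * C (sgn (Function.update S c true) c')) := by
      rw [← C_mul, ← C_mul, ← C_neg, TrE_sgn hSc h1.2 hne]
    linear_combination (D.th (Function.update (Function.update S c' false) c true) c' *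
      y (Function.update (Function.update S c' false) c true)) * hs
  · have h2 : ¬ (fc Φ c true c' = none ∧ Function.update S c true c' = true) := by
      rintro ⟨h3, h4⟩
      obtain ⟨hne, hΦ'⟩ := TrE_free.1 h3
      rw [Function.update_of_ne hne] at h4
      exact h1 ⟨TrE_free.2 ⟨hne, hΦ'⟩, h4⟩
    rw [if_neg h1, if_neg h2, mul_zero, neg_zero]

/-- If the `1`-smoothing at `c` disconnects the diagrams of the face and the homology of the other face
vanishes in this degree and the one before, the homology of the face vanishes. -/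
theorem ex_dis1 {Φ : Fc n} {c : Fin n} (hc : Φ c = none) {Z : Set (Arc n)}
    (hZ : D.Cl (fc Φ c true) Z) (hp : (c, false) ∉ Z) (hq : (c, true) ∈ Z) (e0 : Arc n) {w h : ℤ}
    (h0 : D.Ex (fc Φ c false) (Ideal.span {X e0}) w h)
    (h0' : D.Ex (fc Φ c false) (Ideal.span {X e0}) w (h - 1)) : D.Ex Φ (Ideal.span {X e0}) w h := by
  intro F hF hd
  obtain ⟨G, hGd, hF'd, hF'0, hF'c⟩ := D.cone1 hc h0 hF hd
  set A : Ideal (MvPolynomial (Arc n) ℚ) := Ideal.span {X e0} with hA
  set g : MvPolynomial (Arc n) ℚ := X (c, false) + X (c, true) with hg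
  have hgh : g.IsHomogeneous 1 := (isHomogeneous_X _ _).add (isHomogeneous_X _ _)
  have hAh : Hm A := Hm_span (isHomogeneous_X _ e0)
  set F' : Ch n := F - D.dfF Φ G with hF'
  -- states of the two faces
  have hfalse : ∀ S, InF (fc Φ c false) S → InF Φ S ∧ S c = false := fun S hS => (InF_fc hc).1 hS
  have htrue : ∀ S, InF (fc Φ c true) S → InF Φ S ∧ S c = true := fun S hS => (InF_fc hc).1 hS
  have hup : ∀ S, InF (fc Φ c false) S → InF (fc Φ c true) (Function.update S c true) := fun S hS =>
    (InF_fc hc).2 ⟨InF_dn (hfalse S hS).1 hc true, Function.update_self _ _ _⟩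
  have hdn : ∀ S, InF (fc Φ c true) S → InF (fc Φ c false) (Function.update S c false) := fun S hS =>
    (InF_fc hc).2 ⟨InF_dn (htrue S hS).1 hc false, Function.update_self _ _ _⟩
  have hJ : ∀ T, InF (fc Φ c true) T → D.J 0 (Function.update T c false) =
      D.J 0 T ⊔ Ideal.span {X (c, false) - X (c, true)} := fun T hT =>
    D.TrE_J hZ hp hq hT (htrue T hT).2
  -- step 1
  have h1 : ∀ T, InF (fc Φ c true) T → D.dfF (fc Φ c true) F' T ∈ D.J 0 T ⊔ A := by
    intro T hT
    have h2 := hF'c T (htrue T hT).1
    rw [D.dfF_true hc F' (htrue T hT).2] at h2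
    have h3 : D.th (Function.update T c false) c * F' (Function.update T c false) ∈ D.J 0 T ⊔ A := by
      have h4 := D.TrE_th_mem (Function.update_self _ _ _) (hF'0 _ (hdn T hT))
      rwa [TrE_up (htrue T hT).2] at h4
    have h5 := Ideal.sub_mem _ h2 (Ideal.mul_mem_left _ (C (sgn T c)) h3)
    rwa [add_sub_cancel_right] at h5
  -- step 2
  set U : Ch n := D.tw c true Z F' with hU
  have hUd : D.Gr (fc Φ c false) w (h - 1) U := D.Gr_tw_true hc hZ hp hq (D.Gr_fc hc true hF'd)
  have htwS : ∀ (x : Ch n) S, InF (fc Φ c false) S → D.tw c true Z x S =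
      C (zt c S * D.lam Z (Function.update S c true)) * al Z (x (Function.update S c true)) := by
    intro x S hS
    unfold tw
    rw [(hfalse S hS).2, Bool.not_false]
  have hUc : ∀ S, InF (fc Φ c false) S → D.dfF (fc Φ c false) U S ∈ D.J 0 S ⊔ A := by
    intro S hS
    rw [hU, D.dfF_tw hc hZ hp hq F' false hS, Bool.not_false, htwS _ S hS]
    refine Ideal.mul_mem_left _ _ ?_
    have h2 := (D.al_J (hZ _ (hup S hS)) e0).2 (h1 _ (hup S hS))
    have h3 := hJ _ (hup S hS)
    rw [TrE_dn (hfalse S hS).2] at h3
    rw [h3, sup_right_comm]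
    exact Ideal.mem_sup_left h2
  -- step 3
  obtain ⟨V, hVd, hV⟩ := h0' U hUd hUc
  -- step 4
  set v : Ch n := D.tw c true Z V with hv
  have hvd : D.Gr (fc Φ c true) (w + 2) (h - 1) v := by
    have h2 := D.Gr_tw_true' hc hZ hp hq hVd
    rwa [sub_add_cancel] at h2
  have h4 : ∀ T, InF (fc Φ c true) T →
      (F' - D.dfF (fc Φ c true) v) T ∈ D.J 0 T ⊔ A ⊔ Ideal.span {g} := by
    intro T hT
    have hS := hdn T hT
    have h2 := hV _ hS
    have e1 : D.dfF (fc Φ c false) V (Function.update T c false) =
        D.tw c true Z (D.dfF (fc Φ c true) v) (Function.update T c false) := by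
      have h4 := D.dfF_tw hc hZ hp hq v false hS
      rwa [hv, tw_tw, Bool.not_false, ← hv] at h4
    rw [e1, hU, htwS _ _ hS, htwS _ _ hS, ← mul_sub, ← map_sub, TrE_up (htrue T hT).2] at h2
    have h5 : al Z (F' T - D.dfF (fc Φ c true) v T) ∈ D.J 0 (Function.update T c false) ⊔ A := by
      refine TrE_unit ?_ h2
      calc zt c (Function.update T c false) * D.lam Z T *
            (zt c (Function.update T c false) * D.lam Z T) =
          (zt c (Function.update T c false) * zt c (Function.update T c false)) *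
            (D.lam Z T * D.lam Z T) := by ring
        _ = 1 := by rw [zt_sq, lam_sq, one_mul]
    have h6 := D.al_J' (hZ _ hT) e0 hp hq (f := F' T - D.dfF (fc Φ c true) v T)
    rw [(htrue T hT).2, Bool.not_true] at h6
    exact h6.1 h5
  have hxd : D.Gr (fc Φ c true) w h (F' - D.dfF (fc Φ c true) v) := by
    have h2 := D.dfF_Gr hvd
    rw [add_sub_cancel_right, sub_add_cancel] at h2
    exact D.Gr_sub (D.Gr_fc hc true hF'd) h2
  obtain ⟨y, hyd, hy⟩ := D.Gr_choose hAh hgh hxd h4
  -- step 5
  have h5 : ∀ T, InF (fc Φ c true) T →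
      D.dfF (fc Φ c true) y T ∈ D.J 0 (Function.update T c false) ⊔ A := by
    intro T hT
    have h2 : D.dfF (fc Φ c true) ((F' - D.dfF (fc Φ c true) v) - fun S => g * y S) T ∈
        D.J 0 T ⊔ A := D.dfF_mem (fun S hS => hy S hS) hT
    have h3 : D.dfF (fc Φ c true) (F' - D.dfF (fc Φ c true) v) T ∈ D.J 0 T ⊔ A := by
      rw [dfF_sub, Pi.sub_apply]
      exact Ideal.sub_mem _ (h1 T hT) (Ideal.mem_sup_left (D.dfF_dfF _ v T))
    rw [dfF_sub, dfF_mul, Pi.sub_apply] at h2
    have h6 : g * D.dfF (fc Φ c true) y T ∈ D.J 0 T ⊔ A := by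
      have h7 := Ideal.sub_mem _ h3 h2
      rwa [sub_sub_cancel] at h7
    have h8 := ex_plus (D.TrE_ns hZ hp hq hT) h6
    rw [hJ T hT, sup_right_comm]
    exact h8
  refine ⟨G + TrE_G c v y, D.Gr_add hGd (D.TrE_G_Gr hc hZ hp hq hvd hyd), fun S hS => ?_⟩
  have e0 : F S - D.dfF Φ (G + TrE_G c v y) S = F' S - D.dfF Φ (TrE_G c v y) S := by
    rw [hF', dfF_add, Pi.add_apply, Pi.sub_apply]
    ring
  rw [e0]
  by_cases hSc : S c = true
  · have hS' : InF (fc Φ c true) S := (InF_fc hc).2 ⟨hS, hSc⟩
    have e1 : D.dfF (fc Φ c true) (TrE_G c v y) S = D.dfF (fc Φ c true) v S := by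
      refine D.dfF_congr (fun T hT => ?_) hS'
      unfold TrE_G
      rw [if_pos (htrue T hT).2]
    have e2 : TrE_G c v y (Function.update S c false) = C (sgn S c) * y S := by
      unfold TrE_G
      rw [if_neg (by rw [Function.update_self]; simp), sgn_up, TrE_up hSc]
    rw [D.dfF_true hc _ hSc, e1, e2, D.TrE_th hZ hp hq hS' hSc, ← hg]
    have e3 : F' S - (D.dfF (fc Φ c true) v S + C (sgn S c) * (g * (C (sgn S c) * y S))) =
        (F' - D.dfF (fc Φ c true) v) S - g * y S := by
      have h6 : (C (sgn S c) * C (sgn S c) : MvPolynomial (Arc n) ℚ) = 1 := by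
        rw [← C_mul, sgn_sq, C_1]
      rw [Pi.sub_apply]
      linear_combination (-(g * y S)) * h6
    rw [e3]
    exact hy S hS'
  · have hSf : S c = false := by
      cases hb : S c
      · rfl
      · exact absurd hb hSc
    have hS' : InF (fc Φ c false) S := (InF_fc hc).2 ⟨hS, hSf⟩
    rw [D.dfF_false hc _ hSf, D.TrE_dfG hc hZ hp hq v y hS']
    refine Ideal.sub_mem _ (hF'0 S hS') ((Ideal.neg_mem_iff _).2 (Ideal.mul_mem_left _ _ ?_))
    have h6 := h5 _ (hup S hS')
    rwa [TrE_dn hSf] at h6

end Dgm

end Pool.Agent.Lib.MP_21eb54_gt
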