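import Pool.Agent.Lib.MP_21eb54_gt.TrD
import Pool.Agent.Lib.MP_21eb54_gt.TrE

/-!
# The homology lives on the diagonals of the states with one circle
-/

set_option autoImplicit false

namespace Pool.Agent.Lib.MP_21eb54_gt

open Equiv MvPolynomial

variable {n : ℕ}

namespace Dgm

variable (D : Dgm n)

/-- Every arc is in the ideal of a state with one circle. -/
private theorem TrF_X {S : St n} (h1 : D.circ S = 1) (e0 e : Arc n) :
    (X e : MvPolynomial (Arc n) ℚ) ∈ D.J 0 S ⊔ Ideal.span {X e0} := by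
  have h2 : Subsingleton (Quotient (Equiv.Perm.SameCycle.setoid (D.sp S))) :=
    (Nat.card_eq_one_iff_unique.1 h1).1
  have h3 : (D.sp S).SameCycle e e0 := Quotient.exact (h2.elim (Quotient.mk _ e) (Quotient.mk _ e0))
  have h4 : (X e - X e0 : MvPolynomial (Arc n) ℚ) ∈ D.J 0 S := JJ_same h3
  have h5 : (X e : MvPolynomial (Arc n) ℚ) = (X e - X e0) + X e0 := by ring
  rw [h5]
  exact Ideal.add_mem _ (Ideal.mem_sup_left h4)
    (Ideal.mem_sup_right (Ideal.subset_span (Set.mem_singleton _)))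

/-- A polynomial without constant term is in the ideal. -/
private theorem TrF_mem {I : Ideal (MvPolynomial (Arc n) ℚ)} (hI : ∀ e, X e ∈ I)
    {f : MvPolynomial (Arc n) ℚ} (hf : ∀ m, coeff m f ≠ 0 → m ≠ 0) : f ∈ I := by
  rw [f.as_sum]
  refine Ideal.sum_mem _ fun m hm => ?_
  have h1 := hf m (mem_support_iff.1 hm)
  obtain ⟨e, he⟩ := Finsupp.ne_iff.1 h1
  exact Ideal.mem_of_dvd _ (X_dvd_monomial.2 (Or.inr he)) (hI e)

/-- The states of a smaller face. -/
private theorem TrF_InF {Φ : Fc n} {c : Fin n} (hc : Φ c = none) {b : Bool} {S : St n}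
    (hS : InF (fc Φ c b) S) : InF Φ S := by
  intro c' b' h
  have hne : c' ≠ c := by
    rintro rfl
    rw [hc] at h
    exact absurd h (by simp)
  refine hS c' b' ?_
  unfold fc
  rw [Function.update_of_ne hne]
  exact h

/-- The number of the free crossings of a smaller face. -/
private theorem TrF_card {Φ : Fc n} {c : Fin n} (hc : Φ c = none) (b : Bool) {k : ℕ}
    (hk : (Finset.univ.filter fun c => Φ c = none).card = k + 1) :
    (Finset.univ.filter fun c' => fc Φ c b c' = none).card = k := by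
  have h1 : (Finset.univ.filter fun c' => fc Φ c b c' = none) =
      (Finset.univ.filter fun c => Φ c = none).erase c := by
    ext c'
    simp only [Finset.mem_filter, Finset.mem_univ, true_and, Finset.mem_erase]
    unfold fc
    by_cases h : c' = c
    · subst h
      simp
    · rw [Function.update_of_ne h]
      simp [h]
  rw [h1, Finset.card_erase_of_mem (by simp [hc]), hk]
  rfl

/-- The case of a face without free crossings. -/
theorem tree0 (e0 : Arc n) {Φ : Fc n} (hΦ : D.Cn Φ) (hf : ∀ c, Φ c ≠ none) {w : ℤ}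
    (hw : ∀ S, InF Φ S → D.circ S = 1 → w ≠ 1 - nb S) (h : ℤ) :
    D.Ex Φ (Ideal.span {X e0}) w h := by
  intro F hF _
  refine ⟨fun _ => 0, fun S _ m hm => absurd (coeff_zero m) hm, fun S hS => ?_⟩
  have h1 := D.circ_one hΦ hf hS e0
  have h2 : D.dfF Φ (fun _ => 0) S = 0 := by
    unfold dfF
    refine Finset.sum_eq_zero fun c _ => ?_
    rw [mul_zero, mul_zero, ite_self]
  rw [h2, sub_zero]
  refine TrF_mem (D.TrF_X h1 e0) fun m hm h0 => ?_
  obtain ⟨-, h3⟩ := hF S hS m hm
  apply hw S hS h1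
  rw [← h3, h0]
  unfold wt
  rw [h1, map_zero]
  simp

/-- The reduced homology of a connected face lives on the diagonals of its states with one circle. -/
theorem tree (e0 : Arc n) {Φ : Fc n} (hΦ : D.Cn Φ) {w : ℤ}
    (hw : ∀ S, InF Φ S → D.circ S = 1 → w ≠ 1 - nb S) (h : ℤ) :
    D.Ex Φ (Ideal.span {X e0}) w h := by
  obtain ⟨k, hk⟩ : ∃ k, (Finset.univ.filter fun c => Φ c = none).card = k := ⟨_, rfl⟩
  induction k generalizing Φ h with
  | zero =>
    refine D.tree0 e0 hΦ (fun c hc => ?_) hw h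
    rw [Finset.card_eq_zero] at hk
    have h1 : c ∈ Finset.univ.filter fun c => Φ c = none := by simp [hc]
    rw [hk] at h1
    exact absurd h1 (Finset.notMem_empty _)
  | succ k ih =>
    obtain ⟨c, hc'⟩ := Finset.card_pos.1 (by rw [hk]; exact Nat.succ_pos k)
    have hc : Φ c = none := (Finset.mem_filter.1 hc').2
    have hb : ∀ b, D.Cn (fc Φ c b) → ∀ h, D.Ex (fc Φ c b) (Ideal.span {X e0}) w h := fun b hb h =>
      ih hb (fun S hS => hw S (TrF_InF hc hS)) h (TrF_card hc b hk)
    by_cases h0 : D.Cn (fc Φ c false)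
    · by_cases h1 : D.Cn (fc Φ c true)
      · exact D.ex_cone hc (hb false h0 h) (hb true h1 h)
      · obtain ⟨Z, hZ, hp, hq⟩ := D.sep hΦ hc h1
        exact D.ex_dis1 hc hZ hp hq e0 (hb false h0 h) (hb false h0 (h - 1))
    · have h1 : D.Cn (fc Φ c true) := (D.one_conn hΦ hc).resolve_left h0
      obtain ⟨Z, hZ, hp, hq⟩ := D.sep hΦ hc h0
      exact D.ex_dis0 hc hZ hp hq e0 (hb true h1 (h + 1))

end Dgm

end Pool.Agent.Lib.MP_21eb54_gt
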