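import Pool.Agent.Lib.MP_21eb54_gt.FacA

/-!
# The reflection of a closed set of arcs
-/

set_option autoImplicit false

namespace Pool.Agent.Lib.MP_21eb54_gt

open Equiv MvPolynomial

variable {n : ℕ}

theorem TwA_X_in {Z : Set (Arc n)} {e : Arc n} (h : e ∈ Z) : al Z (X e) = -X e := by
  unfold al
  rw [aeval_X, if_pos h]

theorem TwA_X_out {Z : Set (Arc n)} {e : Arc n} (h : e ∉ Z) : al Z (X e) = X e := by
  unfold al
  rw [aeval_X, if_neg h]

theorem al_al (Z : Set (Arc n)) (f : MvPolynomial (Arc n) ℚ) : al Z (al Z f) = f := by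
  have h1 : (al Z).comp (al Z) = AlgHom.id ℚ (MvPolynomial (Arc n) ℚ) := by
    apply MvPolynomial.algHom_ext
    intro e
    rw [AlgHom.comp_apply]
    by_cases h : e ∈ Z
    · rw [TwA_X_in h, map_neg, TwA_X_in h, neg_neg]
      rfl
    · rw [TwA_X_out h, TwA_X_out h]
      rfl
  exact DFunLike.congr_fun h1 f

open Classical in
/-- the sign of a monomial -/
noncomputable def TwA_ep (Z : Set (Arc n)) (m : Arc n →₀ ℕ) : ℚ :=
  ∏ i ∈ m.support, (if i ∈ Z then (-1 : ℚ) else 1) ^ m i

theorem TwA_ep_ne (Z : Set (Arc n)) (m : Arc n →₀ ℕ) : TwA_ep Z m ≠ 0 := by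
  classical
  unfold TwA_ep
  rw [Finset.prod_ne_zero_iff]
  intro i _
  apply pow_ne_zero
  by_cases h : i ∈ Z
  · rw [if_pos h]; norm_num
  · rw [if_neg h]; norm_num

theorem TwA_mon (Z : Set (Arc n)) (m : Arc n →₀ ℕ) (a : ℚ) :
    al Z (monomial m a) = monomial m (a * TwA_ep Z m) := by
  classical
  unfold al
  rw [aeval_monomial, monomial_eq (s := m), C_mul, MvPolynomial.algebraMap_eq, mul_assoc]
  congr 1
  unfold TwA_ep Finsupp.prod
  rw [map_prod, ← Finset.prod_mul_distrib]
  refine Finset.prod_congr rfl (fun i _ => ?_)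
  beta_reduce
  rw [map_pow, ← mul_pow]
  congr 1
  by_cases h : i ∈ Z
  · rw [if_pos h, if_pos h]; simp
  · rw [if_neg h, if_neg h]; simp

theorem TwA_coeff (Z : Set (Arc n)) (f : MvPolynomial (Arc n) ℚ) (m : Arc n →₀ ℕ) :
    coeff m (al Z f) = coeff m f * TwA_ep Z m := by
  classical
  induction f using MvPolynomial.induction_on' with
  | monomial u a =>
    rw [TwA_mon, coeff_monomial, coeff_monomial]
    by_cases h : u = m
    · rw [if_pos h, if_pos h, h]
    · rw [if_neg h, if_neg h, zero_mul]
  | add p q hp hq =>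
    rw [map_add, coeff_add, coeff_add, hp, hq, add_mul]

/-- the monomials only change their signs -/
theorem al_coeff (Z : Set (Arc n)) (f : MvPolynomial (Arc n) ℚ) (m : Arc n →₀ ℕ) :
    coeff m (al Z f) = 0 ↔ coeff m f = 0 := by
  rw [TwA_coeff, mul_eq_zero]
  constructor
  · rintro (h | h)
    · exact h
    · exact absurd h (TwA_ep_ne Z m)
  · intro h
    exact Or.inl h

namespace Dgm

variable (D : Dgm n)

theorem TwA_J {Z : Set (Arc n)} {S : St n} (hZ : ∀ e, (D.sp S e ∈ Z ↔ e ∈ Z)) :
    D.J 0 S ≤ Ideal.comap (al Z) (D.J 0 S) := by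
  rw [D.J_eq]
  apply JJ_le
  · intro e
    rw [Ideal.mem_comap]
    by_cases h : e ∈ Z
    · have h1 : al Z (X e ^ 2 - C (0 : ℚ)) = X e ^ 2 - C (0 : ℚ) := by
        rw [map_sub, map_pow, TwA_X_in h, neg_sq, C_0, map_zero]
      rw [h1]
      exact JJ_sq e
    · have h1 : al Z (X e ^ 2 - C (0 : ℚ)) = X e ^ 2 - C (0 : ℚ) := by
        rw [map_sub, map_pow, TwA_X_out h, C_0, map_zero]
      rw [h1]
      exact JJ_sq e
  · intro e
    have h2 : X (D.sp S e) - X e ∈ JJ 0 (D.sp S) :=
      JJ_same (Equiv.Perm.sameCycle_apply_left.2 (Equiv.Perm.SameCycle.refl _ _))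
    rw [Ideal.mem_comap]
    by_cases h : e ∈ Z
    · rw [map_sub, TwA_X_in h, TwA_X_in ((hZ e).2 h)]
      have h3 := (Ideal.neg_mem_iff _).2 h2
      rw [neg_sub] at h3
      rw [neg_sub_neg]
      exact h3
    · rw [map_sub, TwA_X_out h, TwA_X_out (fun h4 => h ((hZ e).1 h4))]
      exact h2

theorem TwA_span (Z : Set (Arc n)) (e0 : Arc n) :
    Ideal.span {X e0} ≤ Ideal.comap (al Z) (Ideal.span {X e0}) := by
  rw [Ideal.span_le, Set.singleton_subset_iff]
  show al Z (X e0) ∈ Ideal.span {X e0}
  by_cases h : e0 ∈ Z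
  · rw [TwA_X_in h]
    exact (Ideal.neg_mem_iff _).2 (Ideal.mem_span_singleton_self _)
  · rw [TwA_X_out h]
    exact Ideal.mem_span_singleton_self _

/-- The generators of `D.J 0 S` are mapped to the generators, up to signs (`Z` is closed under
`D.sp S`); `al_al` for the other direction. -/
theorem al_J {Z : Set (Arc n)} {S : St n} (hZ : ∀ e, (D.sp S e ∈ Z ↔ e ∈ Z)) (e0 : Arc n)
    {f : MvPolynomial (Arc n) ℚ} :
    al Z f ∈ D.J 0 S ⊔ Ideal.span {X e0} ↔ f ∈ D.J 0 S ⊔ Ideal.span {X e0} := by
  have h1 : D.J 0 S ⊔ Ideal.span {X e0} ≤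
      Ideal.comap (al Z) (D.J 0 S ⊔ Ideal.span {X e0}) :=
    sup_le ((D.TwA_J hZ).trans (Ideal.comap_mono le_sup_left))
      ((TwA_span Z e0).trans (Ideal.comap_mono le_sup_right))
  constructor
  · intro h
    have h2 := h1 h
    rw [Ideal.mem_comap, al_al] at h2
    exact h2
  · intro h
    exact h1 h

/-- `J_merge` (`(c, false)`, `(c, true)` are not in the same circle of `S`), and `al Z` maps
`X p - X q` to `X p + X q`. -/
theorem al_J' {Z : Set (Arc n)} {S : St n} (hZ : ∀ e, (D.sp S e ∈ Z ↔ e ∈ Z)) (e0 : Arc n) {c : Fin n}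
    (hp : (c, false) ∉ Z) (hq : (c, true) ∈ Z) {f : MvPolynomial (Arc n) ℚ} :
    al Z f ∈ D.J 0 (Function.update S c (!S c)) ⊔ Ideal.span {X e0} ↔
      f ∈ D.J 0 S ⊔ Ideal.span {X e0} ⊔ Ideal.span {X (c, false) + X (c, true)} := by
  have hns : ¬ (D.sp S).SameCycle (c, false) (c, true) := by
    intro h
    exact hp ((closed_sc hZ h).2 hq)
  rw [D.J_merge hns]
  have e1 : al Z (X (c, false) - X (c, true)) = X (c, false) + X (c, true) := by
    rw [map_sub, TwA_X_out hp, TwA_X_in hq, sub_neg_eq_add]
  have e2 : al Z (X (c, false) + X (c, true)) = X (c, false) - X (c, true) := by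
    rw [map_add, TwA_X_out hp, TwA_X_in hq, ← sub_eq_add_neg]
  have h1 : D.J 0 S ⊔ Ideal.span {X (c, false) - X (c, true)} ⊔ Ideal.span {X e0} ≤
      Ideal.comap (al Z)
        (D.J 0 S ⊔ Ideal.span {X e0} ⊔ Ideal.span {X (c, false) + X (c, true)}) := by
    refine sup_le (sup_le ?_ ?_) ?_
    · exact (D.TwA_J hZ).trans (Ideal.comap_mono (le_sup_left.trans le_sup_left))
    · rw [Ideal.span_le, Set.singleton_subset_iff]
      show al Z (X (c, false) - X (c, true)) ∈
        D.J 0 S ⊔ Ideal.span {X e0} ⊔ Ideal.span {X (c, false) + X (c, true)}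
      rw [e1]
      exact Ideal.mem_sup_right (Ideal.mem_span_singleton_self _)
    · exact (TwA_span Z e0).trans (Ideal.comap_mono (le_sup_right.trans le_sup_left))
  have h2 : D.J 0 S ⊔ Ideal.span {X e0} ⊔ Ideal.span {X (c, false) + X (c, true)} ≤
      Ideal.comap (al Z)
        (D.J 0 S ⊔ Ideal.span {X (c, false) - X (c, true)} ⊔ Ideal.span {X e0}) := by
    refine sup_le (sup_le ?_ ?_) ?_
    · exact (D.TwA_J hZ).trans (Ideal.comap_mono (le_sup_left.trans le_sup_left))
    · exact (TwA_span Z e0).trans (Ideal.comap_mono le_sup_right)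
    · rw [Ideal.span_le, Set.singleton_subset_iff]
      show al Z (X (c, false) + X (c, true)) ∈
        D.J 0 S ⊔ Ideal.span {X (c, false) - X (c, true)} ⊔ Ideal.span {X e0}
      rw [e2]
      exact Ideal.mem_sup_left (Ideal.mem_sup_right (Ideal.mem_span_singleton_self _))
  constructor
  · intro h
    have h3 := h1 h
    rw [Ideal.mem_comap, al_al] at h3
    exact h3
  · intro h
    exact h2 h

theorem lam_sq (Z : Set (Arc n)) (S : St n) : D.lam Z S * D.lam Z S = 1 := by
  unfold lam
  rw [← pow_add, ← two_mul, pow_mul]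
  simp

/-- `S' c' = false`, `Z` closed under `D.sp S'`, `p', q'` both in `Z` or both not in `Z`. In the second
case `lam` is the same for `S'` and `S' + c'` (`cyZ_out`) and `al Z` fixes `th S' c'`. In the first case
the sum in the exponent increases by `2` if the circle is split (`cyZ_split`) and by `0` if circles are
merged (`cyZ_merge`); `th S' c'` is mapped to its negative, or to itself. -/
theorem lam_th {Z : Set (Arc n)} {S : St n} {c' : Fin n} (hc' : S c' = false)
    (hZ : ∀ e, (D.sp S e ∈ Z ↔ e ∈ Z)) (hcZ : ((c', false) ∈ Z ↔ (c', true) ∈ Z)) :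
    C (D.lam Z (Function.update S c' true)) * al Z (D.th S c') = C (D.lam Z S) * D.th S c' := by
  classical
  have hsp := D.sp_up hc'
  have hpq : ((c', false) : Arc n) ≠ (c', true) := by simp
  by_cases hin : (c', false) ∈ Z
  · have hin2 : (c', true) ∈ Z := hcZ.1 hin
    have hcard : (Finset.univ.filter fun c => (c, false) ∈ Z ∧ (c, true) ∈ Z ∧
        Function.update S c' true c = true).card =
        (Finset.univ.filter fun c => (c, false) ∈ Z ∧ (c, true) ∈ Z ∧ S c = true).card + 1 := by
      have h1 : (Finset.univ.filter fun c => (c, false) ∈ Z ∧ (c, true) ∈ Z ∧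
          Function.update S c' true c = true) =
          insert c' (Finset.univ.filter fun c => (c, false) ∈ Z ∧ (c, true) ∈ Z ∧ S c = true) := by
        ext c
        rw [Finset.mem_insert, Finset.mem_filter, Finset.mem_filter]
        by_cases h : c = c'
        · subst h
          simp [hin, hin2]
        · rw [Function.update_of_ne h]
          simp [h]
      rw [h1, Finset.card_insert_of_notMem]
      rw [Finset.mem_filter]
      rintro ⟨-, -, -, h2⟩
      rw [hc'] at h2
      exact absurd h2 (by simp)
    unfold th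
    by_cases hs : (D.sp S).SameCycle (c', false) (c', true)
    · have h2 := cyZ_split hZ hin hin2 hpq hs
      rw [← hsp] at h2
      rw [if_pos hs, map_add, TwA_X_in hin, TwA_X_in hin2]
      have h3 : D.lam Z (Function.update S c' true) = -D.lam Z S := by
        unfold lam
        have h4 := hcard
        have h5 : (cyZ Z (D.sp (Function.update S c' true)) +
            (Finset.univ.filter fun c => (c, false) ∈ Z ∧ (c, true) ∈ Z ∧
              Function.update S c' true c = true).card) / 2 =
            (cyZ Z (D.sp S) + (Finset.univ.filter fun c => (c, false) ∈ Z ∧ (c, true) ∈ Z ∧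
              S c = true).card) / 2 + 1 := by
          rw [h2, h4]
          omega
        rw [h5, pow_succ]
        ring
      rw [h3, C_neg]
      ring
    · have h2 := cyZ_merge hZ hin hin2 hs
      rw [← hsp] at h2
      rw [if_neg hs, map_one]
      have h3 : D.lam Z (Function.update S c' true) = D.lam Z S := by
        unfold lam
        have h5 : (cyZ Z (D.sp (Function.update S c' true)) +
            (Finset.univ.filter fun c => (c, false) ∈ Z ∧ (c, true) ∈ Z ∧
              Function.update S c' true c = true).card) / 2 =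
            (cyZ Z (D.sp S) + (Finset.univ.filter fun c => (c, false) ∈ Z ∧ (c, true) ∈ Z ∧
              S c = true).card) / 2 := by
          rw [← h2, hcard]
          congr 1
          omega
        rw [h5]
      rw [h3]
  · have hin2 : (c', true) ∉ Z := fun h => hin (hcZ.2 h)
    have h2 := cyZ_out hZ hin hin2
    rw [← hsp] at h2
    have h1 : (Finset.univ.filter fun c => (c, false) ∈ Z ∧ (c, true) ∈ Z ∧
        Function.update S c' true c = true) =
        (Finset.univ.filter fun c => (c, false) ∈ Z ∧ (c, true) ∈ Z ∧ S c = true) := by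
      ext c
      rw [Finset.mem_filter, Finset.mem_filter]
      by_cases h : c = c'
      · subst h
        simp [hin]
      · rw [Function.update_of_ne h]
    have h3 : D.lam Z (Function.update S c' true) = D.lam Z S := by
      unfold lam
      rw [h2, h1]
    rw [h3]
    congr 1
    unfold th
    by_cases hs : (D.sp S).SameCycle (c', false) (c', true)
    · rw [if_pos hs, map_add, TwA_X_out hin, TwA_X_out hin2]
    · rw [if_neg hs, map_one]

/-- `p, q` are separated by `Z` in `S`, `p', q'` are not. `p', q'` are in the same circle of `S` iff they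
are in the same circle of the state where `c` is flipped: by `sc_iff` the circles of the latter are
those of `S` with the circles of `p` and `q` merged, the first is outside of `Z` and the second in `Z`. -/
theorem th_flip {Z : Set (Arc n)} {S : St n} {c c' : Fin n}
    (hZ : ∀ e, (D.sp S e ∈ Z ↔ e ∈ Z)) (hp : (c, false) ∉ Z) (hq : (c, true) ∈ Z)
    (hcZ : ((c', false) ∈ Z ↔ (c', true) ∈ Z)) :
    D.th (Function.update S c (!S c)) c' = D.th S c' := by
  have hns : ¬ (D.sp S).SameCycle (c, false) (c, true) := by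
    intro h
    exact hp ((closed_sc hZ h).2 hq)
  have hiff : (D.sp (Function.update S c (!S c))).SameCycle (c', false) (c', true) ↔
      (D.sp S).SameCycle (c', false) (c', true) := by
    rw [D.sp_flip, sc_iff hns]
    constructor
    · rintro (h | ⟨h1, h2⟩)
      · exact h
      · rcases h1 with h1 | h1
        · have h3 : (c', false) ∉ Z := fun h => hp ((closed_sc hZ h1).1 h)
          have h4 : (c', true) ∉ Z := fun h => h3 (hcZ.2 h)
          rcases h2 with h2 | h2
          · exact h1.trans h2.symm
          · exact absurd ((closed_sc hZ h2).2 hq) h4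
        · have h3 : (c', false) ∈ Z := (closed_sc hZ h1).2 hq
          have h4 : (c', true) ∈ Z := hcZ.1 h3
          rcases h2 with h2 | h2
          · exact absurd ((closed_sc hZ h2).1 h4) hp
          · exact h1.trans h2.symm
    · intro h
      exact Or.inl h
  unfold th
  by_cases hs : (D.sp S).SameCycle (c', false) (c', true)
  · rw [if_pos hs, if_pos (hiff.2 hs)]
  · rw [if_neg hs, if_neg (fun h => hs (hiff.1 h))]

end Dgm

end Pool.Agent.Lib.MP_21eb54_gt
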