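import Pool.Agent.Lib.MP_21eb54_gt.TwA

/-!
# The comparison of the faces
-/

set_option autoImplicit false

namespace Pool.Agent.Lib.MP_21eb54_gt

open Equiv MvPolynomial

variable {n : ℕ}

namespace Dgm

variable (D : Dgm n)

theorem TwB_al_C (Z : Set (Arc n)) (r : ℚ) : al Z (C r) = C r := by
  have h : (C r : MvPolynomial (Arc n) ℚ) = algebraMap ℚ _ r := rfl
  rw [h, AlgHom.commutes]

/-- `al_al`, `zt_sq`, `zt_up`, `lam_sq` -/
theorem tw_tw (c : Fin n) (b : Bool) (Z : Set (Arc n)) (u : Ch n) :
    D.tw c b Z (D.tw c b Z u) = u := by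
  funext S
  have e1 : Function.update (Function.update S c (!S c)) c b = Function.update S c b :=
    Function.update_idem _ _ _
  have e2 : (Function.update S c (!S c)) c = !S c := Function.update_self _ _ _
  have e3 : Function.update (Function.update S c (!S c)) c (!!S c) = S := by
    rw [Function.update_idem, Bool.not_not, Function.update_eq_self]
  have e4 : zt c (Function.update S c (!S c)) = zt c S := zt_up S c _
  unfold tw
  rw [e1, e2, e3, e4, map_mul (al Z), TwB_al_C, al_al, ← mul_assoc, ← C_mul]
  have e5 : zt c S * D.lam Z (Function.update S c b) * (zt c S * D.lam Z (Function.update S c b)) =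
      (zt c S * zt c S) * (D.lam Z (Function.update S c b) * D.lam Z (Function.update S c b)) := by
    ring
  rw [e5, zt_sq, lam_sq, mul_one, C_1, one_mul]

/-- Let `S` be in `fc Φ c a`, and `U` the state `S` with the value `b` at `c` (`U` is in `fc Φ c b`, where
`Z` is closed). Termwise: the terms `c'` are those with `Φ c' = none`, `c' ≠ c`, `S c' = true` on both
sides. With `T = S - c'` and `T'` = `T` flipped at `c`, the term on the left is
`sgn S c' * zt c T * lam (T with b at c) * th T c' * al (u T')` and the term on the right is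
`zt c S * lam (S with b at c) * sgn (S flipped at c) c' * al (th T' c') * al (u T')`.
Signs: `sgn_zt`. `th T c' = th T' c'` by `th_flip` (one of `T, T'` has the value `b` at `c` and is in
`fc Φ c b`; flipping twice is the identity), both are `th V c'` for the state `V` (`T` with `b` at `c`),
and `lam_th` for `V`. `Cl_free` gives `(c', false) ∈ Z ↔ (c', true) ∈ Z`. -/
theorem dfF_tw {Φ : Fc n} {c : Fin n} (hc : Φ c = none) {b : Bool} {Z : Set (Arc n)}
    (hZ : D.Cl (fc Φ c b) Z) (hp : (c, false) ∉ Z) (hq : (c, true) ∈ Z) (u : Ch n) (a : Bool)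
    {S : St n} (hS : InF (fc Φ c a) S) :
    D.dfF (fc Φ c a) (D.tw c b Z u) S = D.tw c b Z (D.dfF (fc Φ c (!a)) u) S := by
  obtain ⟨hS1, hS2⟩ := (InF_fc hc).1 hS
  unfold dfF
  rw [tw, map_sum, Finset.mul_sum]
  refine Finset.sum_congr rfl fun c' _ => ?_
  by_cases hcc : c' = c
  · subst hcc
    have h1 : ∀ x : Bool, ¬ (fc Φ c' x c' = none ∧ S c' = true) := by
      intro x h
      rw [fc, Function.update_self] at h
      exact absurd h.1 (by simp)
    have h2 : ∀ x : Bool, ¬ (fc Φ c' x c' = none ∧ Function.update S c' (!S c') c' = true) := by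
      intro x h
      rw [fc, Function.update_self] at h
      exact absurd h.1 (by simp)
    rw [if_neg (h1 a), if_neg (h2 (!a)), map_zero, mul_zero]
  have e1 : ∀ x : Bool, fc Φ c x c' = Φ c' := fun x => Function.update_of_ne hcc _ _
  have e2 : Function.update S c (!S c) c' = S c' := Function.update_of_ne hcc _ _
  rw [e1, e1, e2]
  by_cases h : Φ c' = none ∧ S c' = true
  swap
  · rw [if_neg h, if_neg h, map_zero, mul_zero]
  rw [if_pos h, if_pos h]
  obtain ⟨hc', hSc'⟩ := h
  -- the states
  obtain ⟨T, hT⟩ : ∃ T, T = Function.update S c' false := ⟨_, rfl⟩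
  obtain ⟨V, hV⟩ : ∃ V, V = Function.update T c b := ⟨_, rfl⟩
  have hTc : T c = S c := by
    rw [hT, Function.update_of_ne (Ne.symm hcc)]
  have hT' : Function.update (Function.update S c (!S c)) c' false =
      Function.update T c (!T c) := by
    rw [hTc, hT, Function.update_comm hcc]
  have hVc : V c = b := by
    rw [hV, Function.update_self]
  have hVc' : V c' = false := by
    rw [hV, Function.update_of_ne hcc, hT, Function.update_self]
  have hVt : Function.update V c' true = Function.update S c b := by
    rw [hV, hT, Function.update_comm hcc, Function.update_idem, Function.update_eq_self_iff,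
      Function.update_of_ne hcc, hSc']
  have hVin : InF (fc Φ c b) V := by
    rw [InF_fc hc]
    refine ⟨?_, hVc⟩
    rw [hV, hT]
    exact InF_dn (InF_dn hS1 hc' false) hc b
  have hZV := hZ V hVin
  have hcZ : ((c', false) ∈ Z ↔ (c', true) ∈ Z) :=
    D.Cl_free ⟨V, hVin⟩ hZ (c := c') (by rw [e1, hc'])
  have hfl := D.th_flip hZV hp hq hcZ
  have hthT : D.th T c' = D.th V c' := by
    by_cases hb : T c = b
    · have e : V = T := by
        rw [hV, ← hb, Function.update_eq_self]
      rw [e]
    · have e : T = Function.update V c (!V c) := by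
        have h1 : (!b) = T c := by
          cases hTb : T c <;> cases hbb : b <;> simp_all
        rw [hVc, hV, Function.update_idem, h1, Function.update_eq_self]
      rw [← hfl, ← e]
  have hthT' : D.th (Function.update T c (!T c)) c' = D.th V c' := by
    by_cases hb : T c = b
    · have e : Function.update T c (!T c) = Function.update V c (!V c) := by
        rw [hVc, hV, Function.update_idem, hb]
      rw [e, hfl]
    · have e : Function.update T c (!T c) = V := by
        have h1 : (!T c) = b := by
          cases hTb : T c <;> cases hbb : b <;> simp_all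
        rw [h1, hV]
      rw [e]
  have hsg := sgn_zt (T := S) (c := c) (c' := c') hSc' (Ne.symm hcc)
  have hlt := D.lam_th hVc' hZV hcZ
  rw [hVt] at hlt
  rw [hT', ← hT, map_mul (al Z), map_mul (al Z), TwB_al_C, hthT, hthT', tw, ← hV]
  rw [← hT] at hsg
  have hsgC := congrArg (C (R := ℚ) (σ := Arc n)) hsg
  rw [C_mul, C_mul] at hsgC
  rw [C_mul, C_mul]
  linear_combination (-(D.th V c' * C (D.lam Z V) * al Z (u (Function.update T c (!T c))))) * hsgC -
    (C (zt c S) * C (sgn (Function.update S c (!S c)) c') *
      al Z (u (Function.update T c (!T c)))) * hlt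

end Dgm

end Pool.Agent.Lib.MP_21eb54_gt
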